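import Pool.Agent.H471R3.GJ.Spec

set_option autoImplicit false

/-!
# Dirichlet series with a functional equation of Hecke type: specifications

`φ y = ∑ b m exp (- 2 π m ^ p y / h)`, `φ (1 / y) = ε y ^ k φ y`, `ε = ± 1`.
-/

namespace Pool.Agent.H471R3.GJ

open Complex Filter Topology Polynomial

/-- The data. -/
structure Hk where
  /-- the function on the positive reals -/
  φ : ℝ → ℝ
  /-- the coefficients -/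
  b : ℕ → ℝ
  /-- the weight -/
  k : ℝ
  /-- the width -/
  h : ℝ
  /-- the exponent (`1` for modular forms, `2` for theta series) -/
  p : ℕ
  /-- exponent of the coefficients -/
  β : ℝ
  /-- constant of the coefficients -/
  B : ℝ
  /-- the sign -/
  ε : ℝ

/-- The hypotheses. -/
structure IsHk (H : Hk) : Prop where
  k_pos : 0 < H.k
  h_pos : 0 < H.h
  p_pos : 1 ≤ H.p
  β_nonneg : 0 ≤ H.β
  B_one : 1 ≤ H.B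
  b_one : H.b 1 = 1
  b_le : ∀ m : ℕ, 1 ≤ m → |H.b m| ≤ H.B * (m : ℝ) ^ H.β
  φ_sum : ∀ y : ℝ, 0 < y →
    HasSum (fun m : ℕ => H.b (m + 1) * Real.exp (-(2 * Real.pi * ((m + 1 : ℕ) : ℝ) ^ H.p * y / H.h))) (H.φ y)
  ε_or : H.ε = 1 ∨ H.ε = -1
  φ_inv : ∀ y : ℝ, 0 < y → H.φ (1 / y) = H.ε * y ^ H.k * H.φ y

/-- The scale. -/
noncomputable def kp (H : Hk) : ℝ := 2 * (H.β + 2 + H.B)

/-- The kernel of `Λ (k / 2 + kp z)`. -/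
noncomputable def Phi0 (H : Hk) (t : ℝ) : ℝ :=
  1 / kp H * H.φ (Real.exp (t / kp H)) * Real.exp (H.k / 2 * t / kp H)

open Classical in
/-- The kernel of `Λ (k / 2 + kp z)` (sign `1`) or of `Λ (k / 2 + kp z) / z` (sign `-1`). -/
noncomputable def PhiH (H : Hk) (t : ℝ) : ℝ :=
  if H.ε = 1 then Phi0 H t else ∫ u in Set.Ioi t, Phi0 H u

/-- `s = k / 2 + kp z`. -/
noncomputable def sH (H : Hk) (z : ℂ) : ℂ := ((H.k / 2 : ℝ) : ℂ) + ((kp H : ℝ) : ℂ) * z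

open Classical in
/-- The data attached to a Hecke series. -/
noncomputable def dat (H : Hk) : Dat where
  XX z := ∫ t : ℝ, ((PhiH H t : ℝ) : ℂ) * cexp (z * t)
  HH z := ((H.h / (2 * Real.pi) : ℝ) : ℂ) ^ (sH H z) * Complex.Gamma (sH H z) /
    (if H.ε = 1 then 1 else z)
  a m := ((H.b m * (m : ℝ) ^ (-(H.p * H.k / 2)) : ℝ) : ℂ)
  Φ := PhiH H
  κ := H.p * kp H
  c := 1 / H.p
  A := H.β
  A0 := H.B
  w := 20 * (H.p * kp H + H.β + 1) + 24 + 2 * H.B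

def SKer (H : Hk) : Prop := ContinuousOn H.φ (Set.Ioi 0) ∧
  (∃ C : ℝ, ∀ y : ℝ, 1 ≤ y → |H.φ y| ≤ C * Real.exp (-(2 * Real.pi * y / H.h))) ∧
  ∃ Y : ℝ, 1 ≤ Y ∧ ∀ y : ℝ, Y ≤ y → 0 < H.φ y

/-- Properties of a kernel, with sign `ε`. -/
def KerProp (Φ : ℝ → ℝ) (ε : ℝ) : Prop := Continuous Φ ∧ (∀ t, Φ (-t) = ε * Φ t) ∧
  (∃ T : ℝ, ∀ t, T ≤ t → 0 < Φ t) ∧
  ∃ C c1 c2 : ℝ, 0 < c1 ∧ 0 < c2 ∧ ∀ t, |Φ t| ≤ C * Real.exp (-c1 * Real.exp (c2 * |t|))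

def SPhi0 (H : Hk) : Prop := KerProp (Phi0 H) H.ε

def SPhi (H : Hk) : Prop := KerProp (PhiH H) 1

/-- Primitives of odd kernels. -/
def SOdd : Prop := ∀ Φ : ℝ → ℝ, KerProp Φ (-1) →
  KerProp (fun t => ∫ u in Set.Ioi t, Φ u) 1 ∧
  ∀ z : ℂ, z * (∫ t : ℝ, (((∫ u in Set.Ioi t, Φ u) : ℝ) : ℂ) * cexp (z * t)) =
    ∫ t : ℝ, ((Φ t : ℝ) : ℂ) * cexp (z * t)

def SMel (H : Hk) : Prop := ∀ z : ℂ, mellin (fun y : ℝ => ((H.φ y : ℝ) : ℂ)) (sH H z) =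
  ∫ t : ℝ, ((Phi0 H t : ℝ) : ℂ) * cexp (z * t)

def SDir (H : Hk) : Prop := ∀ s : ℂ, 0 < s.re → H.β + 1 < H.p * s.re →
  mellin (fun y : ℝ => ((H.φ y : ℝ) : ℂ)) s = ((H.h / (2 * Real.pi) : ℝ) : ℂ) ^ s * Complex.Gamma s *
    ∑' m : ℕ, ((H.b (m + 1) : ℝ) : ℂ) * ((m + 1 : ℕ) : ℂ) ^ (-(H.p : ℂ) * s)

def SLog (H : Hk) : Prop := (∀ z : ℂ, 0 < z.im → DifferentiableAt ℂ (dat H).HH z) ∧
  ∃ K T0 : ℝ, 1 ≤ K ∧ 1 ≤ T0 ∧ ∀ z : ℂ, T0 ≤ z.im → |z.re| ≤ z.im / 2 → (dat H).HH z ≠ 0 ∧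
    ‖logDeriv (dat H).HH z - (((dat H).κ * ((dat H).c * Real.log z.im) : ℝ) : ℂ)‖ ≤ K

/-- `XX` in terms of the Mellin transform and of the Dirichlet series. -/
def SXX (H : Hk) : Prop :=
  (∀ z : ℂ, (if H.ε = 1 then 1 else z) * (dat H).XX z =
    mellin (fun y : ℝ => ((H.φ y : ℝ) : ℂ)) (sH H z)) ∧
  (∀ z : ℂ, 0 < z.im → (dat H).A + 2 ≤ (dat H).κ * z.re →
    (dat H).XX z = (dat H).HH z *
      ∑' m : ℕ, (dat H).a (m + 1) * ((m + 1 : ℕ) : ℂ) ^ (-((dat H).κ : ℂ) * z)) ∧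
  ∀ z : ℂ, (dat H).XX z = 0 → |z.re| ≤ 1 / 2

def SIsL (H : Hk) : Prop := IsL (dat H)

end Pool.Agent.H471R3.GJ
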