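import Pool.Agent.H471R3.GJ.Spec
import Pool.Agent.H24R2.JP.Mom
import Pool.Agent.H24R2.JP.B1

/-!
# Basic facts about `FF` (task B1, after helper455)
-/

set_option autoImplicit false

namespace Pool.Agent.H471R3.GJ

open Complex Filter Topology Polynomial MeasureTheory
open Pool.Agent.H24R2.JP.MomAux (Cl L L_hasDerivAt L_integrable iteratedDeriv_L)
open Pool.Agent.H24R2.JP.B1h (iter_conj hcongr)

namespace B1h

/-- The kernel is rapidly decaying. -/
theorem cl (D : Dat) (h : IsL D) : Cl D.Φ := by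
  refine ⟨h.Φ_cont, fun M => ?_⟩
  obtain ⟨C, c1, c2, hc1, hc2, hC⟩ := h.Φ_dec
  set a : ℝ := c1 * (c2 ^ 3 / 6) with ha
  have hap : 0 < a := by positivity
  set U : ℝ := (1 + |M|) / a + 1 with hU
  have hU1 : 1 ≤ U := by
    have : 0 ≤ (1 + |M|) / a := by positivity
    linarith
  have hCn : 0 ≤ C := by
    have := (abs_nonneg _).trans (hC 0)
    by_contra hn
    push Not at hn
    have h2 := mul_neg_of_neg_of_pos hn (Real.exp_pos (-c1 * Real.exp (c2 * |0|)))
    linarith
  refine ⟨C * Real.exp (U ^ 2 + |M| * U), fun t => ?_⟩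
  set u : ℝ := |t| with hu
  have hu0 : 0 ≤ u := abs_nonneg t
  have key : -c1 * Real.exp (c2 * u) + M * u ≤ (U ^ 2 + |M| * U) + -1 * t ^ 2 := by
    have e1 : (c2 * u) ^ 3 / 6 ≤ Real.exp (c2 * u) := by
      have := Real.pow_div_factorial_le_exp (c2 * u) (by positivity) 3
      norm_num [Nat.factorial] at this
      exact this
    have e2 : a * u ^ 3 ≤ c1 * Real.exp (c2 * u) := by
      calc a * u ^ 3 = c1 * ((c2 * u) ^ 3 / 6) := by rw [ha]; ring
        _ ≤ _ := by gcongr
    have e3 : t ^ 2 = u ^ 2 := by rw [hu, sq_abs]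
    have e4 : M * u ≤ |M| * u := mul_le_mul_of_nonneg_right (le_abs_self M) hu0
    have hM0 : 0 ≤ |M| := abs_nonneg M
    rw [e3]
    rcases le_total u U with hle | hge
    · have f1 : u ^ 2 ≤ U ^ 2 := by gcongr
      have f2 : |M| * u ≤ |M| * U := by gcongr
      have f3 : 0 ≤ a * u ^ 3 := by positivity
      linarith
    · have g0 : 1 ≤ u := hU1.trans hge
      have g1 : (1 + |M|) ≤ a * u := by
        have : (1 + |M|) / a ≤ u := by linarith
        rw [div_le_iff₀ hap] at this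
        linarith
      have g2 : (1 + |M|) * u ^ 2 ≤ a * u ^ 3 := by
        calc (1 + |M|) * u ^ 2 ≤ (a * u) * u ^ 2 := by gcongr
          _ = _ := by ring
      have g3 : |M| * u ≤ |M| * u ^ 2 := by
        have : u ≤ u ^ 2 := by nlinarith
        gcongr
      have g4 : 0 ≤ U ^ 2 + |M| * U := by positivity
      nlinarith
  calc |D.Φ t| * Real.exp (M * |t|)
      ≤ (C * Real.exp (-c1 * Real.exp (c2 * |t|))) * Real.exp (M * |t|) := by
        gcongr
        exact hC t
    _ = C * Real.exp (-c1 * Real.exp (c2 * |t|) + M * |t|) := by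
        rw [Real.exp_add]; ring
    _ ≤ C * Real.exp ((U ^ 2 + |M| * U) + -1 * t ^ 2) := by
        have := Real.exp_le_exp.2 key
        gcongr
    _ = _ := by rw [Real.exp_add]; ring

theorem XX_L (D : Dat) (h : IsL D) : D.XX = L D.Φ := by
  funext z
  exact h.XX_eq z

theorem XX_neg (D : Dat) (h : IsL D) (z : ℂ) : D.XX (-z) = D.XX z := by
  rw [h.XX_eq, h.XX_eq, ← integral_neg_eq_self (fun t : ℝ => ((D.Φ t : ℝ) : ℂ) * cexp (z * t))]
  congr 1
  funext t
  rw [h.Φ_even t]
  congr 2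
  push_cast
  ring

theorem XX_diff (D : Dat) (h : IsL D) : Differentiable ℂ D.XX := by
  rw [XX_L D h]
  exact fun z => (L_hasDerivAt (cl D h) z).differentiableAt

theorem XX_conj (D : Dat) (h : IsL D) (z : ℂ) :
    D.XX ((starRingEnd ℂ) z) = (starRingEnd ℂ) (D.XX z) := by
  rw [h.XX_eq, h.XX_eq, ← integral_conj]
  congr 1
  funext t
  rw [map_mul, Complex.conj_ofReal, ← Complex.exp_conj, map_mul, Complex.conj_ofReal]

theorem odd_zero (D : Dat) (h : IsL D) (k : ℕ) : iteratedDeriv (2 * k + 1) D.XX 0 = 0 := by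
  have h1 := iteratedDeriv_comp_neg (2 * k + 1) D.XX 0
  have e : (fun x => D.XX (-x)) = D.XX := by
    funext x
    exact XX_neg D h x
  rw [e, neg_zero, pow_succ, pow_mul] at h1
  simp at h1
  linear_combination (1 / 2 : ℂ) * h1

theorem even_real (D : Dat) (h : IsL D) (k : ℕ) :
    ((iteratedDeriv (2 * k) D.XX 0).re : ℂ) = iteratedDeriv (2 * k) D.XX 0 := by
  have h1 := iter_conj D.XX (XX_conj D h) (2 * k) 0
  rw [map_zero] at h1
  exact Complex.conj_eq_iff_re.1 h1.symm

theorem hasSum_XX (D : Dat) (hD : IsL D) (z : ℂ) :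
    HasSum (fun k : ℕ => ((gam D k : ℝ) : ℂ) / (k.factorial : ℂ) * (z ^ 2) ^ k) (D.XX z) := by
  have h := hasSum_taylorSeries_of_entire (XX_diff D hD) 0 z
  have hinj : Function.Injective (fun k : ℕ => 2 * k) := fun a b hab => by
    have : 2 * a = 2 * b := hab
    omega
  rw [← hinj.hasSum_iff] at h
  · refine hcongr h fun k => ?_
    show _ = (((2 * k).factorial : ℂ))⁻¹ • (z - 0) ^ (2 * k) • iteratedDeriv (2 * k) D.XX 0
    unfold gam
    have h1 : (k.factorial : ℂ) ≠ 0 := by exact_mod_cast k.factorial_ne_zero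
    have h2 : ((2 * k).factorial : ℂ) ≠ 0 := by exact_mod_cast (2 * k).factorial_ne_zero
    rw [← even_real D hD k]
    push_cast
    rw [smul_eq_mul, smul_eq_mul, sub_zero, pow_mul, Complex.ofReal_re]
    field_simp
  · intro x hx
    have hodd : ∃ k, x = 2 * k + 1 := by
      rcases Nat.even_or_odd' x with ⟨k, hk | hk⟩
      · exact absurd ⟨k, hk.symm⟩ hx
      · exact ⟨k, hk⟩
    obtain ⟨k, rfl⟩ := hodd
    rw [odd_zero D hD, smul_zero, smul_zero]

theorem FF_sq (D : Dat) (h : IsL D) (z : ℂ) : FF D (z ^ 2) = D.XX z := (hasSum_XX D h z).tsum_eq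

theorem hasSum_FF (D : Dat) (h : IsL D) (x : ℂ) :
    HasSum (fun k : ℕ => ((gam D k : ℝ) : ℂ) / (k.factorial : ℂ) * x ^ k) (FF D x) := by
  obtain ⟨z, hz⟩ := IsAlgClosed.exists_pow_nat_eq x (n := 2) (by norm_num)
  rw [← hz, FF_sq D h]
  exact hasSum_XX D h z

theorem FF_conj (D : Dat) (h : IsL D) (x : ℂ) :
    FF D ((starRingEnd ℂ) x) = (starRingEnd ℂ) (FF D x) := by
  have h1 := hasSum_FF D h ((starRingEnd ℂ) x)
  have h2 := Complex.hasSum_conj'.2 (hasSum_FF D h x)
  refine h1.unique (hcongr h2 fun k => ?_)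
  rw [map_mul, map_div₀, map_pow, Complex.conj_ofReal, map_natCast]

/-- the power series -/
noncomputable def ps (D : Dat) : FormalMultilinearSeries ℂ ℂ ℂ :=
  FormalMultilinearSeries.ofScalars ℂ (fun k : ℕ => ((gam D k : ℝ) : ℂ) / (k.factorial : ℂ))

theorem ps_apply (D : Dat) (n : ℕ) (x : ℂ) :
    ps D n (fun _ => x) = ((gam D n : ℝ) : ℂ) / (n.factorial : ℂ) * x ^ n := by
  unfold ps
  rw [FormalMultilinearSeries.ofScalars_apply_eq, smul_eq_mul]

theorem ps_norm (D : Dat) (n : ℕ) : ‖ps D n‖ = ‖((gam D n : ℝ) : ℂ) / (n.factorial : ℂ)‖ := by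
  unfold ps
  exact FormalMultilinearSeries.ofScalars_norm (𝕜 := ℂ) (E := ℂ)
    (fun k : ℕ => ((gam D k : ℝ) : ℂ) / (k.factorial : ℂ)) n

theorem ps_radius (D : Dat) (hD : IsL D) : (ps D).radius = ⊤ := by
  refine FormalMultilinearSeries.radius_eq_top_of_summable_norm _ fun r => ?_
  have h := (hasSum_FF D hD ((r : ℝ) : ℂ)).summable.norm
  refine h.congr fun n => ?_
  rw [ps_norm, norm_mul, norm_pow]
  simp

theorem hfps (D : Dat) (hD : IsL D) : HasFPowerSeriesOnBall (FF D) (ps D) 0 ⊤ := by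
  refine ⟨by rw [ps_radius D hD], by simp, ?_⟩
  intro y _
  rw [zero_add]
  simp only [ps_apply]
  exact hasSum_FF D hD y

end B1h

open B1h in
theorem b1 (D : Dat) (h : IsL D) : SB1 D := by
  refine ⟨?_, FF_sq D h, FF_conj D h, fun n => ?_⟩
  · intro x
    exact (hfps D h).differentiableOn.differentiableAt (by simp)
  · have h := (hfps D h).factorial_smul 1 n
    rw [← iteratedDeriv_eq_iteratedFDeriv, ps_apply, one_pow, mul_one, nsmul_eq_mul] at h
    rw [← h]
    have h1 : (n.factorial : ℂ) ≠ 0 := by exact_mod_cast n.factorial_ne_zero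
    field_simp

end Pool.Agent.H471R3.GJ
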