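import Pool.Agent.H471R3.GJ.Hyp
import Pool.Agent.H24R2.JP.Chain

set_option autoImplicit false

namespace Pool.Agent.H471R3.GJ

open Complex Filter Topology
open Pool.Agent.H24R2.JP (Hyperbolic Par Good App arc SHad SDer SGL SPar SCircle SJensen SNewton SArc
  SChasse SSector SLimit SJen)
open Pool.Agent.H24R2.JP.ChainAux

theorem chain (D : Dat) (h : IsL D) (h1 : SFacts D) (h2 : SWin D) (h3 : SLow D) : SChain D := by
  obtain ⟨n1, hwin⟩ := h2
  obtain ⟨k0, hpos, hpar, hcirc, -, -⟩ := h1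
  have hal : 0 < al D := HypAux.al_pos D h
  set α := al D with hα
  -- the growth comparison
  have hgr : ∃ m0 : ℕ, ∀ m : ℕ, m0 ≤ m →
      Real.exp (49 / 50 * (α * ((m : ℝ) + 1))) + 1 +
        2 * Real.sqrt (Real.exp (49 / 50 * (α * ((m : ℝ) + 1))) + 1 / 2) ≤
        Real.exp (51 / 50 * (α * m)) := by
    obtain ⟨m0, hm0⟩ := exists_nat_ge (50 / α + 25)
    refine ⟨m0, fun m hm => ?_⟩
    have hm' : 50 / α + 25 ≤ (m : ℝ) := hm0.trans (by exact_mod_cast hm)
    have hm'' : 50 + 25 * α ≤ α * m := by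
      have h5 := mul_le_mul_of_nonneg_left hm' hal.le
      have h6 : α * (50 / α + 25) = 50 + 25 * α := by
        field_simp
      linarith
    set E := Real.exp (49 / 50 * (α * ((m : ℝ) + 1))) with hE
    have hE1 : 1 ≤ E := Real.one_le_exp (by positivity)
    have hs : Real.sqrt (E + 1 / 2) ≤ E + 1 / 2 := by
      rw [Real.sqrt_le_left (by linarith)]
      nlinarith
    have hle : E + 1 + 2 * Real.sqrt (E + 1 / 2) ≤ 5 * E := by linarith
    have h6 : (5 : ℝ) ≤ Real.exp 2 := by
      have h7 : (2.7 : ℝ) < Real.exp 1 := by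
        have := Real.exp_one_gt_d9
        linarith
      have h8 : Real.exp 2 = Real.exp 1 * Real.exp 1 := by rw [← Real.exp_add]; norm_num
      rw [h8]; nlinarith
    calc E + 1 + 2 * Real.sqrt (E + 1 / 2) ≤ 5 * E := hle
      _ ≤ Real.exp 2 * E := by
          exact mul_le_mul_of_nonneg_right h6 (by linarith)
      _ = Real.exp (2 + 49 / 50 * (α * ((m : ℝ) + 1))) := by rw [hE, ← Real.exp_add]
      _ ≤ Real.exp (51 / 50 * (α * m)) := Real.exp_le_exp.2 (by linarith)
  obtain ⟨m0, hm0⟩ := hgr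
  set n2 := max (max n1 m0) k0 with hn2
  have hn2a : n1 ≤ n2 := (le_max_left _ _).trans (le_max_left _ _)
  have hn2b : m0 ≤ n2 := (le_max_right _ _).trans (le_max_left _ _)
  have hn2c : k0 ≤ n2 := le_max_right _ _
  set A : ℝ := Real.exp (49 / 50 * (α * (n2 : ℝ))) with hA
  have hA0 : 0 < A := Real.exp_pos _
  -- descendants of the zeros at level n2
  have key : ∀ k : ℕ, ∀ w : ℂ, w.im ≠ 0 → iteratedDeriv (n2 + k) (FF D) w = 0 →
      ‖w‖ ≤ Real.exp (49 / 50 * (α * ((n2 + k : ℕ) : ℝ))) → |w.im| ≤ A ∧ |w.re| ≤ A * (k + 1) := by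
    intro k
    induction k with
    | zero =>
      intro w _ _ hw
      simp only [add_zero] at hw
      rw [← hA] at hw
      refine ⟨(Complex.abs_im_le_norm w).trans hw, ?_⟩
      simpa using (Complex.abs_re_le_norm w).trans hw
    | succ k ih =>
      intro w him hw0 hw
      have hcast : ((n2 + (k + 1) : ℕ) : ℝ) = ((n2 + k : ℕ) : ℝ) + 1 := by push_cast; ring
      rw [hcast] at hw
      obtain ⟨z, hzim, hz0, hzw⟩ := hcirc (n2 + k) (by omega) w him hw0
      have hzPar : z ∈ Par := hpar (n2 + k) (by omega) z hz0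
      have hzn := (parent_norm hzPar hzw hw).trans (hm0 (n2 + k) (by omega))
      have hzlt : ‖z‖ ≤ Real.exp (49 / 50 * (α * ((n2 + k : ℕ) : ℝ))) := by
        by_contra hcon
        push Not at hcon
        exact hwin (n2 + k) (by omega) z hzPar hzim hcon.le hzn hz0
      obtain ⟨i1, i2⟩ := ih z hzim hz0 hzlt
      have j1 : |w.im| ≤ |z.im| := by
        have := Complex.abs_im_le_norm (w - (z.re : ℂ))
        simp only [Complex.sub_im, Complex.ofReal_im, sub_zero] at this
        exact this.trans hzw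
      have j2 : |w.re - z.re| ≤ |z.im| := by
        have := Complex.abs_re_le_norm (w - (z.re : ℂ))
        simp only [Complex.sub_re, Complex.ofReal_re] at this
        exact this.trans hzw
      refine ⟨j1.trans i1, ?_⟩
      have j3 : |w.re| ≤ |z.re| + |w.re - z.re| := by
        have := abs_add_le z.re (w.re - z.re)
        simpa using this
      push_cast
      linarith [mul_add A ((k : ℝ) + 1) 1]
  obtain ⟨N0, hN0⟩ := h3 (3 * A)
  refine ⟨max (max n2 N0) 1, fun n hn w him hw0 => ?_⟩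
  by_contra hcon
  push Not at hcon
  have hn1 : 1 ≤ n := (le_max_right _ _).trans hn
  have hnn2 : n2 ≤ n := ((le_max_left _ _).trans (le_max_left _ _)).trans hn
  have hnN0 : N0 ≤ n := ((le_max_right _ _).trans (le_max_left _ _)).trans hn
  have hwPar : w ∈ Par := hpar n (by omega) w hw0
  have hαn : 0 ≤ α * (n : ℝ) := by positivity
  have hup : ‖w‖ ≤ Real.exp (51 / 50 * (α * (n : ℝ))) :=
    hcon.trans (Real.exp_le_exp.2 (by linarith))
  have hlow : ‖w‖ ≤ Real.exp (49 / 50 * (α * (n : ℝ))) := by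
    by_contra hc
    push Not at hc
    exact hwin n (by omega) w hwPar him hc.le hup hw0
  obtain ⟨k, rfl⟩ := Nat.exists_eq_add_of_le hnn2
  obtain ⟨i1, i2⟩ := key k w him hw0 hlow
  have h9 : ‖w‖ ≤ |w.re| + |w.im| := Complex.norm_le_abs_re_add_abs_im w
  have h10 := hN0 (n2 + k) hnN0 w hw0
  have h11 : (1 : ℝ) ≤ ((n2 + k : ℕ) : ℝ) := by exact_mod_cast hn1
  have h12 : (k : ℝ) ≤ ((n2 + k : ℕ) : ℝ) := by push_cast; linarith [Nat.cast_nonneg (α := ℝ) n2]
  nlinarith

end Pool.Agent.H471R3.GJ
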