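import Pool.Agent.H471R3.GJ.Spec

set_option autoImplicit false

/-!
# The convexity bound (task CONV, helper588)
-/

namespace Pool.Agent.H471R3.GJ

open Complex Filter Topology MeasureTheory

namespace ConvAux

variable {D : Dat}

theorem phi_bd (h : IsL D) (M : ℝ) : ∃ b C : ℝ, 0 < b ∧
    ∀ t, |D.Φ t| * Real.exp (M * |t|) ≤ C * Real.exp (-b * t ^ 2) := by
  obtain ⟨C, c1, c2, hc1, hc2, hC⟩ := h.Φ_dec
  have hC0 : 0 ≤ C := by
    have h1 := (abs_nonneg _).trans (hC 0)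
    by_contra hneg
    push Not at hneg
    have := mul_neg_of_neg_of_pos hneg (Real.exp_pos (-c1 * Real.exp (c2 * |0|)))
    linarith
  set b : ℝ := c1 * c2 ^ 2 / 4 with hb
  have hb0 : 0 < b := by positivity
  refine ⟨b, C * Real.exp (M ^ 2 / (4 * b)), hb0, fun t => ?_⟩
  set x := |t| with hx
  have hx0 : 0 ≤ x := abs_nonneg t
  have hsq : t ^ 2 = x ^ 2 := (sq_abs t).symm
  have hexp : (c2 * x) ^ 2 / 2 ≤ Real.exp (c2 * x) := by
    have := Real.quadratic_le_exp_of_nonneg (mul_nonneg hc2.le hx0)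
    have h2 : 0 ≤ c2 * x := by positivity
    linarith
  have h3 : 2 * b * x ^ 2 ≤ c1 * Real.exp (c2 * x) := by
    have := mul_le_mul_of_nonneg_left hexp hc1.le
    have h4 : c1 * ((c2 * x) ^ 2 / 2) = 2 * b * x ^ 2 := by rw [hb]; ring
    linarith
  have h5 : M * x ≤ b * x ^ 2 + M ^ 2 / (4 * b) := by
    have h6 : 0 ≤ (2 * b * x - M) ^ 2 := sq_nonneg _
    have h7 : M ^ 2 / (4 * b) * (4 * b) = M ^ 2 := by field_simp
    have h8 : 0 < 4 * b := by positivity
    nlinarith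
  calc |D.Φ t| * Real.exp (M * x) ≤ C * Real.exp (-c1 * Real.exp (c2 * x)) * Real.exp (M * x) := by
        gcongr
        exact hC t
    _ = C * Real.exp (-c1 * Real.exp (c2 * x) + M * x) := by rw [Real.exp_add]; ring
    _ ≤ C * Real.exp (M ^ 2 / (4 * b) + -b * t ^ 2) := by
        refine mul_le_mul_of_nonneg_left (Real.exp_le_exp.2 ?_) hC0
        rw [hsq]
        nlinarith
    _ = _ := by rw [Real.exp_add]; ring

/-- `XX` is bounded on vertical strips. -/
theorem XX_bd (h : IsL D) (σ : ℝ) : ∃ B : ℝ, 0 ≤ B ∧ ∀ z : ℂ, |z.re| ≤ σ → ‖D.XX z‖ ≤ B := by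
  obtain ⟨b, C, hb, hC⟩ := phi_bd h σ
  have hint : Integrable (fun t : ℝ => C * Real.exp (-b * t ^ 2)) :=
    (integrable_exp_neg_mul_sq hb).const_mul C
  have key : ∀ z : ℂ, |z.re| ≤ σ → ‖D.XX z‖ ≤ ∫ t : ℝ, C * Real.exp (-b * t ^ 2) := by
    intro z hz
    rw [h.XX_eq z]
    refine norm_integral_le_of_norm_le hint (Eventually.of_forall fun t => ?_)
    rw [norm_mul, Complex.norm_real, Real.norm_eq_abs, Complex.norm_exp]
    refine le_trans ?_ (hC t)
    refine mul_le_mul_of_nonneg_left (Real.exp_le_exp.2 ?_) (abs_nonneg _)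
    simp only [mul_re, ofReal_re, ofReal_im, mul_zero, sub_zero]
    calc z.re * t ≤ |z.re * t| := le_abs_self _
      _ = |z.re| * |t| := abs_mul _ _
      _ ≤ σ * |t| := mul_le_mul_of_nonneg_right hz (abs_nonneg _)
  refine ⟨max 0 (∫ t : ℝ, C * Real.exp (-b * t ^ 2)), le_max_left _ _, fun z hz => ?_⟩
  exact (key z hz).trans (le_max_right _ _)

/-- The Dirichlet series is bounded in the half plane of absolute convergence. -/
theorem ser_bd (h : IsL D) : ∃ S : ℝ, 0 ≤ S ∧ ∀ z : ℂ, D.A + 2 ≤ D.κ * z.re →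
    ‖∑' m : ℕ, D.a (m + 1) * ((m + 1 : ℕ) : ℂ) ^ (-(D.κ : ℂ) * z)‖ ≤ S := by
  have hs : Summable (fun m : ℕ => D.A0 * (1 / ((m + 1 : ℕ) : ℝ) ^ 2)) :=
    ((summable_nat_add_iff 1).2 (Real.summable_one_div_nat_pow.2 one_lt_two)).mul_left _
  have hA0 : 0 ≤ D.A0 := zero_le_one.trans h.A0_one
  refine ⟨∑' m : ℕ, D.A0 * (1 / ((m + 1 : ℕ) : ℝ) ^ 2), tsum_nonneg fun m => by positivity,
    fun z hz => ?_⟩
  refine tsum_of_norm_bounded hs.hasSum fun m => ?_
  have hm : (0 : ℝ) < ((m + 1 : ℕ) : ℝ) := by positivity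
  have hm1 : (1 : ℝ) ≤ ((m + 1 : ℕ) : ℝ) := by
    push_cast
    have : (0 : ℝ) ≤ m := Nat.cast_nonneg m
    linarith
  rw [norm_mul, Complex.norm_natCast_cpow_of_pos (Nat.succ_pos m)]
  have hre : (-(D.κ : ℂ) * z).re = -(D.κ * z.re) := by simp
  rw [hre]
  calc ‖D.a (m + 1)‖ * ((m + 1 : ℕ) : ℝ) ^ (-(D.κ * z.re))
      ≤ (D.A0 * ((m + 1 : ℕ) : ℝ) ^ D.A) * ((m + 1 : ℕ) : ℝ) ^ (-(D.A + 2)) := by
        apply mul_le_mul (h.a_le (m + 1) (by omega)) _ (by positivity) (by positivity)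
        exact Real.rpow_le_rpow_of_exponent_le hm1 (by linarith)
    _ = D.A0 * (((m + 1 : ℕ) : ℝ) ^ D.A * ((m + 1 : ℕ) : ℝ) ^ (-(D.A + 2))) := by ring
    _ = D.A0 * ((m + 1 : ℕ) : ℝ) ^ (-2 : ℝ) := by
        rw [← Real.rpow_add hm]
        congr 2
        ring
    _ = D.A0 * (1 / ((m + 1 : ℕ) : ℝ) ^ 2) := by
        rw [Real.rpow_neg hm.le, one_div]
        norm_cast

/-- Growth along a segment. -/
theorem seg (F : ℂ → ℂ) (p w c : ℂ) (K : ℝ)
    (hd : ∀ s : ℝ, 0 ≤ s → s ≤ 1 → DifferentiableAt ℂ F (p + s * w))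
    (hne : ∀ s : ℝ, 0 ≤ s → s ≤ 1 → F (p + s * w) ≠ 0)
    (hK : ∀ s : ℝ, 0 ≤ s → s ≤ 1 → ‖logDeriv F (p + s * w) - c‖ ≤ K) :
    ‖F (p + w)‖ ≤ ‖F p‖ * Real.exp ((c * w).re + K * ‖w‖) := by
  set g : ℝ → ℂ := fun s => F (p + s * w) * cexp (-(s * (c * w))) with hg
  set g' : ℝ → ℂ := fun s => (logDeriv F (p + s * w) - c) * w * g s with hg'
  have hder : ∀ s : ℝ, 0 ≤ s → s ≤ 1 → HasDerivAt g (g' s) s := by
    intro s hs0 hs1
    have h1 : HasDerivAt (fun s : ℝ => p + s * w) w s := by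
      have := ((Complex.ofRealCLM.hasDerivAt (x := s)).mul_const w).const_add p
      simpa using this
    have h2 : HasDerivAt (fun s : ℝ => F (p + s * w)) (deriv F (p + s * w) * w) s :=
      (hd s hs0 hs1).hasDerivAt.comp_of_eq s h1 rfl
    have h3 : HasDerivAt (fun s : ℝ => cexp (-(s * (c * w))))
        (cexp (-(s * (c * w))) * -(c * w)) s := by
      have h4 : HasDerivAt (fun s : ℝ => -((s : ℂ) * (c * w))) (-(c * w)) s := by
        have := ((Complex.ofRealCLM.hasDerivAt (x := s)).mul_const (c * w)).fun_neg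
        simpa using this
      exact h4.cexp
    have h5 := h2.mul h3
    refine h5.congr_deriv ?_
    have h6 := hne s hs0 hs1
    simp only [hg', hg, logDeriv_apply]
    field_simp
    ring
  have hcont : ContinuousOn g (Set.Icc 0 1) := fun s hs =>
    (hder s hs.1 hs.2).continuousAt.continuousWithinAt
  have hgr := norm_le_gronwallBound_of_norm_deriv_right_le (f := g) (f' := g') (δ := ‖F p‖)
    (K := K * ‖w‖) (ε := 0) (a := 0) (b := 1) hcont
    (fun s hs => (hder s hs.1 hs.2.le).hasDerivWithinAt) (by simp [hg])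
    (fun s hs => by
      simp only [hg', norm_mul, add_zero]
      gcongr
      exact hK s hs.1 hs.2.le) 1 (by simp)
  rw [gronwallBound_ε0] at hgr
  have h7 : g 1 = F (p + w) * cexp (-(c * w)) := by simp [hg]
  rw [h7, norm_mul, Complex.norm_exp, sub_zero, mul_one] at hgr
  have h8 : ‖F (p + w)‖ = ‖F (p + w)‖ * Real.exp (-(c * w)).re * Real.exp ((c * w).re) := by
    rw [mul_assoc, ← Real.exp_add]
    simp
  rw [h8]
  calc ‖F (p + w)‖ * Real.exp (-(c * w)).re * Real.exp ((c * w).re)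
      ≤ ‖F p‖ * Real.exp (K * ‖w‖) * Real.exp ((c * w).re) := by gcongr
    _ = _ := by rw [mul_assoc, ← Real.exp_add, add_comm]

theorem log_bound {t y : ℝ} (ht : 0 < t) (h1 : t / 2 ≤ y) (h2 : y ≤ 3 * t / 2) :
    |Real.log y - Real.log t| ≤ Real.log 2 := by
  have hy : 0 < y := by linarith
  rw [← Real.log_div hy.ne' ht.ne', abs_le]
  constructor
  · rw [← Real.log_inv]
    apply Real.log_le_log (by norm_num)
    rw [le_div_iff₀ ht]
    linarith
  · apply Real.log_le_log (by positivity)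
    rw [div_le_iff₀ ht]
    linarith

/-- Growth of the factor at infinity. -/
theorem HH_grow (h : IsL D) (σ : ℝ) (hσ : 0 ≤ σ) : ∃ K T1 : ℝ, 1 ≤ K ∧ 1 ≤ T1 ∧ ∀ t : ℝ, T1 ≤ t →
    D.HH (I * t) ≠ 0 ∧ ∀ z : ℂ, |z.re| ≤ σ → |z.im - t| ≤ t / 2 →
      ‖D.HH z‖ ≤ ‖D.HH (I * t)‖ * Real.exp (D.κ * Om D t * z.re + K * ‖z - I * t‖) := by
  obtain ⟨K, T0, hK, hT0, H⟩ := h.HH_log
  have hκ := h.κ_pos
  have hc := h.c_pos
  have hl2 : 0 ≤ Real.log 2 := Real.log_nonneg (by norm_num)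
  refine ⟨K + D.κ * D.c * Real.log 2, 2 * T0 + 4 * σ + 1, ?_, by linarith, fun t ht => ?_⟩
  · have : 0 ≤ D.κ * D.c * Real.log 2 := by positivity
    linarith
  have ht0 : 0 < t := by linarith
  have hIt : (I * (t : ℂ)).im = t := by simp
  have hItr : (I * (t : ℂ)).re = 0 := by simp
  refine ⟨(H (I * t) (by rw [hIt]; linarith) (by rw [hItr, hIt, abs_zero]; linarith)).1,
    fun z hz1 hz2 => ?_⟩
  have him : ∀ s : ℝ, (I * (t : ℂ) + s * (z - I * t)).im = t + s * (z.im - t) := by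
    intro s; simp
  have hre : ∀ s : ℝ, (I * (t : ℂ) + s * (z - I * t)).re = s * z.re := by
    intro s; simp
  have hb : ∀ s : ℝ, 0 ≤ s → s ≤ 1 → t / 2 ≤ t + s * (z.im - t) ∧
      t + s * (z.im - t) ≤ 3 * t / 2 ∧ |s * z.re| ≤ σ := by
    intro s hs0 hs1
    have h1 := abs_le.1 hz2
    refine ⟨by nlinarith, by nlinarith, ?_⟩
    rw [abs_mul, abs_of_nonneg hs0]
    calc s * |z.re| ≤ 1 * |z.re| := mul_le_mul_of_nonneg_right hs1 (abs_nonneg _)
      _ ≤ σ := by linarith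
  have hseg := seg D.HH (I * t) (z - I * t) ((D.κ * Om D t : ℝ) : ℂ)
    (K + D.κ * D.c * Real.log 2)
    (fun s hs0 hs1 => h.HH_diff _ (by rw [him]; linarith [(hb s hs0 hs1).1]))
    (fun s hs0 hs1 => (H _ (by rw [him]; linarith [(hb s hs0 hs1).1]) (by
      rw [hre, him]; linarith [(hb s hs0 hs1).1, (hb s hs0 hs1).2.2])).1)
    (fun s hs0 hs1 => by
      have h1 := (H _ (by rw [him]; linarith [(hb s hs0 hs1).1]) (by
        rw [hre, him]; linarith [(hb s hs0 hs1).1, (hb s hs0 hs1).2.2] :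
          |(I * (t : ℂ) + s * (z - I * t)).re| ≤ (I * (t : ℂ) + s * (z - I * t)).im / 2)).2
      rw [him] at h1
      have h2 : ‖((D.κ * (D.c * Real.log (t + s * (z.im - t))) : ℝ) : ℂ) -
          ((D.κ * Om D t : ℝ) : ℂ)‖ ≤ D.κ * D.c * Real.log 2 := by
        rw [← Complex.ofReal_sub, Complex.norm_real, Real.norm_eq_abs]
        unfold Om
        rw [show D.κ * (D.c * Real.log (t + s * (z.im - t))) - D.κ * (D.c * Real.log t) =
          D.κ * D.c * (Real.log (t + s * (z.im - t)) - Real.log t) by ring, abs_mul,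
          abs_of_nonneg (by positivity)]
        exact mul_le_mul_of_nonneg_left (log_bound ht0 (hb s hs0 hs1).1 (hb s hs0 hs1).2.1)
          (by positivity)
      calc ‖logDeriv D.HH (I * t + s * (z - I * t)) - ((D.κ * Om D t : ℝ) : ℂ)‖
          = ‖(logDeriv D.HH (I * t + s * (z - I * t)) -
              ((D.κ * (D.c * Real.log (t + s * (z.im - t))) : ℝ) : ℂ)) +
            (((D.κ * (D.c * Real.log (t + s * (z.im - t))) : ℝ) : ℂ) -
              ((D.κ * Om D t : ℝ) : ℂ))‖ := by congr 1; ring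
        _ ≤ _ := (norm_add_le _ _).trans (add_le_add h1 h2))
  rw [add_sub_cancel] at hseg
  refine hseg.trans_eq ?_
  congr 3
  simp

/-- The factor at infinity is not too small on the imaginary axis. -/
theorem HH_low (h : IsL D) : ∃ C T1 : ℝ, 0 ≤ C ∧ 1 ≤ T1 ∧ ∀ t : ℝ, T1 ≤ t →
    Real.exp (-(t ^ 2 / 4)) ≤ C * ‖D.HH (I * t)‖ := by
  obtain ⟨K, T0, hK, hT0, H⟩ := h.HH_log
  have hκ := h.κ_pos
  have hc := h.c_pos
  have hIt : ∀ x : ℝ, (I * (x : ℂ)).im = x := by intro x; simp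
  have hItr : ∀ x : ℝ, (I * (x : ℂ)).re = 0 := by intro x; simp
  have hT : D.HH (I * T0) ≠ 0 :=
    (H (I * T0) (by rw [hIt]) (by rw [hItr, hIt, abs_zero]; linarith)).1
  have hT' : 0 < ‖D.HH (I * T0)‖ := norm_pos_iff.2 hT
  have hev : ∀ᶠ t : ℝ in atTop, D.κ * (D.c * Real.log t) + K ≤ t / 4 := by
    have h1 := (Real.isLittleO_log_id_atTop.def (c := 1 / (8 * (D.κ * D.c))) (by positivity))
    filter_upwards [h1, eventually_ge_atTop (8 * K), eventually_ge_atTop 1] with t ht1 ht2 ht3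
    have h2 : Real.log t ≤ 1 / (8 * (D.κ * D.c)) * t := by
      refine (le_abs_self _).trans ?_
      simpa [abs_of_pos (by linarith : (0:ℝ) < t)] using ht1
    have h3 : D.κ * (D.c * Real.log t) ≤ t / 8 := by
      calc D.κ * (D.c * Real.log t) = (D.κ * D.c) * Real.log t := by ring
        _ ≤ (D.κ * D.c) * (1 / (8 * (D.κ * D.c)) * t) := by gcongr
        _ = t / 8 := by field_simp
    linarith
  obtain ⟨T2, hT2⟩ := Filter.eventually_atTop.1 hev
  refine ⟨1 / ‖D.HH (I * T0)‖, max T0 T2, by positivity, hT0.trans (le_max_left _ _),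
    fun t ht => ?_⟩
  have ht1 : T0 ≤ t := (le_max_left _ _).trans ht
  have ht2 := hT2 t ((le_max_right _ _).trans ht)
  have ht0 : 0 < t := by linarith
  have him : ∀ s : ℝ, (I * (t : ℂ) + s * (I * ((T0 - t : ℝ) : ℂ))).im = t + s * (T0 - t) := by
    intro s; simp
  have hre : ∀ s : ℝ, (I * (t : ℂ) + s * (I * ((T0 - t : ℝ) : ℂ))).re = 0 := by
    intro s; simp
  have hb : ∀ s : ℝ, 0 ≤ s → s ≤ 1 → T0 ≤ t + s * (T0 - t) ∧ t + s * (T0 - t) ≤ t := by
    intro s hs0 hs1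
    constructor <;> nlinarith
  have hpt : ∀ s : ℝ, 0 ≤ s → s ≤ 1 →
      D.HH (I * (t : ℂ) + s * (I * ((T0 - t : ℝ) : ℂ))) ≠ 0 ∧
      ‖logDeriv D.HH (I * (t : ℂ) + s * (I * ((T0 - t : ℝ) : ℂ))) - 0‖ ≤
        D.κ * (D.c * Real.log t) + K := by
    intro s hs0 hs1
    have h1 := H (I * (t : ℂ) + s * (I * ((T0 - t : ℝ) : ℂ))) (by
      rw [him]; exact (hb s hs0 hs1).1) (by
      rw [hre, him, abs_zero]; linarith [(hb s hs0 hs1).1])
    refine ⟨h1.1, ?_⟩
    have h2 := h1.2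
    rw [him] at h2
    have h3 : ‖((D.κ * (D.c * Real.log (t + s * (T0 - t))) : ℝ) : ℂ)‖ ≤
        D.κ * (D.c * Real.log t) := by
      have h4 : 0 ≤ Real.log (t + s * (T0 - t)) :=
        Real.log_nonneg (hT0.trans (hb s hs0 hs1).1)
      rw [Complex.norm_real, Real.norm_eq_abs, abs_of_nonneg (by positivity)]
      have h5 : Real.log (t + s * (T0 - t)) ≤ Real.log t :=
        Real.log_le_log (by linarith [(hb s hs0 hs1).1]) (hb s hs0 hs1).2
      gcongr
    calc ‖logDeriv D.HH (I * (t : ℂ) + s * (I * ((T0 - t : ℝ) : ℂ))) - 0‖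
        = ‖((D.κ * (D.c * Real.log (t + s * (T0 - t))) : ℝ) : ℂ) +
          (logDeriv D.HH (I * (t : ℂ) + s * (I * ((T0 - t : ℝ) : ℂ))) -
          ((D.κ * (D.c * Real.log (t + s * (T0 - t))) : ℝ) : ℂ))‖ := by congr 1; ring
      _ ≤ _ := (norm_add_le _ _).trans (add_le_add h3 h2)
  have hseg := seg D.HH (I * t) (I * ((T0 - t : ℝ) : ℂ)) 0 (D.κ * (D.c * Real.log t) + K)
    (fun s hs0 hs1 => h.HH_diff _ (by rw [him]; linarith [(hb s hs0 hs1).1]))
    (fun s hs0 hs1 => (hpt s hs0 hs1).1) (fun s hs0 hs1 => (hpt s hs0 hs1).2)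
  have e1 : I * (t : ℂ) + I * ((T0 - t : ℝ) : ℂ) = I * T0 := by push_cast; ring
  have e2 : ‖I * ((T0 - t : ℝ) : ℂ)‖ = t - T0 := by
    rw [norm_mul, Complex.norm_I, one_mul, Complex.norm_real, Real.norm_eq_abs,
      abs_of_nonpos (by linarith)]
    ring
  rw [e1, e2, zero_mul, Complex.zero_re, zero_add] at hseg
  have h5 : Real.exp ((D.κ * (D.c * Real.log t) + K) * (t - T0)) ≤ Real.exp (t ^ 2 / 4) := by
    apply Real.exp_le_exp.2
    calc (D.κ * (D.c * Real.log t) + K) * (t - T0) ≤ (t / 4) * t := by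
          have h6 : 0 ≤ Real.log t := Real.log_nonneg (hT0.trans ht1)
          apply mul_le_mul ht2 (by linarith) (by linarith) (by linarith)
      _ = t ^ 2 / 4 := by ring
  have h6 : ‖D.HH (I * T0)‖ ≤ ‖D.HH (I * t)‖ * Real.exp (t ^ 2 / 4) :=
    hseg.trans (mul_le_mul_of_nonneg_left h5 (norm_nonneg _))
  rw [Real.exp_neg, div_mul_eq_mul_div, one_mul, inv_eq_one_div, div_le_div_iff₀ (Real.exp_pos _) hT',
    one_mul]
  exact h6

theorem norm_gauss (t : ℝ) (z : ℂ) :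
    ‖cexp ((z - I * t) ^ 2)‖ = Real.exp (z.re ^ 2 - (z.im - t) ^ 2) := by
  rw [Complex.norm_exp]
  congr 1
  rw [pow_two, Complex.mul_re]
  simp
  ring

end ConvAux

open ConvAux in
theorem conv (D : Dat) (h : IsL D) (h1 : SB1 D) : SConv D := by
  obtain ⟨hF, hFX, hFc, -⟩ := h1
  have hXd : Differentiable ℂ D.XX := by
    have h2 : D.XX = fun z => FF D (z ^ 2) := by
      funext z
      exact (hFX z).symm
    rw [h2]
    exact hF.comp (differentiable_id.pow 2)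
  have hXe : ∀ z, D.XX (-z) = D.XX z := by
    intro z
    rw [← hFX, ← hFX, neg_sq]
  have hXc : ∀ z, D.XX ((starRingEnd ℂ) z) = (starRingEnd ℂ) (D.XX z) := by
    intro z
    rw [← hFX, ← hFX, ← map_pow, hFc]
  have hκ := h.κ_pos
  have hc := h.c_pos
  have hA := h.A_nonneg
  set σ : ℝ := (D.A + 2) / D.κ with hσdef
  have hσ : 0 < σ := by positivity
  have hκσ : D.κ * σ = D.A + 2 := by rw [hσdef]; field_simp
  have hrr : 0 ≤ rr D := by
    unfold rr
    have := h.w_large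
    have : 0 ≤ D.w := by nlinarith
    positivity
  obtain ⟨B, hB0, hB⟩ := XX_bd h σ
  obtain ⟨S, hS0, hS⟩ := ser_bd h
  obtain ⟨K, T1, hK, hT1, hG⟩ := HH_grow h σ hσ.le
  obtain ⟨C, T2, hC0, hT2, hL⟩ := HH_low h
  set E1 : ℝ := S * Real.exp (K * σ + σ ^ 2 + K ^ 2 / 4) with hE1
  set E2 : ℝ := B * Real.exp (σ ^ 2) * C with hE2
  have hE10 : 0 ≤ E1 := by positivity
  have hE20 : 0 ≤ E2 := by positivity
  refine ⟨max 1 ((E1 + E2) * Real.exp ((rr D + 2) ^ 2)), T1 + T2 + 2 * (rr D + 2) + 1,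
    le_max_left _ _, by linarith, fun t z ht hz0 hz1 hz2 => ?_⟩
  have ht1 : T1 ≤ t := by linarith
  have ht2 : T2 ≤ t := by linarith
  have ht0 : 0 < t := by linarith
  have htr : rr D + 2 ≤ t / 2 := by linarith
  have hOm : 0 ≤ Om D t := by
    unfold Om
    have : 0 ≤ Real.log t := Real.log_nonneg (by linarith)
    positivity
  obtain ⟨hne, hgrow⟩ := hG t ht1
  set N : ℝ := ‖D.HH (I * t)‖ with hN
  have hN0 : 0 ≤ N := norm_nonneg _
  set Q : ℝ := N * Real.exp ((D.A + 2) * Om D t) with hQ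
  have hQ0 : 0 ≤ Q := by positivity
  have hNQ : N ≤ Q := by
    rw [hQ]
    have : 1 ≤ Real.exp ((D.A + 2) * Om D t) := Real.one_le_exp (by positivity)
    nlinarith
  -- the sides
  have hside : ∀ w : ℂ, w.re = σ → |w.im - t| ≤ t / 2 →
      ‖D.XX w‖ * Real.exp (σ ^ 2 - (w.im - t) ^ 2) ≤ E1 * Q := by
    intro w hw1 hw2
    have hwim : 0 < w.im := by linarith [(abs_le.1 hw2).1]
    have h3 : D.A + 2 ≤ D.κ * w.re := by rw [hw1, hκσ]
    have h4 : ‖D.XX w‖ ≤ ‖D.HH w‖ * S := by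
      rw [h.XX_dir w hwim h3, norm_mul]
      exact mul_le_mul_of_nonneg_left (hS w h3) (norm_nonneg _)
    have h5 := hgrow w (by rw [hw1, abs_of_pos hσ]) hw2
    have h6 : ‖w - I * t‖ ≤ σ + |w.im - t| := by
      refine (Complex.norm_le_abs_re_add_abs_im _).trans_eq ?_
      simp [hw1, abs_of_pos hσ]
    have h7 : D.κ * Om D t * w.re + K * ‖w - I * t‖ ≤
        (D.A + 2) * Om D t + K * (σ + |w.im - t|) := by
      rw [hw1, show D.κ * Om D t * σ = (D.κ * σ) * Om D t by ring, hκσ]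
      have := mul_le_mul_of_nonneg_left h6 (by linarith : (0 : ℝ) ≤ K)
      linarith
    have h8 : (D.A + 2) * Om D t + K * (σ + |w.im - t|) + (σ ^ 2 - (w.im - t) ^ 2) ≤
        (D.A + 2) * Om D t + (K * σ + σ ^ 2 + K ^ 2 / 4) := by
      have h9 : (w.im - t) ^ 2 = |w.im - t| ^ 2 := (sq_abs _).symm
      rw [h9]
      nlinarith [sq_nonneg (|w.im - t| - K / 2)]
    calc ‖D.XX w‖ * Real.exp (σ ^ 2 - (w.im - t) ^ 2)
        ≤ (N * Real.exp ((D.A + 2) * Om D t + K * (σ + |w.im - t|)) * S) *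
            Real.exp (σ ^ 2 - (w.im - t) ^ 2) := by
          apply mul_le_mul_of_nonneg_right _ (Real.exp_pos _).le
          refine h4.trans (mul_le_mul_of_nonneg_right ?_ hS0)
          exact h5.trans (mul_le_mul_of_nonneg_left (Real.exp_le_exp.2 h7) hN0)
      _ = N * S * Real.exp ((D.A + 2) * Om D t + K * (σ + |w.im - t|) +
            (σ ^ 2 - (w.im - t) ^ 2)) := by rw [Real.exp_add _ (σ ^ 2 - (w.im - t) ^ 2)]; ring
      _ ≤ N * S * Real.exp ((D.A + 2) * Om D t + (K * σ + σ ^ 2 + K ^ 2 / 4)) := by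
          exact mul_le_mul_of_nonneg_left (Real.exp_le_exp.2 h8) (by positivity)
      _ = E1 * Q := by rw [Real.exp_add, hE1, hQ]; ring
  -- the maximum principle
  set U : Set ℂ := Set.Ioo (-σ) σ ×ℂ Set.Ioo (t / 2) (3 * t / 2) with hU
  have hUb : Bornology.IsBounded U := (Metric.isBounded_Ioo _ _).reProdIm (Metric.isBounded_Ioo _ _)
  have hclo : closure U = Set.Icc (-σ) σ ×ℂ Set.Icc (t / 2) (3 * t / 2) := by
    rw [hU, Complex.closure_reProdIm, closure_Ioo (by linarith), closure_Ioo (by linarith)]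
  have hfr : frontier U = (Set.Icc (-σ) σ ×ℂ {t / 2, 3 * t / 2}) ∪
      ({-σ, σ} ×ℂ Set.Icc (t / 2) (3 * t / 2)) := by
    rw [hU, Complex.frontier_reProdIm, closure_Ioo (by linarith), closure_Ioo (by linarith),
      frontier_Ioo (by linarith), frontier_Ioo (by linarith)]
  have hGd : DiffContOnCl ℂ (fun w => D.XX w * cexp ((w - I * t) ^ 2)) U := by
    apply Differentiable.diffContOnCl
    exact hXd.mul (((differentiable_id.sub_const _).pow 2).cexp)
  have hbd : ∀ w ∈ frontier U, ‖(fun w => D.XX w * cexp ((w - I * t) ^ 2)) w‖ ≤ (E1 + E2) * Q := by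
    intro w hw
    show ‖D.XX w * cexp ((w - I * t) ^ 2)‖ ≤ _
    rw [norm_mul, norm_gauss]
    rw [hfr] at hw
    rcases hw with hw | hw
    · -- top and bottom
      obtain ⟨hw1, hw2⟩ := hw
      have h3 : |w.re| ≤ σ := abs_le.2 hw1
      have h4 : (w.im - t) ^ 2 = t ^ 2 / 4 := by
        rcases hw2 with hw2 | hw2
        · have hw2' : w.im = t / 2 := hw2
          rw [hw2']
          ring
        · have hw2' : w.im = 3 * t / 2 := hw2
          rw [hw2']
          ring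
      have h5 : w.re ^ 2 ≤ σ ^ 2 := sq_le_sq' (abs_le.1 h3).1 (abs_le.1 h3).2
      rw [h4]
      calc ‖D.XX w‖ * Real.exp (w.re ^ 2 - t ^ 2 / 4)
          ≤ B * Real.exp (σ ^ 2 + -(t ^ 2 / 4)) := by
            apply mul_le_mul (hB w h3) (Real.exp_le_exp.2 (by linarith)) (Real.exp_pos _).le hB0
        _ = B * Real.exp (σ ^ 2) * Real.exp (-(t ^ 2 / 4)) := by rw [Real.exp_add]; ring
        _ ≤ B * Real.exp (σ ^ 2) * (C * N) :=
            mul_le_mul_of_nonneg_left (hL t ht2) (by positivity)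
        _ = E2 * N := by rw [hE2]; ring
        _ ≤ E2 * Q := mul_le_mul_of_nonneg_left hNQ hE20
        _ ≤ (E1 + E2) * Q := by nlinarith
    · obtain ⟨hw1, hw2⟩ := hw
      have h3 : |w.im - t| ≤ t / 2 := by
        rw [abs_le]
        have h4 : t / 2 ≤ w.im := hw2.1
        have h5 : w.im ≤ 3 * t / 2 := hw2.2
        constructor <;> linarith
      have hres : ‖D.XX w‖ * Real.exp (w.re ^ 2 - (w.im - t) ^ 2) ≤ E1 * Q := by
        rcases hw1 with hw1 | hw1
        · have hw1' : w.re = -σ := hw1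
          have h4 := hside (-(starRingEnd ℂ) w) (by simp [hw1']) (by simpa using h3)
          rw [hXe, hXc, RCLike.norm_conj] at h4
          rw [hw1', neg_sq]
          simpa using h4
        · have hw1' : w.re = σ := hw1
          have h4 := hside w hw1' h3
          rwa [hw1']
      refine hres.trans ?_
      nlinarith
  have hzim : |z.im - t| ≤ rr D + 2 := by
    have h3 := (Complex.abs_im_le_norm (z - I * t)).trans hz2
    simpa using h3
  have hzre : z.re ≤ σ := by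
    rw [hσdef, le_div_iff₀ hκ]
    linarith
  have hzcl : z ∈ closure U := by
    rw [hclo]
    have h3 := abs_le.1 (hzim.trans htr)
    exact ⟨⟨by linarith, hzre⟩, ⟨by linarith, by linarith⟩⟩
  have hmax := Complex.norm_le_of_forall_mem_frontier_norm_le hUb hGd hbd hzcl
  change ‖D.XX z * cexp ((z - I * t) ^ 2)‖ ≤ _ at hmax
  rw [norm_mul, norm_gauss] at hmax
  have h3 : -(rr D + 2) ^ 2 ≤ z.re ^ 2 - (z.im - t) ^ 2 := by
    have h4 : (z.im - t) ^ 2 ≤ (rr D + 2) ^ 2 := sq_le_sq' (abs_le.1 hzim).1 (abs_le.1 hzim).2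
    nlinarith [sq_nonneg z.re]
  have h4 : ‖D.XX z‖ * Real.exp (-(rr D + 2) ^ 2) ≤ (E1 + E2) * Q :=
    (mul_le_mul_of_nonneg_left (Real.exp_le_exp.2 h3) (norm_nonneg _)).trans hmax
  have h5 : ‖D.XX z‖ ≤ (E1 + E2) * Real.exp ((rr D + 2) ^ 2) * Q := by
    have h6 : ‖D.XX z‖ = ‖D.XX z‖ * Real.exp (-(rr D + 2) ^ 2) * Real.exp ((rr D + 2) ^ 2) := by
      rw [mul_assoc, ← Real.exp_add]
      simp
    rw [h6]
    calc _ ≤ (E1 + E2) * Q * Real.exp ((rr D + 2) ^ 2) :=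
          mul_le_mul_of_nonneg_right h4 (Real.exp_pos _).le
      _ = _ := by ring
  refine h5.trans ?_
  calc (E1 + E2) * Real.exp ((rr D + 2) ^ 2) * Q
      ≤ max 1 ((E1 + E2) * Real.exp ((rr D + 2) ^ 2)) * Q :=
        mul_le_mul_of_nonneg_right (le_max_right _ _) hQ0
    _ ≤ max 1 ((E1 + E2) * Real.exp ((rr D + 2) ^ 2)) *
        (N * Real.exp ((D.A + 3) * Om D t)) := by
        apply mul_le_mul_of_nonneg_left _ (zero_le_one.trans (le_max_left _ _))
        rw [hQ]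
        apply mul_le_mul_of_nonneg_left (Real.exp_le_exp.2 _) hN0
        nlinarith
    _ = _ := by ring

end Pool.Agent.H471R3.GJ
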