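import Pool.Agent.H471R3.GJ.UpDownAux

set_option autoImplicit false

namespace Pool.Agent.H471R3.GJ

open Complex Filter Topology UD
open Pool.Agent.H24R2.JP (Hyperbolic Par Good App arc SHad SDer SGL SPar SCircle SJensen SNewton SArc
  SChasse SSector SLimit SJen)

/-- norm of a coefficient term -/
lemma UD.norm_term (D : Dat) (h : IsL D) (m : ℕ) (hm : 1 ≤ m) (z : ℂ) :
    ‖D.a m * (m : ℂ) ^ (-(D.κ : ℂ) * z)‖ ≤
      D.A0 * Real.exp (Real.log m * D.A) * Real.exp (Real.log m * (-(D.κ * z.re))) := by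
  have hm0 : (0 : ℝ) < m := by exact_mod_cast hm
  rw [norm_mul, Complex.norm_natCast_cpow_of_pos (by omega), Real.rpow_def_of_pos hm0]
  have h1 := h.a_le m hm
  rw [Real.rpow_def_of_pos hm0] at h1
  have h2 : (-(D.κ : ℂ) * z).re = -(D.κ * z.re) := by simp
  rw [h2]
  gcongr

theorem down (D : Dat) (h : IsL D) (h1 : SStir D) : SDown D := by
  intro ε hε
  have hκ := h.κ_pos
  have hc := h.c_pos
  have hA := h.A_nonneg
  have hA0 := h.A0_one
  have hw := h.w_large
  have hwκ : 20 ≤ D.w / D.κ := by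
    rw [le_div_iff₀ hκ]
    nlinarith
  have hrr : rr D = 2 * (D.w / D.κ) := by unfold rr; ring
  have hr40 : 40 ≤ rr D := by rw [hrr]; linarith
  have h1' := h1
  obtain ⟨-, K, T1, hK, hT1, hst⟩ := h1'
  have hev := (final D h h1 (2 * Real.exp ((rr D / 2 + 1 / 10) * K) * D.A0) ε (by positivity) hε).and
    ((eventually_ge_atTop T1).and ((eventually_ge_atTop K).and
      ((eventually_ge_atTop (100 * rr D ^ 2)).and
      ((Om_tendsto D h).eventually_ge_atTop 0))))
  obtain ⟨T0, hT0⟩ := Filter.eventually_atTop.1 hev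
  refine ⟨max T0 1, le_max_right _ _, ?_⟩
  intro t n z ht hw'
  obtain ⟨hfin, htT1, htK, ht4, hO⟩ := hT0 t ((le_max_left _ _).trans ht)
  obtain ⟨-, hbe, hu⟩ := hst t htT1
  have ht1 : 1 ≤ t := by linarith
  have ht0 : 0 < t := by linarith
  have ht10 : 10 ≤ t := by nlinarith
  have hMM : ((MM D t : ℕ) : ℝ) ≤ Real.exp (2 / 5 * Om D t) := Nat.floor_le (Real.exp_pos _).le
  have hterm : ∀ m ∈ Finset.Icc 1 (MM D t),
      ‖arc (GG D m) n (-t ^ 2) (rr D * t) Real.pi (2 * Real.pi) (z ^ 2)‖ ≤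
        (n.factorial : ℝ) / ((rr D - 8 / 5) * t) ^ n *
          (2 * Real.exp ((rr D / 2 + 1 / 10) * K) * ‖D.HH (I * t)‖ *
            (D.A0 * Real.exp (2 / 5 * Om D t * D.A))) := by
    intro m hm
    rw [Finset.mem_Icc] at hm
    have hm0 : (0 : ℝ) < m := by exact_mod_cast hm.1
    have hmt : (m : ℝ) ≤ Real.exp (2 / 5 * Om D t) := by
      refine le_trans ?_ hMM
      exact_mod_cast hm.2
    have hlog : Real.log m ≤ 2 / 5 * Om D t := by
      have := Real.log_le_log hm0 hmt
      rwa [Real.log_exp] at this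
    have hlog0 : 0 ≤ Real.log m := Real.log_natCast_nonneg m
    apply arc_bound (GG D m) n (rr D) t _ _ _ z (by linarith) ht10 (by linarith [Real.pi_pos])
      (by linarith) hw'.2.2 (by positivity)
    intro θ hθ
    obtain ⟨-, hg2, -, -, hg5, -⟩ := geom (rr D) t (by linarith) ht4 θ
    have hsin : Real.sin θ ≤ 0 := by
      have h := Real.sin_nonneg_of_nonneg_of_le_pi (x := θ - Real.pi) (by linarith [hθ.1])
        (by linarith [hθ.2])
      rw [Real.sin_sub_pi] at h
      linarith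
    have hσ := hg5 hsin
    set ζ := Pool.Agent.H24R2.JP.sq (((-t ^ 2 : ℝ) : ℂ) + ((rr D * t : ℝ) : ℂ) * cexp (I * θ)) with hζ
    have hH := HH_bound D t K K (rr D / 2 + 1 / 10) (ζ - I * t) (by linarith) ht0 htK hg2 hbe
      (hu (ζ - I * t) (hg2.trans (by linarith)))
    have e1 : I * (t : ℂ) + (ζ - I * t) = ζ := by ring
    have e2 : (ζ - I * (t : ℂ)).re = ζ.re := by simp
    rw [e1, e2] at hH
    have hGG : ‖GG D m (((-t ^ 2 : ℝ) : ℂ) + ((rr D * t : ℝ) : ℂ) * cexp (I * θ))‖ ≤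
        ‖D.HH ζ‖ * (D.A0 * Real.exp (Real.log m * D.A) * Real.exp (Real.log m * (-(D.κ * ζ.re)))) := by
      unfold GG
      rw [← hζ, norm_mul]
      exact mul_le_mul_of_nonneg_left (UD.norm_term D h m hm.1 ζ) (norm_nonneg _)
    refine hGG.trans ?_
    have h5 : Real.log m * D.A ≤ 2 / 5 * Om D t * D.A := mul_le_mul_of_nonneg_right hlog hA
    have h6 : Real.log m * (-(D.κ * ζ.re)) ≤ 2 / 5 * Om D t * (-(D.κ * ζ.re)) := by
      apply mul_le_mul_of_nonneg_right hlog
      have : D.κ * ζ.re ≤ 0 := mul_nonpos_of_nonneg_of_nonpos hκ.le hσ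
      linarith
    calc ‖D.HH ζ‖ * (D.A0 * Real.exp (Real.log m * D.A) * Real.exp (Real.log m * (-(D.κ * ζ.re))))
        ≤ (2 * Real.exp ((rr D / 2 + 1 / 10) * K) * ‖D.HH (I * t)‖ *
            Real.exp (D.κ * Om D t * ζ.re)) *
          (D.A0 * Real.exp (2 / 5 * Om D t * D.A) * Real.exp (2 / 5 * Om D t * (-(D.κ * ζ.re)))) := by
          gcongr
      _ = 2 * Real.exp ((rr D / 2 + 1 / 10) * K) * ‖D.HH (I * t)‖ *
          (D.A0 * Real.exp (2 / 5 * Om D t * D.A)) * Real.exp (3 / 5 * (D.κ * Om D t * ζ.re)) := by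
          have : Real.exp (3 / 5 * (D.κ * Om D t * ζ.re)) = Real.exp (D.κ * Om D t * ζ.re) *
              Real.exp (2 / 5 * Om D t * (-(D.κ * ζ.re))) := by
            rw [← Real.exp_add]
            congr 1
            ring
          rw [this]
          ring
      _ ≤ 2 * Real.exp ((rr D / 2 + 1 / 10) * K) * ‖D.HH (I * t)‖ *
          (D.A0 * Real.exp (2 / 5 * Om D t * D.A)) * 1 := by
          have h6 : Real.exp (3 / 5 * (D.κ * Om D t * ζ.re)) ≤ 1 := by
            rw [Real.exp_le_one_iff]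
            have : D.κ * Om D t * ζ.re ≤ 0 :=
              mul_nonpos_of_nonneg_of_nonpos (by positivity) hσ
            linarith
          gcongr
      _ = _ := by ring
  calc ∑ m ∈ Finset.Icc 1 (MM D t),
        ‖arc (GG D m) n (-t ^ 2) (rr D * t) Real.pi (2 * Real.pi) (z ^ 2)‖
      ≤ ∑ _m ∈ Finset.Icc 1 (MM D t),
        (n.factorial : ℝ) / ((rr D - 8 / 5) * t) ^ n *
          (2 * Real.exp ((rr D / 2 + 1 / 10) * K) * ‖D.HH (I * t)‖ *
            (D.A0 * Real.exp (2 / 5 * Om D t * D.A))) :=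
        Finset.sum_le_sum hterm
    _ = (n.factorial : ℝ) / ((rr D - 8 / 5) * t) ^ n *
        (((MM D t : ℕ) : ℝ) * (2 * Real.exp ((rr D / 2 + 1 / 10) * K) * ‖D.HH (I * t)‖ *
            (D.A0 * Real.exp (2 / 5 * Om D t * D.A)))) := by
        rw [Finset.sum_const, Nat.card_Icc, Nat.add_sub_cancel, nsmul_eq_mul]
        ring
    _ ≤ ε * ‖mt D n t z‖ := by
        apply hfin n z hw'
        calc ((MM D t : ℕ) : ℝ) * (2 * Real.exp ((rr D / 2 + 1 / 10) * K) * ‖D.HH (I * t)‖ *
            (D.A0 * Real.exp (2 / 5 * Om D t * D.A)))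
            ≤ Real.exp (2 / 5 * Om D t) * (2 * Real.exp ((rr D / 2 + 1 / 10) * K) *
              ‖D.HH (I * t)‖ * (D.A0 * Real.exp (2 / 5 * Om D t * D.A))) := by
              gcongr
          _ = 2 * Real.exp ((rr D / 2 + 1 / 10) * K) * D.A0 *
              Real.exp (2 / 5 * (D.A + 1) * Om D t) * ‖D.HH (I * t)‖ := by
              have : Real.exp (2 / 5 * (D.A + 1) * Om D t) = Real.exp (2 / 5 * Om D t) *
                  Real.exp (2 / 5 * Om D t * D.A) := by
                rw [← Real.exp_add]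
                congr 1
                ring
              rw [this]
              ring
          _ ≤ _ := by
              have h8 : 2 / 5 * (D.A + 1) * Om D t ≤
                  (39 / 50 * D.w - 1 / 2 - 3 / 4 * D.κ) * Om D t := by
                apply mul_le_mul_of_nonneg_right _ hO
                linarith
              gcongr

end Pool.Agent.H471R3.GJ
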