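import Pool.Agent.H471R3.GJ.Spec2
import Pool.Agent.H24R2.JP.WinS
import Pool.Agent.H24R2.JP.ExZero

set_option autoImplicit false

/-!
# The derivatives of `FF` have zeros (generic version)
-/

namespace Pool.Agent.H471R3.GJ

open Complex Filter Topology Polynomial
open Pool.Agent.H24R2.JP (SHad)
open Pool.Agent.H24R2.JP.ExZeroAux (growth const_of_no_root)

theorem exZero (D : Dat) (h1 : SHad) (h2 : SGrow D) (h3 : SB1 D) (h4 : SGam D) : SExZero D := by
  obtain ⟨k0, hpos, _⟩ := h4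
  refine ⟨k0, ?_⟩
  intro n hn
  by_contra hno
  push Not at hno
  obtain ⟨K, hK⟩ := h2
  obtain ⟨hd, _, hconj, hgam⟩ := h3
  obtain ⟨hfd, hfc⟩ := Pool.Agent.H24R2.JP.WinAux.iter_conj hd hconj n
  have hne : ∀ k, k0 ≤ k → iteratedDeriv k (FF D) 0 ≠ 0 := by
    intro k hk
    rw [hgam k]
    exact_mod_cast (hpos k hk).ne'
  obtain ⟨P, hP, hlim⟩ := h1 (iteratedDeriv n (FF D)) (2 * |K| + Real.log n.factorial) hfd
    (hne n hn) hfc (growth hd hK n)
  have hconst : ∀ x, iteratedDeriv n (FF D) x = iteratedDeriv n (FF D) 0 := by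
    intro x
    have l1 : Tendsto (fun N => aeval x (P N)) atTop (𝓝 (iteratedDeriv n (FF D) x)) :=
      (hlim.tendstoLocallyUniformlyOn (s := Set.univ)).tendsto_at (Set.mem_univ x)
    have l2 : Tendsto (fun N => aeval (0 : ℂ) (P N)) atTop (𝓝 (iteratedDeriv n (FF D) 0)) :=
      (hlim.tendstoLocallyUniformlyOn (s := Set.univ)).tendsto_at (Set.mem_univ 0)
    refine tendsto_nhds_unique l1 ?_
    refine l2.congr fun N => ?_
    exact (const_of_no_root (P N) (fun z hz => hno z (hP N z hz)) x).symm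
  apply hne (n + 1) (by omega)
  rw [iteratedDeriv_succ]
  have : iteratedDeriv n (FF D) = fun _ => iteratedDeriv n (FF D) 0 := funext hconst
  rw [this]
  simp

end Pool.Agent.H471R3.GJ
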