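import Pool.Agent.H471R3.GJ.Spec

set_option autoImplicit false

/-!
# Task FACTS: consequences of `SGood` for the derivatives of `FF`
-/

namespace Pool.Agent.H471R3.GJ

open Complex Filter Topology Polynomial
open Pool.Agent.H24R2.JP (Hyperbolic Par Good App arc SHad SDer SGL SPar SCircle SJensen SNewton SArc
  SChasse SSector SLimit SJen)

namespace Facts

theorem iter_add (f : ℂ → ℂ) (n j : ℕ) :
    iteratedDeriv j (iteratedDeriv n f) = iteratedDeriv (n + j) f := by
  rw [iteratedDeriv_eq_iterate, iteratedDeriv_eq_iterate, iteratedDeriv_eq_iterate, Nat.add_comm,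
    Function.iterate_add_apply]

end Facts

theorem facts (D : Dat) (h1 : SGood D) (h2 : SPar) (h3 : SCircle) (h4 : SJensen) (h5 : SNewton) :
    SFacts D := by
  obtain ⟨k0, hk⟩ := h1
  refine ⟨k0, fun k hk0 => (hk k hk0).1, ?_, ?_, ?_, ?_⟩
  · intro n hn x hx
    have hG := (hk n hn).2
    apply h2 _ hG 0 x
    rw [Facts.iter_add, Nat.add_zero]
    exact hx
  · intro n hn x hx hx0
    have hG := (hk n hn).2
    obtain ⟨z, hz, hz0, hzz⟩ := h3 _ hG 0 x hx (by rw [Facts.iter_add]; exact hx0)
    refine ⟨z, hz, ?_, hzz⟩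
    rw [Facts.iter_add] at hz0
    exact hz0
  · intro n hn d R hR hd hz z hz0
    have hG := (hk n hn).2
    refine h4 _ hG 0 d R hR hd ?_ z ?_
    · intro w hw hw0
      rw [Facts.iter_add] at hw0
      exact hz w hw hw0
    · refine (Finset.sum_congr rfl ?_).trans hz0
      intro j _
      rw [Facts.iter_add, Nat.zero_add]
  · intro n hn hz x hx
    have hG := (hk n hn).2
    have := h5 _ hG 0 (by
      intro w hw
      rw [Facts.iter_add]
      exact hz w hw) x (by rw [Facts.iter_add]; exact hx)
    rw [Facts.iter_add, Facts.iter_add, Facts.iter_add] at this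
    exact this

end Pool.Agent.H471R3.GJ
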