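import Pool.Agent.H471R3.GJ.Spec

set_option autoImplicit false

/-!
# The coefficients `gam` (generic version of `Pool.Agent.H24R2.JP.Gam`)
-/

namespace Pool.Agent.H471R3.GJ

open Complex Filter Topology

namespace Gam

theorem ratio1 {D : Dat} {M : ℕ → ℝ}
    (hg : ∀ k, gam D k = (k.factorial : ℝ) / ((2 * k).factorial : ℝ) * M k) (n : ℕ)
    (h2 : M n ≠ 0) :
    gam D (n + 1) / gam D n = M (n + 1) / M n / (2 * (2 * n + 1)) := by
  have h0 : (n.factorial : ℝ) ≠ 0 := Nat.cast_ne_zero.2 n.factorial_ne_zero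
  have h1 : ((2 * n).factorial : ℝ) ≠ 0 := Nat.cast_ne_zero.2 (2 * n).factorial_ne_zero
  have e1 : ((n + 1).factorial : ℝ) = (n + 1) * n.factorial := by
    rw [Nat.factorial_succ]; push_cast; ring
  have e2 : ((2 * (n + 1)).factorial : ℝ) = (2 * n + 2) * ((2 * n + 1) * (2 * n).factorial) := by
    rw [show 2 * (n + 1) = (2 * n + 1) + 1 by ring, Nat.factorial_succ, Nat.factorial_succ]
    push_cast; ring
  have h3 : ((n : ℝ) + 1) ≠ 0 := by positivity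
  have h4 : (2 * (n : ℝ) + 1) ≠ 0 := by positivity
  have h5 : (2 * (n : ℝ) + 2) ≠ 0 := by positivity
  rw [hg, hg, e1, e2]
  field_simp

theorem ratio2 {D : Dat} {M : ℕ → ℝ}
    (hg : ∀ k, gam D k = (k.factorial : ℝ) / ((2 * k).factorial : ℝ) * M k) (n : ℕ)
    (h2 : M n ≠ 0) (h3 : M (n + 1) ≠ 0) :
    gam D (n + 2) / gam D n = M (n + 2) / M n / (4 * (2 * n + 1) * (2 * n + 3)) := by
  have h := ratio1 hg (n + 1) h3
  have h' := ratio1 hg n h2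
  have hf : ∀ k : ℕ, (k.factorial : ℝ) / ((2 * k).factorial : ℝ) ≠ 0 := fun k =>
    div_ne_zero (Nat.cast_ne_zero.2 k.factorial_ne_zero)
      (Nat.cast_ne_zero.2 (2 * k).factorial_ne_zero)
  have g1 : gam D (n + 1) ≠ 0 := by rw [hg]; exact mul_ne_zero (hf _) h3
  have g0 : gam D n ≠ 0 := by rw [hg]; exact mul_ne_zero (hf _) h2
  have e : gam D (n + 2) / gam D n =
      (gam D (n + 1 + 1) / gam D (n + 1)) * (gam D (n + 1) / gam D n) := by
    rw [show n + 1 + 1 = n + 2 by rfl]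
    field_simp
  have h4 : (2 * (n : ℝ) + 1) ≠ 0 := by positivity
  have h5 : (2 * (n : ℝ) + 3) ≠ 0 := by positivity
  rw [e, h, h', show n + 1 + 1 = n + 2 by rfl]
  push_cast
  rw [show (2 * ((n : ℝ) + 1) + 1) = 2 * n + 3 by ring]
  field_simp
  ring

theorem key {p0 p1 p2 m0 m1 m2 e : ℝ} (hp0 : 0 < p0) (hp1 : 0 < p1) (hp2 : 0 < p2) (he : 0 ≤ e)
    (hcs : p1 ^ 2 ≤ p0 * p2) (h0 : |m0 - p0| ≤ e * p0) (h1 : |m1 - p1| ≤ e * p1)
    (h2 : |m2 - p2| ≤ e * p2) (g0 : p0 ≤ 2 * m0) (g1 : p1 ≤ 2 * m1) (g2 : p2 ≤ 2 * m2) :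
    (m1 / m0) ^ 2 - m2 / m0 ≤ 8 * (2 * e + e ^ 2) * (p2 / p0) := by
  have hm0 : 0 < m0 := by linarith
  have hm1 : 0 < m1 := by linarith
  have hm2 : 0 < m2 := by linarith
  have a0 := abs_le.1 h0
  have a1 := abs_le.1 h1
  have a2 := abs_le.1 h2
  have b1 : m1 ≤ (1 + e) * p1 := by linarith
  have b2 : m2 ≤ (1 + e) * p2 := by linarith
  have c1 : m1 ^ 2 ≤ (1 + e) ^ 2 * p1 ^ 2 := by
    rw [← mul_pow]
    exact pow_le_pow_left₀ hm1.le b1 2
  have c2 : p0 * p2 - (2 * e + e ^ 2) * (p0 * p2) ≤ m0 * m2 := by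
    have d1 : -(e * p0 * ((1 + e) * p2)) ≤ (m0 - p0) * m2 := by
      have d2 : -(e * p0) * m2 ≤ (m0 - p0) * m2 := mul_le_mul_of_nonneg_right a0.1 hm2.le
      have d3 : e * p0 * m2 ≤ e * p0 * ((1 + e) * p2) :=
        mul_le_mul_of_nonneg_left b2 (by positivity)
      linarith
    have d4 : -(p0 * (e * p2)) ≤ p0 * (m2 - p2) := by
      have := mul_le_mul_of_nonneg_left a2.1 hp0.le
      linarith
    nlinarith
  have c3 : m1 ^ 2 - m0 * m2 ≤ 2 * (2 * e + e ^ 2) * (p0 * p2) := by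
    have d5 : (2 * e + e ^ 2) * p1 ^ 2 ≤ (2 * e + e ^ 2) * (p0 * p2) :=
      mul_le_mul_of_nonneg_left hcs (by positivity)
    nlinarith
  have e1 : (m1 / m0) ^ 2 - m2 / m0 = (m1 ^ 2 - m0 * m2) / m0 ^ 2 := by
    field_simp
  rw [e1, div_le_iff₀ (by positivity)]
  refine c3.trans ?_
  have d6 : p0 ^ 2 ≤ 4 * m0 ^ 2 := by
    have := pow_le_pow_left₀ hp0.le g0 2
    nlinarith
  have d7 : 2 * (2 * e + e ^ 2) * (p0 * p2) = 2 * (2 * e + e ^ 2) * (p2 / p0) * p0 ^ 2 := by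
    field_simp
  rw [d7]
  have d8 : 0 ≤ 2 * (2 * e + e ^ 2) * (p2 / p0) := by positivity
  have := mul_le_mul_of_nonneg_left d6 d8
  linarith

end Gam

open Gam in
theorem gamS (D : Dat) (h : SMom D) : SGam D := by
  obtain ⟨M, P, k0, K, δ, hK, hδ, hg, hP, hcs, hr, hd, hk0⟩ := h
  have hf : ∀ k : ℕ, 0 < (k.factorial : ℝ) / ((2 * k).factorial : ℝ) := fun k =>
    div_pos (Nat.cast_pos.2 k.factorial_pos) (Nat.cast_pos.2 (2 * k).factorial_pos)
  have hM : ∀ k, k0 ≤ k → 0 < M k := fun k hk => by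
    have := hk0 k hk
    have := hP k
    linarith
  have gpos : ∀ k, k0 ≤ k → 0 < gam D k := fun k hk => by
    rw [hg]; exact mul_pos (hf k) (hM k hk)
  have hexp : ∀ n : ℕ, Real.exp (-(δ * n)) ≤ 1 := fun n => by
    rw [Real.exp_le_one_iff]
    have := Nat.cast_nonneg (α := ℝ) n
    nlinarith
  have hm : ∀ n : ℕ, k0 ≤ n →
      M (n + 1) / M n ≤ 2 * (1 + K) * K * ((n : ℝ) + 1) ^ (1 / 4 : ℝ) := by
    intro n hn
    rw [div_le_iff₀ (hM n hn)]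
    have e1 := (abs_le.1 (hd (n + 1))).2
    have e2 : K * Real.exp (-(δ * (n + 1 : ℕ))) * P (n + 1) ≤ K * P (n + 1) := by
      have := hexp (n + 1)
      have h3 := hP (n + 1)
      calc K * Real.exp (-(δ * (n + 1 : ℕ))) * P (n + 1) ≤ K * 1 * P (n + 1) := by gcongr
        _ = _ := by ring
    have e3 := hr n
    have e4 := hk0 n hn
    have e5 : 0 ≤ K * ((n : ℝ) + 1) ^ (1 / 4 : ℝ) := by positivity
    calc M (n + 1) ≤ (1 + K) * P (n + 1) := by linarith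
      _ ≤ (1 + K) * (K * ((n : ℝ) + 1) ^ (1 / 4 : ℝ) * P n) := by gcongr
      _ ≤ (1 + K) * (K * ((n : ℝ) + 1) ^ (1 / 4 : ℝ) * (2 * M n)) := by gcongr
      _ = _ := by ring
  have hm0 : ∀ n : ℕ, k0 ≤ n → 0 ≤ M (n + 1) / M n := fun n hn =>
    (div_pos (hM _ (by omega)) (hM _ hn)).le
  refine ⟨k0, gpos, ⟨(1 + K) ^ 2 * K ^ 2 + (2 + K) * K ^ 3 / δ, by positivity,
    fun n hn0 hn => ?_⟩, ?_⟩
  · rw [ratio1 hg n (hM n hn0).ne', ratio2 hg n (hM n hn0).ne' (hM (n + 1) (by omega)).ne']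
    have hn' : (1 : ℝ) ≤ n := by exact_mod_cast hn
    obtain ⟨e, he⟩ : ∃ e, e = K * Real.exp (-(δ * n)) := ⟨_, rfl⟩
    have he0 : 0 ≤ e := by rw [he]; positivity
    have heK : e ≤ K := by
      rw [he]
      have := hexp n
      nlinarith
    have hei : ∀ i : ℕ, |M (n + i) - P (n + i)| ≤ e * P (n + i) := by
      intro i
      refine (hd (n + i)).trans ?_
      have h1 : Real.exp (-(δ * (n + i : ℕ))) ≤ Real.exp (-(δ * n)) := by
        refine Real.exp_le_exp.2 ?_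
        push_cast
        have := Nat.cast_nonneg (α := ℝ) i
        nlinarith
      have := hP (n + i)
      rw [he]
      gcongr
    have hkey := key (hP n) (hP (n + 1)) (hP (n + 2)) he0 (hcs n) (hei 0) (hei 1) (hei 2)
      (hk0 n hn0) (hk0 (n + 1) (by omega)) (hk0 (n + 2) (by omega))
    simp only [add_zero] at hkey
    obtain ⟨a, ha⟩ : ∃ a, a = M (n + 1) / M n := ⟨_, rfl⟩
    obtain ⟨b, hb⟩ : ∃ b, b = M (n + 2) / M n := ⟨_, rfl⟩
    have ha1 := hm n hn0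
    have ha0 := hm0 n hn0
    rw [← ha] at ha1 ha0
    rw [← ha, ← hb] at hkey
    rw [← ha, ← hb]
    have hN : 0 ≤ (n : ℝ) ^ (1 / 2 : ℝ) := by positivity
    have hpw : ∀ x : ℝ, 0 ≤ x → x ≤ 4 * n → x ^ (1 / 2 : ℝ) ≤ 2 * (n : ℝ) ^ (1 / 2 : ℝ) := by
      intro x hx0 hx
      calc x ^ (1 / 2 : ℝ) ≤ (4 * n : ℝ) ^ (1 / 2 : ℝ) :=
            Real.rpow_le_rpow hx0 hx (by norm_num)
        _ = 2 * (n : ℝ) ^ (1 / 2 : ℝ) := by
          rw [Real.mul_rpow (by norm_num) (by positivity)]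
          congr 1
          rw [← Real.sqrt_eq_rpow, show (4 : ℝ) = 2 ^ 2 by norm_num, Real.sqrt_sq (by norm_num)]
    have hsq : ∀ x : ℝ, 0 ≤ x → (x ^ (1 / 4 : ℝ)) ^ 2 = x ^ (1 / 2 : ℝ) := by
      intro x hx
      rw [← Real.rpow_natCast (x ^ (1 / 4 : ℝ)), ← Real.rpow_mul hx]
      norm_num
    have h2 : a ^ 2 ≤ 8 * ((1 + K) ^ 2 * K ^ 2) * (n : ℝ) ^ (1 / 2 : ℝ) := by
      calc a ^ 2 ≤ (2 * (1 + K) * K * ((n : ℝ) + 1) ^ (1 / 4 : ℝ)) ^ 2 :=
            pow_le_pow_left₀ ha0 ha1 2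
        _ = 4 * ((1 + K) ^ 2 * K ^ 2) * ((n : ℝ) + 1) ^ (1 / 2 : ℝ) := by
          rw [mul_pow, hsq _ (by positivity)]
          ring
        _ ≤ 4 * ((1 + K) ^ 2 * K ^ 2) * (2 * (n : ℝ) ^ (1 / 2 : ℝ)) := by
          have := hpw ((n : ℝ) + 1) (by positivity) (by linarith)
          gcongr
        _ = _ := by ring
    have h3 : P (n + 2) / P n ≤ K ^ 2 * (2 * (n : ℝ) ^ (1 / 2 : ℝ)) := by
      rw [div_le_iff₀ (hP n)]
      have r1 := hr (n + 1)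
      have r0 := hr n
      push_cast at r1
      have r2 : ((n : ℝ) + 1) ^ (1 / 4 : ℝ) ≤ ((n : ℝ) + 1 + 1) ^ (1 / 4 : ℝ) :=
        Real.rpow_le_rpow (by positivity) (by linarith) (by norm_num)
      have r3 := hP n
      have r4 := hP (n + 1)
      calc P (n + 2) ≤ K * ((n : ℝ) + 1 + 1) ^ (1 / 4 : ℝ) * P (n + 1) := r1
        _ ≤ K * ((n : ℝ) + 1 + 1) ^ (1 / 4 : ℝ) * (K * ((n : ℝ) + 1) ^ (1 / 4 : ℝ) * P n) := by
          gcongr
        _ ≤ K * ((n : ℝ) + 1 + 1) ^ (1 / 4 : ℝ) * (K * ((n : ℝ) + 1 + 1) ^ (1 / 4 : ℝ) * P n) := by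
          gcongr
        _ = K ^ 2 * (((n : ℝ) + 1 + 1) ^ (1 / 4 : ℝ)) ^ 2 * P n := by ring
        _ = K ^ 2 * ((n : ℝ) + 1 + 1) ^ (1 / 2 : ℝ) * P n := by rw [hsq _ (by positivity)]
        _ ≤ K ^ 2 * (2 * (n : ℝ) ^ (1 / 2 : ℝ)) * P n := by
          have := hpw ((n : ℝ) + 1 + 1) (by positivity) (by linarith)
          gcongr
    have h4 : e ≤ K / (δ * n) := by
      have h5 : δ * n ≤ Real.exp (δ * n) := by linarith [Real.add_one_le_exp (δ * n)]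
      have h6 : 0 < δ * n := by positivity
      rw [he, Real.exp_neg, ← div_eq_mul_inv]
      gcongr
    have h5 : a ^ 2 - b ≤ 16 * ((2 + K) * K ^ 3 / δ) * ((n : ℝ) ^ (1 / 2 : ℝ) / n) := by
      have h6 : 2 * e + e ^ 2 ≤ (2 + K) * (K / (δ * n)) := by
        calc 2 * e + e ^ 2 = (2 + e) * e := by ring
          _ ≤ (2 + K) * (K / (δ * n)) := by gcongr
      have h7 : 0 ≤ P (n + 2) / P n := (div_pos (hP _) (hP _)).le
      calc a ^ 2 - b ≤ 8 * (2 * e + e ^ 2) * (P (n + 2) / P n) := hkey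
        _ ≤ 8 * ((2 + K) * (K / (δ * n))) * (K ^ 2 * (2 * (n : ℝ) ^ (1 / 2 : ℝ))) := by gcongr
        _ = _ := by field_simp; ring
    have e1 : (a / (2 * (2 * (n : ℝ) + 1))) ^ 2 - b / (4 * (2 * n + 1) * (2 * n + 3)) =
        a ^ 2 / (2 * (2 * n + 1) ^ 2 * (2 * n + 3)) +
          (a ^ 2 - b) / (4 * (2 * n + 1) * (2 * n + 3)) := by
      field_simp
      ring
    have h8 : (n : ℝ) ^ (-(5 / 2) : ℝ) = (n : ℝ) ^ (1 / 2 : ℝ) / (n : ℝ) ^ 3 := by
      rw [← Real.rpow_natCast, ← Real.rpow_sub (by linarith)]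
      norm_num
    rw [e1, h8]
    have t1 : a ^ 2 / (2 * (2 * (n : ℝ) + 1) ^ 2 * (2 * n + 3)) ≤
        (1 + K) ^ 2 * K ^ 2 * ((n : ℝ) ^ (1 / 2 : ℝ) / (n : ℝ) ^ 3) := by
      calc a ^ 2 / (2 * (2 * (n : ℝ) + 1) ^ 2 * (2 * n + 3))
          ≤ (8 * ((1 + K) ^ 2 * K ^ 2) * (n : ℝ) ^ (1 / 2 : ℝ)) / (8 * (n : ℝ) ^ 3) := by
            refine div_le_div₀ (by positivity) h2 (by positivity) ?_
            have h9 : (2 * (n : ℝ)) ^ 2 ≤ (2 * (n : ℝ) + 1) ^ 2 :=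
              pow_le_pow_left₀ (by positivity) (by linarith) 2
            have h10 : (2 * (n : ℝ)) ^ 2 * (2 * n) ≤ (2 * (n : ℝ) + 1) ^ 2 * (2 * n + 3) := by
              gcongr
              linarith
            nlinarith
        _ = _ := by field_simp
    have t2 : (a ^ 2 - b) / (4 * (2 * (n : ℝ) + 1) * (2 * n + 3)) ≤
        (2 + K) * K ^ 3 / δ * ((n : ℝ) ^ (1 / 2 : ℝ) / (n : ℝ) ^ 3) := by
      calc (a ^ 2 - b) / (4 * (2 * (n : ℝ) + 1) * (2 * n + 3))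
          ≤ (16 * ((2 + K) * K ^ 3 / δ) * ((n : ℝ) ^ (1 / 2 : ℝ) / n)) / (16 * (n : ℝ) ^ 2) := by
            refine div_le_div₀ (by positivity) h5 (by positivity) ?_
            have h10 : 2 * (n : ℝ) * (2 * n) ≤ (2 * (n : ℝ) + 1) * (2 * n + 3) := by
              gcongr <;> linarith
            nlinarith
        _ = _ := by field_simp
    linarith
  · have hz : Tendsto (fun n : ℕ => (1 + K) * K * ((n : ℝ) + 1) ^ (-(3 / 4) : ℝ)) atTop (𝓝 0) := by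
      have h1 : Tendsto (fun n : ℕ => ((n : ℝ) + 1)) atTop atTop :=
        tendsto_natCast_atTop_atTop.atTop_add tendsto_const_nhds
      have h2 := (tendsto_rpow_neg_atTop (show (0 : ℝ) < 3 / 4 by norm_num)).comp h1
      simpa using h2.const_mul ((1 + K) * K)
    refine squeeze_zero' ?_ ?_ hz
    · filter_upwards [eventually_ge_atTop k0] with n hn
      exact (div_pos (gpos _ (by omega)) (gpos _ hn)).le
    · filter_upwards [eventually_ge_atTop k0] with n hn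
      rw [ratio1 hg n (hM n hn).ne']
      have h1 : ((n : ℝ) + 1) ^ (-(3 / 4) : ℝ) = ((n : ℝ) + 1) ^ (1 / 4 : ℝ) / ((n : ℝ) + 1) := by
        rw [show (-(3 / 4) : ℝ) = 1 / 4 - 1 by norm_num, Real.rpow_sub (by positivity),
          Real.rpow_one]
      rw [h1]
      calc M (n + 1) / M n / (2 * (2 * (n : ℝ) + 1)) ≤
          (2 * (1 + K) * K * ((n : ℝ) + 1) ^ (1 / 4 : ℝ)) / (2 * ((n : ℝ) + 1)) := by
            refine div_le_div₀ (by positivity) (hm n hn) (by positivity) ?_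
            have := Nat.cast_nonneg (α := ℝ) n
            linarith
        _ = _ := by field_simp

end Pool.Agent.H471R3.GJ
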