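import Pool.Agent.H471R3.GJ.Spec

set_option autoImplicit false

/-!
# Good derivatives of `FF` (task GOOD)
-/

namespace Pool.Agent.H471R3.GJ

open Complex Filter Topology Polynomial
open Pool.Agent.H24R2.JP (Hyperbolic Par Good App arc SHad SDer SGL SPar SCircle SJensen SNewton SArc
  SChasse SSector SLimit SJen)

namespace GoodAux

/-- division by the exact power of `x` at zero -/
theorem exists_div (f : ℂ → ℂ) (hf : Differentiable ℂ f) (hne : ∃ k, iteratedDeriv k f 0 ≠ 0)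
    (hc : ∀ x, f ((starRingEnd ℂ) x) = (starRingEnd ℂ) (f x))
    (hK : ∃ K : ℝ, ∀ x, ‖f x‖ ≤ Real.exp (K * (1 + ‖x‖) ^ (3 / 4 : ℝ))) :
    ∃ (n : ℕ) (g : ℂ → ℂ), Differentiable ℂ g ∧ g 0 ≠ 0 ∧ (∀ x, f x = x ^ n * g x) ∧
      (∀ x, g ((starRingEnd ℂ) x) = (starRingEnd ℂ) (g x)) ∧
      ∃ K : ℝ, ∀ x, ‖g x‖ ≤ Real.exp (K * (1 + ‖x‖) ^ (3 / 4 : ℝ)) := by
  have han : AnalyticAt ℂ f 0 := hf.analyticAt 0
  have hnz : ¬ ∀ᶠ z in 𝓝 (0 : ℂ), f z = 0 := by
    intro h0
    obtain ⟨k, hk⟩ := hne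
    apply hk
    have h1 : f =ᶠ[𝓝 0] (fun _ => (0 : ℂ)) := h0
    rw [(h1.iteratedDeriv_eq k)]
    simp
  obtain ⟨n, g0, hg0, hg0n, hg0e⟩ := han.exists_eventuallyEq_pow_smul_nonzero_iff.2 hnz
  have hg0e' : ∀ᶠ z in 𝓝 (0 : ℂ), f z = z ^ n * g0 z := by
    filter_upwards [hg0e] with z hz
    rw [hz, sub_zero, smul_eq_mul]
  let g : ℂ → ℂ := fun z => if z = 0 then g0 0 else f z / z ^ n
  have hgz : ∀ z, z ≠ 0 → g z = f z / z ^ n := fun z hz => if_neg hz
  have hg0' : g 0 = g0 0 := if_pos rfl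
  have hgg : g =ᶠ[𝓝 0] g0 := by
    filter_upwards [hg0e'] with z hz
    by_cases h : z = 0
    · rw [h, hg0']
    · rw [hgz z h, hz, mul_comm, mul_div_assoc, div_self (pow_ne_zero _ h), mul_one]
  have hgd : Differentiable ℂ g := by
    intro z
    by_cases h : z = 0
    · rw [h]
      exact (hg0.congr hgg.symm).differentiableAt
    · have h1 : g =ᶠ[𝓝 z] fun w => f w / w ^ n := by
        filter_upwards [isOpen_ne.mem_nhds h] with w hw
        exact hgz w hw
      refine DifferentiableAt.congr_of_eventuallyEq ?_ h1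
      exact (hf z).div (differentiableAt_pow n) (pow_ne_zero _ h)
  have hfg : ∀ x, f x = x ^ n * g x := by
    intro x
    by_cases h : x = 0
    · rw [h, hg0']
      exact hg0e'.self_of_nhds
    · rw [hgz x h, mul_div_cancel₀ _ (pow_ne_zero _ h)]
  refine ⟨n, g, hgd, by rw [hg0']; exact hg0n, hfg, ?_, ?_⟩
  · have h1 : (fun z => g ((starRingEnd ℂ) z)) = fun z => (starRingEnd ℂ) (g z) := by
      refine Continuous.ext_on (s := {0}ᶜ) (dense_compl_singleton (0 : ℂ))
        (hgd.continuous.comp Complex.continuous_conj)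
        (Complex.continuous_conj.comp hgd.continuous) ?_
      intro z hz
      have hz' : z ≠ 0 := hz
      have hz2 : (starRingEnd ℂ) z ≠ 0 := by
        rwa [Ne, map_eq_zero]
      show g ((starRingEnd ℂ) z) = (starRingEnd ℂ) (g z)
      rw [hgz z hz', hgz _ hz2, hc, map_div₀, map_pow]
    intro x
    exact congrFun h1 x
  · obtain ⟨K, hK⟩ := hK
    obtain ⟨M, hM⟩ := (isCompact_closedBall (0 : ℂ) 1).exists_bound_of_continuousOn
      hgd.continuous.continuousOn
    refine ⟨max K (Real.log (max M 1)), fun x => ?_⟩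
    have hM1 : (0 : ℝ) < max M 1 := lt_of_lt_of_le one_pos (le_max_right _ _)
    have hlog : 0 ≤ Real.log (max M 1) := Real.log_nonneg (le_max_right _ _)
    have hp1 : (1 : ℝ) ≤ (1 + ‖x‖) ^ (3 / 4 : ℝ) :=
      Real.one_le_rpow (by linarith [norm_nonneg x]) (by norm_num)
    by_cases hx : ‖x‖ ≤ 1
    · have h1 : ‖g x‖ ≤ M := hM x (by rwa [mem_closedBall_zero_iff])
      calc ‖g x‖ ≤ max M 1 := h1.trans (le_max_left _ _)
        _ = Real.exp (Real.log (max M 1)) := (Real.exp_log hM1).symm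
        _ ≤ Real.exp (max K (Real.log (max M 1)) * (1 + ‖x‖) ^ (3 / 4 : ℝ)) := by
          apply Real.exp_le_exp.2
          have h2 : Real.log (max M 1) ≤ max K (Real.log (max M 1)) := le_max_right _ _
          nlinarith
    · push Not at hx
      have hx0 : x ≠ 0 := by
        intro h
        rw [h, norm_zero] at hx
        linarith
      rw [hgz x hx0, norm_div, norm_pow]
      have h1 : (1 : ℝ) ≤ ‖x‖ ^ n := one_le_pow₀ hx.le
      calc ‖f x‖ / ‖x‖ ^ n ≤ ‖f x‖ := div_le_self (norm_nonneg _) h1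
        _ ≤ Real.exp (K * (1 + ‖x‖) ^ (3 / 4 : ℝ)) := hK x
        _ ≤ Real.exp (max K (Real.log (max M 1)) * (1 + ‖x‖) ^ (3 / 4 : ℝ)) := by
          apply Real.exp_le_exp.2
          exact mul_le_mul_of_nonneg_right (le_max_left _ _) (by positivity)

end GoodAux

theorem good (D : Dat) (h1 : SHad) (h2 : SDer) (h3 : SGL) (h4 : SB1 D) (h5 : SGrow D)
    (h6 : SZeros D) (h7 : SGam D) : SGood D := by
  obtain ⟨hd, -, hc, hi⟩ := h4
  obtain ⟨k0, hk0, -, -⟩ := h7
  have hne : ∀ k, k0 ≤ k → iteratedDeriv k (FF D) 0 ≠ 0 := by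
    intro k hk
    rw [hi k]
    exact_mod_cast (hk0 k hk).ne'
  obtain ⟨n, g, hgd, hg0, hfg, hgc, K, hK⟩ :=
    GoodAux.exists_div (FF D) hd ⟨k0, hne k0 le_rfl⟩ hc h5
  obtain ⟨P, hP, hlim⟩ := h1 g K hgd hg0 hgc hK
  have hApp : App (FF D) (fun N => Polynomial.X ^ n * P N) := by
    refine ⟨fun N x hx => ?_, ?_⟩
    · rw [map_mul, map_pow, aeval_X, mul_eq_zero] at hx
      rcases hx with hx | hx
      · have hx0 : x = 0 := by
          by_contra h
          exact pow_ne_zero n h hx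
        rw [hx0]
        show (0 : ℂ).re + (0 : ℂ).im ^ 2 ≤ 1 / 4
        norm_num
      · apply h6 x
        rw [hfg x, hP N x hx, mul_zero]
    · have h8 : TendstoLocallyUniformly (fun (_ : ℕ) (x : ℂ) => x ^ n) (fun x : ℂ => x ^ n) atTop := by
        intro u hu x
        exact ⟨Set.univ, Filter.univ_mem, Filter.Eventually.of_forall fun N y _ => refl_mem_uniformity hu⟩
      have h9 := h8.mul₀ hlim (continuous_pow n) hgd.continuous
      have e1 : (fun (N : ℕ) (x : ℂ) => aeval x (Polynomial.X ^ n * P N)) =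
          (fun (_ : ℕ) (x : ℂ) => x ^ n) * fun (N : ℕ) (x : ℂ) => aeval x (P N) := by
        funext N x
        simp
      have e2 : FF D = (fun x : ℂ => x ^ n) * g := by
        funext x
        exact hfg x
      rw [e1, e2]
      exact h9
  refine ⟨k0, fun k hk => ⟨hk0 k hk, ?_, ?_, ?_⟩⟩
  · exact hd.contDiff.differentiable_iteratedDeriv' k
  · have hD := (h2 (FF D) _ hApp k).1
    have hpt : Tendsto (fun N : ℕ => aeval (0 : ℂ) (derivative^[k] (Polynomial.X ^ n * P N))) atTop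
        (𝓝 (iteratedDeriv k (FF D) 0)) := by
      have h8 := tendstoLocallyUniformlyOn_univ.2 hD
      exact h8.tendsto_at (Set.mem_univ 0)
    have hne' : ∀ᶠ N in atTop, aeval (0 : ℂ) (derivative^[k] (Polynomial.X ^ n * P N)) ≠ 0 :=
      hpt.eventually_ne (hne k hk)
    obtain ⟨N0, hN0⟩ := eventually_atTop.1 hne'
    refine ⟨fun N => derivative^[k] (Polynomial.X ^ n * P (N + N0)), ?_, ?_⟩
    · intro N x hx
      refine h3 (Polynomial.X ^ n * P (N + N0)) k (hApp.1 _) (fun h0 => ?_) x hx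
      exact hN0 (N + N0) (by omega) (by rw [h0]; simp)
    · intro u hu x
      obtain ⟨t, ht, h⟩ := hD u hu x
      exact ⟨t, ht, (tendsto_add_atTop_nat N0).eventually h⟩
  · intro j
    have e : iteratedDeriv j (iteratedDeriv k (FF D)) = iteratedDeriv (j + k) (FF D) := by
      rw [iteratedDeriv_eq_iterate, iteratedDeriv_eq_iterate, iteratedDeriv_eq_iterate,
        Function.iterate_add_apply]
    rw [e]
    exact hne _ (by omega)

end Pool.Agent.H471R3.GJ
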