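import Pool.Agent.H471R3.GJ.Spec
import Mathlib.Analysis.SpecialFunctions.Gaussian.GaussianIntegral

set_option autoImplicit false

/-!
# Growth of `FF`
-/

namespace Pool.Agent.H471R3.GJ

open Complex Filter Topology Polynomial MeasureTheory

namespace Grow

theorem young {a u s : ℝ} (ha : 0 < a) (hu : 1 ≤ u) (hs : 0 ≤ s) :
    u ^ 2 * s ≤ a / 2 * s ^ 3 + (1 + 2 / a) * u ^ 3 := by
  have hK : 0 < 1 + 2 / a := by positivity
  rcases le_total s ((1 + 2 / a) * u) with h | h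
  · have h1 : u ^ 2 * s ≤ u ^ 2 * ((1 + 2 / a) * u) := mul_le_mul_of_nonneg_left h (by positivity)
    have h2 : 0 ≤ a / 2 * s ^ 3 := by positivity
    have h3 : u ^ 2 * ((1 + 2 / a) * u) = (1 + 2 / a) * u ^ 3 := by ring
    linarith
  · have h1 : ((1 + 2 / a) * u) ^ 2 ≤ s ^ 2 := pow_le_pow_left₀ (by positivity) h 2
    have h2 : 2 / a ≤ (1 + 2 / a) ^ 2 := by
      have : 0 < 2 / a := by positivity
      nlinarith
    have h3 : 2 / a * u ^ 2 ≤ s ^ 2 := by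
      calc 2 / a * u ^ 2 ≤ (1 + 2 / a) ^ 2 * u ^ 2 :=
            mul_le_mul_of_nonneg_right h2 (by positivity)
        _ = ((1 + 2 / a) * u) ^ 2 := by ring
        _ ≤ s ^ 2 := h1
    have h4 : u ^ 2 ≤ a / 2 * s ^ 2 := by
      have h5 : a / 2 * (2 / a * u ^ 2) ≤ a / 2 * s ^ 2 :=
        mul_le_mul_of_nonneg_left h3 (by positivity)
      have h6 : a / 2 * (2 / a * u ^ 2) = u ^ 2 := by
        field_simp
      linarith
    have h5 : u ^ 2 * s ≤ a / 2 * s ^ 2 * s := mul_le_mul_of_nonneg_right h4 hs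
    have h6 : a / 2 * s ^ 2 * s = a / 2 * s ^ 3 := by ring
    have h7 : 0 ≤ (1 + 2 / a) * u ^ 3 := by positivity
    linarith

theorem cube_sq {s : ℝ} (hs : 0 ≤ s) : s ^ 2 - 1 ≤ s ^ 3 := by
  rcases le_total s 1 with h | h
  · have : s ^ 2 ≤ 1 := pow_le_one₀ hs h
    have : 0 ≤ s ^ 3 := by positivity
    linarith
  · have : s ^ 2 ≤ s ^ 3 := pow_le_pow_right₀ h (by norm_num)
    linarith

end Grow

open Grow in
theorem grow (D : Dat) (h : IsL D) (h1 : SB1 D) : SGrow D := by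
  obtain ⟨-, hXX, -, -⟩ := h1
  obtain ⟨C, c1, c2, hc1, hc2, hΦ⟩ := h.Φ_dec
  have hC : 0 ≤ C := by
    by_contra hneg
    push Not at hneg
    have h0 := hΦ 0
    have h1 : 0 ≤ |D.Φ 0| := abs_nonneg _
    have h2 : C * Real.exp (-c1 * Real.exp (c2 * |(0 : ℝ)|)) < 0 :=
      mul_neg_of_neg_of_pos hneg (Real.exp_pos _)
    linarith
  obtain ⟨a, ha⟩ : ∃ a : ℝ, a = c1 * c2 ^ 3 / 6 := ⟨_, rfl⟩
  have ha0 : 0 < a := by rw [ha]; positivity
  obtain ⟨I0, hI0⟩ : ∃ I0 : ℝ, I0 = ∫ t : ℝ, Real.exp (-(a / 2) * t ^ 2) := ⟨_, rfl⟩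
  have hI0n : 0 ≤ I0 := by
    rw [hI0]; exact integral_nonneg fun t => (Real.exp_pos _).le
  refine ⟨(1 + 2 / a) + C * Real.exp (a / 2) * I0, fun x => ?_⟩
  obtain ⟨z, hz⟩ : ∃ z : ℂ, z ^ 2 = x := by
    obtain ⟨z, hz⟩ := IsAlgClosed.exists_pow_nat_eq x (by norm_num : 0 < 2)
    exact ⟨z, hz⟩
  have hu1 : (1 : ℝ) ≤ (1 + ‖x‖) ^ (1 / 4 : ℝ) :=
    Real.one_le_rpow (by have := norm_nonneg x; linarith) (by norm_num)
  obtain ⟨u, hu⟩ : ∃ u : ℝ, u = (1 + ‖x‖) ^ (1 / 4 : ℝ) := ⟨_, rfl⟩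
  rw [← hu] at hu1
  have hx0 : (0 : ℝ) ≤ 1 + ‖x‖ := by positivity
  have hu3 : (1 + ‖x‖) ^ (3 / 4 : ℝ) = u ^ 3 := by
    rw [hu, ← Real.rpow_natCast, ← Real.rpow_mul hx0]; norm_num
  have hu4 : u ^ 4 = 1 + ‖x‖ := by
    rw [hu, ← Real.rpow_natCast, ← Real.rpow_mul hx0]; norm_num
  rw [hu3]
  have hu31 : 1 ≤ u ^ 3 := one_le_pow₀ hu1
  have hy : |z.re| ≤ u ^ 2 := by
    have h1 : |z.re| ≤ ‖z‖ := abs_re_le_norm z
    have h2 : ‖z‖ ^ 2 = ‖x‖ := by rw [← hz, norm_pow]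
    have h3 : ‖z‖ ^ 2 ≤ (u ^ 2) ^ 2 := by
      rw [h2]; nlinarith
    exact h1.trans (le_of_sq_le_sq h3 (by positivity))
  have hpt : ∀ t : ℝ, ‖((D.Φ t : ℝ) : ℂ) * cexp (z * t)‖ ≤
      C * Real.exp ((1 + 2 / a) * u ^ 3) * Real.exp (a / 2) * Real.exp (-(a / 2) * t ^ 2) := by
    intro t
    rw [norm_mul, Complex.norm_real, Complex.norm_exp, Real.norm_eq_abs]
    have hs : 0 ≤ |t| := abs_nonneg t
    have e1 : (z * (t : ℂ)).re ≤ u ^ 2 * |t| := by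
      have : (z * (t : ℂ)).re = z.re * t := by simp
      rw [this]
      calc z.re * t ≤ |z.re * t| := le_abs_self _
        _ = |z.re| * |t| := abs_mul _ _
        _ ≤ u ^ 2 * |t| := mul_le_mul_of_nonneg_right hy hs
    have e2 : a * |t| ^ 3 ≤ c1 * Real.exp (c2 * |t|) := by
      have h1 : (c2 * |t|) ^ 3 / 6 ≤ Real.exp (c2 * |t|) := by
        have := Real.pow_div_factorial_le_exp (c2 * |t|) (by positivity) 3
        simpa [Nat.factorial] using this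
      have h2 : c1 * ((c2 * |t|) ^ 3 / 6) ≤ c1 * Real.exp (c2 * |t|) :=
        mul_le_mul_of_nonneg_left h1 hc1.le
      have h3 : c1 * ((c2 * |t|) ^ 3 / 6) = a * |t| ^ 3 := by rw [ha]; ring
      linarith
    have e3 := young ha0 hu1 hs
    have e4 : |t| ^ 2 - 1 ≤ |t| ^ 3 := cube_sq hs
    have e5 : |t| ^ 2 = t ^ 2 := sq_abs t
    have e6 : -c1 * Real.exp (c2 * |t|) + u ^ 2 * |t| ≤
        (1 + 2 / a) * u ^ 3 + a / 2 + -(a / 2) * t ^ 2 := by
      have e7 : a / 2 * (|t| ^ 2 - 1) ≤ a / 2 * |t| ^ 3 :=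
        mul_le_mul_of_nonneg_left e4 (by positivity)
      rw [e5] at e7
      nlinarith
    calc |D.Φ t| * Real.exp (z * (t : ℂ)).re
        ≤ (C * Real.exp (-c1 * Real.exp (c2 * |t|))) * Real.exp (u ^ 2 * |t|) :=
          mul_le_mul (hΦ t) (Real.exp_le_exp.2 e1) (Real.exp_pos _).le
            (mul_nonneg hC (Real.exp_pos _).le)
      _ = C * Real.exp (-c1 * Real.exp (c2 * |t|) + u ^ 2 * |t|) := by
          rw [Real.exp_add]; ring
      _ ≤ C * Real.exp ((1 + 2 / a) * u ^ 3 + a / 2 + -(a / 2) * t ^ 2) :=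
          mul_le_mul_of_nonneg_left (Real.exp_le_exp.2 e6) hC
      _ = C * Real.exp ((1 + 2 / a) * u ^ 3) * Real.exp (a / 2) *
            Real.exp (-(a / 2) * t ^ 2) := by
          rw [Real.exp_add, Real.exp_add]; ring
  have hint : Integrable (fun t : ℝ => C * Real.exp ((1 + 2 / a) * u ^ 3) * Real.exp (a / 2) *
      Real.exp (-(a / 2) * t ^ 2)) :=
    (integrable_exp_neg_mul_sq (by positivity : 0 < a / 2)).const_mul _
  have e1 := hXX z
  rw [hz] at e1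
  rw [e1, h.XX_eq z]
  calc ‖∫ t : ℝ, ((D.Φ t : ℝ) : ℂ) * cexp (z * t)‖
      ≤ ∫ t : ℝ, C * Real.exp ((1 + 2 / a) * u ^ 3) * Real.exp (a / 2) *
          Real.exp (-(a / 2) * t ^ 2) :=
        norm_integral_le_of_norm_le hint (Eventually.of_forall hpt)
    _ = C * Real.exp ((1 + 2 / a) * u ^ 3) * Real.exp (a / 2) * I0 := by
        rw [integral_const_mul, ← hI0]
    _ = Real.exp ((1 + 2 / a) * u ^ 3) * (C * Real.exp (a / 2) * I0) := by ring
    _ ≤ Real.exp ((1 + 2 / a) * u ^ 3) * Real.exp (C * Real.exp (a / 2) * I0 * u ^ 3) := by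
        apply mul_le_mul_of_nonneg_left _ (Real.exp_pos _).le
        have h2 : 0 ≤ C * Real.exp (a / 2) * I0 :=
          mul_nonneg (mul_nonneg hC (Real.exp_pos _).le) hI0n
        have h3 : C * Real.exp (a / 2) * I0 ≤ C * Real.exp (a / 2) * I0 * u ^ 3 :=
          le_mul_of_one_le_right h2 hu31
        have h4 := Real.add_one_le_exp (C * Real.exp (a / 2) * I0 * u ^ 3)
        linarith
    _ = Real.exp (((1 + 2 / a) + C * Real.exp (a / 2) * I0) * u ^ 3) := by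
        rw [← Real.exp_add]; ring_nf

end Pool.Agent.H471R3.GJ
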