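import Pool.Agent.H471R3.GJ.Hecke

set_option autoImplicit false

/-!
# Assembly: a Hecke series gives standing data (task HISL)
-/

namespace Pool.Agent.H471R3.GJ

open Complex Filter Topology Polynomial

theorem isL (H : Hk) (h : IsHk H) (h1 : SPhi H) (h2 : SLog H) (h3 : SXX H) : SIsL H := by
  have hp : (1 : ℝ) ≤ (H.p : ℝ) := by exact_mod_cast h.p_pos
  have hB := h.B_one
  have hβ := h.β_nonneg
  have hkp : 0 < kp H := by unfold kp; linarith
  have hκ : 0 < (H.p : ℝ) * kp H := mul_pos (by linarith) hkp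
  obtain ⟨c1, c2, c3, c4⟩ := h1
  exact {
    κ_pos := hκ
    c_pos := by
      change (0 : ℝ) < 1 / (H.p : ℝ)
      positivity
    A_nonneg := hβ
    A0_one := hB
    w_large := by
      change 20 * ((H.p : ℝ) * kp H + H.β + 1) ≤ 20 * (H.p * kp H + H.β + 1) + 24 + 2 * H.B
      linarith
    w_large2 := by
      change 4000 * H.B ≤ (2 : ℝ) ^ ((20 * (H.p * kp H + H.β + 1) + 24 + 2 * H.B) / 2)
      have e1 : (2 : ℝ) ^ (12 + H.B) ≤
          (2 : ℝ) ^ ((20 * (H.p * kp H + H.β + 1) + 24 + 2 * H.B) / 2) := by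
        apply Real.rpow_le_rpow_of_exponent_le (by norm_num)
        linarith
      have e2 : (2 : ℝ) ^ (12 + H.B) = 4096 * (2 : ℝ) ^ H.B := by
        rw [Real.rpow_add (by norm_num)]
        norm_num
      have e3 : H.B ≤ (2 : ℝ) ^ H.B := by
        have := one_add_mul_self_le_rpow_one_add (s := 1) (by norm_num) hB
        have e4 : (1 : ℝ) + 1 = 2 := by norm_num
        rw [e4] at this
        linarith
      rw [e2] at e1
      linarith
    Φ_cont := c1
    Φ_even := fun t => by
      have := c2 t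
      rw [one_mul] at this
      exact this
    Φ_pos := c3
    Φ_dec := c4
    XX_eq := fun z => rfl
    XX_zero := h3.2.2
    HH_diff := h2.1
    HH_log := h2.2
    a_one := by
      change ((H.b 1 * (((1 : ℕ) : ℝ)) ^ (-(H.p * H.k / 2)) : ℝ) : ℂ) = 1
      rw [h.b_one, Nat.cast_one, Real.one_rpow]
      simp
    a_le := by
      intro m hm
      change ‖((H.b m * (m : ℝ) ^ (-(H.p * H.k / 2)) : ℝ) : ℂ)‖ ≤ H.B * (m : ℝ) ^ H.β
      have hm' : (1 : ℝ) ≤ (m : ℝ) := by exact_mod_cast hm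
      rw [Complex.norm_real, Real.norm_eq_abs, abs_mul,
        abs_of_nonneg (Real.rpow_nonneg (by linarith : (0 : ℝ) ≤ m) _)]
      have e1 : (m : ℝ) ^ (-(H.p * H.k / 2)) ≤ 1 := by
        apply Real.rpow_le_one_of_one_le_of_nonpos hm'
        have := h.k_pos
        have : 0 ≤ (H.p : ℝ) * H.k / 2 := by positivity
        linarith
      calc |H.b m| * (m : ℝ) ^ (-(H.p * H.k / 2)) ≤ |H.b m| * 1 :=
            mul_le_mul_of_nonneg_left e1 (abs_nonneg _)
        _ = |H.b m| := mul_one _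
        _ ≤ _ := h.b_le m hm
    XX_dir := h3.2.1 }

end Pool.Agent.H471R3.GJ
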