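import Pool.Agent.H471R3.GJ.Hecke

set_option autoImplicit false

/-!
# The Mellin integral of a Hecke series as a Fourier-Laplace integral
-/

namespace Pool.Agent.H471R3.GJ

open Complex Filter Topology MeasureTheory

namespace HMel

theorem kp_pos (H : Hk) (h : IsHk H) : 0 < kp H := by
  have h1 := h.β_nonneg
  have h2 := h.B_one
  unfold kp
  linarith

theorem image_exp (K : ℝ) (hK : 0 < K) :
    (fun t : ℝ => Real.exp (t / K)) '' Set.univ = Set.Ioi 0 := by
  ext y
  constructor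
  · rintro ⟨t, _, rfl⟩
    exact Real.exp_pos _
  · intro hy
    refine ⟨K * Real.log y, Set.mem_univ _, ?_⟩
    have h1 : K * Real.log y / K = Real.log y := by field_simp
    show Real.exp (K * Real.log y / K) = y
    rw [h1, Real.exp_log hy]

theorem subst (K : ℝ) (hK : 0 < K) (g : ℝ → ℂ) :
    ∫ y in Set.Ioi (0 : ℝ), g y = ∫ t : ℝ, (Real.exp (t / K) / K) • g (Real.exp (t / K)) := by
  have h1 := integral_image_eq_integral_abs_deriv_smul (s := Set.univ)
    (f := fun t : ℝ => Real.exp (t / K)) (f' := fun t : ℝ => Real.exp (t / K) / K)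
    MeasurableSet.univ (fun x _ => ?_) ?_ g
  · rw [image_exp K hK] at h1
    rw [h1, Measure.restrict_univ]
    refine integral_congr_ae (Eventually.of_forall fun t => ?_)
    show |Real.exp (t / K) / K| • g (Real.exp (t / K)) = _
    rw [abs_of_pos (div_pos (Real.exp_pos _) hK)]
  · apply HasDerivAt.hasDerivWithinAt
    have h2 : HasDerivAt (fun t : ℝ => t / K) (1 / K) x := (hasDerivAt_id x).div_const K
    have h3 := h2.exp
    have h4 : Real.exp (x / K) * (1 / K) = Real.exp (x / K) / K := by ring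
    rw [h4] at h3
    exact h3
  · intro a _ b _ hab
    have h2 : a / K = b / K := Real.exp_injective hab
    have h3 := (div_left_inj' hK.ne').mp h2
    exact h3

end HMel

theorem mel (H : Hk) (h : IsHk H) (h1 : SKer H) : SMel H := by
  intro z
  have hK := HMel.kp_pos H h
  unfold mellin
  rw [HMel.subst (kp H) hK]
  refine integral_congr_ae (Eventually.of_forall fun t => ?_)
  show (Real.exp (t / kp H) / kp H) • (((Real.exp (t / kp H) : ℝ) : ℂ) ^ (sH H z - 1) •
    ((H.φ (Real.exp (t / kp H)) : ℝ) : ℂ)) = ((Phi0 H t : ℝ) : ℂ) * cexp (z * t)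
  have hKc : ((kp H : ℝ) : ℂ) ≠ 0 := by exact_mod_cast hK.ne'
  have h2 : ((Real.exp (t / kp H) : ℝ) : ℂ) ^ (sH H z - 1) =
      cexp (((t / kp H : ℝ) : ℂ) * (sH H z - 1)) := by
    rw [Complex.cpow_def_of_ne_zero (by exact_mod_cast (Real.exp_pos _).ne')]
    rw [← Complex.ofReal_log (Real.exp_pos _).le, Real.log_exp]
  rw [h2]
  unfold Phi0 sH
  rw [Complex.real_smul, smul_eq_mul]
  push_cast
  have h3 : cexp ((t : ℂ) / (kp H : ℂ)) * cexp ((t : ℂ) / (kp H : ℂ) *
      ((H.k : ℂ) / 2 + (kp H : ℂ) * z - 1)) =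
      cexp ((H.k : ℂ) / 2 * (t : ℂ) / (kp H : ℂ)) * cexp (z * t) := by
    rw [← Complex.exp_add, ← Complex.exp_add]
    congr 1
    field_simp
    ring
  calc cexp ((t : ℂ) / (kp H : ℂ)) / (kp H : ℂ) * (cexp ((t : ℂ) / (kp H : ℂ) *
      ((H.k : ℂ) / 2 + (kp H : ℂ) * z - 1)) * (H.φ (Real.exp (t / kp H)) : ℂ))
      = (cexp ((t : ℂ) / (kp H : ℂ)) * cexp ((t : ℂ) / (kp H : ℂ) *
      ((H.k : ℂ) / 2 + (kp H : ℂ) * z - 1))) * (1 / (kp H : ℂ) * (H.φ (Real.exp (t / kp H)) : ℂ)) := by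
        ring
    _ = _ := by rw [h3]; ring

end Pool.Agent.H471R3.GJ
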