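import Pool.Agent.H471R3.GJ.Hecke

set_option autoImplicit false

/-! # Primitives of odd kernels -/

namespace Pool.Agent.H471R3.GJ

open Complex Filter Topology Polynomial

namespace HOdd

open MeasureTheory Set

theorem exp_abs_bound (c1 c2 b : ℝ) (h1 : 0 < c1) (h2 : 0 < c2) :
    ∃ K : ℝ, 0 < K ∧ ∀ t : ℝ, Real.exp (b * |t|) * Real.exp (-c1 * Real.exp (c2 * |t|)) ≤
      K * Real.exp (-(c1 * c2 ^ 2 / 4) * t ^ 2) := by
  refine ⟨Real.exp (b ^ 2 / (c1 * c2 ^ 2)), Real.exp_pos _, fun t => ?_⟩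
  rw [← Real.exp_add, ← Real.exp_add]
  apply Real.exp_le_exp.mpr
  have h3 : 0 ≤ c2 * |t| := by positivity
  have h4 := Real.quadratic_le_exp_of_nonneg h3
  have h5 : (c2 * |t|) ^ 2 = c2 ^ 2 * t ^ 2 := by rw [mul_pow, sq_abs]
  have h6 : c1 * (c2 ^ 2 * t ^ 2 / 2) ≤ c1 * Real.exp (c2 * |t|) := by
    apply mul_le_mul_of_nonneg_left _ h1.le
    rw [h5] at h4
    linarith
  have h7 : b ^ 2 / (c1 * c2 ^ 2) + c1 * c2 ^ 2 / 4 * t ^ 2 - b * |t| =
      (2 * b - c1 * c2 ^ 2 * |t|) ^ 2 / (4 * (c1 * c2 ^ 2)) := by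
    rw [← sq_abs t]
    field_simp
    ring
  have h8 : 0 ≤ (2 * b - c1 * c2 ^ 2 * |t|) ^ 2 / (4 * (c1 * c2 ^ 2)) := by positivity
  linarith

theorem gauss_int (c1 c2 : ℝ) (h1 : 0 < c1) (h2 : 0 < c2) (K : ℝ) :
    Integrable (fun t : ℝ => K * Real.exp (-(c1 * c2 ^ 2 / 4) * t ^ 2)) :=
  (integrable_exp_neg_mul_sq (by positivity)).const_mul K

/-- Domination. -/
theorem dom {f : ℝ → ℝ} (hf : Continuous f) {C c1 c2 : ℝ} (h1 : 0 < c1) (h2 : 0 < c2)
    (hb : ∀ t, |f t| ≤ C * Real.exp (-c1 * Real.exp (c2 * |t|))) (z : ℂ) :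
    Integrable (fun t : ℝ => ((f t : ℝ) : ℂ) * cexp (z * t)) := by
  obtain ⟨K, hK, hK2⟩ := exp_abs_bound c1 c2 ‖z‖ h1 h2
  have hC : 0 ≤ C := by
    have h3 := le_trans (abs_nonneg _) (hb 0)
    exact nonneg_of_mul_nonneg_left h3 (Real.exp_pos _)
  refine (gauss_int c1 c2 h1 h2 (C * K)).mono' ?_ ?_
  · apply Continuous.aestronglyMeasurable
    fun_prop
  · refine Filter.Eventually.of_forall (fun t => ?_)
    rw [norm_mul, Complex.norm_real, Real.norm_eq_abs, Complex.norm_exp]
    have h4 : (z * t).re ≤ ‖z‖ * |t| := by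
      calc (z * t).re ≤ ‖z * t‖ := Complex.re_le_norm _
        _ = ‖z‖ * |t| := by rw [norm_mul, Complex.norm_real, Real.norm_eq_abs]
    calc |f t| * Real.exp (z * t).re
        ≤ (C * Real.exp (-c1 * Real.exp (c2 * |t|))) * Real.exp (‖z‖ * |t|) := by
          gcongr
          exact hb t
      _ = C * (Real.exp (‖z‖ * |t|) * Real.exp (-c1 * Real.exp (c2 * |t|))) := by ring
      _ ≤ C * (K * Real.exp (-(c1 * c2 ^ 2 / 4) * t ^ 2)) :=
          mul_le_mul_of_nonneg_left (hK2 t) hC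
      _ = _ := by ring

theorem dom0 {f : ℝ → ℝ} (hf : Continuous f) {C c1 c2 : ℝ} (h1 : 0 < c1) (h2 : 0 < c2)
    (hb : ∀ t, |f t| ≤ C * Real.exp (-c1 * Real.exp (c2 * |t|))) : Integrable f := by
  have h3 := dom hf h1 h2 hb 0
  have h4 : Integrable (fun t : ℝ => ((f t : ℝ) : ℂ)) := by simpa using h3
  have h5 := h4.re
  simpa using h5

section

variable {f : ℝ → ℝ} (hf : Continuous f) (hi : Integrable f) (ho : ∀ t, f (-t) = -1 * f t)

include ho in
theorem int_zero : ∫ t, f t = 0 := by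
  have h1 : ∫ t, f (-t) = ∫ t, f t := integral_neg_eq_self f volume
  have h2 : ∫ t, f (-t) = - ∫ t, f t := by
    rw [← integral_neg]
    apply integral_congr_ae
    refine Filter.Eventually.of_forall (fun t => ?_)
    simp [ho t]
  linarith

include hi ho in
theorem eq_Iic (t : ℝ) : ∫ u in Ioi t, f u = - ∫ u in Iic t, f u := by
  have h1 := int_zero ho
  have h2 := integral_add_compl (measurableSet_Iic : MeasurableSet (Iic t)) hi
  rw [compl_Iic, h1] at h2
  linarith

include hi ho in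
theorem even (t : ℝ) : ∫ u in Ioi (-t), f u = ∫ u in Ioi t, f u := by
  have h1 : ∫ u in Ioi (-t), f u = - ∫ u in Ioi (-t), f (-u) := by
    rw [← integral_neg]
    apply setIntegral_congr_fun measurableSet_Ioi
    intro u _
    simp [ho u]
  rw [h1, integral_comp_neg_Ioi, neg_neg]
  exact (eq_Iic hi ho t).symm

include hi ho in
theorem eq_int (t : ℝ) : ∫ u in Ioi t, f u = (∫ u in Ioi (0:ℝ), f u) - ∫ u in (0:ℝ)..t, f u := by
  rw [eq_Iic hi ho t, eq_Iic hi ho 0,
    ← intervalIntegral.integral_Iic_sub_Iic hi.integrableOn hi.integrableOn]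
  ring

include hf hi ho in
theorem hasDeriv (t : ℝ) : HasDerivAt (fun t : ℝ => ∫ u in Ioi t, f u) (- f t) t := by
  have h1 : (fun t : ℝ => ∫ u in Ioi t, f u) =
      fun t => (∫ u in Ioi (0:ℝ), f u) - ∫ u in (0:ℝ)..t, f u := by
    funext t
    exact eq_int hi ho t
  rw [h1]
  have h2 := (hf.integral_hasStrictDerivAt 0 t).hasDerivAt
  simpa using h2.const_sub (∫ u in Ioi (0:ℝ), f u)

end

theorem tail {f : ℝ → ℝ} (hf : Continuous f) {C c1 c2 : ℝ} (h1 : 0 < c1) (h2 : 0 < c2)
    (hb : ∀ t, |f t| ≤ C * Real.exp (-c1 * Real.exp (c2 * |t|))) :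
    ∃ C' : ℝ, ∀ t : ℝ, 0 ≤ t → |∫ u in Ioi t, f u| ≤ C' * Real.exp (-(c1 / 2) * Real.exp (c2 * t)) := by
  have hC : 0 ≤ C := by
    have h3 := le_trans (abs_nonneg _) (hb 0)
    exact nonneg_of_mul_nonneg_left h3 (Real.exp_pos _)
  have hi := dom0 hf h1 h2 hb
  set g : ℝ → ℝ := fun u => Real.exp (-(c1 / 2) * Real.exp (c2 * |u|)) with hg
  have hgc : Continuous g := by rw [hg]; fun_prop
  have hgi : Integrable g := by
    refine dom0 hgc (C := 1) (c1 := c1 / 2) (c2 := c2) (by positivity) h2 (fun t => ?_)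
    rw [one_mul, abs_of_pos (Real.exp_pos _)]
  refine ⟨C * ∫ u, g u, fun t ht => ?_⟩
  calc |∫ u in Ioi t, f u| ≤ ∫ u in Ioi t, |f u| := by
        have := norm_integral_le_integral_norm (μ := volume.restrict (Ioi t)) f
        simpa [Real.norm_eq_abs] using this
    _ ≤ ∫ u in Ioi t, (C * Real.exp (-(c1 / 2) * Real.exp (c2 * t))) * g u := by
        apply setIntegral_mono_on hi.abs.integrableOn (hgi.const_mul _).integrableOn measurableSet_Ioi
        intro u hu
        have hu1 : t < u := hu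
        have hu2 : |u| = u := abs_of_pos (by linarith)
        calc |f u| ≤ C * Real.exp (-c1 * Real.exp (c2 * |u|)) := hb u
          _ ≤ C * (Real.exp (-(c1 / 2) * Real.exp (c2 * t)) * g u) := by
              apply mul_le_mul_of_nonneg_left _ hC
              rw [hg, ← Real.exp_add]
              apply Real.exp_le_exp.mpr
              have h5 : Real.exp (c2 * t) ≤ Real.exp (c2 * |u|) := by
                apply Real.exp_le_exp.mpr
                rw [hu2]
                nlinarith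
              nlinarith
          _ = _ := by ring
    _ = (C * Real.exp (-(c1 / 2) * Real.exp (c2 * t))) * ∫ u in Ioi t, g u := by
        rw [integral_const_mul]
    _ ≤ (C * Real.exp (-(c1 / 2) * Real.exp (c2 * t))) * ∫ u, g u := by
        apply mul_le_mul_of_nonneg_left _ (by positivity)
        apply setIntegral_le_integral hgi
        exact Filter.Eventually.of_forall (fun u => (Real.exp_pos _).le)
    _ = _ := by ring

theorem pos {f : ℝ → ℝ} (hi : Integrable f) {T : ℝ} (hT : ∀ t, T ≤ t → 0 < f t) (t : ℝ)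
    (ht : T ≤ t) : 0 < ∫ u in Ioi t, f u := by
  rw [setIntegral_pos_iff_support_of_nonneg_ae]
  · have h1 : Function.support f ∩ Ioi t = Ioi t := by
      apply inter_eq_right.mpr
      intro u hu
      have hu1 : t < u := hu
      exact (hT u (by linarith)).ne'
    rw [h1]
    simp
  · filter_upwards [self_mem_ae_restrict (measurableSet_Ioi : MeasurableSet (Ioi t))] with u hu
    have hu1 : t < u := hu
    exact (hT u (by linarith)).le
  · exact hi.integrableOn

end HOdd

theorem odd : SOdd := by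
  intro Φ h
  obtain ⟨hc, ho, ⟨T, hT⟩, C, c1, c2, hc1, hc2, hb⟩ := h
  have hi := HOdd.dom0 hc hc1 hc2 hb
  have hderiv := HOdd.hasDeriv hc hi ho
  have hcont : Continuous (fun t : ℝ => ∫ u in Set.Ioi t, Φ u) := by
    rw [continuous_iff_continuousAt]
    intro t
    exact (hderiv t).continuousAt
  obtain ⟨C', hC'⟩ := HOdd.tail hc hc1 hc2 hb
  have hdec : ∀ t, |∫ u in Set.Ioi t, Φ u| ≤ C' * Real.exp (-(c1 / 2) * Real.exp (c2 * |t|)) := by
    intro t
    rcases le_total 0 t with ht | ht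
    · rw [abs_of_nonneg ht]
      exact hC' t ht
    · have h3 := hC' (-t) (by linarith)
      rw [HOdd.even hi ho t] at h3
      rw [abs_of_nonpos ht]
      exact h3
  refine ⟨⟨hcont, ?_, ⟨T, ?_⟩, ⟨C', c1 / 2, c2, by positivity, hc2, hdec⟩⟩, ?_⟩
  · intro t
    rw [one_mul]
    exact HOdd.even hi ho t
  · intro t ht
    exact HOdd.pos hi hT t ht
  · intro z
    have hI1 := HOdd.dom hcont (by positivity : 0 < c1 / 2) hc2 hdec z
    have hI2 := HOdd.dom hc hc1 hc2 hb z
    have hv : ∀ x : ℝ, HasDerivAt (fun t : ℝ => cexp (z * t)) (z * cexp (z * x)) x := by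
      intro x
      have h3 : HasDerivAt (fun t : ℝ => z * (t : ℂ)) z x := by
        simpa using (Complex.ofRealCLM.hasDerivAt (x := x)).const_mul z
      have h4 := h3.cexp
      rwa [mul_comm] at h4
    have hu : ∀ x : ℝ, HasDerivAt (fun t : ℝ => (((∫ u in Set.Ioi t, Φ u) : ℝ) : ℂ))
        ((-Φ x : ℝ) : ℂ) x := by
      intro x
      exact (hderiv x).ofReal_comp
    have h5 := MeasureTheory.integral_mul_deriv_eq_deriv_mul_of_integrable (fun x _ => hu x)
      (fun x _ => hv x) ?_ ?_ ?_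
    · have h6 : ∫ x : ℝ, (((∫ u in Set.Ioi x, Φ u) : ℝ) : ℂ) * (z * cexp (z * x)) =
          z * ∫ x : ℝ, (((∫ u in Set.Ioi x, Φ u) : ℝ) : ℂ) * cexp (z * x) := by
        rw [← MeasureTheory.integral_const_mul]
        congr 1
        funext x
        ring
      rw [← h6, h5, ← MeasureTheory.integral_neg]
      congr 1
      funext x
      push_cast
      ring
    · have h7 := hI1.const_mul z
      refine h7.congr (Filter.Eventually.of_forall (fun x => ?_))
      simp only [Pi.mul_apply]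
      ring
    · have h7 := hI2.neg
      refine h7.congr (Filter.Eventually.of_forall (fun x => ?_))
      simp only [Pi.mul_apply, Pi.neg_apply]
      push_cast
      ring
    · exact hI1

theorem phiH (H : Hk) (h : IsHk H) (h1 : SPhi0 H) (h2 : SOdd) : SPhi H := by
  unfold SPhi
  rcases h.ε_or with h5 | h5
  · have h3 : PhiH H = Phi0 H := by
      funext t
      unfold PhiH
      rw [if_pos h5]
    rw [h3]
    have h4 : KerProp (Phi0 H) H.ε := h1
    rwa [h5] at h4
  · have h6 : ¬ H.ε = 1 := by rw [h5]; norm_num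
    have h3 : PhiH H = fun t => ∫ u in Set.Ioi t, Phi0 H u := by
      funext t
      unfold PhiH
      rw [if_neg h6]
    rw [h3]
    have h4 : KerProp (Phi0 H) H.ε := h1
    rw [h5] at h4
    exact (h2 _ h4).1

end Pool.Agent.H471R3.GJ
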