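import Pool.Agent.H471R3.GJ.Hecke

set_option autoImplicit false

/-! # The kernel of a Hecke series -/

namespace Pool.Agent.H471R3.GJ

open Complex Filter Topology Polynomial

namespace HPhi0

theorem kp_pos (H : Hk) (h : IsHk H) : 0 < kp H := by
  have h1 := h.β_nonneg
  have h2 := h.B_one
  unfold kp
  linarith

theorem symm (H : Hk) (h : IsHk H) (t : ℝ) : Phi0 H (-t) = H.ε * Phi0 H t := by
  unfold Phi0
  have h2 := h.φ_inv (Real.exp (t / kp H)) (Real.exp_pos _)
  have h3 : Real.exp (-t / kp H) = 1 / Real.exp (t / kp H) := by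
    rw [neg_div, Real.exp_neg, one_div]
  rw [h3, h2, ← Real.exp_mul]
  have h4 : Real.exp (H.k / 2 * -t / kp H) * Real.exp (t / kp H * H.k) =
      Real.exp (H.k / 2 * t / kp H) := by
    rw [← Real.exp_add]
    congr 1
    ring
  linear_combination (1 / kp H * H.ε * H.φ (Real.exp (t / kp H))) * h4

end HPhi0

theorem phi0 (H : Hk) (h : IsHk H) (h1 : SKer H) : SPhi0 H := by
  have hk : 0 < kp H := HPhi0.kp_pos H h
  obtain ⟨hc, ⟨C, hC⟩, Y, hY1, hY⟩ := h1
  have habs : |H.ε| = 1 := by
    rcases h.ε_or with h5 | h5 <;> rw [h5] <;> simp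
  refine ⟨?_, HPhi0.symm H h, ⟨kp H * Real.log Y, ?_⟩, ?_⟩
  · unfold Phi0
    have h2 : Continuous (fun t : ℝ => H.φ (Real.exp (t / kp H))) := by
      refine hc.comp_continuous (by fun_prop) (fun t => ?_)
      exact Real.exp_pos _
    fun_prop
  · intro t ht
    unfold Phi0
    have h2 : Y ≤ Real.exp (t / kp H) := by
      rw [← Real.log_le_iff_le_exp (by linarith)]
      rw [le_div_iff₀ hk]
      linarith
    have h3 := hY _ h2
    positivity
  · set a : ℝ := Real.pi / H.h with ha
    have ha0 : 0 < a := div_pos Real.pi_pos h.h_pos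
    have hC0 : 0 ≤ C := by
      have h3 := hC 1 le_rfl
      have h4 : 0 ≤ C * Real.exp (-(2 * Real.pi * 1 / H.h)) := le_trans (abs_nonneg _) h3
      exact nonneg_of_mul_nonneg_left h4 (Real.exp_pos _)
    have key : ∀ t : ℝ, 0 ≤ t → |Phi0 H t| ≤
        (1 / kp H * C * Real.exp (H.k ^ 2 / (8 * a))) * Real.exp (-a * Real.exp (1 / kp H * t)) := by
      intro t ht
      have hu : 0 ≤ t / kp H := div_nonneg ht hk.le
      have hy : 1 ≤ Real.exp (t / kp H) := Real.one_le_exp hu
      have h3 := hC _ hy
      unfold Phi0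
      rw [abs_mul, abs_mul, abs_of_pos (Real.exp_pos (H.k / 2 * t / kp H)),
        abs_of_pos (by positivity : (0:ℝ) < 1 / kp H)]
      have h4 : Real.exp (-(2 * Real.pi * Real.exp (t / kp H) / H.h)) * Real.exp (H.k / 2 * t / kp H) ≤
          Real.exp (H.k ^ 2 / (8 * a)) * Real.exp (-a * Real.exp (1 / kp H * t)) := by
        rw [← Real.exp_add, ← Real.exp_add]
        apply Real.exp_le_exp.mpr
        have h5 := Real.quadratic_le_exp_of_nonneg hu
        have h6 : 1 / kp H * t = t / kp H := by ring
        have h7 : 2 * Real.pi * Real.exp (t / kp H) / H.h = 2 * (a * Real.exp (t / kp H)) := by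
          rw [ha]; ring
        rw [h6, h7]
        set u := t / kp H with hudef
        have h8 : H.k / 2 * t / kp H = H.k / 2 * u := by rw [hudef]; ring
        rw [h8]
        have h9 : H.k / 2 * u ≤ H.k ^ 2 / (8 * a) + a * (u ^ 2 / 2) := by
          have h10 : H.k ^ 2 / (8 * a) + a * (u ^ 2 / 2) - H.k / 2 * u =
              (H.k - 2 * a * u) ^ 2 / (8 * a) := by
            field_simp
            ring
          have h11 : 0 ≤ (H.k - 2 * a * u) ^ 2 / (8 * a) := by positivity
          linarith
        have h12 : a * (u ^ 2 / 2) ≤ a * Real.exp u := by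
          apply mul_le_mul_of_nonneg_left _ ha0.le
          linarith
        linarith
      calc 1 / kp H * |H.φ (Real.exp (t / kp H))| * Real.exp (H.k / 2 * t / kp H)
          ≤ 1 / kp H * (C * Real.exp (-(2 * Real.pi * Real.exp (t / kp H) / H.h))) *
            Real.exp (H.k / 2 * t / kp H) := by gcongr
        _ = (1 / kp H * C) * (Real.exp (-(2 * Real.pi * Real.exp (t / kp H) / H.h)) *
            Real.exp (H.k / 2 * t / kp H)) := by ring
        _ ≤ (1 / kp H * C) * (Real.exp (H.k ^ 2 / (8 * a)) *
            Real.exp (-a * Real.exp (1 / kp H * t))) := by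
            apply mul_le_mul_of_nonneg_left h4
            positivity
        _ = _ := by ring
    refine ⟨1 / kp H * C * Real.exp (H.k ^ 2 / (8 * a)), a, 1 / kp H, ha0, by positivity, ?_⟩
    intro t
    rcases le_total 0 t with ht | ht
    · rw [abs_of_nonneg ht]
      exact key t ht
    · have h3 := key (-t) (by linarith)
      have h4 := HPhi0.symm H h (-t)
      rw [neg_neg] at h4
      rw [h4, abs_mul, habs, one_mul, abs_of_nonpos ht]
      exact h3

end Pool.Agent.H471R3.GJ
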