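import Pool.Agent.H471R3.GJ.Hecke

set_option autoImplicit false

/-!
# The completed function in terms of the Mellin transform and of the Dirichlet series
-/

namespace Pool.Agent.H471R3.GJ

open Complex Filter Topology Polynomial

namespace HXX

theorem kp_pos (H : Hk) (h : IsHk H) : 0 < kp H := by
  unfold kp
  have := h.β_nonneg
  have := h.B_one
  linarith

theorem part1 (H : Hk) (h : IsHk H) (h2 : SOdd) (h3 : SPhi0 H) (h4 : SMel H) (z : ℂ) :
    (if H.ε = 1 then 1 else z) * (dat H).XX z =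
      mellin (fun y : ℝ => ((H.φ y : ℝ) : ℂ)) (sH H z) := by
  rw [h4 z]
  by_cases he : H.ε = 1
  · rw [if_pos he, one_mul]
    show (∫ t : ℝ, ((PhiH H t : ℝ) : ℂ) * cexp (z * t)) = _
    have : PhiH H = Phi0 H := by
      funext t
      unfold PhiH
      rw [if_pos he]
    rw [this]
  · rw [if_neg he]
    show z * (∫ t : ℝ, ((PhiH H t : ℝ) : ℂ) * cexp (z * t)) = _
    have : PhiH H = fun t => ∫ u in Set.Ioi t, Phi0 H u := by
      funext t
      unfold PhiH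
      rw [if_neg he]
    rw [this]
    have hm : H.ε = -1 := h.ε_or.resolve_left he
    have h3' : KerProp (Phi0 H) (-1) := by
      have := h3
      unfold SPhi0 at this
      rwa [hm] at this
    exact (h2 (Phi0 H) h3').2 z

theorem sH_re (H : Hk) (z : ℂ) : (sH H z).re = H.k / 2 + kp H * z.re := by
  unfold sH
  rw [Complex.add_re, Complex.ofReal_re, Complex.re_ofReal_mul]

theorem term_eq (H : Hk) (z : ℂ) (m : ℕ) :
    ((H.b (m + 1) : ℝ) : ℂ) * ((m + 1 : ℕ) : ℂ) ^ (-(H.p : ℂ) * sH H z) =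
      (dat H).a (m + 1) * ((m + 1 : ℕ) : ℂ) ^ (-((dat H).κ : ℂ) * z) := by
  show _ = ((H.b (m + 1) * ((m + 1 : ℕ) : ℝ) ^ (-(H.p * H.k / 2)) : ℝ) : ℂ) *
    ((m + 1 : ℕ) : ℂ) ^ (-((H.p * kp H : ℝ) : ℂ) * z)
  have hm : ((m + 1 : ℕ) : ℂ) ≠ 0 := by exact_mod_cast Nat.succ_ne_zero m
  have e1 : -(H.p : ℂ) * sH H z = ((-(H.p * H.k / 2) : ℝ) : ℂ) + -((H.p * kp H : ℝ) : ℂ) * z := by
    unfold sH
    push_cast
    ring
  rw [e1, Complex.cpow_add _ _ hm]
  have e2 : ((m + 1 : ℕ) : ℂ) ^ (((-(H.p * H.k / 2) : ℝ) : ℂ)) =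
      ((((m + 1 : ℕ) : ℝ) ^ (-(H.p * H.k / 2)) : ℝ) : ℂ) := by
    rw [Complex.ofReal_cpow (by positivity)]
    norm_cast
  rw [e2]
  push_cast
  ring

theorem part2 (H : Hk) (h : IsHk H) (h2 : SOdd) (h3 : SPhi0 H) (h4 : SMel H) (h5 : SDir H)
    (z : ℂ) (hz : 0 < z.im) (hz2 : (dat H).A + 2 ≤ (dat H).κ * z.re) :
    (dat H).XX z = (dat H).HH z *
      ∑' m : ℕ, (dat H).a (m + 1) * ((m + 1 : ℕ) : ℂ) ^ (-((dat H).κ : ℂ) * z) := by
  have hkp := kp_pos H h
  have hp : (1 : ℝ) ≤ H.p := by exact_mod_cast h.p_pos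
  have hz3 : H.β + 2 ≤ H.p * kp H * z.re := hz2
  have hβ := h.β_nonneg
  have hzre : 0 < z.re := by
    by_contra hcon
    push Not at hcon
    have : H.p * kp H * z.re ≤ 0 := mul_nonpos_of_nonneg_of_nonpos (by positivity) hcon
    linarith
  have hsre : 0 < (sH H z).re := by
    rw [sH_re]
    have := h.k_pos
    positivity
  have hps : H.β + 1 < H.p * (sH H z).re := by
    rw [sH_re]
    have := h.k_pos
    have h6 : 0 < (H.p : ℝ) * (H.k / 2) := by positivity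
    nlinarith
  have e1 := part1 H h h2 h3 h4 z
  rw [h5 _ hsre hps] at e1
  have e2 : (∑' m : ℕ, ((H.b (m + 1) : ℝ) : ℂ) * ((m + 1 : ℕ) : ℂ) ^ (-(H.p : ℂ) * sH H z)) =
      ∑' m : ℕ, (dat H).a (m + 1) * ((m + 1 : ℕ) : ℂ) ^ (-((dat H).κ : ℂ) * z) :=
    tsum_congr fun m => term_eq H z m
  rw [e2] at e1
  have hne : (if H.ε = 1 then 1 else z) ≠ (0 : ℂ) := by
    split_ifs
    · exact one_ne_zero
    · intro h0
      rw [h0] at hz
      simp at hz
  show (dat H).XX z = (((H.h / (2 * Real.pi) : ℝ) : ℂ) ^ (sH H z) * Complex.Gamma (sH H z) /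
    (if H.ε = 1 then 1 else z)) * _
  rw [div_mul_eq_mul_div, eq_div_iff hne, ← e1]
  ring

/-- the Dirichlet series does not vanish -/
theorem series_ne (H : Hk) (h : IsHk H) (s : ℂ) (hs : H.β + 2 + H.B ≤ H.p * s.re) :
    (∑' m : ℕ, ((H.b (m + 1) : ℝ) : ℂ) * ((m + 1 : ℕ) : ℂ) ^ (-(H.p : ℂ) * s)) ≠ 0 := by
  set f : ℕ → ℂ := fun m => ((H.b (m + 1) : ℝ) : ℂ) * ((m + 1 : ℕ) : ℂ) ^ (-(H.p : ℂ) * s) with hf
  have hB := h.B_one
  have hβ := h.β_nonneg
  have hb2 : H.B ≤ (2 : ℝ) ^ H.B := by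
    have h1 := one_add_mul_self_le_rpow_one_add (s := 1) (by norm_num) hB
    have h2 : (1 : ℝ) + 1 = 2 := by norm_num
    rw [h2] at h1
    linarith
  have hbound : ∀ m : ℕ, ‖f (m + 1)‖ ≤ 1 / ((m + 2 : ℕ) : ℝ) ^ 2 := by
    intro m
    have hm0 : (0 : ℝ) < ((m + 1 + 1 : ℕ) : ℝ) := by positivity
    have hm2 : (2 : ℝ) ≤ ((m + 1 + 1 : ℕ) : ℝ) := by
      push_cast
      have : (0 : ℝ) ≤ m := Nat.cast_nonneg m
      linarith
    have e1 : ‖f (m + 1)‖ = |H.b (m + 1 + 1)| * ((m + 1 + 1 : ℕ) : ℝ) ^ (-(H.p * s.re)) := by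
      rw [hf]
      simp only
      rw [norm_mul, Complex.norm_real, Real.norm_eq_abs,
        Complex.norm_natCast_cpow_of_pos (Nat.succ_pos _)]
      congr 2
      rw [Complex.mul_re]
      simp
    have e2 := h.b_le (m + 1 + 1) (by omega)
    rw [e1]
    calc |H.b (m + 1 + 1)| * ((m + 1 + 1 : ℕ) : ℝ) ^ (-(H.p * s.re))
        ≤ H.B * ((m + 1 + 1 : ℕ) : ℝ) ^ H.β * ((m + 1 + 1 : ℕ) : ℝ) ^ (-(H.p * s.re)) :=
          mul_le_mul_of_nonneg_right e2 (Real.rpow_nonneg hm0.le _)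
      _ = H.B * ((m + 1 + 1 : ℕ) : ℝ) ^ (H.β + -(H.p * s.re)) := by
          rw [Real.rpow_add hm0]
          ring
      _ ≤ H.B * ((m + 1 + 1 : ℕ) : ℝ) ^ (-2 - H.B) := by
          refine mul_le_mul_of_nonneg_left ?_ (by linarith)
          exact Real.rpow_le_rpow_of_exponent_le (by linarith) (by linarith)
      _ = H.B * ((m + 1 + 1 : ℕ) : ℝ) ^ (-H.B) * ((m + 1 + 1 : ℕ) : ℝ) ^ (-2 : ℝ) := by
          rw [show (-2 - H.B : ℝ) = -H.B + -2 by ring, Real.rpow_add hm0]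
          ring
      _ ≤ H.B * (2 : ℝ) ^ (-H.B) * ((m + 1 + 1 : ℕ) : ℝ) ^ (-2 : ℝ) := by
          refine mul_le_mul_of_nonneg_right ?_ (Real.rpow_nonneg hm0.le _)
          refine mul_le_mul_of_nonneg_left ?_ (by linarith)
          exact Real.rpow_le_rpow_of_nonpos (by norm_num) hm2 (by linarith)
      _ ≤ 1 * ((m + 1 + 1 : ℕ) : ℝ) ^ (-2 : ℝ) := by
          refine mul_le_mul_of_nonneg_right ?_ (Real.rpow_nonneg hm0.le _)
          rw [Real.rpow_neg (by norm_num), ← div_eq_mul_inv, div_le_one (by positivity)]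
          exact hb2
      _ = 1 / ((m + 2 : ℕ) : ℝ) ^ 2 := by
          rw [one_mul, Real.rpow_neg hm0.le, one_div]
          congr 1
          exact Real.rpow_two _
  have hz2 : HasSum (fun n : ℕ => 1 / ((n + 2 : ℕ) : ℝ) ^ 2) (Real.pi ^ 2 / 6 - 1) := by
    have h1 := (hasSum_nat_add_iff' 2).2 hasSum_zeta_two
    have h2 : (∑ i ∈ Finset.range 2, 1 / (i : ℝ) ^ 2) = 1 := by
      rw [Finset.sum_range_succ, Finset.sum_range_succ, Finset.sum_range_zero]
      norm_num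
    rw [h2] at h1
    exact h1
  have hsum : Summable f := by
    rw [← summable_nat_add_iff 1]
    exact Summable.of_norm_bounded hz2.summable hbound
  have htail : ‖∑' m : ℕ, f (m + 1)‖ ≤ Real.pi ^ 2 / 6 - 1 := tsum_of_norm_bounded hz2 hbound
  have hpi : Real.pi ^ 2 / 6 - 1 < 1 := by
    have h1 := Real.pi_lt_d2
    have h2 := Real.pi_pos
    nlinarith
  intro h0
  have h1 := hsum.tsum_eq_zero_add
  rw [h0] at h1
  have hf0 : f 0 = 1 := by
    rw [hf]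
    simp [h.b_one]
  rw [hf0] at h1
  have h2 : (∑' m : ℕ, f (m + 1)) = -1 := by linear_combination -h1
  rw [h2, norm_neg, norm_one] at htail
  linarith

theorem ne_zero (H : Hk) (h : IsHk H) (h2 : SOdd) (h3 : SPhi0 H) (h4 : SMel H) (h5 : SDir H)
    (z : ℂ) (hz : 1 / 2 < z.re) : (dat H).XX z ≠ 0 := by
  intro h0
  have hkp := kp_pos H h
  have hk := h.k_pos
  have hp : (1 : ℝ) ≤ H.p := by exact_mod_cast h.p_pos
  have hβ := h.β_nonneg
  have hB := h.B_one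
  have hsre : 0 < (sH H z).re := by
    rw [sH_re]
    have : 0 < z.re := by linarith
    positivity
  have hps : H.β + 2 + H.B ≤ H.p * (sH H z).re := by
    rw [sH_re]
    have h6 : 0 < (H.p : ℝ) * (H.k / 2) := by positivity
    have h7 : kp H / 2 ≤ H.p * (kp H * z.re) := by
      have h8 : kp H / 2 ≤ kp H * z.re := by nlinarith
      have h9 : 0 ≤ kp H * z.re := by linarith
      nlinarith
    have h8 : kp H / 2 = H.β + 2 + H.B := by
      unfold kp
      ring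
    linarith
  have e1 := part1 H h h2 h3 h4 z
  rw [h0, mul_zero, h5 _ hsre (by linarith)] at e1
  have hh : ((H.h / (2 * Real.pi) : ℝ) : ℂ) ^ (sH H z) ≠ 0 := by
    rw [Complex.cpow_def_of_ne_zero]
    · exact Complex.exp_ne_zero _
    · have : 0 < H.h / (2 * Real.pi) := div_pos h.h_pos (by positivity)
      exact_mod_cast this.ne'
  have hg : Complex.Gamma (sH H z) ≠ 0 := Complex.Gamma_ne_zero_of_re_pos hsre
  exact mul_ne_zero (mul_ne_zero hh hg) (series_ne H h _ hps) e1.symm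

theorem XX_even (H : Hk) (h1 : SPhi H) (z : ℂ) : (dat H).XX (-z) = (dat H).XX z := by
  show (∫ t : ℝ, ((PhiH H t : ℝ) : ℂ) * cexp (-z * t)) =
    ∫ t : ℝ, ((PhiH H t : ℝ) : ℂ) * cexp (z * t)
  rw [← MeasureTheory.integral_neg_eq_self (fun t : ℝ => ((PhiH H t : ℝ) : ℂ) * cexp (z * t))]
  congr 1
  funext t
  rw [h1.2.1 t, one_mul]
  push_cast
  congr 2
  ring

end HXX

theorem xx (H : Hk) (h : IsHk H) (h1 : SPhi H) (h2 : SOdd) (h3 : SPhi0 H) (h4 : SMel H)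
    (h5 : SDir H) : SXX H := by
  refine ⟨HXX.part1 H h h2 h3 h4, HXX.part2 H h h2 h3 h4 h5, ?_⟩
  intro z hz
  by_contra hcon
  push Not at hcon
  rcases lt_or_ge 0 z.re with h6 | h6
  · rw [abs_of_pos h6] at hcon
    exact HXX.ne_zero H h h2 h3 h4 h5 z hcon hz
  · rw [abs_of_nonpos h6] at hcon
    refine HXX.ne_zero H h h2 h3 h4 h5 (-z) (by simpa using hcon) ?_
    rw [HXX.XX_even H h1, hz]

end Pool.Agent.H471R3.GJ
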