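import Pool.Agent.H471R3.GJ.Spec

set_option autoImplicit false

namespace Pool.Agent.H471R3.GJ.HypAux

theorem al_pos (D : Dat) (h : IsL D) : 0 < al D := by
  have h1 := h.κ_pos
  have h2 := h.c_pos
  have h3 := h.A_nonneg
  have h4 := h.w_large
  have h5 : 0 < D.w := by linarith
  unfold al
  positivity

end Pool.Agent.H471R3.GJ.HypAux

namespace Pool.Agent.H471R3.GJ

open Complex Filter Topology Polynomial
open Pool.Agent.H24R2.JP (Hyperbolic Par Good App arc SHad SDer SGL SPar SCircle SJensen SNewton SArc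
  SChasse SSector SLimit SJen)

theorem hyp (D : Dat) (h : IsL D) (h1 : SChain D) (h2 : SFacts D) (h3 : SB1 D) : SHyp D := by
  obtain ⟨N1, hN1⟩ := h1
  obtain ⟨k0, hpos, -, -, hjen, -⟩ := h2
  have hal : 0 < al D := HypAux.al_pos D h
  have hlog2 : 0 < Real.log 2 := Real.log_pos (by norm_num)
  refine ⟨max (1 / al D) (((N1 : ℝ) + k0 + 1) / Real.log 2),
    lt_of_lt_of_le (by positivity) (le_max_left _ _), ?_⟩
  intro d n hd hn z hz
  have haev : aeval z (jensen D d n) =
      ∑ j ∈ Finset.range (d + 1), (d.choose j : ℂ) * iteratedDeriv (n + j) (FF D) 0 * z ^ j := by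
    unfold jensen
    rw [map_sum]
    refine Finset.sum_congr rfl fun j _ => ?_
    rw [h3.2.2.2 (n + j)]
    simp
  rw [haev] at hz
  have hd1 : (1 : ℝ) ≤ d := by exact_mod_cast hd
  have hL : Real.log 2 ≤ Real.log (d + 1) := Real.log_le_log (by norm_num) (by linarith)
  have hL0 : 0 < Real.log (d + 1) := lt_of_lt_of_le hlog2 hL
  have hA : 1 / al D * Real.log (d + 1) ≤ n :=
    (mul_le_mul_of_nonneg_right (le_max_left _ _) hL0.le).trans hn
  have hB : ((N1 : ℝ) + k0 + 1) ≤ n := by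
    refine le_trans ?_ hn
    calc ((N1 : ℝ) + k0 + 1) = ((N1 : ℝ) + k0 + 1) / Real.log 2 * Real.log 2 := by field_simp
      _ ≤ ((N1 : ℝ) + k0 + 1) / Real.log 2 * Real.log (d + 1) := by
          apply mul_le_mul_of_nonneg_left hL; positivity
      _ ≤ max (1 / al D) (((N1 : ℝ) + k0 + 1) / Real.log 2) * Real.log (d + 1) :=
          mul_le_mul_of_nonneg_right (le_max_right _ _) hL0.le
  have hN0 : (0 : ℝ) ≤ N1 := Nat.cast_nonneg _
  have hk0 : (0 : ℝ) ≤ k0 := Nat.cast_nonneg _
  have hnN : N1 ≤ n := by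
    have : (N1 : ℝ) ≤ n := by linarith
    exact_mod_cast this
  have hnk : k0 ≤ n := by
    have : (k0 : ℝ) ≤ n := by linarith
    exact_mod_cast this
  set R : ℝ := Real.exp (al D * n) with hR
  have hA' : Real.log (d + 1) ≤ al D * n := by
    rw [div_mul_eq_mul_div, one_mul, div_le_iff₀ hal] at hA
    linarith
  have hdR : (d : ℝ) + 1 ≤ R := by
    rw [hR, ← Real.exp_log (by linarith : (0 : ℝ) < d + 1)]
    exact Real.exp_le_exp.2 hA'
  have hR0 : 0 < R := Real.exp_pos _
  refine hjen n hnk d R hR0 ?_ ?_ z hz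
  · nlinarith
  · intro w hw hw0
    by_contra him
    exact absurd (hN1 n hnN w him hw0) (not_lt.2 hw)

end Pool.Agent.H471R3.GJ
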