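import Pool.Agent.H471R3.GJ.Spec
import Pool.Agent.H24R2.JP.Low

set_option autoImplicit false

namespace Pool.Agent.H471R3.GJ

open Complex Filter Topology Polynomial

namespace Low

theorem nozero (D : Dat) (hB : SB1 D) (hG : SGam D) : ∃ N1 : ℕ, ∀ n : ℕ, N1 ≤ n → ∀ w : ℂ, ‖w‖ ≤ 2 →
    iteratedDeriv n (FF D) w ≠ 0 := by
  obtain ⟨hd, -, -, h0⟩ := hB
  obtain ⟨k0, hpos, -, hlim⟩ := hG
  have hev : ∀ᶠ n in atTop, gam D (n + 1) / gam D n < 1 / 8 :=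
    hlim.eventually (gt_mem_nhds (by norm_num))
  obtain ⟨N1, hN1⟩ := eventually_atTop.1 hev
  refine ⟨max N1 k0, fun n hn w hw hz => ?_⟩
  have hnN : N1 ≤ n := (le_max_left _ _).trans hn
  have hnk : k0 ≤ n := (le_max_right _ _).trans hn
  have hstep : ∀ j : ℕ, gam D (n + j) ≤ gam D n * (1 / 8) ^ j := by
    intro j
    induction j with
    | zero => simp
    | succ j ih =>
      have h1 := hN1 (n + j) (by omega)
      rw [div_lt_iff₀ (hpos _ (by omega))] at h1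
      rw [← Nat.add_assoc, pow_succ]
      nlinarith [hpos n hnk]
  have hD : Differentiable ℂ (iteratedDeriv n (FF D)) :=
    (hd.contDiff (n := ⊤)).differentiable_iteratedDeriv n (by exact_mod_cast WithTop.coe_lt_top _)
  have hs := Complex.hasSum_taylorSeries_of_entire hD 0 w
  rw [hz] at hs
  simp only [Pool.Agent.H24R2.JP.low_iter_add, h0, sub_zero] at hs
  have hs1 := (hasSum_nat_add_iff' 1).2 hs
  simp only [Finset.range_one, Finset.sum_singleton, Nat.factorial_zero, Nat.cast_one, inv_one,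
    pow_zero, one_smul, Nat.add_zero, zero_sub] at hs1
  have hgeo : HasSum (fun j : ℕ => gam D n * (1 / 4) * (1 / 4 : ℝ) ^ j)
      (gam D n * (1 / 4) * (1 - 1 / 4)⁻¹) :=
    (hasSum_geometric_of_lt_one (by norm_num) (by norm_num)).mul_left _
  have hle : ‖-((gam D n : ℝ) : ℂ)‖ ≤ gam D n * (1 / 4) * (1 - 1 / 4)⁻¹ := by
    refine hs1.norm_le_of_bounded hgeo ?_
    intro j
    have hg := hstep (j + 1)
    have hgp := hpos (n + (j + 1)) (by omega)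
    rw [smul_eq_mul, smul_eq_mul, norm_mul, norm_mul, norm_inv, norm_pow, Complex.norm_real,
      Complex.norm_natCast, Real.norm_of_nonneg hgp.le]
    have hf : (((j + 1).factorial : ℝ))⁻¹ ≤ 1 :=
      inv_le_one_of_one_le₀ (by exact_mod_cast Nat.succ_le_of_lt (Nat.factorial_pos _))
    have hf0 : (0 : ℝ) ≤ (((j + 1).factorial : ℝ))⁻¹ := by positivity
    have hw2 : ‖w‖ ^ (j + 1) ≤ 2 ^ (j + 1) := pow_le_pow_left₀ (norm_nonneg _) hw _
    have h3 : ‖w‖ ^ (j + 1) * gam D (n + (j + 1)) ≤ 2 ^ (j + 1) * (gam D n * (1 / 8) ^ (j + 1)) :=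
      mul_le_mul hw2 hg hgp.le (by positivity)
    calc (((j + 1).factorial : ℝ))⁻¹ * (‖w‖ ^ (j + 1) * gam D (n + (j + 1)))
        ≤ 1 * (2 ^ (j + 1) * (gam D n * (1 / 8) ^ (j + 1))) :=
          mul_le_mul hf h3 (mul_nonneg (by positivity) hgp.le) (by norm_num)
      _ = gam D n * (1 / 4) * (1 / 4) ^ j := by
          have : (1 / 4 : ℝ) ^ (j + 1) = 2 ^ (j + 1) * (1 / 8) ^ (j + 1) := by
            rw [← mul_pow]; norm_num
          rw [one_mul, mul_left_comm, ← this, pow_succ]; ring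
  rw [norm_neg, Complex.norm_real, Real.norm_of_nonneg (hpos n hnk).le] at hle
  have := hpos n hnk
  nlinarith

end Low

theorem low (D : Dat) (h1 : SFacts D) (h2 : SGam D) (h3 : SB1 D) : SLow D := by
  intro C
  obtain ⟨N1, hN1⟩ := Low.nozero D h3 h2
  obtain ⟨k0, hpos, ⟨K, hK, hKn⟩, -⟩ := h2
  obtain ⟨-, -, -, h0⟩ := h3
  obtain ⟨k1, -, -, -, -, hnew⟩ := h1
  obtain ⟨N2, hN2⟩ := exists_nat_gt ((8 * K * C ^ 2) ^ 2)
  refine ⟨max N1 (max N2 (max 1 (max k0 k1))), fun n hn w hw => ?_⟩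
  simp only [max_le_iff] at hn
  obtain ⟨hnN1, hnN2, hn1, hnk0, hnk1⟩ := hn
  have hn0 : (0 : ℝ) < n := by exact_mod_cast hn1
  have hw2 : 2 < ‖w‖ := by
    by_contra hc
    exact hN1 n hnN1 w (not_lt.1 hc) hw
  have hN := hnew n hnk1 (hN1 n hnN1) w hw
  rw [h0, h0, h0] at hN
  have hre : (((gam D (n + 1) : ℝ) : ℂ) / ((gam D n : ℝ) : ℂ)) ^ 2 -
      ((gam D (n + 2) : ℝ) : ℂ) / ((gam D n : ℝ) : ℂ)
      = (((gam D (n + 1) / gam D n) ^ 2 - gam D (n + 2) / gam D n : ℝ) : ℂ) := by push_cast; ring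
  rw [hre, Complex.ofReal_re] at hN
  have hle := hN.trans (hKn n hnk0 hn1)
  by_contra hc
  have hc' : ‖w‖ ≤ C * n := not_lt.1 hc
  have hsq : ‖w‖ ^ 2 ≤ (C * n) ^ 2 := pow_le_pow_left₀ (norm_nonneg _) hc' 2
  have hwpos : 0 < ‖w‖ ^ 2 := by positivity
  have h5 : (n : ℝ) ^ (-(5 / 2) : ℝ) = ((n : ℝ) ^ 2 * Real.sqrt n)⁻¹ := by
    rw [Real.rpow_neg hn0.le, Real.sqrt_eq_rpow, ← Real.rpow_natCast, ← Real.rpow_add hn0]
    norm_num
  rw [h5] at hle
  have hs0 : 0 < Real.sqrt n := Real.sqrt_pos.2 hn0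
  have h6 : (n : ℝ) ^ 2 * Real.sqrt n ≤ K * (8 * ‖w‖ ^ 2) := by
    rw [div_le_iff₀ (by positivity), ← div_eq_mul_inv, div_mul_eq_mul_div, le_div_iff₀ (by positivity),
      one_mul] at hle
    exact hle
  have h7 : (n : ℝ) ^ 2 * Real.sqrt n ≤ (n : ℝ) ^ 2 * (8 * K * C ^ 2) := by nlinarith
  have h8 : Real.sqrt n ≤ 8 * K * C ^ 2 := le_of_mul_le_mul_left h7 (by positivity)
  have h9 : (n : ℝ) ≤ (8 * K * C ^ 2) ^ 2 := by
    have := pow_le_pow_left₀ hs0.le h8 2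
    rwa [Real.sq_sqrt hn0.le] at this
  have h10 : (N2 : ℝ) ≤ n := by exact_mod_cast hnN2
  linarith

end Pool.Agent.H471R3.GJ
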