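import Pool.Agent.H471R3.GJ.Spec
import Pool.Agent.H24R2.JP.Mom

set_option autoImplicit false

/-!
# Moments of the kernel (generic version of `Pool.Agent.H24R2.JP.Mom`)
-/

namespace Pool.Agent.H471R3.GJ

open Complex MeasureTheory Filter Topology

namespace Mom

open Pool.Agent.H24R2.JP.MomAux

theorem exp_dom {c1 c2 : ℝ} (h1 : 0 < c1) (h2 : 0 < c2) (K : ℝ) (N : ℕ) :
    ∃ B : ℝ, ∀ s : ℝ, 0 ≤ s → K * (1 + s) ^ N ≤ c1 * Real.exp (c2 * s) + B := by
  obtain ⟨a, ha⟩ : ∃ a : ℝ, a = c1 * Real.exp (-c2) * (c2 ^ (N + 1) / ((N + 1).factorial : ℝ)) :=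
    ⟨_, rfl⟩
  have ha0 : 0 < a := by rw [ha]; positivity
  refine ⟨|K| * (|K| / a) ^ N, fun s hs => ?_⟩
  have h3 : a * (1 + s) ^ (N + 1) ≤ c1 * Real.exp (c2 * s) := by
    have h4 := Real.pow_div_factorial_le_exp (c2 * (1 + s)) (by positivity) (N + 1)
    have h5 : Real.exp (c2 * s) = Real.exp (-c2) * Real.exp (c2 * (1 + s)) := by
      rw [← Real.exp_add]; congr 1; ring
    have h6 : a * (1 + s) ^ (N + 1) =
        c1 * Real.exp (-c2) * ((c2 * (1 + s)) ^ (N + 1) / ((N + 1).factorial : ℝ)) := by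
      rw [ha, mul_pow]; ring
    rw [h5, h6, ← mul_assoc]
    exact mul_le_mul_of_nonneg_left h4 (by positivity)
  rcases le_total (|K| / a) (1 + s) with h | h
  · have h7 : K * (1 + s) ^ N ≤ a * (1 + s) ^ (N + 1) := by
      have h6 : K ≤ a * (1 + s) := (le_abs_self K).trans (by rwa [div_le_iff₀' ha0] at h)
      have h8 : 0 ≤ (1 + s) ^ N := by positivity
      calc K * (1 + s) ^ N ≤ a * (1 + s) * (1 + s) ^ N := mul_le_mul_of_nonneg_right h6 h8
        _ = _ := by ring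
    have h9 : 0 ≤ |K| * (|K| / a) ^ N := by positivity
    linarith
  · have h7 : K * (1 + s) ^ N ≤ |K| * (|K| / a) ^ N := by
      have h8 : (1 + s) ^ N ≤ (|K| / a) ^ N := pow_le_pow_left₀ (by positivity) h N
      exact mul_le_mul (le_abs_self K) h8 (by positivity) (abs_nonneg K)
    have h9 : 0 ≤ c1 * Real.exp (c2 * s) := by positivity
    linarith

theorem const_nonneg {w : ℝ → ℝ} {C c1 c2 : ℝ}
    (hw : ∀ t, |w t| ≤ C * Real.exp (-c1 * Real.exp (c2 * |t|))) : 0 ≤ C := by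
  have h := (abs_nonneg _).trans (hw 0)
  by_contra h'
  have := mul_neg_of_neg_of_pos (not_le.1 h') (Real.exp_pos (-c1 * Real.exp (c2 * |(0 : ℝ)|)))
  linarith

theorem cl_of_dec {w : ℝ → ℝ} (hc : Continuous w) {C c1 c2 : ℝ} (h1 : 0 < c1) (h2 : 0 < c2)
    (hw : ∀ t, |w t| ≤ C * Real.exp (-c1 * Real.exp (c2 * |t|))) : Cl w := by
  refine ⟨hc, fun M => ?_⟩
  obtain ⟨B, hB⟩ := exp_dom h1 h2 (|M| + 1) 2
  have hC : 0 ≤ C := const_nonneg hw
  refine ⟨C * Real.exp B, fun t => ?_⟩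
  have h3 := hB |t| (abs_nonneg t)
  have h4 : 0 ≤ |t| := abs_nonneg t
  have h5 : M * |t| ≤ |M| * |t| := mul_le_mul_of_nonneg_right (le_abs_self M) h4
  have h6 : |t| ^ 2 = t ^ 2 := sq_abs t
  have h7 : 0 ≤ |M| := abs_nonneg M
  calc |w t| * Real.exp (M * |t|) ≤
        C * Real.exp (-c1 * Real.exp (c2 * |t|)) * Real.exp (M * |t|) := by
        exact mul_le_mul_of_nonneg_right (hw t) (Real.exp_pos _).le
    _ = C * Real.exp (-c1 * Real.exp (c2 * |t|) + M * |t|) := by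
        rw [mul_assoc, ← Real.exp_add]
    _ ≤ C * Real.exp (B + -1 * t ^ 2) := by
        refine mul_le_mul_of_nonneg_left (Real.exp_le_exp.2 ?_) hC
        nlinarith [mul_nonneg h7 h4, mul_nonneg h7 (sq_nonneg (1 + |t|)),
          mul_nonneg h7 (sq_nonneg |t|)]
    _ = _ := by rw [Real.exp_add]; ring

/-- The even moments. -/
noncomputable def PP (w : ℝ → ℝ) (k : ℕ) : ℝ := ∫ t : ℝ, t ^ (2 * k) * w t

section Pos

variable {w : ℝ → ℝ} (hw : Cl w) (h0 : ∀ t, 0 ≤ w t)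

include hw

theorem int_pow' (n : ℕ) : Integrable (fun t : ℝ => t ^ n * w t) := (hw.pow n).integrable

include h0

omit hw in
theorem even_nonneg (k : ℕ) (t : ℝ) : 0 ≤ t ^ (2 * k) * w t := by
  have := h0 t
  rw [pow_mul]
  positivity

theorem PP_ge {a : ℝ} (ha : 0 ≤ a) (k : ℕ) :
    a ^ (2 * k) * ∫ t : ℝ in a..(a + 1), w t ≤ PP w k := by
  unfold PP
  rw [intervalIntegral.integral_of_le (by linarith), ← integral_const_mul]
  calc ∫ t in Set.Ioc a (a + 1), a ^ (2 * k) * w t ≤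
        ∫ t in Set.Ioc a (a + 1), t ^ (2 * k) * w t := by
        refine setIntegral_mono_on (hw.integrable.const_mul _).integrableOn
          (int_pow' hw _).integrableOn measurableSet_Ioc fun t ht => ?_
        have h1 : a ^ (2 * k) ≤ t ^ (2 * k) := pow_le_pow_left₀ ha ht.1.le _
        exact mul_le_mul_of_nonneg_right h1 (h0 t)
    _ ≤ _ := setIntegral_le_integral (int_pow' hw _)
      (Eventually.of_forall fun t => even_nonneg h0 k t)

theorem PP_cs {k : ℕ} (hk : 0 < PP w k) : PP w (k + 1) ^ 2 ≤ PP w k * PP w (k + 2) := by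
  have h : ∀ a : ℝ, 0 ≤ a ^ 2 * PP w k + 2 * a * PP w (k + 1) + PP w (k + 2) := by
    intro a
    have e : a ^ 2 * PP w k + 2 * a * PP w (k + 1) + PP w (k + 2) =
        ∫ t : ℝ, t ^ (2 * k) * w t * (a + t ^ 2) ^ 2 := by
      have e1 : ∀ t : ℝ, t ^ (2 * k) * w t * (a + t ^ 2) ^ 2 =
          a ^ 2 * (t ^ (2 * k) * w t) + 2 * a * (t ^ (2 * (k + 1)) * w t) +
            t ^ (2 * (k + 2)) * w t := by
        intro t
        ring
      simp_rw [e1]
      have i1 := (int_pow' hw (2 * k)).const_mul (a ^ 2)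
      have i2 := (int_pow' hw (2 * (k + 1))).const_mul (2 * a)
      have i3 := int_pow' hw (2 * (k + 2))
      have i12 : Integrable fun t : ℝ =>
        a ^ 2 * (t ^ (2 * k) * w t) + 2 * a * (t ^ (2 * (k + 1)) * w t) := i1.add i2
      rw [integral_add i12 i3, integral_add i1 i2, integral_const_mul, integral_const_mul]
      unfold PP
      ring
    rw [e]
    exact integral_nonneg fun t => mul_nonneg (even_nonneg h0 k t) (sq_nonneg _)
  have h1 := h (-(PP w (k + 1)) / PP w k)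
  have h2 : (-(PP w (k + 1)) / PP w k) ^ 2 * PP w k + 2 * (-(PP w (k + 1)) / PP w k) * PP w (k + 1) +
      PP w (k + 2) = (PP w k * PP w (k + 2) - PP w (k + 1) ^ 2) / PP w k := by
    field_simp
    ring
  rw [h2] at h1
  have h3 := (div_nonneg_iff.1 h1).resolve_right (fun h => absurd h.2 (not_le.2 hk))
  linarith [h3.1]

theorem PP_ratio {C c1 c2 : ℝ} (h1 : 0 < c1) (h2 : 0 < c2)
    (hd : ∀ t, |w t| ≤ C * Real.exp (-c1 * Real.exp (c2 * |t|))) {c : ℝ} (hc : 0 < c)
    (hge : ∀ k, c ≤ PP w k) :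
    ∃ K : ℝ, 0 < K ∧ ∀ k : ℕ, PP w (k + 1) ≤ K * ((k : ℝ) + 1) ^ (1 / 4 : ℝ) * PP w k := by
  have hC : 0 ≤ C := const_nonneg hd
  obtain ⟨B, hB⟩ := exp_dom h1 h2 2 9
  obtain ⟨E, hE⟩ : ∃ E : ℝ, E = ∫ t : ℝ, Real.exp (-|t|) := ⟨_, rfl⟩
  have hE0 : 0 ≤ E := by rw [hE]; exact integral_nonneg fun t => (Real.exp_pos _).le
  obtain ⟨A, hA⟩ : ∃ A : ℝ, A = C * Real.exp B := ⟨_, rfl⟩
  have hA0 : 0 ≤ A := by rw [hA]; positivity
  refine ⟨1 + A * E / c, by positivity, fun k => ?_⟩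
  have hk1 : (1 : ℝ) ≤ (k : ℝ) + 1 := by linarith [Nat.cast_nonneg (α := ℝ) k]
  obtain ⟨V, hV⟩ : ∃ V : ℝ, V = ((k : ℝ) + 1) ^ (1 / 4 : ℝ) := ⟨_, rfl⟩
  have hV1 : 1 ≤ V := by rw [hV]; exact Real.one_le_rpow hk1 (by norm_num)
  have hV4 : V ^ 4 = (k : ℝ) + 1 := by
    rw [hV, ← Real.rpow_natCast, ← Real.rpow_mul (by linarith)]
    norm_num
  rw [← hV]
  have htail : ∀ t : ℝ, ((k : ℝ) + 1) ≤ |t| ^ 8 → t ^ (2 * (k + 1)) * w t ≤ A * Real.exp (-|t|) := by
    intro t ht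
    have h0' : 0 ≤ |t| := abs_nonneg t
    have h3 : t ^ (2 * (k + 1)) ≤ Real.exp (2 * |t| ^ 8 * |t|) := by
      have e : t ^ (2 * (k + 1)) = |t| ^ (2 * (k + 1)) := by
        rw [pow_mul, pow_mul, sq_abs]
      rw [e]
      calc |t| ^ (2 * (k + 1)) ≤ (Real.exp |t|) ^ (2 * (k + 1)) := by
            refine pow_le_pow_left₀ h0' ?_ _
            linarith [Real.add_one_le_exp |t|]
        _ = Real.exp ((2 * (k + 1) : ℕ) * |t|) := by rw [Real.exp_nat_mul]
        _ ≤ _ := by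
            refine Real.exp_le_exp.2 ?_
            push_cast
            nlinarith
    have h4 : w t ≤ C * Real.exp (-c1 * Real.exp (c2 * |t|)) := (le_abs_self _).trans (hd t)
    have h5 := hB |t| h0'
    have h6 : 2 * |t| ^ 8 * |t| + |t| ≤ 2 * (1 + |t|) ^ 9 := by
      have e9 : (1 + |t|) ^ 9 = (1 + |t|) ^ 8 * (1 + |t|) := by ring
      have h7 : |t| ^ 8 ≤ (1 + |t|) ^ 8 := pow_le_pow_left₀ h0' (by linarith) 8
      have h8 : 1 + |t| ≤ (1 + |t|) ^ 8 := le_self_pow₀ (by linarith) (by norm_num)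
      have h9 := mul_le_mul_of_nonneg_right h7 h0'
      rw [e9]
      linarith
    calc t ^ (2 * (k + 1)) * w t ≤ Real.exp (2 * |t| ^ 8 * |t|) *
          (C * Real.exp (-c1 * Real.exp (c2 * |t|))) :=
          mul_le_mul h3 h4 (h0 t) (Real.exp_pos _).le
      _ = C * Real.exp (2 * |t| ^ 8 * |t| + -c1 * Real.exp (c2 * |t|)) := by
          rw [Real.exp_add]; ring
      _ ≤ C * Real.exp (B + -|t|) := by
          refine mul_le_mul_of_nonneg_left (Real.exp_le_exp.2 ?_) hC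
          linarith
      _ = _ := by rw [hA, Real.exp_add]; ring
  have hpt : ∀ t : ℝ, t ^ (2 * (k + 1)) * w t ≤
      V * (t ^ (2 * k) * w t) + A * Real.exp (-|t|) := by
    intro t
    have hp := even_nonneg h0 k t
    rcases le_total (t ^ 2) V with h | h
    · have h1 : t ^ (2 * (k + 1)) * w t = t ^ 2 * (t ^ (2 * k) * w t) := by ring
      rw [h1]
      have h2 := mul_le_mul_of_nonneg_right h hp
      have h3 : 0 ≤ A * Real.exp (-|t|) := by positivity
      linarith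
    · have h1 : ((k : ℝ) + 1) ≤ |t| ^ 8 := by
        rw [← hV4]
        have e : |t| ^ 8 = (t ^ 2) ^ 4 := by
          rw [← sq_abs t]; ring
        rw [e]
        exact pow_le_pow_left₀ (by linarith) h 4
      have h2 := htail t h1
      have h3 : 0 ≤ V * (t ^ (2 * k) * w t) := by positivity
      linarith
  have hint : Integrable (fun t : ℝ => Real.exp (-|t|)) :=
    Pool.Agent.Helper242.KK.integrable_exp_neg_abs_aux
  have hI := integral_mono (int_pow' hw (2 * (k + 1)))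
    (((int_pow' hw (2 * k)).const_mul V).add (hint.const_mul A)) hpt
  rw [integral_add' ((int_pow' hw (2 * k)).const_mul V) (hint.const_mul A),
    integral_const_mul, integral_const_mul, ← hE] at hI
  have h5 : PP w (k + 1) ≤ V * PP w k + A * E := by
    unfold PP
    linarith
  have hk := hge k
  have h7 : A * E ≤ A * E / c * V * PP w k := by
    have h8 : A * E / c * V * PP w k ≥ A * E / c * 1 * c := by
      have : 0 < PP w k := lt_of_lt_of_le hc hk
      gcongr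
    have h9 : A * E / c * 1 * c = A * E := by field_simp
    linarith
  nlinarith

end Pos

theorem max_abs (x : ℝ) : |max x 0| ≤ |x| := by
  rw [abs_of_nonneg (le_max_right _ _)]
  exact max_le (le_abs_self x) (abs_nonneg x)

theorem max_sub (x : ℝ) : max x 0 - max (-x) 0 = x := by
  rcases le_total 0 x with h | h
  · rw [max_eq_left h, max_eq_right (by linarith)]; ring
  · rw [max_eq_right h, max_eq_left (by linarith)]; ring

theorem XX_eq_L (D : Dat) (h : IsL D) : D.XX = L D.Φ := by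
  funext z
  exact h.XX_eq z

theorem gam_eq (D : Dat) (h : IsL D) (hw : Cl D.Φ) (k : ℕ) :
    gam D k = (k.factorial : ℝ) / ((2 * k).factorial : ℝ) * PP D.Φ k := by
  unfold gam PP
  rw [XX_eq_L D h, iteratedDeriv_L hw]
  congr 1
  unfold L
  have e : (∫ t : ℝ, ((t ^ (2 * k) * D.Φ t : ℝ) : ℂ) * cexp (0 * t)) =
      ((∫ t : ℝ, t ^ (2 * k) * D.Φ t : ℝ) : ℂ) := by
    rw [← integral_complex_ofReal]
    refine integral_congr_ae (Eventually.of_forall fun t => ?_)
    simp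
  rw [e, ofReal_re]

end Mom

open Mom Pool.Agent.H24R2.JP.MomAux in
theorem mom (D : Dat) (h : IsL D) : SMom D := by
  obtain ⟨T, hT⟩ := h.Φ_pos
  obtain ⟨C, c1, c2, h1, h2, hd⟩ := h.Φ_dec
  have hcl : Cl D.Φ := cl_of_dec h.Φ_cont h1 h2 hd
  obtain ⟨p, hp⟩ : ∃ p : ℝ → ℝ, p = fun t => max (D.Φ t) 0 := ⟨_, rfl⟩
  obtain ⟨m, hm⟩ : ∃ m : ℝ → ℝ, m = fun t => max (-D.Φ t) 0 := ⟨_, rfl⟩
  have hpc : Continuous p := by rw [hp]; exact h.Φ_cont.max continuous_const
  have hmc : Continuous m := by rw [hm]; exact h.Φ_cont.neg.max continuous_const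
  have hpd : ∀ t, |p t| ≤ C * Real.exp (-c1 * Real.exp (c2 * |t|)) := fun t => by
    rw [hp]; exact (max_abs _).trans (hd t)
  have hmd : ∀ t, |m t| ≤ C * Real.exp (-c1 * Real.exp (c2 * |t|)) := fun t => by
    rw [hm]; exact (max_abs _).trans (by rw [abs_neg]; exact hd t)
  have hpcl : Cl p := cl_of_dec hpc h1 h2 hpd
  have hmcl : Cl m := cl_of_dec hmc h1 h2 hmd
  have hp0 : ∀ t, 0 ≤ p t := fun t => by rw [hp]; exact le_max_right _ _
  have hm0 : ∀ t, 0 ≤ m t := fun t => by rw [hm]; exact le_max_right _ _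
  obtain ⟨a, ha⟩ : ∃ a : ℝ, a = max T 1 := ⟨_, rfl⟩
  have ha1 : 1 ≤ a := by rw [ha]; exact le_max_right _ _
  have haT : T ≤ a := by rw [ha]; exact le_max_left _ _
  obtain ⟨c, hc⟩ : ∃ c : ℝ, c = ∫ t : ℝ in (a + 1)..(a + 1 + 1), p t := ⟨_, rfl⟩
  have hc0 : 0 < c := by
    rw [hc]
    refine intervalIntegral.intervalIntegral_pos_of_pos_on (hpc.intervalIntegrable _ _)
      (fun t ht => ?_) (by linarith)
    rw [hp]
    exact lt_of_lt_of_le (hT t (by linarith [ht.1])) (le_max_left _ _)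
  have hge : ∀ k, (a + 1) ^ (2 * k) * c ≤ PP p k := fun k => by
    rw [hc]; exact PP_ge hpcl hp0 (by linarith) k
  have hge1 : ∀ k, c ≤ PP p k := fun k => by
    refine le_trans ?_ (hge k)
    have : (1 : ℝ) ≤ (a + 1) ^ (2 * k) := one_le_pow₀ (by linarith)
    nlinarith
  have hpos : ∀ k, 0 < PP p k := fun k => lt_of_lt_of_le hc0 (hge1 k)
  obtain ⟨K1, hK1, hr⟩ := PP_ratio hpcl hp0 h1 h2 hpd hc0 hge1
  obtain ⟨J, hJ⟩ : ∃ J : ℝ, J = ∫ t : ℝ, m t := ⟨_, rfl⟩
  have hJ0 : 0 ≤ J := by rw [hJ]; exact integral_nonneg hm0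
  have hmle : ∀ k, PP m k ≤ a ^ (2 * k) * J := by
    intro k
    unfold PP
    rw [hJ, ← integral_const_mul]
    refine integral_mono (int_pow' hmcl _) (hmcl.integrable.const_mul _) fun t => ?_
    show t ^ (2 * k) * m t ≤ a ^ (2 * k) * m t
    by_cases ht : |t| ≤ a
    · refine mul_le_mul_of_nonneg_right ?_ (hm0 t)
      rw [pow_mul, ← sq_abs t, ← pow_mul]
      exact pow_le_pow_left₀ (abs_nonneg t) ht _
    · have h3 : 0 < D.Φ t := by
        have h4 : 0 < D.Φ |t| := hT _ (by linarith [not_le.1 ht])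
        rcases abs_cases t with ⟨e, -⟩ | ⟨e, -⟩
        · rwa [e] at h4
        · rw [e, h.Φ_even] at h4
          exact h4
      have h5 : m t = 0 := by
        rw [hm]
        exact max_eq_right (by linarith)
      rw [h5]
      simp
  have hm_nonneg : ∀ k, 0 ≤ PP m k := fun k => integral_nonneg fun t => even_nonneg hm0 k t
  have hsub : ∀ k, PP D.Φ k = PP p k - PP m k := by
    intro k
    unfold PP
    rw [← integral_sub (int_pow' hpcl _) (int_pow' hmcl _)]
    refine integral_congr_ae (Eventually.of_forall fun t => ?_)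
    have := max_sub (D.Φ t)
    simp only [hp, hm]
    rw [← mul_sub, this]
  obtain ⟨δ, hδ⟩ : ∃ δ : ℝ, δ = 2 * Real.log ((a + 1) / a) := ⟨_, rfl⟩
  have hap : 0 < a := by linarith
  have hδ0 : 0 < δ := by
    rw [hδ]
    have : 1 < (a + 1) / a := by rw [lt_div_iff₀ hap]; linarith
    have := Real.log_pos this
    linarith
  have hδe : ∀ k : ℕ, Real.exp (-(δ * k)) = (a / (a + 1)) ^ (2 * k) := by
    intro k
    have e1 : -(δ * k) = ((2 * k : ℕ) : ℝ) * Real.log (a / (a + 1)) := by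
      have e2 : Real.log (a / (a + 1)) = -Real.log ((a + 1) / a) := by
        rw [← Real.log_inv, inv_div]
      rw [e2, hδ]
      push_cast
      ring
    rw [e1, Real.exp_nat_mul, Real.exp_log (by positivity)]
  obtain ⟨K, hK⟩ : ∃ K : ℝ, K = K1 + J / c + 1 := ⟨_, rfl⟩
  have hK0 : 0 < K := by rw [hK]; positivity
  have hdiff : ∀ k, |PP D.Φ k - PP p k| ≤ K * Real.exp (-(δ * k)) * PP p k := by
    intro k
    have e : PP D.Φ k - PP p k = -PP m k := by rw [hsub]; ring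
    rw [e, abs_neg, abs_of_nonneg (hm_nonneg k), hδe]
    have h3 : a ^ (2 * k) * J ≤ J / c * (a / (a + 1)) ^ (2 * k) * PP p k := by
      have h4 := mul_le_mul_of_nonneg_left (hge k)
        (show 0 ≤ J / c * (a / (a + 1)) ^ (2 * k) by positivity)
      have h5 : J / c * (a / (a + 1)) ^ (2 * k) * ((a + 1) ^ (2 * k) * c) = a ^ (2 * k) * J := by
        rw [div_pow]
        field_simp
      linarith
    have h6 : J / c * (a / (a + 1)) ^ (2 * k) * PP p k ≤
        K * (a / (a + 1)) ^ (2 * k) * PP p k := by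
      have h7 : J / c ≤ K := by rw [hK]; linarith
      have h8 := hpos k
      gcongr
    linarith [hmle k]
  refine ⟨PP D.Φ, PP p, ⌈Real.log (2 * K) / δ⌉₊, K, δ, hK0, hδ0, gam_eq D h hcl, hpos,
    fun k => PP_cs hpcl hp0 (hpos k), fun k => ?_, hdiff, fun k hk => ?_⟩
  · refine (hr k).trans ?_
    have h3 : K1 ≤ K := by
      rw [hK]
      have : 0 ≤ J / c := by positivity
      linarith
    have h8 := hpos k
    gcongr
  · have h3 : Real.log (2 * K) / δ ≤ k := Nat.ceil_le.1 hk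
    rw [div_le_iff₀ hδ0] at h3
    have h4 : K * Real.exp (-(δ * k)) ≤ 1 / 2 := by
      have h5 : Real.exp (-(δ * k)) ≤ Real.exp (-Real.log (2 * K)) :=
        Real.exp_le_exp.2 (by linarith)
      rw [Real.exp_neg (Real.log _), Real.exp_log (by positivity)] at h5
      calc K * Real.exp (-(δ * k)) ≤ K * (2 * K)⁻¹ := mul_le_mul_of_nonneg_left h5 hK0.le
        _ = 1 / 2 := by field_simp
    have h6 := hdiff k
    have h7 := hpos k
    have h8 := (abs_le.1 h6).1
    have h9 := mul_le_mul_of_nonneg_right h4 h7.le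
    linarith

open Mom Pool.Agent.H24R2.JP.MomAux in
theorem gamPos (D : Dat) (h : IsL D) : SGamPos D := by
  intro hpos k
  obtain ⟨C, c1, c2, h1, h2, hd⟩ := h.Φ_dec
  have hcl : Cl D.Φ := cl_of_dec h.Φ_cont h1 h2 hd
  rw [gam_eq D h hcl]
  have h3 : 0 < ∫ t : ℝ in (1 : ℝ)..(1 + 1), D.Φ t :=
    intervalIntegral.intervalIntegral_pos_of_pos (h.Φ_cont.intervalIntegrable _ _) hpos
      (by norm_num)
  have h4 := PP_ge hcl (fun t => (hpos t).le) zero_le_one k
  rw [one_pow, one_mul] at h4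
  have h5 : 0 < PP D.Φ k := lt_of_lt_of_le h3 h4
  positivity

end Pool.Agent.H471R3.GJ
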