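import Pool.Agent.H471R3.GJ.Prod
import Pool.Agent.H471R3.GJ.Good
import Pool.Agent.H24R2.JP.Sector
import Pool.Agent.H24R2.JP.Der

set_option autoImplicit false

/-!
# Purely imaginary zeros imply nonpositive zeros of the Jensen polynomials
-/

namespace Pool.Agent.H471R3.GJ

open Complex Filter Topology Polynomial
open Pool.Agent.H24R2.JP (Hyperbolic Par Good App arc SHad SDer SGL SPar SCircle SJensen SNewton SArc
  SChasse SSector SLimit SJen)

namespace NH1

open Pool.Agent.H24R2.JP.SectorAux (op op_mul op_C op_X op_lin op_pow)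

/-- zero, or all roots in `(-∞, 0]` -/
def NN (Q : ℂ[X]) : Prop := Q = 0 ∨ ∀ z, Q.IsRoot z → z.im = 0 ∧ z.re ≤ 0

lemma lin_NN (Q : ℂ[X]) (hQ : NN Q) (r : ℝ) (hr : r ≤ 0) :
    NN (derivative Q - C (r : ℂ) * Q) := by
  rcases hQ with hQ | hQ
  · left; rw [hQ]; simp
  by_cases hdeg : Q.natDegree = 0
  · obtain ⟨c, rfl⟩ := natDegree_eq_zero.1 hdeg
    rw [derivative_C, zero_sub]
    by_cases hr0 : r = 0
    · left; rw [hr0]; simp
    right
    intro z hz
    apply hQ z
    rw [IsRoot, eval_neg, eval_mul, eval_C, neg_eq_zero, mul_eq_zero] at hz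
    rcases hz with h | h
    · exact absurd (by exact_mod_cast h) hr0
    · exact h
  right
  intro z hz
  by_contra hcon
  have hQz : Q.eval z ≠ 0 := fun h => hcon (hQ z h)
  have h1 : (derivative Q).eval z = (r : ℂ) * Q.eval z := by
    have := hz
    rw [IsRoot, eval_sub, eval_mul, eval_C, sub_eq_zero] at this
    exact this
  have h2 := (IsAlgClosed.splits Q).eval_derivative_div_eval_of_ne_zero hQz
  rw [h1, mul_div_assoc, div_self hQz, mul_one] at h2
  have hQ0 : Q ≠ 0 := by rintro rfl; simp at hQz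
  obtain ⟨x0, hx0⟩ := IsAlgClosed.exists_root Q (by
    rw [degree_eq_natDegree hQ0]; exact_mod_cast hdeg)
  have hroots : ∀ x ∈ Q.roots, x.im = 0 ∧ x.re ≤ 0 := fun x hx => hQ x (isRoot_of_mem_roots hx)
  have hne : Q.roots ≠ 0 := by
    intro h
    have := (mem_roots hQ0).2 hx0
    rw [h] at this
    simp at this
  by_cases him : z.im = 0
  · have hre : 0 < z.re := by
      by_contra h
      exact hcon ⟨him, not_lt.1 h⟩
    have h4 : ∀ s : Multiset ℂ, (∀ x ∈ s, x.im = 0 ∧ x.re ≤ 0) →
        0 ≤ ((s.map fun x => 1 / (z - x)).sum).re ∧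
        (s ≠ 0 → 0 < ((s.map fun x => 1 / (z - x)).sum).re) := by
      intro s
      induction s using Multiset.induction_on with
      | empty => intro _; simp
      | cons a s ih =>
        intro hs
        obtain ⟨ha, ha'⟩ := hs a (Multiset.mem_cons_self a s)
        obtain ⟨i1, i2⟩ := ih fun x hx => hs x (Multiset.mem_cons_of_mem hx)
        have hpos : 0 < (1 / (z - a)).re := by
          rw [one_div, inv_re]
          have hza : 0 < (z - a).re := by rw [sub_re]; linarith
          have hp : 0 < normSq (z - a) := normSq_pos.2 (by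
            intro h; rw [h] at hza; simp at hza)
          positivity
        rw [Multiset.map_cons, Multiset.sum_cons, add_re]
        constructor
        · linarith
        · intro _; linarith
    have h5 := (h4 Q.roots hroots).2 hne
    rw [← h2, ofReal_re] at h5
    linarith
  · have h3 : ((Q.roots.map fun x => 1 / (z - x)).sum).im = 0 := by
      rw [← h2]; exact ofReal_im r
    have h4 : ∀ s : Multiset ℂ, (∀ x ∈ s, x.im = 0) →
        z.im * ((s.map fun x => 1 / (z - x)).sum).im ≤ 0 ∧
        (s ≠ 0 → z.im * ((s.map fun x => 1 / (z - x)).sum).im < 0) := by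
      intro s
      induction s using Multiset.induction_on with
      | empty => intro _; simp
      | cons a s ih =>
        intro hs
        have ha : a.im = 0 := hs a (Multiset.mem_cons_self a s)
        obtain ⟨i1, i2⟩ := ih fun x hx => hs x (Multiset.mem_cons_of_mem hx)
        have hza : z - a ≠ 0 := by
          intro h
          have : (z - a).im = 0 := by rw [h]; simp
          rw [sub_im, ha, sub_zero] at this
          exact him this
        have hneg : z.im * (1 / (z - a)).im < 0 := by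
          rw [one_div, inv_im, sub_im, ha, sub_zero]
          have hp : 0 < normSq (z - a) := normSq_pos.2 hza
          have : z.im * (-z.im / normSq (z - a)) = -(z.im ^ 2 / normSq (z - a)) := by ring
          rw [this, neg_lt_zero]
          positivity
        rw [Multiset.map_cons, Multiset.sum_cons, add_im, mul_add]
        constructor
        · linarith
        · intro _; linarith
    have h5 := (h4 Q.roots fun x hx => (hroots x hx).1).2 hne
    rw [h3, mul_zero] at h5
    exact lt_irrefl _ h5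

lemma NH_map (P : ℝ[X]) : NH P ↔ NN (P.map (algebraMap ℝ ℂ)) := by
  unfold NH NN
  have e : ∀ z : ℂ, (P.map (algebraMap ℝ ℂ)).IsRoot z ↔ aeval z P = 0 := by
    intro z
    rw [IsRoot, eval_map_algebraMap]
  constructor
  · rintro (h | h)
    · left; rw [h]; simp
    · right; intro z hz; exact h z ((e z).1 hz)
  · rintro (h | h)
    · left
      exact (Polynomial.map_eq_zero_iff (algebraMap ℝ ℂ).injective).1 h
    · right; intro z hz; exact h z ((e z).2 hz)

lemma NH_der (P : ℝ[X]) (h : NH P) : NH (derivative P) := by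
  rw [NH_map] at h ⊢
  have := lin_NN _ h 0 le_rfl
  rwa [ofReal_zero, map_zero, zero_mul, sub_zero, derivative_map] at this

lemma NH_iter (P : ℝ[X]) (h : NH P) (n : ℕ) : NH (derivative^[n] P) := by
  induction n with
  | zero => exact h
  | succ n ih => rw [Function.iterate_succ_apply']; exact NH_der _ ih

lemma op_NN : ∀ (N : ℕ) (f : ℝ[X]), f.natDegree ≤ N → NH f → ∀ Q : ℂ[X], NN Q → NN (op f Q) := by
  intro N
  induction N with
  | zero =>
    intro f hf _ Q hQ
    obtain ⟨c, rfl⟩ := natDegree_eq_zero.1 (Nat.le_zero.1 hf)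
    rw [op_C]
    by_cases hc : c = 0
    · left; rw [hc]; simp
    rcases hQ with hQ | hQ
    · left; rw [hQ, mul_zero]
    right
    intro z hz
    rw [IsRoot, eval_mul, eval_C] at hz
    rcases mul_eq_zero.1 hz with h | h
    · exact absurd (by exact_mod_cast h) hc
    · exact hQ z h
  | succ N ih =>
    intro f hf hs Q hQ
    by_cases hdeg : f.natDegree ≤ N
    · exact ih f hdeg hs Q hQ
    have hfd : f.natDegree = N + 1 := by omega
    have hf0 : f ≠ 0 := by rintro rfl; simp at hfd
    rcases hs with hs | hs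
    · exact absurd hs hf0
    have hdeg0 : f.degree ≠ 0 := by
      rw [degree_eq_natDegree hf0, hfd]
      exact_mod_cast Nat.succ_ne_zero N
    obtain ⟨a, ha⟩ := IsAlgClosed.exists_aeval_eq_zero ℂ f hdeg0
    obtain ⟨him, hre⟩ := hs a ha
    have har : a = ((a.re : ℝ) : ℂ) := by
      apply Complex.ext
      · simp
      · simp [him]
    have hroot : f.IsRoot a.re := by
      rw [har] at ha
      have h1 : aeval ((a.re : ℝ) : ℂ) f = ((f.eval a.re : ℝ) : ℂ) := by
        have := aeval_algebraMap_apply ℂ a.re f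
        simpa using this
      rw [h1] at ha
      exact_mod_cast ha
    obtain ⟨g, hg⟩ := dvd_iff_isRoot.2 hroot
    have hg0 : g ≠ 0 := by rintro rfl; rw [mul_zero] at hg; exact hf0 hg
    have hgdeg : g.natDegree ≤ N := by
      have := hfd
      rw [hg, natDegree_mul (X_sub_C_ne_zero _) hg0, natDegree_X_sub_C] at this
      omega
    have hgs : NH g := by
      right
      intro b hb
      apply hs
      rw [hg, map_mul, hb, mul_zero]
    rw [hg, mul_comm, op_mul, op_lin]
    exact ih g hgdeg hgs _ (lin_NN Q hQ _ hre)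

/-- The estimate which replaces Hurwitz's theorem. -/
lemma est (Q : ℂ[X]) (hQ : NN Q) (d : ℕ) (hd : Q.natDegree ≤ d) (z0 w : ℂ) (δ : ℝ) (hδ0 : 0 < δ)
    (hδ : ∀ r : ℂ, r.im = 0 → r.re ≤ 0 → δ ≤ ‖z0 - r‖) :
    ‖Q.eval w‖ ≤ (1 + ‖w - z0‖ / δ) ^ d * ‖Q.eval z0‖ := by
  rcases hQ with hQ | hQ
  · rw [hQ]; simp
  have hC : 1 ≤ 1 + ‖w - z0‖ / δ := by
    have : 0 ≤ ‖w - z0‖ / δ := by positivity
    linarith
  rw [(IsAlgClosed.splits Q).eval_eq_prod_roots w, (IsAlgClosed.splits Q).eval_eq_prod_roots z0]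
  rw [norm_mul, norm_mul]
  have key : ∀ s : Multiset ℂ, (∀ x ∈ s, x.im = 0 ∧ x.re ≤ 0) →
      ‖(s.map fun x => w - x).prod‖ ≤ (1 + ‖w - z0‖ / δ) ^ (s.card) * ‖(s.map fun x => z0 - x).prod‖ := by
    intro s
    induction s using Multiset.induction_on with
    | empty => intro _; simp
    | cons a s ih =>
      intro hs
      obtain ⟨ha, ha'⟩ := hs a (Multiset.mem_cons_self a s)
      have i1 := ih fun x hx => hs x (Multiset.mem_cons_of_mem hx)
      rw [Multiset.map_cons, Multiset.prod_cons, Multiset.map_cons, Multiset.prod_cons,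
        Multiset.card_cons, norm_mul, norm_mul, pow_succ]
      have h1 : ‖w - a‖ ≤ (1 + ‖w - z0‖ / δ) * ‖z0 - a‖ := by
        have h2 : ‖w - a‖ ≤ ‖w - z0‖ + ‖z0 - a‖ := by
          have : w - a = (w - z0) + (z0 - a) := by ring
          rw [this]; exact norm_add_le _ _
        have h3 := hδ a ha ha'
        have h4 : ‖w - z0‖ ≤ ‖w - z0‖ / δ * ‖z0 - a‖ := by
          rw [div_mul_eq_mul_div, le_div_iff₀ hδ0]
          exact mul_le_mul_of_nonneg_left h3 (norm_nonneg _)
        linarith
      calc ‖w - a‖ * ‖(s.map fun x => w - x).prod‖ ≤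
          ((1 + ‖w - z0‖ / δ) * ‖z0 - a‖) *
            ((1 + ‖w - z0‖ / δ) ^ (s.card) * ‖(s.map fun x => z0 - x).prod‖) := by
            apply mul_le_mul h1 i1 (norm_nonneg _)
            positivity
        _ = _ := by ring
  have k1 := key Q.roots fun x hx => hQ x (isRoot_of_mem_roots hx)
  have k2 : (1 + ‖w - z0‖ / δ) ^ (Q.roots.card) ≤ (1 + ‖w - z0‖ / δ) ^ d := by
    apply pow_le_pow_right₀ hC
    exact (card_roots' Q).trans hd
  calc ‖Q.leadingCoeff‖ * ‖(Q.roots.map fun x => w - x).prod‖ ≤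
      ‖Q.leadingCoeff‖ * ((1 + ‖w - z0‖ / δ) ^ d * ‖(Q.roots.map fun x => z0 - x).prod‖) := by
        apply mul_le_mul_of_nonneg_left _ (norm_nonneg _)
        exact k1.trans (mul_le_mul_of_nonneg_right k2 (norm_nonneg _))
    _ = _ := by ring

/-- The Jensen polynomial of a polynomial. -/
noncomputable def JP (f : ℝ[X]) (d : ℕ) : ℂ[X] := ∑ j ∈ Finset.range (d + 1),
  C ((d.choose j : ℂ) * ((j.factorial : ℂ) * ((f.coeff j : ℝ) : ℂ))) * X ^ j

lemma JP_eval (f : ℝ[X]) (d : ℕ) (z : ℂ) : (JP f d).eval z = ∑ j ∈ Finset.range (d + 1),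
    (d.choose j : ℂ) * ((j.factorial : ℂ) * ((f.coeff j : ℝ) : ℂ)) * z ^ j := by
  unfold JP
  rw [eval_finsetSum]
  apply Finset.sum_congr rfl
  intro j _
  simp only [eval_mul, eval_C, eval_pow, eval_X]

lemma JP_deg (f : ℝ[X]) (d : ℕ) : (JP f d).natDegree ≤ d := by
  unfold JP
  apply natDegree_sum_le_of_forall_le
  intro j hj
  refine (natDegree_C_mul_X_pow_le _ _).trans ?_
  have := Finset.mem_range.1 hj
  omega

lemma JP_NN (f : ℝ[X]) (hf : NH f) (d : ℕ) : NN (JP f d) := by
  have h1 : NN (op f (X ^ d)) := by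
    refine op_NN f.natDegree f le_rfl hf (X ^ d) ?_
    right
    intro z hz
    rw [IsRoot, eval_pow, eval_X] at hz
    have : z = 0 := by
      by_contra h
      exact pow_ne_zero d h hz
    rw [this]
    simp
  have rel : ∀ z : ℂ, z ≠ 0 → (JP f d).eval z = z ^ d * (op f (X ^ d)).eval z⁻¹ := by
    intro z hz
    rw [op_pow, JP_eval, Finset.mul_sum]
    apply Finset.sum_congr rfl
    intro j hj
    have hj' : j ≤ d := by have := Finset.mem_range.1 hj; omega
    have : z ^ j = z ^ d * z⁻¹ ^ (d - j) := by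
      rw [inv_pow, ← div_eq_mul_inv, eq_div_iff (pow_ne_zero _ hz), ← pow_add,
        Nat.add_sub_cancel' hj']
    rw [this]
    ring
  rcases h1 with h1 | h1
  · left
    have h2 : ∀ z : ℂ, z ≠ 0 → (JP f d).eval z = 0 := by
      intro z hz
      rw [rel z hz, h1, eval_zero, mul_zero]
    by_contra h3
    have h4 : Set.Infinite {z : ℂ | (JP f d).IsRoot z} := by
      have h5 : ({0}ᶜ : Set ℂ) ⊆ {z : ℂ | (JP f d).IsRoot z} := by
        intro z hz
        exact h2 z hz
      exact (Set.Finite.infinite_compl (Set.finite_singleton (0 : ℂ))).mono h5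
    exact h3 (eq_zero_of_infinite_isRoot _ h4)
  · right
    intro z hz
    by_cases hz0 : z = 0
    · rw [hz0]; simp
    have h2 : (op f (X ^ d)).IsRoot z⁻¹ := by
      have := rel z hz0
      rw [IsRoot] at hz
      rw [hz] at this
      rcases mul_eq_zero.1 this.symm with h | h
      · exact absurd h (pow_ne_zero _ hz0)
      · exact h
    obtain ⟨h3, h4⟩ := h1 _ h2
    have hp : 0 < normSq z := normSq_pos.2 hz0
    rw [inv_im, div_eq_zero_iff] at h3
    rw [inv_re] at h4
    constructor
    · rcases h3 with h3 | h3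
      · linarith
      · exact absurd h3 hp.ne'
    · by_contra h5
      have : 0 < z.re / normSq z := div_pos (not_le.1 h5) hp
      linarith

end NH1

theorem nh1 (D : Dat) (h1 : SHad) (h2 : SCircle) (h3 : SJensen) (h4 : SB1 D) (h5 : SGrow D)
    (h6 : SZeros D) (h7 : SGam D) (h8 : SGood D) : SNH1 D := by
  intro hRH d n
  obtain ⟨hd, hsq, hc, hi⟩ := h4
  obtain ⟨k0, hk0, -, -⟩ := h7
  have hne : ∀ k, k0 ≤ k → iteratedDeriv k (FF D) 0 ≠ 0 := by
    intro k hk
    rw [hi k]
    exact_mod_cast (hk0 k hk).ne'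
  have hz0 : ∀ x, FF D x = 0 → x.im = 0 ∧ x.re ≤ 0 := by
    intro x hx
    obtain ⟨z, rfl⟩ := IsAlgClosed.exists_pow_nat_eq x (n := 2) (by norm_num)
    rw [hsq z] at hx
    have h8 := hRH z hx
    rw [pow_two, Complex.mul_im, Complex.mul_re, h8]
    constructor
    · ring
    · nlinarith [mul_self_nonneg z.im]
  obtain ⟨m, g, hgd, hg0, hfg, hgc, K, hK⟩ :=
    GoodAux.exists_div (FF D) hd ⟨k0, hne k0 le_rfl⟩ hc h5
  obtain ⟨P, hP, hlim⟩ := h1 g K hgd hg0 hgc hK
  have hNH : ∀ N, NH (Polynomial.X ^ m * P N) := by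
    intro N
    right
    intro x hx
    rw [map_mul, map_pow, aeval_X, mul_eq_zero] at hx
    rcases hx with hx | hx
    · have hx0 : x = 0 := by
        by_contra h
        exact pow_ne_zero m h hx
      rw [hx0]
      simp
    · apply hz0 x
      rw [hfg x, hP N x hx, mul_zero]
  have hApp : App (FF D) (fun N => Polynomial.X ^ m * P N) := by
    refine ⟨fun N x hx => ?_, ?_⟩
    · rw [map_mul, map_pow, aeval_X, mul_eq_zero] at hx
      rcases hx with hx | hx
      · have hx0 : x = 0 := by
          by_contra h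
          exact pow_ne_zero m h hx
        rw [hx0]
        show (0 : ℂ).re + (0 : ℂ).im ^ 2 ≤ 1 / 4
        norm_num
      · apply h6 x
        rw [hfg x, hP N x hx, mul_zero]
    · have h8 : TendstoLocallyUniformly (fun (_ : ℕ) (x : ℂ) => x ^ m) (fun x : ℂ => x ^ m) atTop := by
        intro u hu x
        exact ⟨Set.univ, Filter.univ_mem, Filter.Eventually.of_forall fun N y _ => refl_mem_uniformity hu⟩
      have h9 := h8.mul₀ hlim (continuous_pow m) hgd.continuous
      have e1 : (fun (N : ℕ) (x : ℂ) => aeval x (Polynomial.X ^ m * P N)) =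
          (fun (_ : ℕ) (x : ℂ) => x ^ m) * fun (N : ℕ) (x : ℂ) => aeval x (P N) := by
        funext N x
        simp
      have e2 : FF D = (fun x : ℂ => x ^ m) * g := by
        funext x
        exact hfg x
      rw [e1, e2]
      exact h9
  have hcoef := (Pool.Agent.H24R2.JP.der (FF D) _ hApp n).2
  have hJ : ∀ z : ℂ, aeval z (jensen D d n) =
      ∑ j ∈ Finset.range (d + 1), (d.choose j : ℂ) * iteratedDeriv (n + j) (FF D) 0 * z ^ j := by
    intro z
    unfold jensen
    rw [map_sum]
    apply Finset.sum_congr rfl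
    intro j _
    rw [map_mul, map_pow, aeval_X, aeval_C, hi (n + j)]
    simp
  have hlimJ : ∀ z : ℂ, Tendsto (fun N : ℕ => (NH1.JP (derivative^[n] (Polynomial.X ^ m * P N)) d).eval z)
      atTop (𝓝 (aeval z (jensen D d n))) := by
    intro z
    rw [hJ z]
    simp only [NH1.JP_eval]
    apply tendsto_finsetSum
    intro j _
    exact ((hcoef j).const_mul _).mul_const _
  by_cases hzero : jensen D d n = 0
  · left; exact hzero
  right
  intro z0 hz
  by_contra hcon
  apply hzero
  obtain ⟨δ, hδ0, hδ⟩ : ∃ δ : ℝ, 0 < δ ∧ ∀ r : ℂ, r.im = 0 → r.re ≤ 0 → δ ≤ ‖z0 - r‖ := by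
    by_cases him : z0.im = 0
    · have hre : 0 < z0.re := by
        by_contra h
        exact hcon ⟨him, not_lt.1 h⟩
      refine ⟨z0.re, hre, fun r _ hr => ?_⟩
      have h1 : (z0 - r).re ≤ ‖z0 - r‖ := re_le_norm _
      rw [sub_re] at h1
      linarith
    · refine ⟨|z0.im|, abs_pos.2 him, fun r hr _ => ?_⟩
      have h1 : |(z0 - r).im| ≤ ‖z0 - r‖ := abs_im_le_norm _
      rwa [sub_im, hr, sub_zero] at h1
  have hall : ∀ w : ℂ, aeval w (jensen D d n) = 0 := by
    intro w
    have l1 := (hlimJ w).norm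
    have l2 := ((hlimJ z0).norm).const_mul ((1 + ‖w - z0‖ / δ) ^ d)
    have l3 := le_of_tendsto_of_tendsto' l1 l2 (fun N =>
      NH1.est _ (NH1.JP_NN _ (NH1.NH_iter _ (hNH N) n) d) d (NH1.JP_deg _ d) z0 w δ hδ0 hδ)
    rw [hz, norm_zero, mul_zero] at l3
    exact norm_le_zero_iff.1 l3
  have h9 : (jensen D d n).map (algebraMap ℝ ℂ) = 0 := by
    apply Polynomial.funext
    intro w
    rw [eval_map_algebraMap, hall w, eval_zero]
  exact (Polynomial.map_eq_zero_iff (algebraMap ℝ ℂ).injective).1 h9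

end Pool.Agent.H471R3.GJ
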