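import Pool.Agent.H471R3.GJ.Spec
import Pool.Agent.H24R2.JP.RH2

set_option autoImplicit false

/-!
# Hyperbolicity of all Jensen polynomials of shift `0` implies the Riemann hypothesis

Adaptation (helper287) of `Pool.Agent.H24R2.JP.RH2` (helper962).
-/

namespace Pool.Agent.H471R3.GJ

open Complex Filter Topology Polynomial
open Pool.Agent.H24R2.JP (Hyperbolic rh2_poly rh2_choose rh2_choose_le)

namespace RH2

lemma rh2_summable (D : Dat) (h1 : SB1 D) (x : ℂ) :
    HasSum (fun k : ℕ => ((gam D k : ℝ) : ℂ) / (k.factorial : ℂ) * x ^ k) (FF D x) := by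
  obtain ⟨hd, -, -, hi⟩ := h1
  have h2 := Complex.hasSum_taylorSeries_of_entire hd 0 x
  have h3 : (fun k : ℕ => ((gam D k : ℝ) : ℂ) / (k.factorial : ℂ) * x ^ k) =
      (fun n : ℕ => (n.factorial : ℂ)⁻¹ • (x - 0) ^ n • iteratedDeriv n (FF D) 0) := by
    funext n
    rw [hi n, sub_zero, smul_eq_mul, smul_eq_mul]
    ring
  rw [h3]; exact h2

lemma rh2_aeval_jensen (D : Dat) (d : ℕ) (x : ℂ) : aeval x (jensen D d 0) =
    ∑ j ∈ Finset.range (d + 1), ((d.choose j : ℕ) : ℂ) * ((gam D j : ℝ) : ℂ) * x ^ j := by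
  unfold jensen
  rw [map_sum]
  apply Finset.sum_congr rfl
  intro j _
  simp

lemma rh2_tendsto (D : Dat) (h1 : SB1 D) (hg : ∀ k, 0 < gam D k) (x : ℂ) :
    Tendsto (fun d : ℕ => aeval (x / (d : ℂ)) (jensen D d 0)) atTop (𝓝 (FF D x)) := by
  have hs := rh2_summable D h1 x
  have hsn : Summable (fun k : ℕ => ‖((gam D k : ℝ) : ℂ) / (k.factorial : ℂ) * x ^ k‖) := hs.summable.norm
  have h2 : Tendsto (fun d : ℕ => ∑' j : ℕ, (((((d.choose j : ℕ) : ℝ) / (d : ℝ) ^ j : ℝ)) : ℂ) *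
      (((gam D j : ℝ) : ℂ) * x ^ j)) atTop (𝓝 (∑' j : ℕ, ((gam D j : ℝ) : ℂ) / (j.factorial : ℂ) * x ^ j)) := by
    apply tendsto_tsum_of_dominated_convergence hsn
    · intro j
      have h3 := (rh2_choose j)
      have h4 : Tendsto (fun d : ℕ => ((((d.choose j : ℕ) : ℝ) / (d : ℝ) ^ j : ℝ) : ℂ)) atTop
          (𝓝 ((1 / (j.factorial : ℝ) : ℝ) : ℂ)) := (Complex.continuous_ofReal.tendsto _).comp h3
      have h5 := h4.mul_const (((gam D j : ℝ) : ℂ) * x ^ j)
      have h6 : ((1 / (j.factorial : ℝ) : ℝ) : ℂ) * (((gam D j : ℝ) : ℂ) * x ^ j) =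
          ((gam D j : ℝ) : ℂ) / (j.factorial : ℂ) * x ^ j := by
        push_cast; ring
      rw [← h6]; exact h5
    · filter_upwards with d
      intro j
      have h7 : (0 : ℝ) ≤ ((d.choose j : ℕ) : ℝ) / (d : ℝ) ^ j := by positivity
      rw [norm_mul, Complex.norm_real, Real.norm_of_nonneg h7]
      have h8 : ‖((gam D j : ℝ) : ℂ) / (j.factorial : ℂ) * x ^ j‖ =
          1 / (j.factorial : ℝ) * ‖((gam D j : ℝ) : ℂ) * x ^ j‖ := by
        rw [div_mul_eq_mul_div, norm_div, Complex.norm_natCast]; ring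
      rw [h8]
      exact mul_le_mul_of_nonneg_right (rh2_choose_le d j) (norm_nonneg _)
  rw [hs.tsum_eq] at h2
  refine h2.congr' ?_
  filter_upwards [eventually_ge_atTop 1] with d hd
  have hd' : (d : ℂ) ≠ 0 := by exact_mod_cast (by omega : d ≠ 0)
  rw [rh2_aeval_jensen D, tsum_eq_sum (s := Finset.range (d + 1))]
  · apply Finset.sum_congr rfl
    intro j _
    push_cast
    rw [div_pow]
    field_simp
  · intro j hj
    have hj' : d < j := by simpa using hj
    rw [Nat.choose_eq_zero_of_lt hj']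
    simp

lemma rh2_real (D : Dat) (h1 : SB1 D) (hg : ∀ k, 0 < gam D k) (hJ : ∀ d : ℕ, Hyperbolic (jensen D d 0)) (w : ℂ)
    (hw : FF D w = 0) : w.im = 0 := by
  by_contra him
  obtain ⟨N, hN⟩ := exists_nat_ge (4 * ‖w‖ ^ 2 / |w.im|)
  have hev : ∀ᶠ d : ℕ in atTop, ‖aeval ((0 : ℂ) / (d : ℂ)) (jensen D d 0)‖ ^ (N + 1) ≤
      ‖aeval (w / (d : ℂ)) (jensen D d 0)‖ * ‖aeval ((1 : ℂ) / (d : ℂ)) (jensen D d 0)‖ ^ N := by
    filter_upwards [eventually_ge_atTop 1] with d hd
    have hdr : (0 : ℝ) < d := by exact_mod_cast hd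
    have hdc : (d : ℂ) ≠ 0 := by exact_mod_cast (by omega : d ≠ 0)
    have hcoef : ∀ j, (jensen D d 0).coeff j = ((d.choose j : ℕ) : ℝ) * gam D j := by
      intro j
      unfold jensen
      rw [Polynomial.finsetSum_coeff]
      simp only [Polynomial.coeff_C_mul, Polynomial.coeff_X_pow, Nat.zero_add, mul_ite, mul_one, mul_zero]
      rw [Finset.sum_ite_eq]
      split_ifs with hj
      · rfl
      · have hj' : d < j := by simpa using hj
        rw [Nat.choose_eq_zero_of_lt hj']; simp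
    set P : ℝ[X] := (jensen D d 0).comp (Polynomial.C (1 / (d : ℝ)) * X) with hP
    have hval : ∀ z : ℂ, aeval z P = aeval (z / (d : ℂ)) (jensen D d 0) := by
      intro z
      rw [hP, Polynomial.aeval_comp]
      congr 2
      simp
      ring
    have hPc : ∀ j, P.coeff j = (jensen D d 0).coeff j * (1 / (d : ℝ)) ^ j := by
      intro j
      rw [hP, Polynomial.comp_C_mul_X_coeff]
    have h2 := rh2_poly w N him hN P
      (by rw [hPc, hcoef]; simpa using hg 0)
      (fun j => by rw [hPc, hcoef]; exact mul_nonneg (mul_nonneg (by positivity) (hg j).le) (by positivity))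
      (by
        intro z hz
        rw [hval] at hz
        have h3 := hJ d _ hz
        rw [Complex.div_natCast_im] at h3
        rcases div_eq_zero_iff.mp h3 with h | h
        · exact h
        · exact absurd h hdr.ne')
    rwa [hval, hval, hval] at h2
  have hl0 := ((rh2_tendsto D h1 hg 0).norm).pow (N + 1)
  have hlw := ((rh2_tendsto D h1 hg w).norm).mul (((rh2_tendsto D h1 hg 1).norm).pow N)
  have hle := le_of_tendsto_of_tendsto hl0 hlw hev
  rw [hw, norm_zero, zero_mul] at hle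
  have hFF0 : FF D 0 = ((gam D 0 : ℝ) : ℂ) := by
    have h4 := h1.2.2.2 0
    rwa [iteratedDeriv_zero] at h4
  have hpos : 0 < ‖FF D 0‖ ^ (N + 1) := by
    rw [hFF0, Complex.norm_real, Real.norm_of_nonneg (hg 0).le]
    exact pow_pos (hg 0) _
  linarith

end RH2

theorem rh2 (D : Dat) (h1 : SB1 D) : SRH2 D := by
  intro hg hJ z hz
  have hFF : FF D (z ^ 2) = 0 := by rw [h1.2.1, hz]
  have him := RH2.rh2_real D h1 hg hJ _ hFF
  have h7 : z.re * z.im = 0 := by
    have : (z ^ 2).im = 2 * (z.re * z.im) := by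
      rw [pow_two, Complex.mul_im]; ring
    rw [this] at him; linarith
  rcases mul_eq_zero.mp h7 with h | h
  · exact h
  · exfalso
    have hzr : z ^ 2 = (((z.re) ^ 2 : ℝ) : ℂ) := by
      apply Complex.ext
      · rw [pow_two, Complex.mul_re, h]; simp [pow_two]
      · rw [pow_two, Complex.mul_im, h, Complex.ofReal_im]; simp
    have hsum := RH2.rh2_summable D h1 (z ^ 2)
    rw [hFF, hzr] at hsum
    have hre := Complex.hasSum_re hsum
    have hpos : ∀ k : ℕ, 0 ≤ (((gam D k : ℝ) : ℂ) / (k.factorial : ℂ) * ((((z.re) ^ 2 : ℝ) : ℂ)) ^ k).re := by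
      intro k
      have h9 : ((gam D k : ℝ) : ℂ) / (k.factorial : ℂ) * ((((z.re) ^ 2 : ℝ) : ℂ)) ^ k =
          ((gam D k / (k.factorial : ℝ) * (z.re ^ 2) ^ k : ℝ) : ℂ) := by push_cast; ring
      rw [h9, Complex.ofReal_re]
      have := hg k
      positivity
    have h0 : (((gam D 0 : ℝ) : ℂ) / ((Nat.factorial 0 : ℕ) : ℂ) * ((((z.re) ^ 2 : ℝ) : ℂ)) ^ 0).re = gam D 0 := by
      simp
    have h10 := le_hasSum hre 0 (fun k _ => hpos k)
    rw [h0] at h10
    have := hg 0
    simp at h10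
    linarith

end Pool.Agent.H471R3.GJ
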