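import Pool.Agent.H471R3.GJ.Prod
import Pool.Agent.H471R3.GJ.RH2

set_option autoImplicit false

/-!
# Jensen polynomials with nonpositive real zeros: converse, without positivity (helper956)
-/

namespace Pool.Agent.H471R3.GJ

open Complex Filter Topology Polynomial
open Pool.Agent.H24R2.JP (Hyperbolic rh2_poly rh2_choose rh2_choose_le)

namespace NH2

lemma factor (w : ℂ) (b ε : ℝ) (hb : 0 < b) (hw : ∀ r : ℝ, 0 ≤ r → b ≤ ‖w + (r : ℂ)‖)
    (h0 : 0 < ε) (h1 : ε < 1) :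
    ∃ N : ℕ, ∀ r : ℝ, 0 ≤ r → (ε + r) ^ (N + 1) ≤ ‖w + (r : ℂ)‖ * (1 + r) ^ N := by
  have hδ : 0 < 1 - ε := by linarith
  obtain ⟨N, hN⟩ := exists_nat_ge (2 * (1 + ‖w‖) / (1 - ε) + 4 * (‖w‖ + 1) ^ 2 / (b * (1 - ε)))
  refine ⟨N, fun r hr => ?_⟩
  have hA : 0 ≤ 2 * (1 + ‖w‖) / (1 - ε) := by positivity
  have hB : 0 ≤ 4 * (‖w‖ + 1) ^ 2 / (b * (1 - ε)) := by positivity
  have hN1 : 2 * (1 + ‖w‖) ≤ N * (1 - ε) := by
    have : 2 * (1 + ‖w‖) / (1 - ε) ≤ N := by linarith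
    rwa [div_le_iff₀ hδ] at this
  have hN2 : 4 * (‖w‖ + 1) ^ 2 ≤ b * (N * (1 - ε)) := by
    have : 4 * (‖w‖ + 1) ^ 2 / (b * (1 - ε)) ≤ N := by linarith
    rw [div_le_iff₀ (by positivity)] at this
    linarith
  have hs : 0 < ε + r := by linarith
  have hber : (ε + r) ^ N * (1 + N * ((1 - ε) / (ε + r))) ≤ (1 + r) ^ N := by
    have h2 : (1 : ℝ) + N * ((1 - ε) / (ε + r)) ≤ (1 + (1 - ε) / (ε + r)) ^ N :=
      one_add_mul_le_pow (by have : 0 < (1 - ε) / (ε + r) := by positivity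
                             linarith) N
    calc (ε + r) ^ N * (1 + N * ((1 - ε) / (ε + r)))
        ≤ (ε + r) ^ N * (1 + (1 - ε) / (ε + r)) ^ N := mul_le_mul_of_nonneg_left h2 (by positivity)
      _ = (1 + r) ^ N := by
          rw [← mul_pow]; congr 1; field_simp; ring
  have hn1 : r - ‖w‖ ≤ ‖w + (r : ℂ)‖ := by
    have h3 : ‖((r : ℝ) : ℂ)‖ = r := by simp [abs_of_nonneg hr]
    have h4 := norm_sub_norm_le ((r : ℝ) : ℂ) (-w)
    rw [h3, norm_neg, sub_neg_eq_add, add_comm (r : ℂ) w] at h4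
    exact h4
  have hn2 := hw r hr
  have hw0 : 0 ≤ ‖w‖ := norm_nonneg w
  have key : (ε + r) * (ε + r) ≤ ‖w + (r : ℂ)‖ * ((ε + r) + N * (1 - ε)) := by
    have hpos : 0 ≤ (ε + r) + N * (1 - ε) := by positivity
    rcases le_total (2 * (‖w‖ + 1)) (ε + r) with h | h
    · have h5 : (ε + r) - (1 + ‖w‖) ≤ ‖w + (r : ℂ)‖ := by linarith
      have h6 : ((ε + r) - (1 + ‖w‖)) * ((ε + r) + N * (1 - ε)) ≤
          ‖w + (r : ℂ)‖ * ((ε + r) + N * (1 - ε)) := mul_le_mul_of_nonneg_right h5 hpos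
      have h7 : (ε + r) / 2 ≤ (ε + r) - (1 + ‖w‖) := by linarith
      have h8 : (ε + r) / 2 * (2 * (1 + ‖w‖)) ≤ ((ε + r) - (1 + ‖w‖)) * (N * (1 - ε)) :=
        mul_le_mul h7 hN1 (by positivity) (by linarith)
      nlinarith
    · have h6 : b * (N * (1 - ε)) ≤ ‖w + (r : ℂ)‖ * ((ε + r) + N * (1 - ε)) :=
        mul_le_mul hn2 (by linarith) (by positivity) (by positivity)
      have h7 : (ε + r) * (ε + r) ≤ (2 * (‖w‖ + 1)) * (2 * (‖w‖ + 1)) :=
        mul_le_mul h h hs.le (by positivity)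
      nlinarith
  have key2 : ε + r ≤ ‖w + (r : ℂ)‖ * (1 + N * ((1 - ε) / (ε + r))) := by
    have h5 : ‖w + (r : ℂ)‖ * (1 + N * ((1 - ε) / (ε + r))) =
        ‖w + (r : ℂ)‖ * ((ε + r) + N * (1 - ε)) / (ε + r) := by
      field_simp
    rw [h5, le_div_iff₀ hs]
    exact key
  calc (ε + r) ^ (N + 1) = (ε + r) ^ N * (ε + r) := pow_succ _ N
    _ ≤ (ε + r) ^ N * (‖w + (r : ℂ)‖ * (1 + N * ((1 - ε) / (ε + r)))) :=
        mul_le_mul_of_nonneg_left key2 (by positivity)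
    _ = ‖w + (r : ℂ)‖ * ((ε + r) ^ N * (1 + N * ((1 - ε) / (ε + r)))) := by ring
    _ ≤ ‖w + (r : ℂ)‖ * (1 + r) ^ N := mul_le_mul_of_nonneg_left hber (norm_nonneg _)

lemma multiset (w : ℂ) (N : ℕ) (ε : ℝ) (h0 : 0 < ε)
    (hN : ∀ r : ℝ, 0 ≤ r → (ε + r) ^ (N + 1) ≤ ‖w + (r : ℂ)‖ * (1 + r) ^ N)
    (m : Multiset ℂ) (hm : ∀ r ∈ m, ∃ t : ℝ, 0 ≤ t ∧ r = -(t : ℂ)) :
    ‖(m.map (fun r => (ε : ℂ) - r)).prod‖ ^ (N + 1) ≤
      ‖(m.map (fun r => w - r)).prod‖ * ‖(m.map (fun r => (1 : ℂ) - r)).prod‖ ^ N := by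
  induction m using Multiset.induction_on with
  | empty => simp
  | cons r m ih =>
    obtain ⟨t, ht, rfl⟩ := hm r (Multiset.mem_cons_self r m)
    have ih' := ih (fun r hr => hm r (Multiset.mem_cons_of_mem hr))
    simp only [Multiset.map_cons, Multiset.prod_cons, norm_mul, mul_pow]
    have h1 : ‖(ε : ℂ) - -(t : ℂ)‖ = ε + t := by
      have : (ε : ℂ) - -(t : ℂ) = ((ε + t : ℝ) : ℂ) := by push_cast; ring
      rw [this, Complex.norm_real, Real.norm_of_nonneg (by linarith)]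
    have h2 : ‖(1 : ℂ) - -(t : ℂ)‖ = 1 + t := by
      have : (1 : ℂ) - -(t : ℂ) = ((1 + t : ℝ) : ℂ) := by push_cast; ring
      rw [this, Complex.norm_real, Real.norm_of_nonneg (by linarith)]
    have h3 : w - -(t : ℂ) = w + (t : ℂ) := by ring
    rw [h1, h2, h3]
    have h4 := hN t ht
    calc (ε + t) ^ (N + 1) * ‖(m.map (fun r => (ε : ℂ) - r)).prod‖ ^ (N + 1)
        ≤ (‖w + (t : ℂ)‖ * (1 + t) ^ N) *
          (‖(m.map (fun r => w - r)).prod‖ * ‖(m.map (fun r => (1 : ℂ) - r)).prod‖ ^ N) :=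
          mul_le_mul h4 ih' (by positivity) (by positivity)
      _ = _ := by ring

lemma poly (w : ℂ) (N : ℕ) (ε : ℝ) (h0 : 0 < ε)
    (hN : ∀ r : ℝ, 0 ≤ r → (ε + r) ^ (N + 1) ≤ ‖w + (r : ℂ)‖ * (1 + r) ^ N)
    (P : ℝ[X]) (hP : NH P) :
    ‖aeval (ε : ℂ) P‖ ^ (N + 1) ≤ ‖aeval w P‖ * ‖aeval (1 : ℂ) P‖ ^ N := by
  rcases hP with rfl | hP
  · simp
  by_cases hne : P = 0
  · subst hne; simp
  set Q : ℂ[X] := P.map (algebraMap ℝ ℂ) with hQ
  have hQne : Q ≠ 0 := by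
    rw [hQ]; exact (Polynomial.map_ne_zero_iff (algebraMap ℝ ℂ).injective).mpr hne
  have hsplit : Q = Polynomial.C Q.leadingCoeff * (Q.roots.map (fun a => X - Polynomial.C a)).prod :=
    (IsAlgClosed.splits Q).eq_prod_roots
  have hval : ∀ z : ℂ, aeval z P = Q.leadingCoeff * (Q.roots.map (fun r => z - r)).prod := by
    intro z
    have h1 : aeval z P = Q.eval z := by
      rw [hQ, Polynomial.eval_map_algebraMap]
    rw [h1]
    conv_lhs => rw [hsplit]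
    rw [eval_mul, eval_C, eval_multiset_prod, Multiset.map_map]
    congr 2
    apply Multiset.map_congr rfl
    intro a _
    simp
  have hroots : ∀ r ∈ Q.roots, ∃ t : ℝ, 0 ≤ t ∧ r = -(t : ℂ) := by
    intro r hr
    have hr0 : aeval r P = 0 := by
      have := (mem_roots hQne).mp hr
      rwa [IsRoot.def, hQ, Polynomial.eval_map_algebraMap] at this
    obtain ⟨him, hre⟩ := hP r hr0
    refine ⟨-r.re, by linarith, ?_⟩
    apply Complex.ext <;> simp [him]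
  rw [hval (ε : ℂ), hval w, hval 1]
  simp only [norm_mul, mul_pow]
  have h6 := multiset w N ε h0 hN Q.roots hroots
  have h7 : (0 : ℝ) ≤ ‖Q.leadingCoeff‖ ^ (N + 1) := by positivity
  calc ‖Q.leadingCoeff‖ ^ (N + 1) * ‖(Q.roots.map (fun r => (ε : ℂ) - r)).prod‖ ^ (N + 1)
      ≤ ‖Q.leadingCoeff‖ ^ (N + 1) * (‖(Q.roots.map (fun r => w - r)).prod‖ *
        ‖(Q.roots.map (fun r => (1 : ℂ) - r)).prod‖ ^ N) := mul_le_mul_of_nonneg_left h6 h7
    _ = _ := by ring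

lemma tendsto (D : Dat) (h1 : SB1 D) (x : ℂ) :
    Tendsto (fun d : ℕ => aeval (x / (d : ℂ)) (jensen D d 0)) atTop (𝓝 (FF D x)) := by
  have hs := RH2.rh2_summable D h1 x
  have hsn : Summable (fun k : ℕ => ‖((gam D k : ℝ) : ℂ) / (k.factorial : ℂ) * x ^ k‖) := hs.summable.norm
  have h2 : Tendsto (fun d : ℕ => ∑' j : ℕ, (((((d.choose j : ℕ) : ℝ) / (d : ℝ) ^ j : ℝ)) : ℂ) *
      (((gam D j : ℝ) : ℂ) * x ^ j)) atTop (𝓝 (∑' j : ℕ, ((gam D j : ℝ) : ℂ) / (j.factorial : ℂ) * x ^ j)) := by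
    apply tendsto_tsum_of_dominated_convergence hsn
    · intro j
      have h3 := (rh2_choose j)
      have h4 : Tendsto (fun d : ℕ => ((((d.choose j : ℕ) : ℝ) / (d : ℝ) ^ j : ℝ) : ℂ)) atTop
          (𝓝 ((1 / (j.factorial : ℝ) : ℝ) : ℂ)) := (Complex.continuous_ofReal.tendsto _).comp h3
      have h5 := h4.mul_const (((gam D j : ℝ) : ℂ) * x ^ j)
      have h6 : ((1 / (j.factorial : ℝ) : ℝ) : ℂ) * (((gam D j : ℝ) : ℂ) * x ^ j) =
          ((gam D j : ℝ) : ℂ) / (j.factorial : ℂ) * x ^ j := by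
        push_cast; ring
      rw [← h6]; exact h5
    · filter_upwards with d
      intro j
      have h7 : (0 : ℝ) ≤ ((d.choose j : ℕ) : ℝ) / (d : ℝ) ^ j := by positivity
      rw [norm_mul, Complex.norm_real, Real.norm_of_nonneg h7]
      have h8 : ‖((gam D j : ℝ) : ℂ) / (j.factorial : ℂ) * x ^ j‖ =
          1 / (j.factorial : ℝ) * ‖((gam D j : ℝ) : ℂ) * x ^ j‖ := by
        rw [div_mul_eq_mul_div, norm_div, Complex.norm_natCast]; ring
      rw [h8]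
      exact mul_le_mul_of_nonneg_right (rh2_choose_le d j) (norm_nonneg _)
  rw [hs.tsum_eq] at h2
  refine h2.congr' ?_
  filter_upwards [eventually_ge_atTop 1] with d hd
  have hd' : (d : ℂ) ≠ 0 := by exact_mod_cast (by omega : d ≠ 0)
  rw [RH2.rh2_aeval_jensen D, tsum_eq_sum (s := Finset.range (d + 1))]
  · apply Finset.sum_congr rfl
    intro j _
    push_cast
    rw [div_pow]
    field_simp
  · intro j hj
    have hj' : d < j := by simpa using hj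
    rw [Nat.choose_eq_zero_of_lt hj']
    simp

lemma scaled (P : ℝ[X]) (d : ℕ) (hd : 1 ≤ d) (hP : NH P) :
    NH (P.comp (Polynomial.C (1 / (d : ℝ)) * X)) ∧
      ∀ z : ℂ, aeval z (P.comp (Polynomial.C (1 / (d : ℝ)) * X)) = aeval (z / (d : ℂ)) P := by
  have hdr : (0 : ℝ) < d := by exact_mod_cast hd
  have hval : ∀ z : ℂ, aeval z (P.comp (Polynomial.C (1 / (d : ℝ)) * X)) = aeval (z / (d : ℂ)) P := by
    intro z
    rw [Polynomial.aeval_comp]
    congr 2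
    simp
    ring
  refine ⟨?_, hval⟩
  rcases hP with rfl | hP
  · left; simp
  · right
    intro z hz
    rw [hval] at hz
    obtain ⟨h3, h4⟩ := hP _ hz
    rw [Complex.div_natCast_im] at h3
    rw [Complex.div_natCast_re] at h4
    constructor
    · rcases div_eq_zero_iff.mp h3 with h | h
      · exact h
      · exact absurd h hdr.ne'
    · by_contra hc
      exact absurd h4 (not_le.2 (div_pos (not_le.1 hc) hdr))

lemma nozero (D : Dat) (h1 : SB1 D) (h2 : SGam D) (hJ : ∀ d : ℕ, NH (jensen D d 0)) (w : ℂ) (b : ℝ)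
    (hb : 0 < b) (hwb : ∀ r : ℝ, 0 ≤ r → b ≤ ‖w + (r : ℂ)‖) : FF D w ≠ 0 := by
  intro hw
  have hz : ∀ ε : ℝ, 0 < ε → ε < 1 → FF D (ε : ℂ) = 0 := by
    intro ε h0 h1'
    obtain ⟨N, hN⟩ := factor w b ε hb hwb h0 h1'
    have hev : ∀ᶠ d : ℕ in atTop, ‖aeval ((ε : ℂ) / (d : ℂ)) (jensen D d 0)‖ ^ (N + 1) ≤
        ‖aeval (w / (d : ℂ)) (jensen D d 0)‖ * ‖aeval ((1 : ℂ) / (d : ℂ)) (jensen D d 0)‖ ^ N := by
      filter_upwards [eventually_ge_atTop 1] with d hd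
      obtain ⟨hs1, hs2⟩ := scaled (jensen D d 0) d hd (hJ d)
      have h3 := poly w N ε h0 hN _ hs1
      rwa [hs2, hs2, hs2] at h3
    have hl0 := ((tendsto D h1 (ε : ℂ)).norm).pow (N + 1)
    have hlw := ((tendsto D h1 w).norm).mul (((tendsto D h1 1).norm).pow N)
    have hle := le_of_tendsto_of_tendsto hl0 hlw hev
    rw [hw, norm_zero, zero_mul] at hle
    by_contra hne
    have : 0 < ‖FF D (ε : ℂ)‖ ^ (N + 1) := pow_pos (norm_pos_iff.2 hne) _
    linarith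
  have han : AnalyticOnNhd ℂ (FF D) Set.univ := fun x _ =>
    h1.1.differentiableOn.analyticAt (s := Set.univ) Filter.univ_mem
  have hfreq : ∃ᶠ x in 𝓝[≠] (0 : ℂ), FF D x = 0 := by
    rw [frequently_iff]
    intro U hU
    rw [mem_nhdsWithin] at hU
    obtain ⟨V, hV, h0V, hVU⟩ := hU
    obtain ⟨δ, hδ, hball⟩ := Metric.isOpen_iff.1 hV 0 h0V
    refine ⟨((min (δ / 2) (1 / 2) : ℝ) : ℂ), hVU ⟨hball ?_, ?_⟩, hz _ (by positivity) ?_⟩
    · have hpos : 0 < min (δ / 2) (1 / 2) := by positivity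
      rw [Metric.mem_ball, dist_zero_right, Complex.norm_real, Real.norm_of_nonneg hpos.le]
      have := min_le_left (δ / 2) (1 / 2 : ℝ)
      linarith
    · have hpos : 0 < min (δ / 2) (1 / 2) := by positivity
      simp only [Set.mem_compl_iff, Set.mem_singleton_iff]
      exact_mod_cast hpos.ne'
    · have := min_le_right (δ / 2) (1 / 2 : ℝ)
      linarith
  have hall : Set.EqOn (FF D) 0 Set.univ :=
    han.eqOn_zero_of_preconnected_of_frequently_eq_zero isPreconnected_univ (Set.mem_univ 0) hfreq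
  have hFF : FF D = fun _ => 0 := by
    funext x
    exact hall (Set.mem_univ x)
  obtain ⟨k0, hk0, -, -⟩ := h2
  have h5 := h1.2.2.2 k0
  rw [hFF] at h5
  have h6 : iteratedDeriv k0 (fun _ : ℂ => (0 : ℂ)) 0 = 0 := by
    have : (fun _ : ℂ => (0 : ℂ)) = fun _ => 0 := rfl
    simp [iteratedDeriv_const]
  rw [h6] at h5
  have h7 : gam D k0 = 0 := by exact_mod_cast h5.symm
  exact absurd h7 (hk0 k0 le_rfl).ne'

end NH2

theorem nh2 (D : Dat) (h1 : SB1 D) (h2 : SGam D) : SNH2 D := by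
  intro hJ z hz
  have hFF : FF D (z ^ 2) = 0 := by rw [h1.2.1, hz]
  by_contra hre
  by_cases him : z.im = 0
  · have hzr : z ^ 2 = (((z.re) ^ 2 : ℝ) : ℂ) := by
      apply Complex.ext
      · rw [pow_two, Complex.mul_re, him]; simp [pow_two]
      · rw [pow_two, Complex.mul_im, him, Complex.ofReal_im]; simp
    have hpos : 0 < z.re ^ 2 := by positivity
    refine NH2.nozero D h1 h2 hJ (z ^ 2) (z.re ^ 2) hpos ?_ hFF
    intro r hr
    rw [hzr]
    have : ((z.re ^ 2 : ℝ) : ℂ) + (r : ℂ) = ((z.re ^ 2 + r : ℝ) : ℂ) := by push_cast; ring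
    rw [this, Complex.norm_real, Real.norm_of_nonneg (by positivity)]
    linarith
  · have h3 : (z ^ 2).im = 2 * (z.re * z.im) := by
      rw [pow_two, Complex.mul_im]; ring
    have hne : (z ^ 2).im ≠ 0 := by
      rw [h3]
      exact mul_ne_zero two_ne_zero (mul_ne_zero hre him)
    refine NH2.nozero D h1 h2 hJ (z ^ 2) |(z ^ 2).im| (abs_pos.2 hne) ?_ hFF
    intro r _
    have h5 := abs_im_le_norm (z ^ 2 + (r : ℂ))
    rw [Complex.add_im, Complex.ofReal_im, add_zero] at h5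
    exact h5

end Pool.Agent.H471R3.GJ
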