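import Pool.Agent.H471R3.GJ.Prod

set_option autoImplicit false

/-!
# Task NHP: hyperbolic polynomials with positive coefficients have negative zeros
-/

namespace Pool.Agent.H471R3.GJ

open Complex Filter Topology Polynomial

theorem nhpos (D : Dat) : SNHpos D := by
  intro k0 hpos d n hn hd hhyp z hz
  have him : z.im = 0 := hhyp z hz
  refine ⟨him, ?_⟩
  by_contra hre
  rw [not_lt] at hre
  have hzx : z = ((z.re : ℝ) : ℂ) := Complex.ext rfl (by rw [him, Complex.ofReal_im])
  have h1 : aeval z (jensen D d n) = (((jensen D d n).eval z.re : ℝ) : ℂ) := by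
    conv_lhs => rw [hzx]
    rw [← Complex.coe_algebraMap, Polynomial.aeval_algebraMap_apply_eq_algebraMap_eval]
  rw [h1] at hz
  have h2 : (jensen D d n).eval z.re = 0 := by exact_mod_cast hz
  have h3 : 0 < (jensen D d n).eval z.re := by
    unfold jensen
    rw [Polynomial.eval_finsetSum]
    refine Finset.sum_pos' (fun j _ => ?_) ⟨0, by simp, ?_⟩
    · simp only [eval_mul, eval_C, eval_pow, eval_X]
      have := hpos (n + j) (by omega)
      positivity
    · simp only [eval_C, pow_zero, mul_one, Nat.choose_zero_right,
        Nat.cast_one, one_mul, add_zero]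
      exact hpos n hn
  exact h3.ne' h2

end Pool.Agent.H471R3.GJ
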