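import Pool.Agent.H471R3.GJ.Hyp
import Pool.Agent.H24R2.JP.Off

set_option autoImplicit false

/-!
# Task OFF: no zeros of `(FF D)^(n)` off the line at height `t` in the window
-/

namespace Pool.Agent.H471R3.GJ

open Complex Filter Topology Polynomial
open Pool.Agent.H24R2.JP (Hyperbolic Par Good App arc SHad SDer SGL SPar SCircle SJensen SNewton SArc
  SChasse SSector SLimit SJen)

namespace OffG

theorem norm_mt (D : Dat) (n : ℕ) (t : ℝ) (s : ℝ) :
    ‖mt D n t (s + I * t)‖ = ‖D.HH (I * t)‖ * Real.exp (s * (be D t).re) *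
      ‖(be D t / (2 * (I * t))) ^ n‖ := by
  rw [mt, norm_mul, norm_mul, Complex.norm_exp]
  congr 3
  simp
  ring

end OffG

open OffG Pool.Agent.H24R2.JP.OffAux in
theorem off (D : Dat) (h : IsL D) (h1 : SMain D) (h2 : SArc) (h3 : SB1 D) (h4 : SStir D) :
    SOff D := by
  obtain ⟨T1, hT1, H1⟩ := h1
  obtain ⟨-, K, T2, hK, hT2, H2⟩ := h4
  have hκ := h.κ_pos
  have hc := h.c_pos
  have hrr : 40 ≤ rr D := by
    have h5 := h.A_nonneg
    have h6 := h.w_large
    unfold rr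
    rw [le_div_iff₀ hκ]
    nlinarith
  refine ⟨max (max T1 T2) (Real.exp ((2 * K + 1) / (D.κ * D.c))),
    le_max_of_le_left (le_max_of_le_left hT1), ?_⟩
  intro t s n ht hn1 hn2 hs0 hs1 hzero
  have htT1 : T1 ≤ t := (le_max_left _ _).trans ((le_max_left _ _).trans ht)
  have htT2 : T2 ≤ t := (le_max_right _ _).trans ((le_max_left _ _).trans ht)
  have htE : Real.exp ((2 * K + 1) / (D.κ * D.c)) ≤ t := (le_max_right _ _).trans ht
  have ht1 : 1 ≤ t := hT1.trans htT1
  have ht0 : 0 < t := by linarith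
  obtain ⟨hHH, hbe, -⟩ := H2 t htT2
  have hOm : 2 * K + 1 ≤ D.κ * Om D t := by
    rw [Om]
    have h5 : (2 * K + 1) / (D.κ * D.c) ≤ Real.log t := (Real.le_log_iff_exp_le ht0).2 htE
    rw [div_le_iff₀ (by positivity)] at h5
    linarith
  have hbre : 1 ≤ (be D t).re := by
    have h5 := Complex.abs_re_le_norm (be D t - ((D.κ * Om D t : ℝ) : ℂ))
    have h6 : (be D t - ((D.κ * Om D t : ℝ) : ℂ)).re = (be D t).re - D.κ * Om D t := by
      rw [Complex.sub_re, Complex.ofReal_re]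
    rw [h6] at h5
    have h7 := (abs_le.1 (h5.trans hbe)).1
    linarith
  have hbne : be D t ≠ 0 := by
    intro h0
    rw [h0] at hbre
    norm_num at hbre
  have hIt : (2 : ℂ) * (I * t) ≠ 0 := by
    have : (t : ℂ) ≠ 0 := by exact_mod_cast ht0.ne'
    simp [this]
  have hmtne : ∀ z, mt D n t z ≠ 0 := by
    intro z
    rw [mt]
    exact mul_ne_zero (mul_ne_zero hHH (Complex.exp_ne_zero _))
      (pow_ne_zero _ (div_ne_zero hbne hIt))
  set A : ℂ → ℂ := fun z => arc (FF D) n (-t ^ 2) (rr D * t) 0 Real.pi (z ^ 2) with hA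
  set R : ℂ → ℂ := fun z => A z / mt D n t z - 1 with hR
  have hρ : 0 < rr D * t := by positivity
  have hρ40 : 40 * t ≤ rr D * t := mul_le_mul_of_nonneg_right hrr ht0.le
  have hin : ∀ z : ℂ, ‖z - I * t‖ ≤ 3 / 4 → ‖z ^ 2 - ((-t ^ 2 : ℝ) : ℂ)‖ < rr D * t := by
    intro z hz
    refine lt_of_lt_of_le ?_ hρ40
    have e : z ^ 2 - ((-t ^ 2 : ℝ) : ℂ) = (z - I * t) * ((z - I * t) + 2 * (I * t)) := by
      have hI : I ^ 2 = -1 := Complex.I_sq
      push_cast
      linear_combination ((t : ℂ) ^ 2) * hI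
    rw [e, norm_mul]
    have h5 : ‖(z - I * t) + 2 * (I * t)‖ ≤ 3 / 4 + 2 * t := by
      refine (norm_add_le _ _).trans ?_
      have : ‖(2 : ℂ) * (I * t)‖ = 2 * t := by
        simp [abs_of_pos ht0]
      rw [this]
      linarith
    have h6 := norm_nonneg (z - I * t)
    have h7 := norm_nonneg ((z - I * t) + 2 * (I * t))
    nlinarith
  have hRd : ∀ z : ℂ, ‖z - I * t‖ ≤ 3 / 4 → DifferentiableAt ℂ R z := by
    intro z hz
    have h5 : DifferentiableAt ℂ A z := by
      have h6 := arc_diff (FF D) h3.1.continuous n (-t ^ 2) (rr D * t) 0 Real.pi hρ (z ^ 2) (hin z hz)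
      have h8 : DifferentiableAt ℂ (fun z : ℂ => z ^ 2) z := by fun_prop
      exact DifferentiableAt.comp (g := fun x => arc (FF D) n (-t ^ 2) (rr D * t) 0 Real.pi x)
        (f := fun z : ℂ => z ^ 2) z h6 h8
    have h7 : DifferentiableAt ℂ (fun z => mt D n t z) z := by
      unfold mt
      fun_prop
    exact (h5.div h7 (hmtne z)).sub_const 1
  have hRb : ∀ z : ℂ, ‖z - I * t‖ ≤ 3 / 4 → ‖R z‖ ≤ 1 / 10 := by
    intro z hz
    have h5 := H1 t n z htT1 ⟨hn1, hn2, hz⟩
    have h6 : R z = (A z - mt D n t z) / mt D n t z := by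
      rw [hR]; simp only
      rw [sub_div, div_self (hmtne z)]
    rw [h6, norm_div, div_le_iff₀ (norm_pos_iff.2 (hmtne z))]
    exact h5
  -- derivative bound
  have hder : ∀ c ∈ Metric.closedBall (I * t : ℂ) (1 / 2), ‖deriv R c‖ ≤ (1 / 10) / (1 / 4) := by
    intro c hc
    rw [mem_closedBall_iff_norm] at hc
    have hsub : ∀ z ∈ Metric.closedBall c (1 / 4 : ℝ), ‖z - I * t‖ ≤ 3 / 4 := by
      intro z hz
      rw [mem_closedBall_iff_norm] at hz
      have : z - I * t = (z - c) + (c - I * t) := by ring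
      rw [this]
      refine (norm_add_le _ _).trans ?_
      linarith
    apply Complex.norm_deriv_le_of_forall_mem_sphere_norm_le (by norm_num)
    · apply DifferentiableOn.diffContOnCl
      intro z hz
      rw [closure_ball c (by norm_num)] at hz
      exact (hRd z (hsub z hz)).differentiableWithinAt
    · intro z hz
      exact hRb z (hsub z (Metric.sphere_subset_closedBall hz))
  have hz1 : (s + I * t : ℂ) ∈ Metric.closedBall (I * t : ℂ) (1 / 2) := by
    rw [mem_closedBall_iff_norm]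
    simp only [add_sub_cancel_right, Complex.norm_real, Real.norm_eq_abs]
    rw [abs_of_pos hs0]; exact hs1
  have hz2 : (((-s : ℝ) : ℂ) + I * t : ℂ) ∈ Metric.closedBall (I * t : ℂ) (1 / 2) := by
    rw [mem_closedBall_iff_norm]
    simp only [add_sub_cancel_right, Complex.norm_real, Real.norm_eq_abs]
    rw [abs_neg, abs_of_pos hs0]; exact hs1
  have hlip : ‖R (s + I * t) - R (((-s : ℝ) : ℂ) + I * t)‖ ≤ (1 / 10) / (1 / 4) * (2 * s) := by
    have h5 := Convex.norm_image_sub_le_of_norm_deriv_le (𝕜 := ℂ) (f := R)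
      (s := Metric.closedBall (I * t : ℂ) (1 / 2)) (x := ((-s : ℝ) : ℂ) + I * t)
      (y := (s : ℂ) + I * t) (C := (1 / 10) / (1 / 4))
      (fun z hz => hRd z (by rw [mem_closedBall_iff_norm] at hz; linarith)) hder
      (convex_closedBall _ _) hz2 hz1
    refine h5.trans (le_of_eq ?_)
    congr 1
    have : (s : ℂ) + I * t - (((-s : ℝ) : ℂ) + I * t) = ((2 * s : ℝ) : ℂ) := by
      push_cast; ring
    rw [this, Complex.norm_real, Real.norm_eq_abs, abs_of_pos (by linarith)]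
  -- the reflection
  have hxball : ((s : ℂ) + I * t) ^ 2 ∈ Metric.ball (((-t ^ 2 : ℝ) : ℂ)) (rr D * t) := by
    rw [mem_ball_iff_norm]
    apply hin
    rw [mem_closedBall_iff_norm] at hz1
    linarith
  obtain ⟨e1, e2⟩ := h2 (FF D) n (-t ^ 2) (rr D * t) (((s : ℂ) + I * t) ^ 2) hρ
    (fun ξ _ => h3.1 ξ) hxball
  have e3 := e2 h3.2.2.1
  have hconj : (starRingEnd ℂ) (((s : ℂ) + I * t) ^ 2) = (((-s : ℝ) : ℂ) + I * t) ^ 2 := by
    simp only [map_pow, map_add, map_mul, Complex.conj_I, Complex.conj_ofReal]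
    push_cast
    ring
  rw [hconj] at e3
  have e4 : A (s + I * t) + (starRingEnd ℂ) (A (((-s : ℝ) : ℂ) + I * t)) = 0 := by
    rw [hA]; simp only
    rw [← e3, ← e1]; exact hzero
  have e5 : ‖A (s + I * t)‖ = ‖A (((-s : ℝ) : ℂ) + I * t)‖ := by
    have : A (s + I * t) = -(starRingEnd ℂ) (A (((-s : ℝ) : ℂ) + I * t)) := by
      linear_combination e4
    rw [this, norm_neg, RCLike.norm_conj]
  have hAR : ∀ z, A z = (R z + 1) * mt D n t z := by
    intro z
    rw [hR]; simp only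
    rw [sub_add_cancel, div_mul_cancel₀ _ (hmtne z)]
  rw [hAR, hAR, norm_mul, norm_mul, OffG.norm_mt, OffG.norm_mt] at e5
  set q1 : ℝ := ‖R (s + I * t) + 1‖ with hq1
  set q2 : ℝ := ‖R (((-s : ℝ) : ℂ) + I * t) + 1‖ with hq2
  set b : ℝ := (be D t).re with hb
  have hP : 0 < ‖D.HH (I * t)‖ * ‖(be D t / (2 * (I * t))) ^ n‖ :=
    mul_pos (norm_pos_iff.2 hHH) (norm_pos_iff.2 (pow_ne_zero _ (div_ne_zero hbne hIt)))
  have e6 : q1 * Real.exp (s * b) = q2 * Real.exp (-s * b) := by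
    have : (q1 * Real.exp (s * b)) * (‖D.HH (I * t)‖ * ‖(be D t / (2 * (I * t))) ^ n‖) =
        (q2 * Real.exp (-s * b)) * (‖D.HH (I * t)‖ * ‖(be D t / (2 * (I * t))) ^ n‖) := by
      linear_combination e5
    exact mul_right_cancel₀ hP.ne' this
  have e7 : q1 * Real.exp (2 * s * b) = q2 := by
    have h5 : Real.exp (2 * s * b) = Real.exp (s * b) * Real.exp (s * b) := by
      rw [← Real.exp_add]; congr 1; ring
    have h6 : Real.exp (-s * b) * Real.exp (s * b) = 1 := by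
      rw [← Real.exp_add]; simp
    rw [h5, ← mul_assoc, e6, mul_assoc, h6, mul_one]
  have e8 : 1 + 2 * s ≤ Real.exp (2 * s * b) := by
    have h5 := Real.add_one_le_exp (2 * s * b)
    nlinarith
  have hq2l : 9 / 10 ≤ q2 := by
    have h5 := hRb (((-s : ℝ) : ℂ) + I * t) (by rw [mem_closedBall_iff_norm] at hz2; linarith)
    have h6 : ‖(1 : ℂ)‖ ≤ ‖R (((-s : ℝ) : ℂ) + I * t) + 1‖ + ‖R (((-s : ℝ) : ℂ) + I * t)‖ := by
      have : (1 : ℂ) = (R (((-s : ℝ) : ℂ) + I * t) + 1) - R (((-s : ℝ) : ℂ) + I * t) := by ring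
      conv_lhs => rw [this]
      exact norm_sub_le _ _
    rw [norm_one] at h6
    linarith
  have hq12 : q2 - 4 / 5 * s ≤ q1 := by
    have h6 : ‖R (((-s : ℝ) : ℂ) + I * t) + 1‖ ≤ ‖R (s + I * t) + 1‖ +
        ‖R (s + I * t) - R (((-s : ℝ) : ℂ) + I * t)‖ := by
      have : R (((-s : ℝ) : ℂ) + I * t) + 1 = (R (s + I * t) + 1) -
        (R (s + I * t) - R (((-s : ℝ) : ℂ) + I * t)) := by ring
      conv_lhs => rw [this]
      exact norm_sub_le _ _
    linarith
  have hq1p : 0 ≤ q1 := norm_nonneg _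
  nlinarith

end Pool.Agent.H471R3.GJ
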