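import Pool.Agent.H471R3.GJ.Spec
import Pool.Agent.H24R2.JP.Piece

set_option autoImplicit false

/-!
# SPiece: the derivative of a single piece (generic version of helper986's file)
-/

namespace Pool.Agent.H471R3.GJ.PieceAux

open Complex Filter Topology
open Pool.Agent.H24R2
open Pool.Agent.H24R2.JP.Piece (sq_pow sq_im fact_bound diff_sq)

variable {D : Dat}

theorem rr_ge (h : IsL D) : 40 ≤ rr D := by
  have h1 := h.κ_pos
  have h2 := h.A_nonneg
  have h3 := h.w_large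
  unfold rr
  rw [le_div_iff₀ h1]
  linarith

theorem w_ge (h : IsL D) : 20 ≤ D.w := by
  have h1 := h.κ_pos
  have h2 := h.A_nonneg
  have h3 := h.w_large
  linarith

/-- Numerical facts in the window. -/
theorem window_facts (h : IsL D) {K0 t : ℝ} {n m : ℕ} {z : ℂ} (hK : 1 ≤ K0)
    (ht : 200 * rr D ≤ t) (ht2 : Real.exp (100 * K0 / (D.κ * D.c)) ≤ t)
    (ht3 : (3 * ((rr D + 2) * (D.w * D.c))) ^ 2 ≤ t) (hw : Win D t n z) (hm : 1 ≤ m)
    (hm2 : m ≤ MM D t) (hb : ‖be D t - ((D.κ * Om D t : ℝ) : ℂ)‖ ≤ K0) :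
    0 < ‖be D t - ((D.κ * Real.log m : ℝ) : ℂ)‖ ∧ 1 ≤ n ∧
      (n : ℝ) ≤ 7 / 8 * rr D * ‖be D t - ((D.κ * Real.log m : ℝ) : ℂ)‖ ∧
      (rr D + 2) * (n : ℝ) ≤ t := by
  obtain ⟨h1, h2, h3⟩ := hw
  have hκ := h.κ_pos
  have hc := h.c_pos
  have hrr := rr_ge h
  have hw20 := w_ge h
  have htpos : 0 < t := by linarith
  have hκc : 0 < D.κ * D.c := by positivity
  have hlog : 100 * K0 ≤ D.κ * D.c * Real.log t := by
    have h4 : 100 * K0 / (D.κ * D.c) ≤ Real.log t := by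
      rw [Real.le_log_iff_exp_le htpos]; exact ht2
    rw [div_le_iff₀ hκc] at h4
    linarith
  have hOm : Om D t = D.c * Real.log t := rfl
  have hOmκ : 100 * K0 ≤ D.κ * Om D t := by rw [hOm]; linarith
  have hlogpos : 0 < Real.log t := by
    by_contra hneg
    have : D.κ * D.c * Real.log t ≤ 0 := mul_nonpos_of_nonneg_of_nonpos hκc.le (not_lt.1 hneg)
    linarith
  have hOmpos : 0 < Om D t := by rw [hOm]; positivity
  have hmpos : (0 : ℝ) < m := by exact_mod_cast hm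
  have hmle : (m : ℝ) ≤ Real.exp (2 / 5 * Om D t) := by
    have h5 : ((MM D t : ℕ) : ℝ) ≤ Real.exp (2 / 5 * Om D t) := Nat.floor_le (Real.exp_pos _).le
    exact le_trans (by exact_mod_cast hm2) h5
  have hlm : Real.log m ≤ 2 / 5 * Om D t := by
    rw [Real.log_le_iff_le_exp hmpos]
    exact hmle
  have hre : 59 / 100 * (D.κ * Om D t) ≤ ‖be D t - ((D.κ * Real.log m : ℝ) : ℂ)‖ := by
    have h4 : (be D t - ((D.κ * Real.log m : ℝ) : ℂ)).re ≤
      ‖be D t - ((D.κ * Real.log m : ℝ) : ℂ)‖ := Complex.re_le_norm _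
    have h5 : |(be D t - ((D.κ * Om D t : ℝ) : ℂ)).re| ≤ K0 := (Complex.abs_re_le_norm _).trans hb
    have h6 := (abs_le.1 h5).1
    have h7 : D.κ * Real.log m ≤ D.κ * (2 / 5 * Om D t) := by gcongr
    simp only [Complex.sub_re, Complex.ofReal_re] at h4 h6
    linarith
  have hlamn : (n : ℝ) ≤ 7 / 8 * rr D * ‖be D t - ((D.κ * Real.log m : ℝ) : ℂ)‖ := by
    have h8 : 7 / 8 * rr D * (59 / 100 * (D.κ * Om D t)) ≤
        7 / 8 * rr D * ‖be D t - ((D.κ * Real.log m : ℝ) : ℂ)‖ := by gcongr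
    have h9 : rr D * D.κ = 2 * D.w := by
      unfold rr
      field_simp
    have h10 : 7 / 8 * rr D * (59 / 100 * (D.κ * Om D t)) =
        7 / 8 * 59 / 100 * (rr D * D.κ) * Om D t := by ring
    rw [h10, h9] at h8
    have h11 : 0 < D.w * Om D t := by positivity
    nlinarith
  have hsq : Real.log t ≤ 2 * (Real.sqrt t - 1) := by
    have h7 : Real.log t = 2 * Real.log (Real.sqrt t) := by
      rw [Real.log_sqrt htpos.le]; ring
    rw [h7]
    have := Real.log_le_sub_one_of_pos (Real.sqrt_pos.2 htpos)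
    linarith
  have hsq2 : 3 * ((rr D + 2) * (D.w * D.c)) ≤ Real.sqrt t := by
    apply Real.le_sqrt_of_sq_le; linarith
  have hsq3 : Real.sqrt t * Real.sqrt t = t := Real.mul_self_sqrt htpos.le
  refine ⟨lt_of_lt_of_le (by positivity) hre, ?_, hlamn, ?_⟩
  · have : (0 : ℝ) < n := lt_of_lt_of_le (by positivity) h1
    exact_mod_cast this
  · have hs0 : 0 ≤ Real.sqrt t := Real.sqrt_nonneg t
    calc (rr D + 2) * (n : ℝ) ≤ (rr D + 2) * (41 / 40 * (D.w * Om D t)) := by gcongr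
      _ = 41 / 40 * ((rr D + 2) * (D.w * D.c)) * Real.log t := by rw [hOm]; ring
      _ ≤ 41 / 40 * ((rr D + 2) * (D.w * D.c)) * (2 * Real.sqrt t) := by
        gcongr
        linarith
      _ ≤ 3 * ((rr D + 2) * (D.w * D.c)) * Real.sqrt t := by
        have : 0 ≤ (rr D + 2) * (D.w * D.c) * Real.sqrt t := by positivity
        nlinarith
      _ ≤ Real.sqrt t * Real.sqrt t := by gcongr
      _ = t := hsq3

/-- Geometry: the square root stays in the disc of radius `rr + 4`. -/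
theorem geometry {t R : ℝ} {z ξ : ℂ} {r : ℝ} (hR : 40 ≤ R) (ht : 200 * R ≤ t)
    (hz : ‖z - I * t‖ ≤ 3 / 4)
    (hr : r ≤ 7 / 4 * R * t) (hξ : ‖ξ - z ^ 2‖ ≤ r) :
    (99 / 100 * t) ^ 2 ≤ (-ξ).re ∧ 99 / 100 * t ≤ (JP.sq ξ).im ∧
    (JP.sq ξ - z) * (JP.sq ξ + z) = ξ - z ^ 2 ∧ ‖JP.sq ξ - z‖ ≤ r / (198 / 100 * t) ∧
    ‖JP.sq ξ - z‖ ≤ 9 / 10 * R ∧ ‖JP.sq ξ - I * t‖ ≤ 9 / 10 * R + 3 / 4 := by
  have htpos : 0 < t := by linarith
  have h1 : (99 / 100 * t) ^ 2 ≤ (-ξ).re := by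
    have e : -ξ = (t : ℂ) ^ 2 - (2 * I * t * (z - I * t) + (z - I * t) ^ 2 + (ξ - z ^ 2)) := by
      ring_nf
      simp only [I_sq]
      ring
    have hn : ‖2 * I * t * (z - I * t) + (z - I * t) ^ 2 + (ξ - z ^ 2)‖ ≤
        2 * t * (3 / 4) + (3 / 4) ^ 2 + 7 / 4 * R * t := by
      refine (norm_add₃_le).trans ?_
      have e1 : ‖2 * I * (t : ℂ) * (z - I * t)‖ ≤ 2 * t * (3 / 4) := by
        simp only [norm_mul, Complex.norm_I, Complex.norm_real, Real.norm_eq_abs,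
          abs_of_pos htpos, Complex.norm_ofNat, mul_one]
        gcongr
      have e2 : ‖(z - I * t) ^ 2‖ ≤ (3 / 4) ^ 2 := by
        rw [norm_pow]; gcongr
      linarith
    have hre := (Complex.abs_re_le_norm
      (2 * I * t * (z - I * t) + (z - I * t) ^ 2 + (ξ - z ^ 2))).trans hn
    have hre2 := (abs_le.1 hre).2
    rw [e, Complex.sub_re]
    have e3 : ((t : ℂ) ^ 2).re = t ^ 2 := by
      rw [← Complex.ofReal_pow, Complex.ofReal_re]
    rw [e3]
    have e4 : 200 * R * t ≤ t * t := by gcongr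
    have e5 : 40 * t ≤ R * t := by gcongr
    have e6 : 8000 ≤ t := by linarith
    nlinarith
  have h2 : 99 / 100 * t ≤ (JP.sq ξ).im := sq_im ξ _ h1
  have h3 : (JP.sq ξ - z) * (JP.sq ξ + z) = ξ - z ^ 2 := by
    have := sq_pow ξ
    linear_combination this
  have hzim : 99 / 100 * t ≤ z.im := by
    have h5 := (Complex.abs_im_le_norm (z - I * t)).trans hz
    have h6 := (abs_le.1 h5).1
    simp at h6
    linarith
  have h4 : 198 / 100 * t ≤ ‖JP.sq ξ + z‖ := by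
    have := Complex.im_le_norm (JP.sq ξ + z)
    rw [Complex.add_im] at this
    linarith
  have h5 : ‖JP.sq ξ - z‖ ≤ r / (198 / 100 * t) := by
    rw [le_div_iff₀ (by positivity)]
    calc ‖JP.sq ξ - z‖ * (198 / 100 * t) ≤ ‖JP.sq ξ - z‖ * ‖JP.sq ξ + z‖ := by gcongr
      _ = ‖ξ - z ^ 2‖ := by rw [← norm_mul, h3]
      _ ≤ r := hξ
  have h6 : ‖JP.sq ξ - z‖ ≤ 9 / 10 * R := by
    refine h5.trans ?_
    rw [div_le_iff₀ (by positivity)]
    have : 0 ≤ R * t := by positivity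
    nlinarith
  refine ⟨h1, h2, h3, h5, h6, ?_⟩
  calc ‖JP.sq ξ - I * t‖ = ‖(JP.sq ξ - z) + (z - I * t)‖ := by ring_nf
    _ ≤ ‖JP.sq ξ - z‖ + ‖z - I * t‖ := norm_add_le _ _
    _ ≤ 9 / 10 * R + 3 / 4 := by linarith

theorem diff_GG (hd : ∀ z : ℂ, 0 < z.im → DifferentiableAt ℂ D.HH z) {m : ℕ} (hm : 1 ≤ m) {ξ : ℂ}
    (h : 0 < (-ξ).re) (h2 : 0 < (JP.sq ξ).im) : DifferentiableAt ℂ (GG D m) ξ := by
  unfold GG
  have hs := diff_sq h
  refine DifferentiableAt.mul ?_ ?_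
  · exact DifferentiableAt.comp ξ (hd _ h2) hs
  · refine DifferentiableAt.const_mul ?_ _
    refine DifferentiableAt.const_cpow ?_ ?_
    · exact hs.const_mul _
    · left
      have : m ≠ 0 := by omega
      exact_mod_cast this

/-- The pointwise comparison on the ball. -/
theorem pointwise {K0 t R : ℝ} {n m : ℕ} {z ξ : ℂ} (hK : 1 ≤ K0) (hR : 40 ≤ R)
    (ht : 200 * R ≤ t)
    (hm : 1 ≤ m) (hn : 1 ≤ n) (hnt : (R + 2) * (n : ℝ) ≤ t) (hz : ‖z - I * t‖ ≤ 3 / 4)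
    (hlam : 0 < ‖be D t - ((D.κ * Real.log m : ℝ) : ℂ)‖)
    (hnl : (n : ℝ) ≤ 7 / 8 * R * ‖be D t - ((D.κ * Real.log m : ℝ) : ℂ)‖)
    (hst : ∀ u : ℂ, ‖u‖ ≤ R + 4 →
      ‖D.HH (I * t + u) - D.HH (I * t) * cexp (be D t * u)‖ ≤
        K0 / t * ‖D.HH (I * t) * cexp (be D t * u)‖)
    (hξ : ‖ξ - z ^ 2‖ ≤ 2 * t * n / ‖be D t - ((D.κ * Real.log m : ℝ) : ℂ)‖) :
    ‖GG D m ξ - D.HH (I * t) * cexp (be D t * (z - I * t)) *
        (D.a m * (m : ℂ) ^ (-(D.κ : ℂ) * z)) *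
      cexp ((be D t - ((D.κ * Real.log m : ℝ) : ℂ)) / (2 * (I * t)) * (ξ - z ^ 2))‖ ≤
    ‖D.HH (I * t) * cexp (be D t * (z - I * t)) * (D.a m * (m : ℂ) ^ (-(D.κ : ℂ) * z))‖ *
      Real.exp n * ((3 * K0 + 2 * (R + 2)) * n / t) := by
  have htpos : 0 < t := by linarith
  have hnpos : (0 : ℝ) < n := by exact_mod_cast hn
  set lam : ℂ := be D t - ((D.κ * Real.log m : ℝ) : ℂ) with hlamdef
  set c : ℂ := D.HH (I * t) * cexp (be D t * (z - I * t)) *
    (D.a m * (m : ℂ) ^ (-(D.κ : ℂ) * z)) with hc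
  set r : ℝ := 2 * t * n / ‖lam‖ with hr
  have hr75 : r ≤ 7 / 4 * R * t := by
    rw [hr, div_le_iff₀ hlam]
    nlinarith
  have hr0 : 0 ≤ r := by positivity
  obtain ⟨g1, g2, g3, g4, g5, g6⟩ := geometry hR ht hz hr75 hξ
  set ζ : ℂ := JP.sq ξ with hζ
  have hm0 : (m : ℂ) ≠ 0 := by
    have : m ≠ 0 := by omega
    exact_mod_cast this
  have hlogm : Complex.log (m : ℂ) = ((Real.log m : ℝ) : ℂ) := by
    rw [Complex.ofReal_log (by positivity)]; simp
  -- the exact identity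
  have hid : D.HH (I * t) * cexp (be D t * (ζ - I * t)) * (D.a m * (m : ℂ) ^ (-(D.κ : ℂ) * ζ)) =
      c * cexp (lam * (ζ - z)) := by
    have e1 : (m : ℂ) ^ (-(D.κ : ℂ) * ζ) = (m : ℂ) ^ (-(D.κ : ℂ) * z) *
        cexp (-((D.κ * Real.log m : ℝ) : ℂ) * (ζ - z)) := by
      rw [Complex.cpow_def_of_ne_zero hm0, Complex.cpow_def_of_ne_zero hm0, hlogm, ← Complex.exp_add]
      congr 1; push_cast; ring
    have e2 : cexp (be D t * (ζ - I * t)) =
        cexp (be D t * (z - I * t)) * cexp (be D t * (ζ - z)) := by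
      rw [← Complex.exp_add]; congr 1; ring
    have e3 : cexp (lam * (ζ - z)) = cexp (be D t * (ζ - z)) *
        cexp (-((D.κ * Real.log m : ℝ) : ℂ) * (ζ - z)) := by
      rw [← Complex.exp_add, hlamdef]; congr 1; ring
    rw [e1, e2, e3, hc]; ring
  have h1 : ‖GG D m ξ - c * cexp (lam * (ζ - z))‖ ≤ K0 / t * ‖c * cexp (lam * (ζ - z))‖ := by
    have hs := hst (ζ - I * t) (g6.trans (by linarith))
    have e : I * t + (ζ - I * t) = ζ := by ring
    rw [e] at hs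
    have e4 : GG D m ξ - c * cexp (lam * (ζ - z)) =
        (D.HH ζ - D.HH (I * t) * cexp (be D t * (ζ - I * t))) *
          (D.a m * (m : ℂ) ^ (-(D.κ : ℂ) * ζ)) := by
      rw [← hid]; unfold GG; ring
    rw [e4, ← hid, norm_mul, norm_mul (D.HH (I * t) * cexp (be D t * (ζ - I * t)))]
    calc _ ≤ (K0 / t * ‖D.HH (I * t) * cexp (be D t * (ζ - I * t))‖) *
          ‖D.a m * (m : ℂ) ^ (-(D.κ : ℂ) * ζ)‖ := by
          gcongr
      _ = _ := by ring
  set w0 : ℂ := lam / (2 * (I * t)) * (ξ - z ^ 2) with hw0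
  have htC : (t : ℂ) ≠ 0 := by exact_mod_cast htpos.ne'
  have hw0n : ‖w0‖ ≤ n := by
    rw [hw0, norm_mul, norm_div]
    have : ‖2 * (I * (t : ℂ))‖ = 2 * t := by
      simp [abs_of_pos htpos]
    rw [this]
    calc ‖lam‖ / (2 * t) * ‖ξ - z ^ 2‖ ≤ ‖lam‖ / (2 * t) * (2 * t * n / ‖lam‖) := by gcongr
      _ = n := by field_simp
  set δ : ℂ := lam * (ζ - z) - w0 with hδ
  have hδn : ‖δ‖ ≤ (R + 2) * n / t := by
    have e5 : δ = lam * (ζ - z) * ((2 * (I * t) - (ζ + z)) / (2 * (I * t))) := by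
      rw [hδ, hw0, ← g3]
      field_simp
    have e6 : ‖2 * (I * (t : ℂ))‖ = 2 * t := by simp [abs_of_pos htpos]
    have e7 : ‖2 * (I * (t : ℂ)) - (ζ + z)‖ ≤ R + 2 := by
      have : 2 * (I * (t : ℂ)) - (ζ + z) = -((ζ - I * t) + (z - I * t)) := by ring
      rw [this, norm_neg]
      refine (norm_add_le _ _).trans ?_
      linarith
    rw [e5, norm_mul, norm_div, norm_mul, e6]
    have hn0 : 0 ≤ (R + 2) * (n : ℝ) / t := by positivity
    calc ‖lam‖ * ‖ζ - z‖ * (‖2 * (I * (t : ℂ)) - (ζ + z)‖ / (2 * t))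
        ≤ ‖lam‖ * (r / (198 / 100 * t)) * ((R + 2) / (2 * t)) := by gcongr
      _ = 100 / 198 * ((R + 2) * n / t) := by
        rw [hr]; field_simp
      _ ≤ (R + 2) * n / t := by linarith
  have hδ1 : ‖δ‖ ≤ 1 := by
    refine hδn.trans ?_
    rw [div_le_one htpos]; exact hnt
  have hE := Complex.norm_exp_sub_one_le hδ1
  have hE2 : ‖cexp δ‖ ≤ 3 := by
    have : cexp δ = (cexp δ - 1) + 1 := by ring
    rw [this]
    refine (norm_add_le _ _).trans ?_
    rw [norm_one]; linarith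
  have hw0e : ‖cexp w0‖ ≤ Real.exp n := by
    refine (Complex.norm_exp_le_exp_norm _).trans (Real.exp_le_exp.2 hw0n)
  have hsplit : cexp (lam * (ζ - z)) = cexp w0 * cexp δ := by
    rw [← Complex.exp_add, hδ]; congr 1; ring
  have h2 : ‖c * cexp (lam * (ζ - z)) - c * cexp w0‖ ≤
      ‖c‖ * Real.exp n * (2 * (R + 2) * n / t) := by
    have e8 : c * cexp (lam * (ζ - z)) - c * cexp w0 = c * cexp w0 * (cexp δ - 1) := by
      rw [hsplit]; ring
    rw [e8, norm_mul, norm_mul]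
    have e9 : ‖cexp δ - 1‖ ≤ 2 * (R + 2) * n / t := by
      refine hE.trans ?_
      calc 2 * ‖δ‖ ≤ 2 * ((R + 2) * n / t) := by gcongr
        _ = 2 * (R + 2) * n / t := by ring
    gcongr
  have h3 : K0 / t * ‖c * cexp (lam * (ζ - z))‖ ≤ ‖c‖ * Real.exp n * (3 * K0 * n / t) := by
    rw [hsplit, norm_mul c, norm_mul (cexp w0)]
    have hn1 : (1 : ℝ) ≤ n := by exact_mod_cast hn
    calc K0 / t * (‖c‖ * (‖cexp w0‖ * ‖cexp δ‖)) ≤ K0 / t * (‖c‖ * (Real.exp n * 3)) := by gcongr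
      _ = ‖c‖ * Real.exp n * (3 * K0 * 1 / t) := by ring
      _ ≤ ‖c‖ * Real.exp n * (3 * K0 * n / t) := by gcongr
  calc ‖GG D m ξ - c * cexp w0‖ = ‖(GG D m ξ - c * cexp (lam * (ζ - z))) +
        (c * cexp (lam * (ζ - z)) - c * cexp w0)‖ := by congr 1; ring
    _ ≤ ‖GG D m ξ - c * cexp (lam * (ζ - z))‖ + ‖c * cexp (lam * (ζ - z)) - c * cexp w0‖ :=
        norm_add_le _ _
    _ ≤ ‖c‖ * Real.exp n * (3 * K0 * n / t) + ‖c‖ * Real.exp n * (2 * (R + 2) * n / t) :=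
        add_le_add (h1.trans h3) h2
    _ = ‖c‖ * Real.exp n * ((3 * K0 + 2 * (R + 2)) * n / t) := by ring

end Pool.Agent.H471R3.GJ.PieceAux

namespace Pool.Agent.H471R3.GJ

open Complex Filter Topology PieceAux
open Pool.Agent.H24R2.JP.Piece (fact_bound)

theorem piece (D : Dat) (h : IsL D) (h1 : SStir D) : SPiece D := by
  obtain ⟨hd, K0, T0, hK0, hT0, hst⟩ := h1
  have hR := rr_ge h
  refine ⟨9 * K0 + 6 * (rr D + 2), max T0 (max (200 * rr D)
    (max (Real.exp (100 * K0 / (D.κ * D.c))) ((3 * ((rr D + 2) * (D.w * D.c))) ^ 2))), by linarith,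
    le_max_of_le_left hT0, ?_⟩
  intro t n m z ht hw hm hm2
  have htT0 : T0 ≤ t := (le_max_left _ _).trans ht
  have ht6 : 200 * rr D ≤ t := (le_max_left _ _).trans ((le_max_right _ _).trans ht)
  have hte : Real.exp (100 * K0 / (D.κ * D.c)) ≤ t :=
    (le_max_left _ _).trans ((le_max_right _ _).trans ((le_max_right _ _).trans ht))
  have htq : (3 * ((rr D + 2) * (D.w * D.c))) ^ 2 ≤ t :=
    (le_max_right _ _).trans ((le_max_right _ _).trans ((le_max_right _ _).trans ht))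
  obtain ⟨hH, hb, hst⟩ := hst t htT0
  obtain ⟨hlam, hn, hnl, hnt⟩ := window_facts h hK0 ht6 hte htq hw hm hm2 hb
  have hz := hw.2.2
  have htpos : 0 < t := by linarith
  have hnpos : (0 : ℝ) < n := by exact_mod_cast hn
  unfold mm
  set lam : ℂ := be D t - ((D.κ * Real.log m : ℝ) : ℂ) with hlamdef
  set c : ℂ := D.HH (I * t) * cexp (be D t * (z - I * t)) *
    (D.a m * (m : ℂ) ^ (-(D.κ : ℂ) * z)) with hc
  set r : ℝ := 2 * t * n / ‖lam‖ with hr
  have hrpos : 0 < r := by positivity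
  have hr75 : r ≤ 7 / 4 * rr D * t := by
    rw [hr, div_le_iff₀ hlam]
    nlinarith
  -- the comparison function
  set g : ℂ → ℂ := fun ξ => c * cexp (lam / (2 * (I * t)) * (ξ - z ^ 2)) with hg
  have hgd : Differentiable ℂ g := by
    intro ξ
    rw [hg]
    fun_prop
  have hGd : ∀ ξ ∈ Metric.closedBall (z ^ 2) r, DifferentiableAt ℂ (GG D m) ξ := by
    intro ξ hξ
    rw [mem_closedBall_iff_norm] at hξ
    obtain ⟨g1, g2, -, -, -, -⟩ := geometry hR ht6 hz hr75 hξ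
    exact diff_GG hd hm (by nlinarith) (by nlinarith)
  have hpt : ∀ ξ ∈ Metric.sphere (z ^ 2) r, ‖(GG D m - g) ξ‖ ≤
      ‖c‖ * Real.exp n * ((3 * K0 + 2 * (rr D + 2)) * n / t) := by
    intro ξ hξ
    rw [mem_sphere_iff_norm] at hξ
    exact pointwise hK0 hR ht6 hm hn hnt hz hlam hnl hst hξ.le
  have hdc : DiffContOnCl ℂ (GG D m - g) (Metric.ball (z ^ 2) r) := by
    apply DifferentiableOn.diffContOnCl
    rw [closure_ball _ hrpos.ne']
    intro ξ hξ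
    exact ((hGd ξ hξ).sub (hgd ξ)).differentiableWithinAt
  have hC := Complex.norm_iteratedDeriv_le_of_forall_mem_sphere_norm_le n hrpos hdc hpt
  have hGan : ContDiffAt ℂ n (GG D m) (z ^ 2) := by
    have : AnalyticAt ℂ (GG D m) (z ^ 2) := by
      have hO : DifferentiableOn ℂ (GG D m) (Metric.ball (z ^ 2) r) := fun ξ hξ =>
        (hGd ξ (Metric.ball_subset_closedBall hξ)).differentiableWithinAt
      exact hO.analyticAt (Metric.ball_mem_nhds _ hrpos)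
    exact this.contDiffAt
  have hgan : ContDiffAt ℂ n g (z ^ 2) := (hgd.contDiff).contDiffAt
  rw [iteratedDeriv_sub hGan hgan] at hC
  have hgder : iteratedDeriv n g (z ^ 2) = c * (lam / (2 * (I * t))) ^ n := by
    rw [hg]
    rw [iteratedDeriv_const_mul_field]
    congr 1
    have e := iteratedDeriv_comp_sub_const (𝕜 := ℂ) (F := ℂ) n
      (fun w : ℂ => cexp (lam / (2 * (I * t)) * w)) (z ^ 2)
    have e2 := congrFun e (z ^ 2)
    rw [e2, iteratedDeriv_cexp_const_mul]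
    simp
  rw [hgder] at hC
  refine hC.trans ?_
  have hfb := fact_bound n hn
  have hnorm : ‖c * (lam / (2 * (I * t))) ^ n‖ = ‖c‖ * (‖lam‖ / (2 * t)) ^ n := by
    rw [norm_mul, norm_pow, norm_div]
    have : ‖2 * (I * (t : ℂ))‖ = 2 * t := by simp [abs_of_pos htpos]
    rw [this]
  rw [hnorm, hr]
  have e3 : (n.factorial : ℝ) * (‖c‖ * Real.exp n * ((3 * K0 + 2 * (rr D + 2)) * n / t)) /
      (2 * t * n / ‖lam‖) ^ n = ‖c‖ * (‖lam‖ / (2 * t)) ^ n *
      (((n.factorial : ℝ) * Real.exp n) / (n : ℝ) ^ n * ((3 * K0 + 2 * (rr D + 2)) * n / t)) := by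
    rw [div_pow, div_pow, mul_pow]
    field_simp
  rw [e3]
  have e4 : ((n.factorial : ℝ) * Real.exp n) / (n : ℝ) ^ n ≤ 3 * n := by
    rw [div_le_iff₀ (by positivity)]
    refine hfb.trans ?_
    have := Real.exp_one_lt_d9
    have h3 : Real.exp 1 ≤ 3 := by linarith
    gcongr
  calc ‖c‖ * (‖lam‖ / (2 * t)) ^ n *
      (((n.factorial : ℝ) * Real.exp n) / (n : ℝ) ^ n * ((3 * K0 + 2 * (rr D + 2)) * n / t))
      ≤ ‖c‖ * (‖lam‖ / (2 * t)) ^ n * (3 * n * ((3 * K0 + 2 * (rr D + 2)) * n / t)) := by gcongr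
    _ = (9 * K0 + 6 * (rr D + 2)) * (n : ℝ) ^ 2 / t * (‖c‖ * (‖lam‖ / (2 * t)) ^ n) := by ring

end Pool.Agent.H471R3.GJ
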