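import Pool.Agent.H471R3.GJ.Spec

set_option autoImplicit false

/-!
# The generic implication from real zeros to hyperbolic Jensen polynomials
-/

namespace Pool.Agent.H471R3.GJ

open Complex Filter Topology Polynomial
open Pool.Agent.H24R2.JP (Hyperbolic Par Good App arc SHad SDer SGL SPar SCircle SJensen SNewton SArc
  SChasse SSector SLimit SJen)

namespace RHa

variable {D : Dat}

/-- Under RH the zeros of `FF` are real. -/
theorem real_zeros (h : SB1 D) (hRH : ∀ z : ℂ, D.XX z = 0 → z.re = 0) (x : ℂ)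
    (hx : FF D x = 0) : x.im = 0 := by
  obtain ⟨z, rfl⟩ := IsAlgClosed.exists_pow_nat_eq x (n := 2) (by norm_num)
  rw [h.2.1 z] at hx
  have h8 := hRH z hx
  rw [pow_two, Complex.mul_im, h8]
  ring

theorem good_FF (h1 : SHad) (h4 : SB1 D) (h5 : SGrow D) (h6 : SZeros D)
    (hpos : ∀ k, 0 < gam D k) : Good (FF D) := by
  have hne : ∀ k, iteratedDeriv k (FF D) 0 ≠ 0 := by
    intro k
    rw [h4.2.2.2 k]
    exact_mod_cast (hpos k).ne'
  have h0 : FF D 0 ≠ 0 := by
    have := hne 0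
    rwa [iteratedDeriv_zero] at this
  obtain ⟨K, hK⟩ := h5
  obtain ⟨P, hP1, hP2⟩ := h1 (FF D) K h4.1 h0 h4.2.2.1 hK
  exact ⟨h4.1, ⟨P, fun N x hx => h6 x (hP1 N x hx), hP2⟩, hne⟩

theorem real_zeros_iter (h1 : SCircle) (h3 : Good (FF D)) (h : SB1 D)
    (hRH : ∀ z : ℂ, D.XX z = 0 → z.re = 0) (n : ℕ) :
    ∀ w : ℂ, iteratedDeriv n (FF D) w = 0 → w.im = 0 := by
  induction n with
  | zero =>
    intro w hw
    rw [iteratedDeriv_zero] at hw
    exact real_zeros h hRH w hw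
  | succ n ih =>
    intro w hw
    by_contra hne
    obtain ⟨z, hz1, hz2, _⟩ := h1 (FF D) h3 n w hne hw
    exact hz1 (ih z hz2)

theorem aeval_jensen (h : SB1 D) (d n : ℕ) (z : ℂ) :
    aeval z (jensen D d n) =
      ∑ j ∈ Finset.range (d + 1), (d.choose j : ℂ) * iteratedDeriv (n + j) (FF D) 0 * z ^ j := by
  unfold jensen
  rw [map_sum]
  apply Finset.sum_congr rfl
  intro j _
  rw [map_mul, map_pow, aeval_X, aeval_C, h.2.2.2 (n + j)]
  simp

end RHa

theorem rh1 (D : Dat) (h1 : SHad) (h2 : SCircle) (h3 : SJensen) (h4 : SB1 D) (h5 : SGrow D)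
    (h6 : SZeros D) : SRH1 D := by
  intro hpos hRH d n z hz
  have hG := RHa.good_FF h1 h4 h5 h6 hpos
  rw [RHa.aeval_jensen h4] at hz
  have hd : (0 : ℝ) ≤ d := Nat.cast_nonneg d
  refine h3 (FF D) hG n d ((d : ℝ) + 1) (by linarith) (by nlinarith) ?_ z hz
  intro w _ hw
  exact RHa.real_zeros_iter h2 hG h4 hRH n w hw

end Pool.Agent.H471R3.GJ
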