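import Pool.Agent.H471R3.GJ.Spec2
import Pool.Agent.H471R3.GJ.Hyp

set_option autoImplicit false

/-!
# The zeros of the derivatives are real, negative and simple (helper268)
-/

namespace Pool.Agent.H471R3.GJ

open Complex Filter Topology Polynomial
open Pool.Agent.H24R2.JP (Good)

namespace SimpleAux

open scoped ComplexOrder in
theorem simple_pos (D : Dat) (h9 : SB1 D) (n : ℕ) (hg : ∀ k, n ≤ k → 0 < gam D k) {x : ℝ}
    (hx : 0 ≤ x) : iteratedDeriv n (FF D) (x : ℂ) ≠ 0 := by
  obtain ⟨hd, -, -, h0⟩ := h9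
  have hdn : Differentiable ℂ (iteratedDeriv n (FF D)) := hd.contDiff.differentiable_iteratedDeriv' n
  have hle := Differentiable.apply_le_of_iteratedDeriv_nonneg (c := 0) hdn (fun m _ => by
    have e : iteratedDeriv m (iteratedDeriv n (FF D)) = iteratedDeriv (m + n) (FF D) := by
      rw [iteratedDeriv_eq_iterate, iteratedDeriv_eq_iterate, iteratedDeriv_eq_iterate,
        Function.iterate_add_apply]
    rw [e, h0]
    exact Complex.zero_le_real.2 (hg _ (by omega)).le) (z := (x : ℂ)) (Complex.zero_le_real.2 hx)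
  rw [h0] at hle
  intro h
  rw [h] at hle
  have := (Complex.le_def.1 hle).1
  simp only [ofReal_re, zero_re] at this
  linarith [hg n le_rfl]

end SimpleAux

theorem simple (D : Dat) (h : IsL D) (h1 : SChain D) (h2 : SLow D) (h3 : SSimpleWin D)
    (h4 : Pool.Agent.H24R2.JP.SDerLag) (h5 : SExZero D) (h6 : SGood D) (h7 : SB1 D) : SSimple D := by
  obtain ⟨N1, hN1⟩ := h1
  obtain ⟨N0, hN0⟩ := h2 1
  obtain ⟨T0, hT0, hW⟩ := h3
  obtain ⟨kx, hkx⟩ := h5
  obtain ⟨kg, hkg⟩ := h6
  have hal := HypAux.al_pos D h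
  have hκ := h.κ_pos
  have hc := h.c_pos
  have hA := h.A_nonneg
  have hwl := h.w_large
  have hw20 : 20 < D.w := by linarith
  have hw0 : 0 < D.w := by linarith
  have halc : al D * (D.c * D.w) = 2 := by
    unfold al
    field_simp
  -- a bound for all the levels
  obtain ⟨L, hL⟩ : ∃ L : ℝ, L = (N1 : ℝ) + kx + kg + 1 + 10 / al D := ⟨_, rfl⟩
  have hN1r : (0:ℝ) ≤ N1 := Nat.cast_nonneg _
  have hkxr : (0:ℝ) ≤ kx := Nat.cast_nonneg _
  have hkgr : (0:ℝ) ≤ kg := Nat.cast_nonneg _
  have hLpos : 0 < L := by rw [hL]; positivity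
  have hdiv : 0 ≤ 10 / al D := by positivity
  obtain ⟨E, hE⟩ : ∃ E : ℝ, E = 40 * (7 / 10 + al D) + 2 * (L + 1) / D.c := ⟨_, rfl⟩
  obtain ⟨B, hB⟩ : ∃ B : ℝ, B = T0 ^ 2 + Real.exp E := ⟨_, rfl⟩
  refine ⟨N1 + N0 + kg + ⌈B⌉₊, fun n hn w hw h0 => ?_⟩
  have hnN1 : N1 ≤ n := by omega
  have hnN0 : N0 ≤ n := by omega
  have hnkg : kg ≤ n := by omega
  have hnB : B ≤ n := by
    refine (Nat.le_ceil B).trans ?_
    exact_mod_cast (by omega : ⌈B⌉₊ ≤ n)
  have hn0 : (0 : ℝ) ≤ n := Nat.cast_nonneg n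
  have him : w.im = 0 := by
    by_contra h
    have h10 := hN1 n hnN1 w h h0
    have h11 : Real.exp (5 / 6 * (al D * n)) ≤ Real.exp (al D * n) :=
      Real.exp_le_exp.2 (by nlinarith [mul_nonneg hal.le hn0])
    linarith
  have hwre : w = (w.re : ℂ) := by
    apply Complex.ext
    · simp
    · simpa using him
  have hre : w.re < 0 := by
    by_contra h
    refine SimpleAux.simple_pos D h7 n (fun k hk => (hkg k (by omega)).1) (not_lt.1 h) ?_
    rw [← hwre]
    exact h0
  refine ⟨him, hre, fun hs => ?_⟩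
  -- the height
  have hnw : (n : ℝ) < ‖w‖ := by
    have := hN0 n hnN0 w h0
    simpa using this
  obtain ⟨t, ht⟩ : ∃ t : ℝ, t = Real.sqrt ‖w‖ := ⟨_, rfl⟩
  have hwn : 0 < ‖w‖ := lt_of_le_of_lt hn0 hnw
  have ht0 : 0 < t := by rw [ht]; exact Real.sqrt_pos.2 hwn
  have ht2 : t ^ 2 = ‖w‖ := by rw [ht]; exact Real.sq_sqrt hwn.le
  have hnorm : ‖w‖ = -w.re := by
    rw [hwre, Complex.norm_real, Real.norm_eq_abs, abs_of_neg hre, ofReal_re]
  have hwt : w = (I * t) ^ 2 := by
    rw [mul_pow, I_sq, ← ofReal_pow, ht2, hnorm]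
    push_cast
    rw [← hwre]
    ring
  have hT0t : T0 ≤ t := by
    have : T0 ^ 2 ≤ t ^ 2 := by rw [ht2]; linarith [Real.exp_pos E]
    exact le_of_sq_le_sq this ht0.le
  have hlog2 : Real.log ‖w‖ = 2 * Real.log t := by
    rw [← ht2, Real.log_pow]; norm_num
  have hlogE : E ≤ Real.log ‖w‖ := by
    rw [Real.le_log_iff_exp_le hwn]
    linarith [sq_nonneg T0]
  obtain ⟨l, hl⟩ : ∃ l : ℝ, l = Real.log t := ⟨_, rfl⟩
  rw [← hl] at hlog2
  have hOm : Om D t = D.c * l := by unfold Om; rw [hl]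
  have hlE : E ≤ 2 * l := by linarith
  have hl1 : 20 * (7 / 10 + al D) ≤ l := by
    have : 0 ≤ 2 * (L + 1) / D.c := by positivity
    linarith
  have hl2 : L + 1 ≤ D.c * l := by
    have e1 : 2 * (L + 1) / D.c ≤ 2 * l := by
      have : 0 ≤ 40 * (7 / 10 + al D) := by positivity
      linarith
    rw [div_le_iff₀ hc] at e1
    linarith
  have hl0 : 0 < l := by linarith
  have hcl : 0 < D.c * l := by positivity
  -- the size of the window
  obtain ⟨W, hWd⟩ : ∃ W : ℝ, W = D.w * (D.c * l) := ⟨_, rfl⟩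
  have hWal : al D * W = 2 * l := by
    rw [hWd]
    calc al D * (D.w * (D.c * l)) = al D * (D.c * D.w) * l := by ring
      _ = 2 * l := by rw [halc]
  have hWbig : 20 * (L + 1) ≤ W := by
    rw [hWd]
    nlinarith
  have hWn : 6 / 5 * W ≤ n := by
    have e1 : Real.log ‖w‖ ≤ 5 / 6 * (al D * n) := by
      rw [Real.log_le_iff_le_exp hwn]
      exact hw
    rw [hlog2, ← hWal] at e1
    have e2 : al D * (6 / 5 * W) ≤ al D * n := by linarith
    exact le_of_mul_le_mul_left e2 hal
  -- the level of the window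
  obtain ⟨k0, hk0⟩ : ∃ k0 : ℕ, k0 = ⌊41 / 40 * W⌋₊ := ⟨_, rfl⟩
  have hW0 : 0 < W := by linarith
  have hk1 : (k0 : ℝ) ≤ 41 / 40 * W := by
    rw [hk0]; exact Nat.floor_le (by linarith)
  have hk2 : 41 / 40 * W - 1 < k0 := by
    rw [hk0]; linarith [Nat.lt_floor_add_one (41 / 40 * W)]
  have hk0n : k0 ≤ n := by
    have : (k0 : ℝ) ≤ n := by linarith
    exact_mod_cast this
  have hk0L : L ≤ k0 := by linarith
  have hk0N1 : N1 ≤ k0 := by
    have : (N1 : ℝ) ≤ k0 := by linarith
    exact_mod_cast this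
  have hk0kx : kx ≤ k0 := by
    have : (kx : ℝ) ≤ k0 := by linarith
    exact_mod_cast this
  have hk0kg : kg ≤ k0 := by
    have : (kg : ℝ) ≤ k0 := by linarith
    exact_mod_cast this
  have hlogtwo : Real.log 2 ≤ 7 / 10 := by
    have := Real.log_two_lt_d9; linarith
  have hR : 2 * ‖w‖ ≤ Real.exp (al D * k0) := by
    rw [← Real.log_le_iff_le_exp (by positivity), Real.log_mul (by norm_num) hwn.ne', hlog2]
    have e1 : al D * (41 / 40 * W - 1) ≤ al D * k0 :=
      mul_le_mul_of_nonneg_left hk2.le hal.le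
    have e2 : al D * (41 / 40 * W - 1) = 41 / 20 * l - al D := by
      calc al D * (41 / 40 * W - 1) = 41 / 40 * (al D * W) - al D := by ring
        _ = 41 / 20 * l - al D := by rw [hWal]; ring
    linarith
  have hR10 : 10 ≤ Real.exp (al D * k0) := by
    have e0 := Real.add_one_le_exp (al D * k0)
    have e1 : al D * (10 / al D) = 10 := by field_simp
    have e2 : 10 / al D ≤ (k0 : ℝ) := by linarith
    have e3 : al D * (10 / al D) ≤ al D * k0 := mul_le_mul_of_nonneg_left e2 hal.le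
    linarith
  -- downward induction
  have key : ∀ j : ℕ, j ≤ n - k0 → iteratedDeriv (n - j) (FF D) w = 0 ∧
      iteratedDeriv (n - j + 1) (FF D) w = 0 := by
    intro j
    induction j with
    | zero => intro _; exact ⟨h0, hs⟩
    | succ j ih =>
      intro hj
      have ih' := ih (by omega)
      obtain ⟨k, hk⟩ : ∃ k, k = n - (j + 1) := ⟨_, rfl⟩
      have e1 : n - j = k + 1 := by omega
      rw [← hk]
      rw [e1] at ih'
      refine ⟨?_, ih'.1⟩
      have hkk : k0 ≤ k := by omega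
      have hkr : (k0 : ℝ) ≤ k := by exact_mod_cast hkk
      have hexp : Real.exp (al D * k0) ≤ Real.exp (al D * k) :=
        Real.exp_le_exp.2 (mul_le_mul_of_nonneg_left hkr hal.le)
      have hG : Good (iteratedDeriv k (FF D)) := (hkg k (by omega)).2
      have hd1 : deriv (iteratedDeriv k (FF D)) = iteratedDeriv (k + 1) (FF D) := by
        rw [iteratedDeriv_succ]
      have hd2 : deriv (deriv (iteratedDeriv k (FF D))) = iteratedDeriv (k + 1 + 1) (FF D) := by
        rw [hd1, ← iteratedDeriv_succ]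
      have := h4 (iteratedDeriv k (FF D)) (Real.exp (al D * k)) w.re hG (hkx k (by omega)) (by linarith)
        (fun v hv hv0 => by
          by_contra h
          have := hN1 k (by omega) v h hv0
          linarith)
        (by
          rw [abs_of_neg hre, ← hnorm]
          linarith)
        (by rw [hd1, ← hwre]; exact ih'.1) (by rw [hd2, ← hwre]; exact ih'.2)
      rw [hwre]
      exact this
  have hfin := key (n - k0) le_rfl
  have e2 : n - (n - k0) = k0 := by omega
  rw [e2] at hfin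
  have hWO : D.w * Om D t = W := by rw [hOm, hWd]
  have := hW t k0 hT0t (by rw [hWO]; linarith) (by rw [hWO]; exact hk1) (by rw [← hwt]; exact hfin.1)
  rw [← hwt] at this
  exact this hfin.2

end Pool.Agent.H471R3.GJ
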