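import Pool.Agent.H471R3.GJ.Spec2
import Pool.Agent.H24R2.JP.Off

set_option autoImplicit false

/-!
# Task XSW: in the window the zeros of `(FF D)^(n)` on the line are simple
-/

namespace Pool.Agent.H471R3.GJ

open Complex Filter Topology Polynomial
open Pool.Agent.H24R2.JP (Hyperbolic Par Good App arc SHad SDer SGL SPar SCircle SJensen SNewton SArc
  SChasse SSector SLimit SJen)

open Pool.Agent.H24R2.JP.OffAux in
theorem simpleWin (D : Dat) (h : IsL D) (h1 : SMain D) (h2 : SArc) (h3 : SB1 D) (h4 : SStir D) :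
    SSimpleWin D := by
  obtain ⟨T1, hT1, H1⟩ := h1
  obtain ⟨-, K, T2, hK, hT2, H2⟩ := h4
  have hκ := h.κ_pos
  have hc := h.c_pos
  have hrr : 40 ≤ rr D := by
    have h5 := h.A_nonneg
    have h6 := h.w_large
    unfold rr
    rw [le_div_iff₀ hκ]
    nlinarith
  refine ⟨max (max T1 T2) (Real.exp ((2 * K + 1) / (D.κ * D.c))),
    le_max_of_le_left (le_max_of_le_left hT1), ?_⟩
  intro t n ht hn1 hn2 hzero hzero'
  have htT1 : T1 ≤ t := (le_max_left _ _).trans ((le_max_left _ _).trans ht)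
  have htT2 : T2 ≤ t := (le_max_right _ _).trans ((le_max_left _ _).trans ht)
  have htE : Real.exp ((2 * K + 1) / (D.κ * D.c)) ≤ t := (le_max_right _ _).trans ht
  have ht1 : 1 ≤ t := hT1.trans htT1
  have ht0 : 0 < t := by linarith
  obtain ⟨hHH, hbe, -⟩ := H2 t htT2
  have hOm : 2 * K + 1 ≤ D.κ * Om D t := by
    rw [Om]
    have h5 : (2 * K + 1) / (D.κ * D.c) ≤ Real.log t := (Real.le_log_iff_exp_le ht0).2 htE
    rw [div_le_iff₀ (by positivity)] at h5
    linarith
  have hbre : 1 ≤ (be D t).re := by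
    have h5 := Complex.abs_re_le_norm (be D t - ((D.κ * Om D t : ℝ) : ℂ))
    have h6 : (be D t - ((D.κ * Om D t : ℝ) : ℂ)).re = (be D t).re - D.κ * Om D t := by
      rw [Complex.sub_re, Complex.ofReal_re]
    rw [h6] at h5
    have h7 := (abs_le.1 (h5.trans hbe)).1
    linarith
  have hbne : be D t ≠ 0 := by
    intro h0
    rw [h0] at hbre
    norm_num at hbre
  have hIt : (2 : ℂ) * (I * t) ≠ 0 := by
    have : (t : ℂ) ≠ 0 := by exact_mod_cast ht0.ne'
    simp [this]
  have hmtne : ∀ z, mt D n t z ≠ 0 := by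
    intro z
    rw [mt]
    exact mul_ne_zero (mul_ne_zero hHH (Complex.exp_ne_zero _))
      (pow_ne_zero _ (div_ne_zero hbne hIt))
  set A : ℂ → ℂ := fun z => arc (FF D) n (-t ^ 2) (rr D * t) 0 Real.pi (z ^ 2) with hA
  set R : ℂ → ℂ := fun z => A z / mt D n t z - 1 with hR
  have hρ : 0 < rr D * t := by positivity
  have hρ40 : 40 * t ≤ rr D * t := mul_le_mul_of_nonneg_right hrr ht0.le
  have hin : ∀ z : ℂ, ‖z - I * t‖ ≤ 3 / 4 → ‖z ^ 2 - ((-t ^ 2 : ℝ) : ℂ)‖ < rr D * t := by
    intro z hz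
    refine lt_of_lt_of_le ?_ hρ40
    have e : z ^ 2 - ((-t ^ 2 : ℝ) : ℂ) = (z - I * t) * ((z - I * t) + 2 * (I * t)) := by
      have hI : I ^ 2 = -1 := Complex.I_sq
      push_cast
      linear_combination ((t : ℂ) ^ 2) * hI
    rw [e, norm_mul]
    have h5 : ‖(z - I * t) + 2 * (I * t)‖ ≤ 3 / 4 + 2 * t := by
      refine (norm_add_le _ _).trans ?_
      have : ‖(2 : ℂ) * (I * t)‖ = 2 * t := by
        simp [abs_of_pos ht0]
      rw [this]
      linarith
    have h6 := norm_nonneg (z - I * t)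
    have h7 := norm_nonneg ((z - I * t) + 2 * (I * t))
    nlinarith
  have hRd : ∀ z : ℂ, ‖z - I * t‖ ≤ 3 / 4 → DifferentiableAt ℂ R z := by
    intro z hz
    have h5 : DifferentiableAt ℂ A z := by
      have h6 := arc_diff (FF D) h3.1.continuous n (-t ^ 2) (rr D * t) 0 Real.pi hρ (z ^ 2) (hin z hz)
      have h8 : DifferentiableAt ℂ (fun z : ℂ => z ^ 2) z := by fun_prop
      exact DifferentiableAt.comp (g := fun x => arc (FF D) n (-t ^ 2) (rr D * t) 0 Real.pi x)
        (f := fun z : ℂ => z ^ 2) z h6 h8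
    have h7 : DifferentiableAt ℂ (fun z => mt D n t z) z := by
      unfold mt
      fun_prop
    exact (h5.div h7 (hmtne z)).sub_const 1
  have hRb : ∀ z : ℂ, ‖z - I * t‖ ≤ 3 / 4 → ‖R z‖ ≤ 1 / 10 := by
    intro z hz
    have h5 := H1 t n z htT1 ⟨hn1, hn2, hz⟩
    have h6 : R z = (A z - mt D n t z) / mt D n t z := by
      rw [hR]; simp only
      rw [sub_div, div_self (hmtne z)]
    rw [h6, norm_div, div_le_iff₀ (norm_pos_iff.2 (hmtne z))]
    exact h5
  -- derivative bound
  have hder : ‖deriv R (I * t)‖ ≤ (1 / 10) / (3 / 4) := by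
    apply Complex.norm_deriv_le_of_forall_mem_sphere_norm_le (by norm_num)
    · apply DifferentiableOn.diffContOnCl
      intro z hz
      rw [closure_ball _ (by norm_num)] at hz
      exact (hRd z (by rwa [mem_closedBall_iff_norm] at hz)).differentiableWithinAt
    · intro z hz
      exact hRb z (by
        have := Metric.sphere_subset_closedBall hz
        rwa [mem_closedBall_iff_norm] at this)
  have hAR : ∀ z, A z = (R z + 1) * mt D n t z := by
    intro z
    rw [hR]; simp only
    rw [sub_add_cancel, div_mul_cancel₀ _ (hmtne z)]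
  have hc0 : ‖(I * t : ℂ) - I * t‖ ≤ 3 / 4 := by
    rw [sub_self, norm_zero]; norm_num
  -- the derivative of `A`
  have hAd : HasDerivAt A ((deriv R (I * t) + (R (I * t) + 1) * be D t) * mt D n t (I * t)) (I * t) := by
    have h5 : HasDerivAt (fun z => R z + 1) (deriv R (I * t)) (I * t) :=
      (hRd _ hc0).hasDerivAt.add_const 1
    have h6 : HasDerivAt (fun z => mt D n t z) (be D t * mt D n t (I * t)) (I * t) := by
      have h7 : HasDerivAt (fun z : ℂ => be D t * (z - I * t)) (be D t) (I * t) := by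
        simpa using ((hasDerivAt_id (I * t : ℂ)).sub_const (I * t : ℂ)).const_mul (be D t)
      have h8 := ((h7.cexp).const_mul (D.HH (I * t))).mul_const ((be D t / (2 * (I * t))) ^ n)
      refine h8.congr_deriv ?_
      rw [mt]
      ring
    have h9 := h5.mul h6
    have h10 : (fun z => (R z + 1) * mt D n t z) = A := by
      funext z; rw [hAR]
    have h11 : HasDerivAt (fun z => (R z + 1) * mt D n t z)
        (deriv R (I * t) * mt D n t (I * t) + (R (I * t) + 1) * (be D t * mt D n t (I * t))) (I * t) := h9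
    rw [h10] at h11
    refine h11.congr_deriv ?_
    ring
  -- the reflection formula for real `s`
  have hfs : ∀ s : ℝ, |s| ≤ 1 / 2 → iteratedDeriv n (FF D) ((s + I * t) ^ 2) =
      A (s + I * t) + (starRingEnd ℂ) (A (((-s : ℝ) : ℂ) + I * t)) := by
    intro s hs
    have hxball : ((s : ℂ) + I * t) ^ 2 ∈ Metric.ball (((-t ^ 2 : ℝ) : ℂ)) (rr D * t) := by
      rw [mem_ball_iff_norm]
      apply hin
      simp only [add_sub_cancel_right, Complex.norm_real, Real.norm_eq_abs]
      linarith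
    obtain ⟨e1, e2⟩ := h2 (FF D) n (-t ^ 2) (rr D * t) (((s : ℂ) + I * t) ^ 2) hρ
      (fun ξ _ => h3.1 ξ) hxball
    have e3 := e2 h3.2.2.1
    have hconj : (starRingEnd ℂ) (((s : ℂ) + I * t) ^ 2) = (((-s : ℝ) : ℂ) + I * t) ^ 2 := by
      simp only [map_pow, map_add, map_mul, Complex.conj_I, Complex.conj_ofReal]
      push_cast
      ring
    rw [hconj] at e3
    rw [hA]; simp only
    rw [← e3, ← e1]
  have h00 : A (I * t) + (starRingEnd ℂ) (A (I * t)) = 0 := by
    have h5 := hfs 0 (by norm_num)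
    have h6 : (((0 : ℝ) : ℂ) + I * t) = I * t := by simp
    have h7 : ((((-0 : ℝ)) : ℂ) + I * t) = I * t := by simp
    rw [h6, h7, hzero] at h5
    exact h5.symm
  -- derivative along the real direction, two ways
  set E0 : ℂ := (deriv R (I * t) + (R (I * t) + 1) * be D t) * mt D n t (I * t) with hD
  have hd1 : HasDerivAt (fun s : ℝ => iteratedDeriv n (FF D) (((s : ℂ) + I * t) ^ 2)) 0 0 := by
    have hdiff : HasDerivAt (iteratedDeriv n (FF D)) (iteratedDeriv (n + 1) (FF D) ((I * t) ^ 2))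
        ((I * t) ^ 2) := by
      rw [iteratedDeriv_succ]
      have h5 : ContDiff ℂ (n + 1 : ℕ) (FF D) := h3.1.contDiff
      have h6 : Differentiable ℂ (iteratedDeriv n (FF D)) :=
        h5.differentiable_iteratedDeriv n (by exact_mod_cast Nat.lt_succ_self n)
      exact (h6 _).hasDerivAt
    rw [hzero'] at hdiff
    have h7 : HasDerivAt (fun z : ℂ => (z + I * t) ^ 2) (2 * (I * t)) ((0 : ℝ) : ℂ) := by
      have h8 := ((hasDerivAt_id ((0 : ℝ) : ℂ)).add_const (I * t : ℂ)).pow 2
      refine h8.congr_deriv ?_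
      simp
    have h9 : HasDerivAt (iteratedDeriv n (FF D)) 0 ((fun z : ℂ => (z + I * t) ^ 2) ((0 : ℝ) : ℂ)) := by
      have : (fun z : ℂ => (z + I * t) ^ 2) ((0 : ℝ) : ℂ) = (I * t) ^ 2 := by simp
      rw [this]; exact hdiff
    have h10 := HasDerivAt.comp (h₂ := iteratedDeriv n (FF D)) ((0 : ℝ) : ℂ) h9 h7
    have h11 := h10.comp_ofReal
    refine h11.congr_deriv ?_
    simp
  have hd2 : HasDerivAt (fun s : ℝ => A (s + I * t) +
      (starRingEnd ℂ) (A (((-s : ℝ) : ℂ) + I * t))) (E0 - (starRingEnd ℂ) E0) 0 := by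
    have hAd' : HasDerivAt A E0 (((0 : ℝ) : ℂ) + I * t) := by
      have : ((0 : ℝ) : ℂ) + I * t = I * t := by simp
      rw [this]; exact hAd
    have h5 : HasDerivAt (fun s : ℝ => A (s + I * t)) E0 0 := by
      have h6 : HasDerivAt (fun z : ℂ => z + I * t) 1 ((0 : ℝ) : ℂ) := by
        simpa using (hasDerivAt_id ((0 : ℝ) : ℂ)).add_const (I * t : ℂ)
      have h7 := HasDerivAt.comp (h₂ := A) ((0 : ℝ) : ℂ) hAd' h6
      have h8 := h7.comp_ofReal
      refine h8.congr_deriv ?_
      simp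
    have h9 : HasDerivAt (fun s : ℝ => A (((-s : ℝ) : ℂ) + I * t)) (-E0) 0 := by
      have h10 : HasDerivAt (fun s : ℝ => -s) (-1) 0 := hasDerivAt_neg 0
      have h11 : HasDerivAt (fun s : ℝ => A (s + I * t)) E0 (-0 : ℝ) := by
        rw [neg_zero]; exact h5
      have h12 := HasDerivAt.scomp (0 : ℝ) h11 h10
      refine h12.congr_deriv ?_
      simp
    have h13 : HasDerivAt (fun s : ℝ => (starRingEnd ℂ) (A (((-s : ℝ) : ℂ) + I * t)))
        ((starRingEnd ℂ) (-E0)) 0 := h9.star
    refine (h5.add h13).congr_deriv ?_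
    rw [map_neg, sub_eq_add_neg]
  have hd3 : HasDerivAt (fun s : ℝ => iteratedDeriv n (FF D) (((s : ℂ) + I * t) ^ 2))
      (E0 - (starRingEnd ℂ) E0) 0 := by
    refine hd2.congr_of_eventuallyEq ?_
    have h5 : Metric.ball (0 : ℝ) (1 / 2) ∈ 𝓝 (0 : ℝ) := Metric.ball_mem_nhds _ (by norm_num)
    filter_upwards [h5] with s hs
    rw [Metric.mem_ball, Real.dist_eq, sub_zero] at hs
    exact hfs s hs.le
  have hD0 : E0 - (starRingEnd ℂ) E0 = 0 := hd3.unique hd1
  have hDim : E0.im = 0 := by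
    have h5 := congrArg Complex.im hD0
    simp only [Complex.sub_im, Complex.conj_im, Complex.zero_im] at h5
    linarith
  -- `A (I t)` is purely imaginary and nonzero
  have hAre : (A (I * t)).re = 0 := by
    have h5 := congrArg Complex.re h00
    simp only [Complex.add_re, Complex.conj_re, Complex.zero_re] at h5
    linarith
  have hR1 : 9 / 10 ≤ ‖R (I * t) + 1‖ := by
    have h5 := hRb _ hc0
    have h6 : ‖(1 : ℂ)‖ ≤ ‖R (I * t) + 1‖ + ‖R (I * t)‖ := by
      have : (1 : ℂ) = (R (I * t) + 1) - R (I * t) := by ring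
      conv_lhs => rw [this]
      exact norm_sub_le _ _
    rw [norm_one] at h6
    linarith
  have hR1ne : R (I * t) + 1 ≠ 0 := by
    intro h0
    rw [h0, norm_zero] at hR1
    norm_num at hR1
  have hAne : A (I * t) ≠ 0 := by
    rw [hAR]; exact mul_ne_zero hR1ne (hmtne _)
  set L : ℂ := be D t + deriv R (I * t) / (R (I * t) + 1) with hL
  have hDL : E0 = L * A (I * t) := by
    rw [hD, hL, hAR]
    field_simp
    ring
  have hLre : 0 < L.re := by
    have h5 : ‖deriv R (I * t) / (R (I * t) + 1)‖ ≤ 1 / 2 := by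
      rw [norm_div, div_le_iff₀ (by linarith)]
      linarith
    have h6 := (abs_le.1 ((Complex.abs_re_le_norm _).trans h5)).1
    rw [hL, Complex.add_re]
    linarith
  rw [hDL, Complex.mul_im, hAre, mul_zero, add_zero] at hDim
  have hAim : (A (I * t)).im ≠ 0 := by
    intro h0
    exact hAne (Complex.ext hAre h0)
  exact (mul_ne_zero hLre.ne' hAim) hDim

end Pool.Agent.H471R3.GJ
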