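import Pool.Agent.H471R3.GJ.Spec
import Pool.Agent.H382R2.Gam

set_option autoImplicit false

/-!
# The factor at infinity (task STIR, after helper738)
-/

open Complex Filter Topology Set

namespace Pool.Agent.H471R3.GJ

namespace StirAux

lemma upper_open : IsOpen {z : ℂ | 0 < z.im} := isOpen_lt continuous_const Complex.continuous_im

lemma HH_deriv (D : Dat) (h : IsL D) {z : ℂ} (hz : 0 < z.im) (hn : D.HH z ≠ 0) :
    HasDerivAt D.HH (D.HH z * logDeriv D.HH z) z := by
  have h1 := (h.HH_diff z hz).hasDerivAt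
  refine h1.congr_deriv ?_
  rw [logDeriv_apply]
  field_simp

lemma ld_diff (D : Dat) (h : IsL D) {z : ℂ} (hz : 0 < z.im) (hn : D.HH z ≠ 0) :
    DifferentiableAt ℂ (logDeriv D.HH) z := by
  have h1 : DifferentiableOn ℂ D.HH {z : ℂ | 0 < z.im} :=
    fun w hw => (h.HH_diff w hw).differentiableWithinAt
  have h2 : AnalyticAt ℂ D.HH z := h1.analyticAt (upper_open.mem_nhds hz)
  have h3 : AnalyticAt ℂ (deriv D.HH) z := h2.deriv
  have h4 : AnalyticAt ℂ (deriv D.HH / D.HH) z := h3.div h2 hn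
  exact h4.differentiableAt

lemma bound1 (D : Dat) (hD : IsL D) : ∃ K T : ℝ, 1 ≤ K ∧ 400 ≤ T ∧ ∀ (t : ℝ) (z : ℂ), T ≤ t →
    ‖z - I * t‖ ≤ t / 4 → 0 < z.im ∧ D.HH z ≠ 0 ∧
      ‖logDeriv D.HH z - ((D.κ * Om D t : ℝ) : ℂ)‖ ≤ K := by
  obtain ⟨K, T0, hK, hT0, h⟩ := hD.HH_log
  have hl2 : 0 < Real.log 2 := Real.log_pos (by norm_num)
  have hkc : 0 < D.κ * D.c := mul_pos hD.κ_pos hD.c_pos
  refine ⟨K + D.κ * D.c * Real.log 2, max 400 (2 * T0), by nlinarith [mul_pos hkc hl2],
    le_max_left _ _, ?_⟩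
  intro t z ht hz
  have ht1 : 400 ≤ t := (le_max_left _ _).trans ht
  have ht2 : 2 * T0 ≤ t := (le_max_right _ _).trans ht
  have him : |z.im - t| ≤ t / 4 := by
    have := Complex.abs_im_le_norm (z - I * t)
    simp at this
    linarith
  have hre : |z.re| ≤ t / 4 := by
    have := Complex.abs_re_le_norm (z - I * t)
    simp at this
    linarith
  rw [abs_le] at him
  have hpos : 0 < z.im := by linarith
  obtain ⟨hn, h1⟩ := h z (by linarith) (by linarith)
  refine ⟨hpos, hn, ?_⟩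
  have h2 : |Real.log z.im - Real.log t| ≤ Real.log 2 := by
    have a1 : Real.log z.im ≤ Real.log (2 * t) := Real.log_le_log hpos (by linarith)
    have a2 : Real.log t ≤ Real.log (2 * z.im) := Real.log_le_log (by linarith) (by linarith)
    rw [Real.log_mul (by norm_num) (by linarith)] at a1
    rw [Real.log_mul (by norm_num) hpos.ne'] at a2
    rw [abs_le]
    constructor <;> linarith
  have e : logDeriv D.HH z - ((D.κ * Om D t : ℝ) : ℂ) =
      (logDeriv D.HH z - ((D.κ * (D.c * Real.log z.im) : ℝ) : ℂ)) +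
        ((D.κ * D.c * (Real.log z.im - Real.log t) : ℝ) : ℂ) := by
    unfold Om
    push_cast
    ring
  rw [e]
  refine (norm_add_le _ _).trans ?_
  rw [Complex.norm_real, Real.norm_eq_abs, abs_mul, abs_of_pos hkc]
  have := mul_le_mul_of_nonneg_left h2 hkc.le
  linarith

lemma bound2 (D : Dat) (hD : IsL D) (R : ℝ) (hR : 1 ≤ R) : ∃ K T : ℝ, 1 ≤ K ∧ 400 ≤ T ∧
    ∀ (t : ℝ), T ≤ t → D.HH (I * t) ≠ 0 ∧
    ‖be D t - ((D.κ * Om D t : ℝ) : ℂ)‖ ≤ K ∧ ∀ u : ℂ, ‖u‖ ≤ R → 0 < (I * t + u).im ∧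
      D.HH (I * t + u) ≠ 0 ∧ ‖logDeriv D.HH (I * t + u) - be D t‖ ≤ 10 * K * R / t := by
  obtain ⟨K, T, hK, hT, h⟩ := bound1 D hD
  refine ⟨K, max T (8 * R), hK, hT.trans (le_max_left _ _), ?_⟩
  intro t ht
  have htT : T ≤ t := (le_max_left _ _).trans ht
  have htR : 8 * R ≤ t := (le_max_right _ _).trans ht
  have ht4 : 400 ≤ t := hT.trans htT
  have ht0 : 0 < t := by linarith
  refine ⟨(h t (I * t) htT (by simp; linarith)).2.1, (h t (I * t) htT (by simp; linarith)).2.2, ?_⟩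
  intro u hu
  have hu4 : ‖I * (t : ℂ) + u - I * t‖ ≤ t / 4 := by
    rw [add_sub_cancel_left]
    linarith
  refine ⟨(h t (I * t + u) htT hu4).1, (h t (I * t + u) htT hu4).2.1, ?_⟩
  have hcv : Convex ℝ (Metric.ball (I * t : ℂ) (t / 8 + 1)) := convex_ball _ _
  have hd : ∀ z ∈ Metric.ball (I * t : ℂ) (t / 8 + 1), DifferentiableAt ℂ (logDeriv D.HH) z := by
    intro z hz
    rw [Metric.mem_ball, dist_eq_norm] at hz
    have hz4 : ‖z - I * t‖ ≤ t / 4 := by linarith
    exact ld_diff D hD (h t z htT hz4).1 (h t z htT hz4).2.1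
  have hdb : ∀ z ∈ Metric.ball (I * t : ℂ) (t / 8 + 1),
      ‖deriv (logDeriv D.HH) z‖ ≤ 8 * K / (t - 8) * 1 := by
    intro z hz
    rw [Metric.mem_ball, dist_eq_norm] at hz
    have hr : 0 < t / 8 - 1 := by linarith
    have e0 : deriv (logDeriv D.HH) z =
        deriv (fun w => logDeriv D.HH w - ((D.κ * Om D t : ℝ) : ℂ)) z := by
      rw [deriv_sub_const]
    rw [e0]
    have hw4 : ∀ w : ℂ, ‖w - z‖ ≤ t / 8 - 1 → ‖w - I * t‖ ≤ t / 4 := by
      intro w hw
      calc ‖w - I * t‖ = ‖(w - z) + (z - I * t)‖ := by ring_nf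
        _ ≤ ‖w - z‖ + ‖z - I * t‖ := norm_add_le _ _
        _ ≤ t / 4 := by linarith
    have := Complex.norm_deriv_le_of_forall_mem_sphere_norm_le
      (f := fun w => logDeriv D.HH w - ((D.κ * Om D t : ℝ) : ℂ)) (c := z) (C := K) hr ?_ ?_
    · refine this.trans (le_of_eq ?_)
      field_simp
    · constructor
      · intro w hw
        rw [Metric.mem_ball, dist_eq_norm] at hw
        have h5 := h t w htT (hw4 w hw.le)
        exact ((ld_diff D hD h5.1 h5.2.1).sub_const _).differentiableWithinAt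
      · rw [closure_ball _ hr.ne']
        intro w hw
        rw [Metric.mem_closedBall, dist_eq_norm] at hw
        have h5 := h t w htT (hw4 w hw)
        exact ((ld_diff D hD h5.1 h5.2.1).sub_const _).continuousAt.continuousWithinAt
    · intro w hw
      rw [mem_sphere_iff_norm] at hw
      exact (h t w htT (hw4 w hw.le)).2.2
  have hx : (I * t : ℂ) ∈ Metric.ball (I * t : ℂ) (t / 8 + 1) := Metric.mem_ball_self (by linarith)
  have hy : (I * t + u : ℂ) ∈ Metric.ball (I * t : ℂ) (t / 8 + 1) := by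
    rw [Metric.mem_ball, dist_eq_norm, add_sub_cancel_left]
    linarith
  have := hcv.norm_image_sub_le_of_norm_deriv_le hd hdb hx hy
  unfold be
  refine this.trans ?_
  rw [mul_one, add_sub_cancel_left]
  have h8 : 0 < t - 8 := by linarith
  have hK0 : 0 ≤ K := by linarith
  calc 8 * K / (t - 8) * ‖u‖ ≤ 8 * K / (t - 8) * R := by gcongr
    _ = (8 * K * R) / (t - 8) := by ring
    _ ≤ 10 * K * R / t := by
      rw [div_le_div_iff₀ h8 ht0]
      have : 0 ≤ K * R := by positivity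
      nlinarith

end StirAux

open StirAux in
theorem stir (D : Dat) (h : IsL D) : SStir D := by
  refine ⟨h.HH_diff, ?_⟩
  have hrr : 0 ≤ rr D := by
    unfold rr
    have h1 := h.w_large
    have h2 := h.κ_pos
    have h3 := h.A_nonneg
    have : 0 ≤ D.w := by nlinarith
    positivity
  set R : ℝ := rr D + 4 with hRdef
  have hR : 1 ≤ R := by linarith
  obtain ⟨K, T, hK, hT, hb2⟩ := bound2 D h R hR
  have hKR : 1 ≤ K * R ^ 2 := by
    have : 1 ≤ R ^ 2 := one_le_pow₀ hR
    nlinarith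
  have hKK : K ≤ K * R ^ 2 := by
    have : 1 ≤ R ^ 2 := one_le_pow₀ hR
    nlinarith
  refine ⟨20 * (K * R ^ 2), max T (10 * (K * R ^ 2)), by linarith,
    le_trans (by linarith) (le_max_left _ _), ?_⟩
  intro t ht
  have htT : T ≤ t := (le_max_left _ _).trans ht
  have htK : 10 * (K * R ^ 2) ≤ t := (le_max_right _ _).trans ht
  have ht4 : 400 ≤ t := hT.trans htT
  have ht0 : 0 < t := by linarith
  obtain ⟨hne, hb, hu⟩ := hb2 t htT
  refine ⟨hne, by linarith, ?_⟩
  intro u hu50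
  rcases eq_or_ne u 0 with rfl | hu0
  · simp
    positivity
  have hun : 0 < ‖u‖ := norm_pos_iff.2 hu0
  set κ : ℝ := 10 * (K * R ^ 2) / t with hκ
  have hκ0 : 0 < κ := by positivity
  have key := SG.GamAux.gron (fun x : ℝ => D.HH (I * t + x * u) * cexp (-(x * (be D t * u))))
    (fun x : ℝ => D.HH (I * t + x * u) * cexp (-(x * (be D t * u))) *
      ((logDeriv D.HH (I * t + x * u) - be D t) * u)) κ hκ0 ?_ ?_
  · obtain ⟨-, key⟩ := key
    simp only [Complex.ofReal_one, one_mul, Complex.ofReal_zero, zero_mul, add_zero, neg_zero,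
      Complex.exp_zero, mul_one] at key
    have hκ1 : κ ≤ 1 := by
      rw [hκ, div_le_one ht0]
      exact htK
    have he : Real.exp κ - 1 ≤ 2 * κ := by
      have := Real.abs_exp_sub_one_le (x := κ) (by rw [abs_of_pos hκ0]; exact hκ1)
      rw [abs_of_pos hκ0] at this
      exact (le_abs_self _).trans this
    have e1 : D.HH (I * t + u) - D.HH (I * t) * cexp (be D t * u) =
        (D.HH (I * t + u) * cexp (-(be D t * u)) - D.HH (I * t)) * cexp (be D t * u) := by
      rw [sub_mul, mul_assoc, ← Complex.exp_add]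
      simp
    rw [e1, norm_mul, norm_mul]
    calc ‖D.HH (I * t + u) * cexp (-(be D t * u)) - D.HH (I * t)‖ * ‖cexp (be D t * u)‖
        ≤ ((Real.exp κ - 1) * ‖D.HH (I * t)‖) * ‖cexp (be D t * u)‖ := by gcongr
      _ ≤ ((2 * κ) * ‖D.HH (I * t)‖) * ‖cexp (be D t * u)‖ := by gcongr
      _ = 20 * (K * R ^ 2) / t * (‖D.HH (I * t)‖ * ‖cexp (be D t * u)‖) := by rw [hκ]; ring
  · intro x hx
    have hxu : ‖(x : ℂ) * u‖ ≤ R := by
      rw [norm_mul, Complex.norm_real, Real.norm_eq_abs, abs_of_nonneg hx.1]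
      nlinarith [hx.2]
    obtain ⟨him, hnx, -⟩ := hu (x * u) hxu
    have hlin : HasDerivAt (fun x : ℝ => I * t + (x : ℂ) * u) u x := by
      have h0 : HasDerivAt (fun x : ℝ => (x : ℂ)) 1 x := Complex.ofRealCLM.hasDerivAt
      simpa using (h0.mul_const u).const_add (I * t)
    have h1 : HasDerivAt (fun x : ℝ => D.HH (I * t + (x : ℂ) * u))
        (D.HH (I * t + x * u) * logDeriv D.HH (I * t + x * u) * u) x :=
      HasDerivAt.comp x (HH_deriv D h him hnx) hlin
    have h2 : HasDerivAt (fun x : ℝ => cexp (-((x : ℂ) * (be D t * u))))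
        (cexp (-((x : ℂ) * (be D t * u))) * (-(be D t * u))) x := by
      have h0 : HasDerivAt (fun x : ℝ => (x : ℂ)) 1 x := Complex.ofRealCLM.hasDerivAt
      have h0' : HasDerivAt (fun x : ℝ => -((x : ℂ) * (be D t * u))) (-(1 * (be D t * u))) x :=
        (h0.mul_const (be D t * u)).fun_neg
      rw [one_mul] at h0'
      exact h0'.cexp
    refine (h1.mul h2).congr_deriv ?_
    ring
  · intro x hx
    have hxu : ‖(x : ℂ) * u‖ ≤ R := by
      rw [norm_mul, Complex.norm_real, Real.norm_eq_abs, abs_of_nonneg hx.1]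
      nlinarith [hx.2]
    obtain ⟨-, -, hb2⟩ := hu (x * u) hxu
    rw [norm_mul _ ((logDeriv D.HH (I * t + x * u) - be D t) * u), norm_mul (_ - _) u, mul_comm]
    have : ‖logDeriv D.HH (I * t + x * u) - be D t‖ * ‖u‖ ≤ κ := by
      calc ‖logDeriv D.HH (I * t + x * u) - be D t‖ * ‖u‖ ≤ 10 * K * R / t * R := by gcongr
        _ = κ := by rw [hκ]; ring
    gcongr

end Pool.Agent.H471R3.GJ
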