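import Pool.Agent.H471R3.GJ.Spec

set_option autoImplicit false

namespace Pool.Agent.H471R3.GJ

open Complex Filter Topology

namespace Tail

theorem step (x : ℝ) (hx : 2 ≤ x) (m : ℕ) (hm : 1 ≤ m) :
    ((m + 1 : ℕ) : ℝ) ^ (-x) ≤ (m : ℝ) ^ (1 - x) - ((m + 1 : ℕ) : ℝ) ^ (1 - x) := by
  have hm0 : (0 : ℝ) < m := by exact_mod_cast hm
  have hm1 : (0 : ℝ) < ((m + 1 : ℕ) : ℝ) := by positivity
  have h1 : ((m + 1 : ℕ) : ℝ) ^ (1 - x) = ((m + 1 : ℕ) : ℝ) * ((m + 1 : ℕ) : ℝ) ^ (-x) := by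
    rw [show (1 - x) = 1 + (-x) by ring, Real.rpow_add hm1, Real.rpow_one]
  have h2 : (m : ℝ) ^ (1 - x) = (((m + 1 : ℕ) : ℝ) / m) ^ (x - 1) *
      ((m + 1 : ℕ) : ℝ) ^ (1 - x) := by
    rw [Real.div_rpow hm1.le hm0.le, show (1 - x) = -(x - 1) by ring, Real.rpow_neg hm0.le,
      Real.rpow_neg hm1.le]
    have : ((m + 1 : ℕ) : ℝ) ^ (x - 1) ≠ 0 := (Real.rpow_pos_of_pos hm1 _).ne'
    field_simp
  have h3 : ((m + 1 : ℕ) : ℝ) / m ≤ (((m + 1 : ℕ) : ℝ) / m) ^ (x - 1) := by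
    have h4 : (1 : ℝ) ≤ ((m + 1 : ℕ) : ℝ) / m := by
      rw [le_div_iff₀ hm0]
      push_cast
      linarith
    calc ((m + 1 : ℕ) : ℝ) / m = (((m + 1 : ℕ) : ℝ) / m) ^ (1 : ℝ) := (Real.rpow_one _).symm
      _ ≤ _ := Real.rpow_le_rpow_of_exponent_le h4 (by linarith)
  have hp : 0 < ((m + 1 : ℕ) : ℝ) ^ (-x) := Real.rpow_pos_of_pos hm1 _
  have hp1 : 0 < ((m + 1 : ℕ) : ℝ) ^ (1 - x) := Real.rpow_pos_of_pos hm1 _
  have h5 : ((m + 1 : ℕ) : ℝ) / m * ((m + 1 : ℕ) : ℝ) ^ (1 - x) ≤ (m : ℝ) ^ (1 - x) := by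
    rw [h2]
    exact mul_le_mul_of_nonneg_right h3 hp1.le
  have h6 : ((m + 1 : ℕ) : ℝ) / m * ((m + 1 : ℕ) : ℝ) ^ (1 - x) =
      ((m + 1 : ℕ) : ℝ) ^ (1 - x) + 1 / m * ((m + 1 : ℕ) : ℝ) ^ (1 - x) := by
    push_cast
    field_simp
  have h7 : ((m + 1 : ℕ) : ℝ) ^ (-x) ≤ 1 / m * ((m + 1 : ℕ) : ℝ) ^ (1 - x) := by
    rw [h1, ← mul_assoc]
    have : (1 : ℝ) ≤ 1 / m * ((m + 1 : ℕ) : ℝ) := by
      rw [one_div, ← div_eq_inv_mul, le_div_iff₀ hm0]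
      push_cast
      linarith
    calc ((m + 1 : ℕ) : ℝ) ^ (-x) = 1 * ((m + 1 : ℕ) : ℝ) ^ (-x) := (one_mul _).symm
      _ ≤ _ := mul_le_mul_of_nonneg_right this hp.le
  linarith

theorem partial_sum (x : ℝ) (hx : 2 ≤ x) (M : ℕ) (hM : 1 ≤ M) (N : ℕ) :
    ∑ i ∈ Finset.range N, ((i + M + 1 : ℕ) : ℝ) ^ (-x) ≤
      (M : ℝ) ^ (1 - x) - ((N + M : ℕ) : ℝ) ^ (1 - x) := by
  induction N with
  | zero => simp
  | succ N ih =>
    rw [Finset.sum_range_succ]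
    have h := step x hx (N + M) (by omega)
    have h2 : ((N + 1 + M : ℕ) : ℝ) = ((N + M + 1 : ℕ) : ℝ) := by push_cast; ring
    rw [h2]
    linarith

theorem sum_Icc (b : ℕ → ℂ) (M : ℕ) :
    ∑ m ∈ Finset.Icc 1 M, b m = ∑ i ∈ Finset.range M, b (i + 1) := by
  induction M with
  | zero => simp
  | succ M ih => rw [Finset.sum_Icc_succ_top (by omega), Finset.sum_range_succ, ih]

end Tail

theorem tail (D : Dat) (h : IsL D) : STail D := by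
  intro z M hz hre hM
  set x : ℝ := D.κ * z.re - D.A with hx
  have hx2 : 2 ≤ x := by rw [hx]; linarith
  set g : ℕ → ℂ := fun m => D.a (m + 1) * ((m + 1 : ℕ) : ℂ) ^ (-(D.κ : ℂ) * z) with hg
  have hgle : ∀ m, ‖g m‖ ≤ D.A0 * ((m + 1 : ℕ) : ℝ) ^ (-x) := by
    intro m
    have hm1 : (0 : ℝ) < ((m + 1 : ℕ) : ℝ) := by positivity
    rw [hg]
    simp only [norm_mul]
    rw [Complex.norm_natCast_cpow_of_pos (Nat.succ_pos m)]
    have hre' : (-(D.κ : ℂ) * z).re = -(D.κ * z.re) := by simp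
    rw [hre']
    calc ‖D.a (m + 1)‖ * ((m + 1 : ℕ) : ℝ) ^ (-(D.κ * z.re)) ≤
        D.A0 * ((m + 1 : ℕ) : ℝ) ^ D.A * ((m + 1 : ℕ) : ℝ) ^ (-(D.κ * z.re)) :=
          mul_le_mul_of_nonneg_right (h.a_le (m + 1) (by omega)) (Real.rpow_nonneg hm1.le _)
      _ = D.A0 * ((m + 1 : ℕ) : ℝ) ^ (-x) := by
          rw [mul_assoc, ← Real.rpow_add hm1]
          congr 2
          rw [hx]; ring
  have hA0 : 0 ≤ D.A0 := by linarith [h.A0_one]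
  have hsumf : Summable fun m : ℕ => D.A0 * ((m + 1 : ℕ) : ℝ) ^ (-x) := by
    apply Summable.mul_left
    have h1 : Summable fun m : ℕ => ((m : ℝ)) ^ (-x) := by
      have := Real.summable_nat_rpow.mpr (show -x < -1 by linarith)
      exact this
    exact (summable_nat_add_iff 1).mpr h1
  have hsumg : Summable g := Summable.of_norm_bounded hsumf hgle
  have hsplit := hsumg.sum_add_tsum_nat_add M
  have h1 : D.XX z - D.HH z * ∑ m ∈ Finset.Icc 1 M, D.a m * (m : ℂ) ^ (-(D.κ : ℂ) * z) =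
      D.HH z * ∑' i, g (i + M) := by
    rw [h.XX_dir z hz hre, Tail.sum_Icc (fun m => D.a m * (m : ℂ) ^ (-(D.κ : ℂ) * z)) M]
    have h2 : (∑' m : ℕ, D.a (m + 1) * ((m + 1 : ℕ) : ℂ) ^ (-(D.κ : ℂ) * z)) = ∑' m, g m := rfl
    rw [h2, ← hsplit]
    have h3 : ∑ i ∈ Finset.range M, D.a (i + 1) * ((i + 1 : ℕ) : ℂ) ^ (-(D.κ : ℂ) * z) =
        ∑ i ∈ Finset.range M, g i := rfl
    rw [h3]
    ring
  rw [h1, norm_mul]
  have h4 : ‖∑' i, g (i + M)‖ ≤ D.A0 * (M : ℝ) ^ (1 - x) := by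
    have hs1 : Summable fun i => D.A0 * ((i + M + 1 : ℕ) : ℝ) ^ (-x) :=
      (summable_nat_add_iff M).mpr hsumf
    have h5 : ‖∑' i, g (i + M)‖ ≤ ∑' i : ℕ, D.A0 * ((i + M + 1 : ℕ) : ℝ) ^ (-x) :=
      tsum_of_norm_bounded hs1.hasSum fun i => hgle (i + M)
    refine h5.trans ?_
    refine Real.tsum_le_of_sum_range_le (fun i => by positivity) fun N => ?_
    rw [← Finset.mul_sum]
    refine mul_le_mul_of_nonneg_left ?_ hA0
    have h6 := Tail.partial_sum x hx2 M hM N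
    have h7 : 0 ≤ ((N + M : ℕ) : ℝ) ^ (1 - x) := by positivity
    linarith
  have h8 : D.A + 1 - D.κ * z.re = 1 - x := by rw [hx]; ring
  rw [h8]
  have h9 : 0 ≤ (M : ℝ) ^ (1 - x) := by positivity
  calc ‖D.HH z‖ * ‖∑' i, g (i + M)‖ ≤ ‖D.HH z‖ * (D.A0 * (M : ℝ) ^ (1 - x)) :=
        mul_le_mul_of_nonneg_left h4 (norm_nonneg _)
    _ ≤ 2 * D.A0 * ‖D.HH z‖ * (M : ℝ) ^ (1 - x) := by
        have : 0 ≤ ‖D.HH z‖ * (D.A0 * (M : ℝ) ^ (1 - x)) := by positivity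
        nlinarith

end Pool.Agent.H471R3.GJ
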