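import Pool.Agent.H471R3.GJ.UpDownAux
import Pool.Agent.H471R3.GJ.Down

set_option autoImplicit false

namespace Pool.Agent.H471R3.GJ

open Complex Filter Topology UD
open Pool.Agent.H24R2.JP (Hyperbolic Par Good App arc SHad SDer SGL SPar SCircle SJensen SNewton SArc
  SChasse SSector SLimit SJen)
open Pool.Agent.H24R2.JP.UD (fact_le arc_lin)

theorem up (D : Dat) (h : IsL D) (h1 : SStir D) (h2 : STail D) (h3 : SConv D) (h4 : SB1 D) :
    SUp D := by
  intro ε hε
  have hκ := h.κ_pos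
  have hc := h.c_pos
  have hA := h.A_nonneg
  have hA0 := h.A0_one
  have hw := h.w_large
  have hwκ : 20 ≤ D.w / D.κ := by
    rw [le_div_iff₀ hκ]
    nlinarith
  have hrr : rr D = 2 * (D.w / D.κ) := by unfold rr; ring
  have hrκ : D.κ * rr D = 2 * D.w := by rw [hrr]; field_simp
  have hr40 : 40 ≤ rr D := by rw [hrr]; linarith
  have h1' := h1
  obtain ⟨hdiff, K, T1, hK, hT1, hst⟩ := h1'
  obtain ⟨K2, T2, hK2, hT2, hcv⟩ := h3
  -- the constant
  set C1 : ℝ := 2 * Real.exp ((rr D / 2 + 1 / 10) * K) * D.A0 with hC1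
  set Q : ℝ := Real.exp (D.κ * (rr D / 2 + 1 / 10)) with hQ
  have hC1pos : 0 < C1 := by positivity
  have hev := (final D h h1 (2 * C1 * Q + K2 + C1) ε (by positivity) hε).and
    ((eventually_ge_atTop (max T1 T2)).and ((eventually_ge_atTop K).and
      ((eventually_ge_atTop (100 * rr D ^ 2)).and
      ((Om_tendsto D h).eventually_ge_atTop 1))))
  obtain ⟨T0, hT0⟩ := Filter.eventually_atTop.1 hev
  refine ⟨max T0 1, le_max_right _ _, ?_⟩
  intro t n z ht hw'
  obtain ⟨hfin, htT12, htK, ht4, hO1⟩ := hT0 t ((le_max_left _ _).trans ht)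
  have htT1 : T1 ≤ t := (le_max_left _ _).trans htT12
  have htT2 : T2 ≤ t := (le_max_right _ _).trans htT12
  have hO : 0 ≤ Om D t := by linarith
  obtain ⟨-, hbe, hu⟩ := hst t htT1
  have ht1 : 1 ≤ t := by linarith
  have ht0 : 0 < t := by linarith
  have ht10 : 10 ≤ t := by nlinarith
  have htr : rr D + 1 ≤ t := by nlinarith
  -- distance
  have hdist : ∀ θ : ℝ, ((-t ^ 2 : ℝ) : ℂ) + ((rr D * t : ℝ) : ℂ) * cexp (I * θ) - z ^ 2 ≠ 0 := by
    intro θ h0
    have := dist_circle (rr D) t (by linarith) ht10 z hw'.2.2 θ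
    rw [h0, norm_zero] at this
    have h5 : 0 < (rr D - 8 / 5) * t := by
      apply mul_pos _ ht0
      linarith
    linarith
  have hFF : Continuous fun θ : ℝ =>
      FF D (((-t ^ 2 : ℝ) : ℂ) + ((rr D * t : ℝ) : ℂ) * cexp (I * θ)) :=
    h4.1.continuous.comp (by fun_prop)
  have hGGc : ∀ m ∈ Finset.Icc 1 (MM D t), Continuous fun θ : ℝ =>
      GG D m (((-t ^ 2 : ℝ) : ℂ) + ((rr D * t : ℝ) : ℂ) * cexp (I * θ)) := by
    intro m hm
    rw [Finset.mem_Icc] at hm
    rw [continuous_iff_continuousAt]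
    intro θ
    obtain ⟨-, -, hg3, -, -, hg6⟩ := geom (rr D) t (by linarith) ht4 θ
    have hc1 : ContinuousAt (fun θ : ℝ =>
        ((-t ^ 2 : ℝ) : ℂ) + ((rr D * t : ℝ) : ℂ) * cexp (I * θ)) θ := by
      fun_prop
    refine ContinuousAt.comp (f := fun θ : ℝ =>
      ((-t ^ 2 : ℝ) : ℂ) + ((rr D * t : ℝ) : ℂ) * cexp (I * θ)) (g := GG D m) ?_ hc1
    have hsq : ContinuousAt Pool.Agent.H24R2.JP.sq
        (((-t ^ 2 : ℝ) : ℂ) + ((rr D * t : ℝ) : ℂ) * cexp (I * θ)) := by
      unfold Pool.Agent.H24R2.JP.sq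
      apply ContinuousAt.mul continuousAt_const
      exact (continuousAt_cpow_const hg6).comp (f := fun ξ : ℂ => -ξ) continuousAt_neg
    unfold GG
    apply ContinuousAt.mul
    · exact ContinuousAt.comp (hdiff _ (by linarith)).continuousAt hsq
    · apply ContinuousAt.mul continuousAt_const
      apply ContinuousAt.const_cpow
      · exact continuousAt_const.mul hsq
      · left
        exact_mod_cast (show m ≠ 0 by omega)
  rw [arc_lin (FF D) (GG D) _ n (-t ^ 2) (rr D * t) 0 Real.pi (z ^ 2) hFF hGGc hdist]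
  set M := MM D t with hM
  have hMdef : M = ⌊Real.exp (2 / 5 * Om D t)⌋₊ := hM
  have hE1 : 1 ≤ Real.exp (2 / 5 * Om D t) := Real.one_le_exp (by positivity)
  have hM1 : 1 ≤ M := by
    rw [hMdef]
    exact Nat.le_floor (by simpa using hE1)
  have hM0 : (0 : ℝ) < M := by exact_mod_cast hM1
  have hMle : (M : ℝ) ≤ Real.exp (2 / 5 * Om D t) := by
    rw [hMdef]
    exact Nat.floor_le (Real.exp_pos _).le
  have hMge : Real.exp (2 / 5 * Om D t) ≤ 2 * M := by
    have h5 : Real.exp (2 / 5 * Om D t) < (M : ℝ) + 1 := by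
      rw [hMdef]
      exact Nat.lt_floor_add_one _
    have h6 : (1 : ℝ) ≤ M := by exact_mod_cast hM1
    linarith
  have hlogM : Real.log M ≤ 2 / 5 * Om D t := by
    have := Real.log_le_log hM0 hMle
    rwa [Real.log_exp] at this
  have hlogM2 : 2 / 5 * Om D t - Real.log 2 ≤ Real.log M := by
    have := Real.log_le_log (Real.exp_pos _) hMge
    rw [Real.log_exp, Real.log_mul (by norm_num) hM0.ne'] at this
    linarith
  have hl2 : 0 ≤ Real.log 2 := Real.log_nonneg (by norm_num)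
  have hl21 : Real.log 2 ≤ 1 := by
    have := Real.log_two_lt_d9
    linarith
  have hpt : ∀ θ ∈ Set.Icc 0 Real.pi,
      ‖FF D (((-t ^ 2 : ℝ) : ℂ) + ((rr D * t : ℝ) : ℂ) * cexp (I * θ)) -
        ∑ m ∈ Finset.Icc 1 M, GG D m (((-t ^ 2 : ℝ) : ℂ) + ((rr D * t : ℝ) : ℂ) * cexp (I * θ))‖ ≤
      (2 * C1 * Q + K2 + C1) * Real.exp ((39 / 50 * D.w - 1 / 2 - 3 / 4 * D.κ) * Om D t) *
        ‖D.HH (I * t)‖ := by
    intro θ hθ
    obtain ⟨hg1, hg2, hg3, hg4, -, -⟩ := geom (rr D) t (by linarith) ht4 θ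
    have hsin : 0 ≤ Real.sin θ := Real.sin_nonneg_of_nonneg_of_le_pi hθ.1 hθ.2
    have hσ := hg4 hsin
    set ξ := ((-t ^ 2 : ℝ) : ℂ) + ((rr D * t : ℝ) : ℂ) * cexp (I * θ) with hξ
    set ζ := Pool.Agent.H24R2.JP.sq ξ with hζ
    have hζim : 0 < ζ.im := by linarith
    have hH := HH_bound D t K K (rr D / 2 + 1 / 10) (ζ - I * t) (by linarith) ht0 htK hg2 hbe
      (hu (ζ - I * t) (hg2.trans (by linarith)))
    have e1 : I * (t : ℂ) + (ζ - I * t) = ζ := by ring
    have e2 : (ζ - I * (t : ℂ)).re = ζ.re := by simp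
    rw [e1, e2] at hH
    have hσ2 : ζ.re ≤ rr D / 2 + 1 / 10 := by
      rw [← e2]
      exact (Complex.re_le_norm _).trans hg2
    have hκσ : D.κ * ζ.re ≤ D.w + 1 / 10 * D.κ := by
      have h5 := mul_le_mul_of_nonneg_left hσ2 hκ.le
      have h6 : D.κ * (rr D / 2 + 1 / 10) = D.κ * rr D / 2 + 1 / 10 * D.κ := by ring
      rw [h6, hrκ] at h5
      linarith
    have hκσ0 : 0 ≤ D.κ * ζ.re := by positivity
    have hFX : FF D ξ = D.XX ζ := by rw [← h4.2.1, hg1]
    have hGs : ∑ m ∈ Finset.Icc 1 M, GG D m ξ =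
        D.HH ζ * ∑ m ∈ Finset.Icc 1 M, D.a m * (m : ℂ) ^ (-(D.κ : ℂ) * ζ) := by
      rw [Finset.mul_sum]
      rfl
    rw [hFX, hGs]
    rcases le_total (D.A + 2) (D.κ * ζ.re) with hbig | hsmall
    · -- absolutely convergent region
      have hzz := h2 ζ M hζim hbig hM1
      have hMpow : (M : ℝ) ^ (D.A + 1 - D.κ * ζ.re) ≤
          Q * Real.exp (2 / 5 * Om D t * (D.A + 1 - D.κ * ζ.re)) := by
        rw [Real.rpow_def_of_pos hM0, hQ, ← Real.exp_add]
        apply Real.exp_le_exp.2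
        have h5 : 0 ≤ D.κ * ζ.re - (D.A + 1) := by linarith
        have h6 := mul_le_mul_of_nonneg_right hlogM2 h5
        have h7 : Real.log 2 * (D.κ * ζ.re - (D.A + 1)) ≤ 1 * (D.κ * ζ.re - (D.A + 1)) :=
          mul_le_mul_of_nonneg_right hl21 h5
        have h8 := mul_le_mul_of_nonneg_left hσ2 hκ.le
        have h10 : Real.log M * (D.A + 1 - D.κ * ζ.re) = -(Real.log M * (D.κ * ζ.re - (D.A + 1))) := by
          ring
        have h11 : (2 / 5 * Om D t - Real.log 2) * (D.κ * ζ.re - (D.A + 1)) =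
            -(2 / 5 * Om D t * (D.A + 1 - D.κ * ζ.re)) - Real.log 2 * (D.κ * ζ.re - (D.A + 1)) := by
          ring
        rw [h10]
        rw [h11] at h6
        linarith
      calc ‖D.XX ζ - D.HH ζ * ∑ m ∈ Finset.Icc 1 M, D.a m * (m : ℂ) ^ (-(D.κ : ℂ) * ζ)‖
          ≤ 2 * D.A0 * ‖D.HH ζ‖ * (M : ℝ) ^ (D.A + 1 - D.κ * ζ.re) := hzz
        _ ≤ 2 * D.A0 * (2 * Real.exp ((rr D / 2 + 1 / 10) * K) * ‖D.HH (I * t)‖ *
              Real.exp (D.κ * Om D t * ζ.re)) *
            (Q * Real.exp (2 / 5 * Om D t * (D.A + 1 - D.κ * ζ.re))) := by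
            gcongr
        _ = 2 * C1 * Q * Real.exp ((3 / 5 * (D.κ * ζ.re) + 2 / 5 * (D.A + 1)) * Om D t) *
              ‖D.HH (I * t)‖ := by
            have : Real.exp ((3 / 5 * (D.κ * ζ.re) + 2 / 5 * (D.A + 1)) * Om D t) =
                Real.exp (D.κ * Om D t * ζ.re) *
                Real.exp (2 / 5 * Om D t * (D.A + 1 - D.κ * ζ.re)) := by
              rw [← Real.exp_add]
              congr 1
              ring
            rw [this, hC1]
            ring
        _ ≤ (2 * C1 * Q + K2 + C1) *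
              Real.exp ((39 / 50 * D.w - 1 / 2 - 3 / 4 * D.κ) * Om D t) * ‖D.HH (I * t)‖ := by
            have h8 : (3 / 5 * (D.κ * ζ.re) + 2 / 5 * (D.A + 1)) * Om D t ≤
                (39 / 50 * D.w - 1 / 2 - 3 / 4 * D.κ) * Om D t := by
              apply mul_le_mul_of_nonneg_right _ hO
              linarith
            have h9 : 2 * C1 * Q ≤ 2 * C1 * Q + K2 + C1 := by linarith
            gcongr
    · -- critical region
      have hX := hcv t ζ htT2 hσ hsmall (hg2.trans (by linarith))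
      have hS : ‖D.HH ζ * ∑ m ∈ Finset.Icc 1 M, D.a m * (m : ℂ) ^ (-(D.κ : ℂ) * ζ)‖ ≤
          C1 * Real.exp ((D.κ * ζ.re + 2 / 5 * (D.A + 1)) * Om D t) * ‖D.HH (I * t)‖ := by
        rw [norm_mul]
        have h5 : ‖∑ m ∈ Finset.Icc 1 M, D.a m * (m : ℂ) ^ (-(D.κ : ℂ) * ζ)‖ ≤
            Real.exp (2 / 5 * Om D t) * (D.A0 * Real.exp (2 / 5 * Om D t * D.A)) := by
          refine (norm_sum_le _ _).trans ?_
          calc ∑ m ∈ Finset.Icc 1 M, ‖D.a m * (m : ℂ) ^ (-(D.κ : ℂ) * ζ)‖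
              ≤ ∑ _m ∈ Finset.Icc 1 M, D.A0 * Real.exp (2 / 5 * Om D t * D.A) := by
                apply Finset.sum_le_sum
                intro m hm
                rw [Finset.mem_Icc] at hm
                have hm0 : (0 : ℝ) < m := by exact_mod_cast hm.1
                have hlog : Real.log m ≤ 2 / 5 * Om D t :=
                  (Real.log_le_log hm0 (by exact_mod_cast hm.2)).trans hlogM
                have hlog0 : 0 ≤ Real.log m := Real.log_natCast_nonneg m
                refine (UD.norm_term D h m hm.1 ζ).trans ?_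
                have h6 : Real.exp (Real.log m * (-(D.κ * ζ.re))) ≤ 1 := by
                  rw [Real.exp_le_one_iff]
                  nlinarith [mul_nonneg hlog0 hκσ0]
                have h7 : Real.log m * D.A ≤ 2 / 5 * Om D t * D.A :=
                  mul_le_mul_of_nonneg_right hlog hA
                calc D.A0 * Real.exp (Real.log m * D.A) * Real.exp (Real.log m * (-(D.κ * ζ.re)))
                    ≤ D.A0 * Real.exp (2 / 5 * Om D t * D.A) * 1 := by gcongr
                  _ = _ := by ring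
            _ = (M : ℝ) * (D.A0 * Real.exp (2 / 5 * Om D t * D.A)) := by
                rw [Finset.sum_const, Nat.card_Icc, Nat.add_sub_cancel, nsmul_eq_mul]
            _ ≤ _ := by gcongr
        calc ‖D.HH ζ‖ * ‖∑ m ∈ Finset.Icc 1 M, D.a m * (m : ℂ) ^ (-(D.κ : ℂ) * ζ)‖
            ≤ (2 * Real.exp ((rr D / 2 + 1 / 10) * K) * ‖D.HH (I * t)‖ *
              Real.exp (D.κ * Om D t * ζ.re)) *
              (Real.exp (2 / 5 * Om D t) * (D.A0 * Real.exp (2 / 5 * Om D t * D.A))) := by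
              gcongr
          _ = _ := by
              have : Real.exp ((D.κ * ζ.re + 2 / 5 * (D.A + 1)) * Om D t) =
                  Real.exp (D.κ * Om D t * ζ.re) * (Real.exp (2 / 5 * Om D t) *
                  Real.exp (2 / 5 * Om D t * D.A)) := by
                rw [← Real.exp_add, ← Real.exp_add]
                congr 1
                ring
              rw [this, hC1]
              ring
      have h8 : (D.κ * ζ.re + 2 / 5 * (D.A + 1)) * Om D t ≤
          (39 / 50 * D.w - 1 / 2 - 3 / 4 * D.κ) * Om D t := by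
        apply mul_le_mul_of_nonneg_right _ hO
        linarith
      have h9 : (D.A + 3) * Om D t ≤ (39 / 50 * D.w - 1 / 2 - 3 / 4 * D.κ) * Om D t := by
        apply mul_le_mul_of_nonneg_right _ hO
        linarith
      calc ‖D.XX ζ - D.HH ζ * ∑ m ∈ Finset.Icc 1 M, D.a m * (m : ℂ) ^ (-(D.κ : ℂ) * ζ)‖
          ≤ ‖D.XX ζ‖ + ‖D.HH ζ * ∑ m ∈ Finset.Icc 1 M, D.a m * (m : ℂ) ^ (-(D.κ : ℂ) * ζ)‖ :=
            norm_sub_le _ _
        _ ≤ K2 * ‖D.HH (I * t)‖ * Real.exp ((D.A + 3) * Om D t) +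
            C1 * Real.exp ((D.κ * ζ.re + 2 / 5 * (D.A + 1)) * Om D t) * ‖D.HH (I * t)‖ :=
            add_le_add hX hS
        _ ≤ K2 * ‖D.HH (I * t)‖ * Real.exp ((39 / 50 * D.w - 1 / 2 - 3 / 4 * D.κ) * Om D t) +
            C1 * Real.exp ((39 / 50 * D.w - 1 / 2 - 3 / 4 * D.κ) * Om D t) * ‖D.HH (I * t)‖ := by
            gcongr
        _ = (0 + K2 + C1) * Real.exp ((39 / 50 * D.w - 1 / 2 - 3 / 4 * D.κ) * Om D t) *
              ‖D.HH (I * t)‖ := by ring
        _ ≤ _ := by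
            have h10 : 0 ≤ 2 * C1 * Q := by positivity
            gcongr
  refine (arc_bound _ n (rr D) t 0 Real.pi _ z (by linarith) ht10 Real.pi_pos.le (by linarith)
    hw'.2.2 (by positivity) hpt).trans ?_
  exact hfin n z hw' _ le_rfl

end Pool.Agent.H471R3.GJ
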