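import Pool.Agent.H471R3.GJ.Hyp
import Pool.Agent.H24R2.JP.WinS

set_option autoImplicit false

namespace Pool.Agent.H471R3.GJ

open Complex Filter Topology
open Pool.Agent.H24R2.JP (Hyperbolic Par Good App arc SHad SDer SGL SPar SCircle SJensen SNewton SArc
  SChasse SSector SLimit SJen)
open Pool.Agent.H24R2.JP.WinAux

theorem win (D : Dat) (h : IsL D) (h1 : SOff D) (h2 : SB1 D) : SWin D := by
  obtain ⟨T0, hT0, hoff⟩ := h1
  have hal : 0 < al D := HypAux.al_pos D h
  have hc := h.c_pos
  have hw : 0 < D.w := by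
    have h3 := h.κ_pos
    have h4 := h.A_nonneg
    have h5 := h.w_large
    linarith
  set α := al D with hα
  have hαdef : α = 2 / (D.c * D.w) := rfl
  -- n large enough
  have hbig : ∃ n1 : ℕ, 1 ≤ n1 ∧ ∀ n : ℕ, n1 ≤ n →
      Real.exp (979 / 1000 * (α * n)) ≤ Real.exp (49 / 50 * (α * n)) - 1 / 4 ∧
      T0 ^ 2 ≤ Real.exp (979 / 1000 * (α * n)) := by
    obtain ⟨n1, hn1⟩ := exists_nat_ge (max 1 (max (250 / α) (2 * T0 ^ 2 / α)))
    have h10 : (1 : ℝ) ≤ n1 := (le_max_left _ _).trans hn1
    refine ⟨n1, by exact_mod_cast h10, fun n hn => ?_⟩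
    have hn' : (n1 : ℝ) ≤ n := by exact_mod_cast hn
    have hq1 : 250 ≤ α * n := by
      have h5 : 250 / α ≤ (n : ℝ) :=
        ((le_max_left _ _).trans ((le_max_right _ _).trans hn1)).trans hn'
      rw [div_le_iff₀ hal] at h5
      linarith
    have hq2 : 2 * T0 ^ 2 ≤ α * n := by
      have h5 : 2 * T0 ^ 2 / α ≤ (n : ℝ) :=
        ((le_max_right _ _).trans ((le_max_right _ _).trans hn1)).trans hn'
      rw [div_le_iff₀ hal] at h5
      linarith
    set q : ℝ := α * n with hq
    constructor
    · have e1 : Real.exp (49 / 50 * q) = Real.exp (979 / 1000 * q) * Real.exp (1 / 1000 * q) := by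
        rw [← Real.exp_add]; congr 1; ring
      have e2 : 1 + 1 / 1000 * q ≤ Real.exp (1 / 1000 * q) := by
        have := Real.add_one_le_exp (1 / 1000 * q); linarith
      have e3 : 1 ≤ Real.exp (979 / 1000 * q) := Real.one_le_exp (by linarith)
      rw [e1]
      nlinarith
    · have e2 : 1 + 979 / 1000 * q ≤ Real.exp (979 / 1000 * q) := by
        have := Real.add_one_le_exp (979 / 1000 * q); linarith
      linarith
  obtain ⟨n1, hn1, hbig⟩ := hbig
  -- the case of positive imaginary part
  have main : ∀ n : ℕ, n1 ≤ n → ∀ x : ℂ, x ∈ Par → 0 < x.im →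
      Real.exp (49 / 50 * (α * n)) ≤ ‖x‖ → ‖x‖ ≤ Real.exp (51 / 50 * (α * n)) →
      iteratedDeriv n (FF D) x ≠ 0 := by
    intro n hn x hx him hlo hup
    obtain ⟨b1, b2⟩ := hbig n hn
    -- the square root in the first quadrant
    obtain ⟨s, t, hs, ht, hst⟩ : ∃ s t : ℝ, 0 < s ∧ 0 < t ∧ ((s : ℂ) + I * t) ^ 2 = x := by
      set z : ℂ := x ^ (1 / 2 : ℂ) with hz
      have hz2 : z ^ 2 = x := by
        rw [hz, ← Complex.cpow_nat_mul]
        simp
      have hzz : (z.re + I * z.im : ℂ) = z := by
        rw [mul_comm]; exact Complex.re_add_im z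
      have him2 : 2 * z.re * z.im = x.im := by
        have := congrArg Complex.im hz2
        rw [pow_two, Complex.mul_im] at this
        linarith
      rcases lt_trichotomy z.re 0 with h0 | h0 | h0
      · refine ⟨-z.re, -z.im, by linarith, ?_, ?_⟩
        · nlinarith
        · rw [← hz2, ← hzz]; push_cast; simp; ring
      · rw [h0] at him2; simp at him2; linarith
      · refine ⟨z.re, z.im, h0, ?_, by rw [hzz, hz2]⟩
        nlinarith
    have hre : x.re = s ^ 2 - t ^ 2 := by
      rw [← hst, pow_two, Complex.mul_re]; simp; ring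
    have him' : x.im = 2 * s * t := by
      rw [← hst, pow_two, Complex.mul_im]; simp; ring
    have hP : x.re + x.im ^ 2 ≤ 1 / 4 := hx
    rw [hre, him'] at hP
    have hs2 : s ≤ 1 / 2 := by
      by_contra hcon
      push Not at hcon
      have : 0 < (4 * s ^ 2 - 1) * (t ^ 2 + 1 / 4) := by
        apply mul_pos
        · nlinarith
        · positivity
      nlinarith
    have hnorm : ‖x‖ = s ^ 2 + t ^ 2 := by
      rw [← hst, norm_pow, ← Complex.normSq_eq_norm_sq, Complex.normSq_apply]
      simp; ring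
    have hlogt : D.w * Om D t = Real.log (t ^ 2) / α := by
      unfold Om
      rw [Real.log_pow, hαdef]
      push_cast
      field_simp
    have ht2 : Real.exp (979 / 1000 * (α * n)) ≤ t ^ 2 := by
      rw [hnorm] at hlo; nlinarith
    have ht2' : t ^ 2 ≤ Real.exp (51 / 50 * (α * n)) := by
      rw [hnorm] at hup; nlinarith
    have htpos : 0 < t ^ 2 := by positivity
    have hO1 : D.w * Om D t ≤ 51 / 50 * n := by
      rw [hlogt, div_le_iff₀ hal]
      have := (Real.log_le_log htpos ht2').trans_eq (Real.log_exp _)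
      linarith
    have hO2 : 979 / 1000 * n ≤ D.w * Om D t := by
      rw [hlogt, le_div_iff₀ hal]
      have := (Real.log_exp _).symm.trans_le (Real.log_le_log (Real.exp_pos _) ht2)
      linarith
    have hn0 : (0 : ℝ) ≤ n := Nat.cast_nonneg n
    have hTt : T0 ≤ t := by
      have : T0 ^ 2 ≤ t ^ 2 := b2.trans ht2
      exact (pow_le_pow_iff_left₀ (by linarith) ht.le two_ne_zero).1 this
    rw [← hst]
    exact hoff t s n hTt (by linarith) (by linarith) hs hs2
  refine ⟨n1, fun n hn x hx him hlo hup => ?_⟩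
  rcases lt_or_gt_of_ne him with h0 | h0
  · have hx' : (starRingEnd ℂ) x ∈ Par := by
      have hP : x.re + x.im ^ 2 ≤ 1 / 4 := hx
      change ((starRingEnd ℂ) x).re + ((starRingEnd ℂ) x).im ^ 2 ≤ 1 / 4
      simpa using hP
    have := main n hn ((starRingEnd ℂ) x) hx' (by simpa using h0) (by rwa [RCLike.norm_conj])
      (by rwa [RCLike.norm_conj])
    rw [(iter_conj h2.1 h2.2.2.1 n).2 x] at this
    intro hcon
    rw [hcon] at this
    simp at this
  · exact main n hn x hx h0 hlo hup

end Pool.Agent.H471R3.GJ
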