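import Pool.Agent.H471R3.GJ.Spec2
import Pool.Agent.H24R2.JP.OpBase

set_option autoImplicit false

/-!
# Derivatives of `XX` and of `z XX` in terms of derivatives of `FF`
-/

namespace Pool.Agent.H471R3.GJ

open Complex Filter Topology Polynomial
open Pool.Agent.H24R2.JP (TT TI)
open Pool.Agent.H24R2.JP.OpBase

theorem xder (D : Dat) (h : SB1 D) : SXder D := by
  obtain ⟨hF, hX, -, -⟩ := h
  have hXX : D.XX = fun z => FF D (z ^ 2) := by
    funext z
    exact (hX z).symm
  have hsq : ∀ z : ℂ, HasDerivAt (fun z : ℂ => z ^ 2) (2 * z) z := by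
    intro z
    simpa using hasDerivAt_pow 2 z
  -- even to odd
  have odd : ∀ m : ℕ, (∀ z, iteratedDeriv (2 * m) D.XX z =
      4 ^ m * TI (1 / 2) m (iteratedDeriv m (FF D)) (z ^ 2)) →
      ∀ z, iteratedDeriv (2 * m + 1) D.XX z =
        2 * 4 ^ m * z * TI (3 / 2) m (iteratedDeriv (m + 1) (FF D)) (z ^ 2) := by
    intro m hm z
    have e : iteratedDeriv (2 * m) D.XX =
        fun z => 4 ^ m * TI (1 / 2) m (iteratedDeriv m (FF D)) (z ^ 2) := by
      funext z
      exact hm z
    rw [iteratedDeriv_succ, e]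
    have hG := TI_diff (1 / 2) m (diff_iter hF m)
    have h1 : HasDerivAt (fun z : ℂ => TI (1 / 2) m (iteratedDeriv m (FF D)) (z ^ 2))
        (deriv (TI (1 / 2) m (iteratedDeriv m (FF D))) (z ^ 2) * (2 * z)) z :=
      HasDerivAt.comp z (hG (z ^ 2)).hasDerivAt (hsq z)
    rw [(h1.const_mul _).deriv, deriv_TI m _ (diff_iter hF m), ← iteratedDeriv_succ]
    have e2 : (1 : ℝ) / 2 + 1 = 3 / 2 := by norm_num
    rw [e2]
    ring
  have ev : ∀ m : ℕ, ∀ z, iteratedDeriv (2 * m) D.XX z =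
      4 ^ m * TI (1 / 2) m (iteratedDeriv m (FF D)) (z ^ 2) := by
    intro m
    induction m with
    | zero =>
      intro z
      simp only [mul_zero, iteratedDeriv_zero, pow_zero, one_mul]
      exact (hX z).symm
    | succ m ih =>
      intro z
      have e : iteratedDeriv (2 * m + 1) D.XX = fun z =>
          2 * 4 ^ m * (z * TI (3 / 2) m (iteratedDeriv (m + 1) (FF D)) (z ^ 2)) := by
        funext z
        rw [odd m ih z]
        ring
      rw [show 2 * (m + 1) = (2 * m + 1) + 1 by ring, iteratedDeriv_succ, e]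
      have hG := TI_diff (3 / 2) m (diff_iter hF (m + 1))
      have h1 : HasDerivAt (fun z : ℂ => TI (3 / 2) m (iteratedDeriv (m + 1) (FF D)) (z ^ 2))
          (deriv (TI (3 / 2) m (iteratedDeriv (m + 1) (FF D))) (z ^ 2) * (2 * z)) z :=
        HasDerivAt.comp z (hG (z ^ 2)).hasDerivAt (hsq z)
      have h2 := ((hasDerivAt_id z).mul h1).const_mul (2 * 4 ^ m : ℂ)
      have h3 : deriv (fun z : ℂ =>
          2 * 4 ^ m * (z * TI (3 / 2) m (iteratedDeriv (m + 1) (FF D)) (z ^ 2))) z =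
          2 * 4 ^ m * (1 * TI (3 / 2) m (iteratedDeriv (m + 1) (FF D)) (z ^ 2) +
            z * (deriv (TI (3 / 2) m (iteratedDeriv (m + 1) (FF D))) (z ^ 2) * (2 * z))) :=
        h2.deriv
      rw [h3, TI_succ']
      have e2 : (1 : ℝ) / 2 + 1 = 3 / 2 := by norm_num
      rw [e2]
      unfold TT
      push_cast
      ring
  intro m z
  exact ⟨ev m z, odd m (ev m) z⟩

theorem xderOdd (D : Dat) (h : SB1 D) : SXderOdd D := by
  obtain ⟨hF, hX, -, -⟩ := h
  have hXX : (fun u : ℂ => u * D.XX u) = fun z => z * FF D (z ^ 2) := by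
    funext z
    rw [hX z]
  have hsq : ∀ z : ℂ, HasDerivAt (fun z : ℂ => z ^ 2) (2 * z) z := by
    intro z
    simpa using hasDerivAt_pow 2 z
  -- even to odd
  have odd : ∀ m : ℕ, (∀ z, iteratedDeriv (2 * m) (fun u : ℂ => u * D.XX u) z =
      4 ^ m * z * TI (3 / 2) m (iteratedDeriv m (FF D)) (z ^ 2)) →
      ∀ z, iteratedDeriv (2 * m + 1) (fun u : ℂ => u * D.XX u) z =
        2 * 4 ^ m * TI (1 / 2) (m + 1) (iteratedDeriv m (FF D)) (z ^ 2) := by
    intro m hm z
    have e : iteratedDeriv (2 * m) (fun u : ℂ => u * D.XX u) =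
        fun z => 4 ^ m * (z * TI (3 / 2) m (iteratedDeriv m (FF D)) (z ^ 2)) := by
      funext z
      rw [hm z]
      ring
    rw [iteratedDeriv_succ, e]
    have hG := TI_diff (3 / 2) m (diff_iter hF m)
    have h1 : HasDerivAt (fun z : ℂ => TI (3 / 2) m (iteratedDeriv m (FF D)) (z ^ 2))
        (deriv (TI (3 / 2) m (iteratedDeriv m (FF D))) (z ^ 2) * (2 * z)) z :=
      HasDerivAt.comp z (hG (z ^ 2)).hasDerivAt (hsq z)
    have h2 := ((hasDerivAt_id z).mul h1).const_mul (4 ^ m : ℂ)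
    have h3 : deriv (fun z : ℂ =>
        4 ^ m * (z * TI (3 / 2) m (iteratedDeriv m (FF D)) (z ^ 2))) z =
        4 ^ m * (1 * TI (3 / 2) m (iteratedDeriv m (FF D)) (z ^ 2) +
          z * (deriv (TI (3 / 2) m (iteratedDeriv m (FF D))) (z ^ 2) * (2 * z))) :=
      h2.deriv
    rw [h3, TI_succ']
    have e2 : (1 : ℝ) / 2 + 1 = 3 / 2 := by norm_num
    rw [e2]
    unfold TT
    push_cast
    ring
  have ev : ∀ m : ℕ, ∀ z, iteratedDeriv (2 * m) (fun u : ℂ => u * D.XX u) z =
      4 ^ m * z * TI (3 / 2) m (iteratedDeriv m (FF D)) (z ^ 2) := by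
    intro m
    induction m with
    | zero =>
      intro z
      simp only [mul_zero, iteratedDeriv_zero, pow_zero, one_mul]
      exact congrFun hXX z
    | succ m ih =>
      intro z
      have e : iteratedDeriv (2 * m + 1) (fun u : ℂ => u * D.XX u) = fun z =>
          2 * 4 ^ m * TI (1 / 2) (m + 1) (iteratedDeriv m (FF D)) (z ^ 2) := by
        funext z
        exact odd m ih z
      rw [show 2 * (m + 1) = (2 * m + 1) + 1 by ring, iteratedDeriv_succ, e]
      have hG := TI_diff (1 / 2) (m + 1) (diff_iter hF m)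
      have h1 : HasDerivAt (fun z : ℂ => TI (1 / 2) (m + 1) (iteratedDeriv m (FF D)) (z ^ 2))
          (deriv (TI (1 / 2) (m + 1) (iteratedDeriv m (FF D))) (z ^ 2) * (2 * z)) z :=
        HasDerivAt.comp z (hG (z ^ 2)).hasDerivAt (hsq z)
      rw [(h1.const_mul _).deriv, deriv_TI (m + 1) _ (diff_iter hF m), ← iteratedDeriv_succ]
      have e2 : (1 : ℝ) / 2 + 1 = 3 / 2 := by norm_num
      rw [e2]
      ring
  intro m z
  exact ⟨ev m z, odd m (ev m) z⟩

end Pool.Agent.H471R3.GJ
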