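import Pool.Agent.H471R3.GJ.Spec

set_option autoImplicit false

/-!
# Zeros of `FF` (task ZEROS)
-/

namespace Pool.Agent.H471R3.GJ

open Complex Filter Topology Polynomial

theorem zeros (D : Dat) (h : IsL D) (h1 : SB1 D) : SZeros D := by
  intro x hx
  obtain ⟨z, rfl⟩ := IsAlgClosed.exists_pow_nat_eq x (n := 2) (by norm_num)
  rw [h1.2.1 z] at hx
  have h1 := h.XX_zero z hx
  show (z ^ 2).re + (z ^ 2).im ^ 2 ≤ 1 / 4
  have hre : (z ^ 2).re = z.re ^ 2 - z.im ^ 2 := by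
    rw [pow_two, Complex.mul_re]; ring
  have him : (z ^ 2).im = 2 * z.re * z.im := by
    rw [pow_two, Complex.mul_im]; ring
  rw [hre, him]
  have h2 : z.re ^ 2 ≤ 1 / 4 := by
    have := abs_le.1 h1
    nlinarith [this.1, this.2]
  have h3 : 0 ≤ z.im ^ 2 * (1 - 4 * z.re ^ 2) := by
    apply mul_nonneg (sq_nonneg _)
    linarith
  nlinarith

end Pool.Agent.H471R3.GJ
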