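import Pool.Agent.H471R3.GJ.Hecke

set_option autoImplicit false

/-!
# Products `Λ(s) Λ^*(s)` for series with complex coefficients: specifications

`φ y = ∑ b m exp (- 2 π m ^ p y / h)`, `b m` complex, `φ (1 / y) = ε y ^ k conj (φ y)`, `|ε| = 1`,
`Λ(s)` the Mellin transform of `φ`, `Λ^*(s) = conj (Λ (conj s))`.
-/

namespace Pool.Agent.H471R3.GJ

open Complex Filter Topology Polynomial

/-- The data. -/
structure Hc where
  /-- the function on the positive reals -/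
  φ : ℝ → ℂ
  /-- the coefficients -/
  b : ℕ → ℂ
  /-- the weight -/
  k : ℝ
  /-- the width -/
  h : ℝ
  /-- the exponent -/
  p : ℕ
  /-- exponent of the coefficients -/
  β : ℝ
  /-- constant of the coefficients -/
  B : ℝ
  /-- the root number -/
  ε : ℂ

/-- The hypotheses. -/
structure IsHc (H : Hc) : Prop where
  k_pos : 0 < H.k
  h_pos : 0 < H.h
  p_pos : 1 ≤ H.p
  β_nonneg : 0 ≤ H.β
  B_one : 1 ≤ H.B
  b_one : H.b 1 = 1
  b_le : ∀ m : ℕ, 1 ≤ m → ‖H.b m‖ ≤ H.B * (m : ℝ) ^ H.β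
  φ_sum : ∀ y : ℝ, 0 < y →
    HasSum (fun m : ℕ => H.b (m + 1) *
      ((Real.exp (-(2 * Real.pi * ((m + 1 : ℕ) : ℝ) ^ H.p * y / H.h)) : ℝ) : ℂ)) (H.φ y)
  ε_norm : ‖H.ε‖ = 1
  φ_inv : ∀ y : ℝ, 0 < y → H.φ (1 / y) = H.ε * ((y ^ H.k : ℝ) : ℂ) * (starRingEnd ℂ) (H.φ y)

/-- The scale. -/
noncomputable def kc (H : Hc) : ℝ := 2 * (H.β + 2 + H.B)

/-- The kernel of `Λ (k / 2 + kc z)`. -/
noncomputable def fc (H : Hc) (t : ℝ) : ℂ :=
  ((1 / kc H * Real.exp (H.k / 2 * t / kc H) : ℝ) : ℂ) * H.φ (Real.exp (t / kc H))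

/-- `s = k / 2 + kc z`. -/
noncomputable def sc (H : Hc) (z : ℂ) : ℂ := ((H.k / 2 : ℝ) : ℂ) + ((kc H : ℝ) : ℂ) * z

/-- The kernel of the product. -/
noncomputable def PhiC (H : Hc) (t : ℝ) : ℝ :=
  (∫ u : ℝ, fc H u * (starRingEnd ℂ) (fc H (t - u))).re

/-- The data attached to the product. -/
noncomputable def datc (H : Hc) : Dat where
  XX z := ∫ t : ℝ, ((PhiC H t : ℝ) : ℂ) * cexp (z * t)
  HH z := (((H.h / (2 * Real.pi) : ℝ) : ℂ) ^ (sc H z) * Complex.Gamma (sc H z)) ^ 2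
  a m := ∑ d ∈ m.divisors, H.b d * (starRingEnd ℂ) (H.b (m / d)) *
    (((m : ℝ) ^ (-(H.p * H.k / 2)) : ℝ) : ℂ)
  Φ := PhiC H
  κ := H.p * kc H
  c := 2 / H.p
  A := H.β + 1
  A0 := H.B ^ 2
  w := 20 * (H.p * kc H + (H.β + 1) + 1) + 24 + 2 * H.B ^ 2

/-- Properties of `fc`: continuity, symmetry, decay, and asymptotics. -/
def SFc (H : Hc) : Prop := Continuous (fc H) ∧
  (∀ t, fc H (-t) = H.ε * (starRingEnd ℂ) (fc H t)) ∧
  (∃ C : ℝ, ∀ t : ℝ, 0 ≤ t → ‖fc H t‖ ≤ C * Real.exp (H.k / 2 * t / kc H) *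
    Real.exp (-(2 * Real.pi / H.h) * Real.exp (t / kc H))) ∧
  ∃ T : ℝ, ∀ t : ℝ, T ≤ t → ‖fc H t - ((1 / kc H * Real.exp (H.k / 2 * t / kc H) *
    Real.exp (-(2 * Real.pi / H.h) * Real.exp (t / kc H)) : ℝ) : ℂ)‖ ≤
    1 / 10 * (1 / kc H * Real.exp (H.k / 2 * t / kc H) *
    Real.exp (-(2 * Real.pi / H.h) * Real.exp (t / kc H)))

def SPhiC (H : Hc) : Prop := KerProp (PhiC H) 1

/-- The product is the Laplace transform of `PhiC`. -/
def SMelC (H : Hc) : Prop :=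
  (∀ s : ℂ, MellinConvergent H.φ s) ∧
  (∀ z : ℂ, mellin H.φ (sc H z) = ∫ t : ℝ, fc H t * cexp (z * t)) ∧
  (∀ z : ℂ, (starRingEnd ℂ) (mellin H.φ ((starRingEnd ℂ) (sc H z))) =
    ∫ t : ℝ, (starRingEnd ℂ) (fc H t) * cexp (z * t)) ∧
  ∀ z : ℂ, (datc H).XX z =
    mellin H.φ (sc H z) * (starRingEnd ℂ) (mellin H.φ ((starRingEnd ℂ) (sc H z)))

def SDirC (H : Hc) : Prop := ∀ s : ℂ, 0 < s.re → H.β + 1 < H.p * s.re →
  mellin H.φ s = ((H.h / (2 * Real.pi) : ℝ) : ℂ) ^ s * Complex.Gamma s *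
    ∑' m : ℕ, H.b (m + 1) * ((m + 1 : ℕ) : ℂ) ^ (-(H.p : ℂ) * s)

def SLogC (H : Hc) : Prop := (∀ z : ℂ, 0 < z.im → DifferentiableAt ℂ (datc H).HH z) ∧
  ∃ K T0 : ℝ, 1 ≤ K ∧ 1 ≤ T0 ∧ ∀ z : ℂ, T0 ≤ z.im → |z.re| ≤ z.im / 2 → (datc H).HH z ≠ 0 ∧
    ‖logDeriv (datc H).HH z - (((datc H).κ * ((datc H).c * Real.log z.im) : ℝ) : ℂ)‖ ≤ K

/-- The Dirichlet series of the product and its zeros. -/
def SXXC (H : Hc) : Prop :=
  (∀ m : ℕ, 1 ≤ m → ‖(datc H).a m‖ ≤ (datc H).A0 * (m : ℝ) ^ (datc H).A) ∧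
  (∀ z : ℂ, 0 < z.im → (datc H).A + 2 ≤ (datc H).κ * z.re →
    (datc H).XX z = (datc H).HH z *
      ∑' m : ℕ, (datc H).a (m + 1) * ((m + 1 : ℕ) : ℂ) ^ (-((datc H).κ : ℂ) * z)) ∧
  (∀ z : ℂ, (datc H).XX z = 0 → |z.re| ≤ 1 / 2) ∧
  ((∀ z : ℂ, (datc H).XX z = 0 → z.re = 0) ↔ ∀ s : ℂ, mellin H.φ s = 0 → s.re = H.k / 2)

def SIsLC (H : Hc) : Prop := IsL (datc H)

/-! ## Nonpositive zeros and Jensen polynomials, without positivity of the coefficients -/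

/-- Zero, or all complex roots are real and nonpositive. -/
def NH (P : ℝ[X]) : Prop := P = 0 ∨ ∀ z : ℂ, aeval z P = 0 → z.im = 0 ∧ z.re ≤ 0

/-- If all zeros of `XX` are purely imaginary then all Jensen polynomials have only real nonpositive
zeros (or vanish). -/
def SNH1 (D : Dat) : Prop := (∀ z : ℂ, D.XX z = 0 → z.re = 0) → ∀ d n : ℕ, NH (jensen D d n)

/-- Converse. -/
def SNH2 (D : Dat) : Prop := (∀ d : ℕ, NH (jensen D d 0)) → ∀ z : ℂ, D.XX z = 0 → z.re = 0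

/-- Hyperbolic polynomials with positive coefficients have negative zeros. -/
def SNHpos (D : Dat) : Prop := ∀ k0 : ℕ, (∀ k, k0 ≤ k → 0 < gam D k) → ∀ d n : ℕ, k0 ≤ n → 1 ≤ d →
  Pool.Agent.H24R2.JP.Hyperbolic (jensen D d n) →
  ∀ z : ℂ, aeval z (jensen D d n) = 0 → z.im = 0 ∧ z.re < 0

/-! ## Dirichlet characters -/

open Classical in
/-- The data of a Dirichlet character modulo `N`: theta series of weight `1/2` or `3/2`. -/
noncomputable def dch (N : ℕ) [NeZero N] (χ : DirichletCharacter ℂ N) : Hc where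
  φ y := ∑' m : ℕ, ((if χ.Even then 1 else ((m + 1 : ℕ) : ℂ)) * χ ((m + 1 : ℕ) : ZMod N)) *
    ((Real.exp (-(2 * Real.pi * ((m + 1 : ℕ) : ℝ) ^ 2 * y / (2 * N))) : ℝ) : ℂ)
  b m := (if χ.Even then 1 else (m : ℂ)) * χ (m : ZMod N)
  k := if χ.Even then 1 / 2 else 3 / 2
  h := 2 * N
  p := 2
  β := if χ.Even then 0 else 1
  B := 1
  ε := if χ.Even then gaussSum χ ZMod.stdAddChar / (Real.sqrt N : ℂ) else
    -I * gaussSum χ ZMod.stdAddChar / (Real.sqrt N : ℂ)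

/-- The theta series of a primitive character satisfies the functional equation. -/
def SDch : Prop := ∀ (N : ℕ) [NeZero N] (χ : DirichletCharacter ℂ N), 1 < N → χ.IsPrimitive →
  IsHc (dch N χ)

open Classical in
/-- Comparison with Mathlib's completed L-function. -/
def SDchL : Prop := ∀ (N : ℕ) [NeZero N] (χ : DirichletCharacter ℂ N), 1 < N → χ.IsPrimitive →
  ∀ s : ℂ, mellin (dch N χ).φ s =
    (N : ℂ) ^ s * DirichletCharacter.completedLFunction χ (if χ.Even then 2 * s else 2 * s - 1)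

end Pool.Agent.H471R3.GJ
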