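import Pool.Agent.H471R3.GJ.Hecke

set_option autoImplicit false

/-!
# Cusp forms of level one with real coefficients are Hecke series
-/

namespace Pool.Agent.H471R3.GJ

open Complex Filter Topology UpperHalfPlane MatrixGroups ModularForm

open Classical in
/-- The data attached to a cusp form of level one. -/
noncomputable def cuspHk (k : ℤ) (f : CuspForm 𝒮ℒ k) (B : ℝ) : Hk where
  φ y := (f (ofComplex (Complex.I * y))).re
  b m := ((qExpansion 1 f).coeff m).re
  k := k
  h := 1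
  p := 1
  β := k / 2
  B := B
  ε := if Even (k / 2) then 1 else -1

namespace CuspAux

variable {k : ℤ} (f : CuspForm 𝒮ℒ k)

theorem one_mem : (1 : ℝ) ∈ (𝒮ℒ : Subgroup (GL (Fin 2) ℝ)).strictPeriods := by
  rw [Subgroup.strictPeriods_SL2Z]
  exact AddSubgroup.mem_zmultiples 1

theorem sum_iy (y : ℝ) (hy : 0 < y) :
    HasSum (fun m : ℕ => (qExpansion 1 f).coeff m *
      ((Real.exp (-(2 * Real.pi * (m : ℝ) * y)) : ℝ) : ℂ)) (f (ofComplex (Complex.I * y))) := by
  have h := ModularForm.hasSum_qExpansion (Γ := 𝒮ℒ) (k := k) f one_pos one_mem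
    (ofComplex (Complex.I * y))
  have him : 0 < (Complex.I * (y : ℂ)).im := by simpa using hy
  convert h using 2 with m
  congr 1
  rw [ofComplex_apply_of_im_pos him]
  unfold Function.Periodic.qParam
  rw [← Complex.exp_nat_mul]
  simp only
  push_cast
  congr 1
  have hI : Complex.I ^ 2 = -1 := Complex.I_sq
  linear_combination (-(2 * Real.pi * m * y) : ℂ) * hI

theorem coeff_zero : (qExpansion 1 f).coeff 0 = 0 := by
  rw [CuspFormClass.qExpansion_coeff_zero (Γ := 𝒮ℒ) (k := k) f one_pos one_mem]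

theorem coeff_bound (k : ℤ) (f : CuspForm 𝒮ℒ k) : ∃ B : ℝ, 1 ≤ B ∧ ∀ m : ℕ, 1 ≤ m →
    ‖(qExpansion 1 f).coeff m‖ ≤ B * (m : ℝ) ^ ((k : ℝ) / 2) := by
  have h := CuspFormClass.qExpansion_isBigO (k := k) (Γ := 𝒮ℒ) f
  rw [Subgroup.strictWidthInfty_SL2Z] at h
  obtain ⟨C, hC⟩ := h.bound
  obtain ⟨N, hN⟩ := eventually_atTop.1 hC
  -- finitely many exceptions
  set S : ℝ := ∑ m ∈ Finset.range N, ‖(qExpansion 1 f).coeff m‖ / (m : ℝ) ^ ((k : ℝ) / 2) with hS
  have hS0 : 0 ≤ S := Finset.sum_nonneg fun m _ => by positivity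
  refine ⟨1 + |C| + S, by have := abs_nonneg C; linarith, ?_⟩
  intro m hm
  have hm0 : (0 : ℝ) < m := by exact_mod_cast hm
  have hp : 0 < (m : ℝ) ^ ((k : ℝ) / 2) := Real.rpow_pos_of_pos hm0 _
  rcases lt_or_ge m N with hlt | hge
  · have h1 : ‖(qExpansion 1 f).coeff m‖ / (m : ℝ) ^ ((k : ℝ) / 2) ≤ S :=
      Finset.single_le_sum (f := fun m : ℕ => ‖(qExpansion 1 f).coeff m‖ / (m : ℝ) ^ ((k : ℝ) / 2))
        (fun i _ => by positivity) (Finset.mem_range.2 hlt)
    rw [div_le_iff₀ hp] at h1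
    refine h1.trans ?_
    gcongr
    have := abs_nonneg C
    linarith
  · have h1 := hN m hge
    rw [Real.norm_eq_abs, abs_of_pos hp] at h1
    refine h1.trans ?_
    gcongr
    have := le_abs_self C
    linarith

/-- the functional equation -/
theorem inv_iy (y : ℝ) (hy : 0 < y) :
    f (ofComplex (Complex.I * ((1 / y : ℝ) : ℂ))) =
      (Complex.I * y) ^ k * f (ofComplex (Complex.I * y)) := by
  have him : 0 < (Complex.I * (y : ℂ)).im := by simpa using hy
  have him2 : 0 < (Complex.I * ((1 / y : ℝ) : ℂ)).im := by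
    rw [Complex.I_mul_im, Complex.ofReal_re]
    positivity
  have h1 : (f : ℍ → ℂ) ∣[k] ModularGroup.S = f :=
    SlashInvariantForm.slash_action_eqn (Γ := 𝒮ℒ) f _ ⟨ModularGroup.S, rfl⟩
  have h2 := congrFun h1 (ofComplex (Complex.I * y))
  rw [ModularForm.SL_slash_apply, UpperHalfPlane.modular_S_smul, ModularGroup.denom_S] at h2
  have hτ : ((ofComplex (Complex.I * y) : ℍ) : ℂ) = Complex.I * y := by
    rw [ofComplex_apply_of_im_pos him]
  have hS : UpperHalfPlane.mk (-((ofComplex (Complex.I * y) : ℍ) : ℂ))⁻¹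
      (ofComplex (Complex.I * y)).im_inv_neg_coe_pos = ofComplex (Complex.I * ((1 / y : ℝ) : ℂ)) := by
    rw [ofComplex_apply_of_im_pos him2]
    apply UpperHalfPlane.ext
    simp only
    rw [hτ]
    have hy0 : (y : ℂ) ≠ 0 := by exact_mod_cast hy.ne'
    push_cast
    rw [inv_eq_iff_eq_inv, mul_inv, Complex.inv_I]
    simp
  rw [hS, hτ] at h2
  have hne : (Complex.I * (y : ℂ)) ≠ 0 := by
    have hy0 : (y : ℂ) ≠ 0 := by exact_mod_cast hy.ne'
    exact mul_ne_zero Complex.I_ne_zero hy0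
  rw [← h2, zpow_neg]
  field_simp

theorem real_iy (hreal : ∀ n, ((qExpansion 1 f).coeff n).im = 0) (y : ℝ) (hy : 0 < y) :
    (f (ofComplex (Complex.I * y))).im = 0 := by
  have h := Complex.hasSum_im (sum_iy f y hy)
  have h2 : ∀ m : ℕ, ((qExpansion 1 f).coeff m *
      ((Real.exp (-(2 * Real.pi * (m : ℝ) * y)) : ℝ) : ℂ)).im = 0 := by
    intro m
    rw [Complex.im_mul_ofReal, hreal m, zero_mul]
  simp only [h2] at h
  exact h.unique hasSum_zero

end CuspAux

open CuspAux in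
/-- A cusp form of level one and even weight `k > 0` with real coefficients and `a(1) = 1` gives a
Hecke series. -/
theorem cusp_isHk (k : ℤ) (hk0 : 0 < k) (hk : Even k) (f : CuspForm 𝒮ℒ k)
    (hreal : ∀ n, ((qExpansion 1 f).coeff n).im = 0) (h1 : (qExpansion 1 f).coeff 1 = 1) :
    ∃ B : ℝ, IsHk (cuspHk k f B) := by
  obtain ⟨B, hB1, hB⟩ := coeff_bound k f
  have hk0' : (0 : ℝ) < k := by exact_mod_cast hk0
  refine ⟨B, hk0', one_pos, le_refl 1, by show (0 : ℝ) ≤ (k : ℝ) / 2; positivity, hB1, ?_, ?_, ?_, ?_, ?_⟩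
  · show ((qExpansion 1 f).coeff 1).re = 1
    rw [h1]
    simp
  · intro m hm
    exact (Complex.abs_re_le_norm _).trans (hB m hm)
  · intro y hy
    have h := Complex.hasSum_re (sum_iy f y hy)
    have h2 := (hasSum_nat_add_iff' 1).2 h
    simp only [Finset.range_one, Finset.sum_singleton, coeff_zero, zero_mul, Complex.zero_re,
      sub_zero] at h2
    refine h2.congr_fun ?_
    intro m
    rw [Complex.re_mul_ofReal]
    show ((qExpansion 1 f).coeff (m + 1)).re * Real.exp (-(2 * Real.pi * ((m + 1 : ℕ) : ℝ) ^ 1 * y / 1)) = _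
    rw [pow_one, div_one]
  · show (if Even (k / 2) then (1 : ℝ) else -1) = 1 ∨ (if Even (k / 2) then (1 : ℝ) else -1) = -1
    split_ifs <;> simp
  · intro y hy
    show (f (ofComplex (Complex.I * ((1 / y : ℝ) : ℂ)))).re = (if Even (k / 2) then (1 : ℝ) else -1) *
      y ^ (k : ℝ) * (f (ofComplex (Complex.I * y))).re
    rw [inv_iy f y hy]
    obtain ⟨j, hj⟩ := hk
    have hk2 : k / 2 = j := by omega
    have e1 : (Complex.I * (y : ℂ)) ^ k = (((if Even (k / 2) then (1 : ℝ) else -1) * y ^ (k : ℝ) : ℝ) : ℂ) := by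
      rw [mul_zpow, hk2]
      have e2 : (Complex.I : ℂ) ^ k = (((if Even j then (1 : ℝ) else -1) : ℝ) : ℂ) := by
        rw [hj, ← two_mul, zpow_mul]
        have : (Complex.I : ℂ) ^ (2 : ℤ) = -1 := by
          rw [zpow_ofNat, Complex.I_sq]
        rw [this]
        split_ifs with he
        · rw [Even.neg_one_zpow he]; simp
        · rw [Odd.neg_one_zpow (Int.not_even_iff_odd.1 he)]; simp
      rw [e2, Real.rpow_intCast]
      push_cast
      ring
    rw [e1, Complex.re_ofReal_mul]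

end Pool.Agent.H471R3.GJ
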