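import Pool.Agent.H471R3.GJ.Hecke
import Pool.Agent.H382R2.Digamma

set_option autoImplicit false

/-!
# The factor at infinity of a Hecke series: logarithmic derivative (task HLOG)
-/

namespace Pool.Agent.H471R3.GJ

open Complex Filter Topology Polynomial

namespace HLog

theorem kp_ge (H : Hk) (h : IsHk H) : 6 ≤ kp H := by
  unfold kp
  linarith [h.β_nonneg, h.B_one]

theorem sH_im (H : Hk) (z : ℂ) : (sH H z).im = kp H * z.im := by
  simp [sH]

theorem sH_re (H : Hk) (z : ℂ) : (sH H z).re = H.k / 2 + kp H * z.re := by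
  simp [sH]

theorem sH_deriv (H : Hk) (z : ℂ) : HasDerivAt (sH H) ((kp H : ℝ) : ℂ) z := by
  have h1 : HasDerivAt (fun z : ℂ => ((H.k / 2 : ℝ) : ℂ) + ((kp H : ℝ) : ℂ) * z)
      (((kp H : ℝ) : ℂ) * 1) z := ((hasDerivAt_id z).const_mul _).const_add _
  rw [mul_one] at h1
  exact h1

theorem s_ne (H : Hk) (h : IsHk H) (z : ℂ) (hz : 0 < z.im) (m : ℕ) : sH H z ≠ -(m : ℂ) := by
  intro he
  have h1 := congrArg Complex.im he
  rw [sH_im] at h1
  have h2 : (-(m : ℂ)).im = 0 := by simp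
  rw [h2] at h1
  have h3 : 0 < kp H * z.im := mul_pos (by linarith [kp_ge H h]) hz
  linarith

/-- the numerator of the factor at infinity -/
noncomputable def NF (H : Hk) (z : ℂ) : ℂ :=
  ((H.h / (2 * Real.pi) : ℝ) : ℂ) ^ (sH H z) * Complex.Gamma (sH H z)

theorem a_pos (H : Hk) (h : IsHk H) : 0 < H.h / (2 * Real.pi) :=
  div_pos h.h_pos (by positivity)

theorem pw_deriv (H : Hk) (h : IsHk H) (z : ℂ) :
    HasDerivAt (fun z => ((H.h / (2 * Real.pi) : ℝ) : ℂ) ^ (sH H z))
      (((H.h / (2 * Real.pi) : ℝ) : ℂ) ^ (sH H z) *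
        Complex.log ((H.h / (2 * Real.pi) : ℝ) : ℂ) * ((kp H : ℝ) : ℂ)) z :=
  (sH_deriv H z).const_cpow (Or.inl (by
    have := a_pos H h
    exact_mod_cast this.ne'))

theorem pw_ne (H : Hk) (h : IsHk H) (z : ℂ) :
    ((H.h / (2 * Real.pi) : ℝ) : ℂ) ^ (sH H z) ≠ 0 := by
  rw [Ne, Complex.cpow_eq_zero_iff]
  rintro ⟨h1, _⟩
  have h2 := a_pos H h
  have h3 : H.h / (2 * Real.pi) = 0 := by exact_mod_cast h1
  exact h2.ne' h3

theorem gam_diff (H : Hk) (h : IsHk H) (z : ℂ) (hz : 0 < z.im) :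
    DifferentiableAt ℂ Complex.Gamma (sH H z) :=
  Complex.differentiableAt_Gamma _ (s_ne H h z hz)

theorem gam_ne (H : Hk) (h : IsHk H) (z : ℂ) (hz : 0 < z.im) : Complex.Gamma (sH H z) ≠ 0 :=
  Complex.Gamma_ne_zero (s_ne H h z hz)

theorem NF_diff (H : Hk) (h : IsHk H) (z : ℂ) (hz : 0 < z.im) : DifferentiableAt ℂ (NF H) z := by
  have h1 : DifferentiableAt ℂ (fun z => Complex.Gamma (sH H z)) z :=
    (gam_diff H h z hz).comp z (sH_deriv H z).differentiableAt
  exact (pw_deriv H h z).differentiableAt.mul h1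

theorem NF_ne (H : Hk) (h : IsHk H) (z : ℂ) (hz : 0 < z.im) : NF H z ≠ 0 :=
  mul_ne_zero (pw_ne H h z) (gam_ne H h z hz)

theorem NF_log (H : Hk) (h : IsHk H) (z : ℂ) (hz : 0 < z.im) :
    logDeriv (NF H) z = ((kp H : ℝ) : ℂ) * ((Real.log (H.h / (2 * Real.pi)) : ℝ) : ℂ) +
      ((kp H : ℝ) : ℂ) * logDeriv Complex.Gamma (sH H z) := by
  have h1 : DifferentiableAt ℂ (fun z => Complex.Gamma (sH H z)) z :=
    (gam_diff H h z hz).comp z (sH_deriv H z).differentiableAt
  have h2 : logDeriv (NF H) z =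
      logDeriv (fun z => ((H.h / (2 * Real.pi) : ℝ) : ℂ) ^ (sH H z)) z +
        logDeriv (fun z => Complex.Gamma (sH H z)) z :=
    logDeriv_mul z (pw_ne H h z) (gam_ne H h z hz) (pw_deriv H h z).differentiableAt h1
  have h3 : logDeriv (fun z => Complex.Gamma (sH H z)) z =
      logDeriv Complex.Gamma (sH H z) * deriv (sH H) z :=
    logDeriv_comp (f := Complex.Gamma) (g := sH H) (gam_diff H h z hz)
      (sH_deriv H z).differentiableAt
  have h4 : logDeriv (fun z => ((H.h / (2 * Real.pi) : ℝ) : ℂ) ^ (sH H z)) z =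
      Complex.log ((H.h / (2 * Real.pi) : ℝ) : ℂ) * ((kp H : ℝ) : ℂ) := by
    rw [logDeriv_apply, (pw_deriv H h z).deriv]
    have := pw_ne H h z
    field_simp
  rw [h2, h3, h4, (sH_deriv H z).deriv, ← Complex.ofReal_log (a_pos H h).le]
  ring

end HLog

open HLog

theorem logH (H : Hk) (h : IsHk H) : SLog H := by
  obtain ⟨C, hC1, hC⟩ := SG.digamma_bound
  have hkp := kp_ge H h
  have hkp0 : 0 < kp H := by linarith
  have hk := h.k_pos
  have hp : (0 : ℝ) < H.p := by exact_mod_cast h.p_pos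
  have hκ : ∀ z : ℂ, (dat H).κ * ((dat H).c * Real.log z.im) = kp H * Real.log z.im := by
    intro z
    simp only [dat]
    field_simp
  set K0 : ℝ := kp H * |Real.log (H.h / (2 * Real.pi))| + kp H * C + kp H * |Real.log (kp H)| with hK0
  have hN : ∀ z : ℂ, 1 + H.k ≤ z.im → |z.re| ≤ z.im / 2 →
      ‖logDeriv (NF H) z - ((kp H * Real.log z.im : ℝ) : ℂ)‖ ≤ K0 := by
    intro z h1 h2
    have hz : 0 < z.im := by linarith
    have e1 := sH_im H z
    have e2 := sH_re H z
    have e3 : |(sH H z).im| = kp H * z.im := by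
      rw [e1, abs_of_pos (mul_pos hkp0 hz)]
    have e4 : 1 ≤ |(sH H z).im| := by
      rw [e3]
      nlinarith
    have e5 : |(sH H z).re| ≤ |(sH H z).im| := by
      rw [e3, e2]
      have e6 : |H.k / 2 + kp H * z.re| ≤ H.k / 2 + kp H * (z.im / 2) := by
        refine (abs_add_le _ _).trans ?_
        rw [abs_of_pos (by linarith : 0 < H.k / 2), abs_mul, abs_of_pos hkp0]
        have := mul_le_mul_of_nonneg_left h2 hkp0.le
        linarith
      nlinarith
    have e7 := hC _ e4 e5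
    rw [e3, Real.log_mul hkp0.ne' hz.ne'] at e7
    rw [NF_log H h z hz]
    have e8 : ((kp H : ℝ) : ℂ) * ((Real.log (H.h / (2 * Real.pi)) : ℝ) : ℂ) +
      ((kp H : ℝ) : ℂ) * logDeriv Complex.Gamma (sH H z) - ((kp H * Real.log z.im : ℝ) : ℂ) =
      ((kp H * Real.log (H.h / (2 * Real.pi)) : ℝ) : ℂ) +
      ((kp H : ℝ) : ℂ) * (logDeriv Complex.Gamma (sH H z) -
        ((Real.log (kp H) + Real.log z.im : ℝ) : ℂ)) + ((kp H * Real.log (kp H) : ℝ) : ℂ) := by
      push_cast
      ring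
    rw [e8]
    refine (norm_add_le _ _).trans (add_le_add ((norm_add_le _ _).trans (add_le_add ?_ ?_)) ?_)
    · rw [Complex.norm_real, Real.norm_eq_abs, abs_mul, abs_of_pos hkp0]
    · rw [norm_mul, Complex.norm_real, Real.norm_eq_abs, abs_of_pos hkp0]
      exact mul_le_mul_of_nonneg_left e7 hkp0.le
    · rw [Complex.norm_real, Real.norm_eq_abs, abs_mul, abs_of_pos hkp0]
  have hK01 : 0 ≤ K0 := by positivity
  by_cases hε : H.ε = 1
  · have hHH : (dat H).HH = NF H := by
      funext z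
      simp [dat, hε, NF]
    refine ⟨fun z hz => by rw [hHH]; exact NF_diff H h z hz, K0 + 1, 1 + H.k, by linarith,
      by linarith, ?_⟩
    intro z h1 h2
    have hz : 0 < z.im := by linarith
    rw [hHH, hκ]
    exact ⟨NF_ne H h z hz, (hN z h1 h2).trans (by linarith)⟩
  · have hHH : (dat H).HH = fun z => NF H z / z := by
      funext z
      simp [dat, hε, NF]
    have hz0 : ∀ z : ℂ, 0 < z.im → z ≠ 0 := by
      intro z hz h0
      rw [h0] at hz
      simp at hz
    refine ⟨fun z hz => by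
      rw [hHH]
      exact (NF_diff H h z hz).div differentiableAt_fun_id (hz0 z hz), K0 + 1, 1 + H.k,
      by linarith, by linarith, ?_⟩
    intro z h1 h2
    have hz : 0 < z.im := by linarith
    rw [hHH, hκ]
    refine ⟨div_ne_zero (NF_ne H h z hz) (hz0 z hz), ?_⟩
    have e1 : logDeriv (fun z => NF H z / z) z = logDeriv (NF H) z - 1 / z := by
      have := logDeriv_div (f := NF H) (g := fun z => z) z (NF_ne H h z hz) (hz0 z hz)
        (NF_diff H h z hz) differentiableAt_fun_id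
      rw [this]
      congr 1
      simp [logDeriv_apply]
    rw [e1]
    have e2 : logDeriv (NF H) z - 1 / z - ((kp H * Real.log z.im : ℝ) : ℂ) =
        (logDeriv (NF H) z - ((kp H * Real.log z.im : ℝ) : ℂ)) - 1 / z := by ring
    rw [e2]
    refine (norm_sub_le _ _).trans (add_le_add (hN z h1 h2) ?_)
    rw [norm_div, norm_one]
    have e3 : 1 ≤ ‖z‖ := by
      have := Complex.abs_im_le_norm z
      rw [abs_of_pos hz] at this
      linarith
    rw [div_le_one (by linarith)]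
    exact e3

end Pool.Agent.H471R3.GJ
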