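import Pool.Agent.H24R2.JP.All
import Pool.Agent.H471R3.GJ.B1
import Pool.Agent.H471R3.GJ.Mom
import Pool.Agent.H471R3.GJ.Gam
import Pool.Agent.H471R3.GJ.Grow
import Pool.Agent.H471R3.GJ.Zeros
import Pool.Agent.H471R3.GJ.Good
import Pool.Agent.H471R3.GJ.Facts
import Pool.Agent.H471R3.GJ.Low
import Pool.Agent.H471R3.GJ.Stir
import Pool.Agent.H471R3.GJ.Tail
import Pool.Agent.H471R3.GJ.Conv
import Pool.Agent.H471R3.GJ.Piece
import Pool.Agent.H471R3.GJ.Up
import Pool.Agent.H471R3.GJ.Down
import Pool.Agent.H471R3.GJ.MainT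
import Pool.Agent.H471R3.GJ.Off
import Pool.Agent.H471R3.GJ.WinS
import Pool.Agent.H471R3.GJ.Chain
import Pool.Agent.H471R3.GJ.Hyp
import Pool.Agent.H471R3.GJ.RH1
import Pool.Agent.H471R3.GJ.RH2
import Pool.Agent.H471R3.GJ.Hecke
import Pool.Agent.H471R3.GJ.HKer
import Pool.Agent.H471R3.GJ.HPhi0
import Pool.Agent.H471R3.GJ.HOdd
import Pool.Agent.H471R3.GJ.HMel
import Pool.Agent.H471R3.GJ.HDir
import Pool.Agent.H471R3.GJ.HLog
import Pool.Agent.H471R3.GJ.HXX
import Pool.Agent.H471R3.GJ.HIsL

set_option autoImplicit false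

namespace Pool.Agent.H471R3.GJ

open Complex Filter Topology Polynomial
open Pool.Agent.H24R2.JP (Hyperbolic Par Good App arc SHad SDer SGL SPar SCircle SJensen SNewton SArc
  SChasse SSector SLimit SJen)

namespace T

theorem hadT : SHad := Pool.Agent.H24R2.JP.had
theorem derT : SDer := Pool.Agent.H24R2.JP.der
theorem glT : SGL := Pool.Agent.H24R2.JP.gl
theorem parT : SPar := Pool.Agent.H24R2.JP.parT
theorem circT : SCircle := Pool.Agent.H24R2.JP.circT
theorem jensenT : SJensen := Pool.Agent.H24R2.JP.jensenT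
theorem newtonT : SNewton := Pool.Agent.H24R2.JP.newtonT
theorem arcT : SArc := Pool.Agent.H24R2.JP.arcS

variable (D : Dat) (h : IsL D)
include h

theorem b1T : SB1 D := b1 D h
theorem gamT : SGam D := gamS D (mom D h)
theorem gamPosT : SGamPos D := gamPos D h
theorem growT : SGrow D := grow D h (b1T D h)
theorem zerosT : SZeros D := zeros D h (b1T D h)
theorem goodT : SGood D := good D hadT derT glT (b1T D h) (growT D h) (zerosT D h) (gamT D h)
theorem factsT : SFacts D := facts D (goodT D h) parT circT jensenT newtonT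
theorem lowT : SLow D := low D (factsT D h) (gamT D h) (b1T D h)
theorem stirT : SStir D := stir D h
theorem tailT : STail D := tail D h
theorem convT : SConv D := conv D h (b1T D h)
theorem pieceT : SPiece D := piece D h (stirT D h)
theorem upT : SUp D := up D h (stirT D h) (tailT D h) (convT D h) (b1T D h)
theorem downT : SDown D := down D h (stirT D h)
theorem mainT : SMain D := mainS D h (upT D h) (downT D h) (pieceT D h) arcT (stirT D h)
theorem offT : SOff D := off D h (mainT D h) arcT (b1T D h) (stirT D h)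
theorem winT : SWin D := win D h (offT D h) (b1T D h)
theorem chainT : SChain D := chain D h (factsT D h) (winT D h) (lowT D h)
theorem hypT : SHyp D := hyp D h (chainT D h) (factsT D h) (b1T D h)
theorem rh1T : SRH1 D := rh1 D hadT circT jensenT (b1T D h) (growT D h) (zerosT D h)
theorem rh2T : SRH2 D := rh2 D (b1T D h)

/-- The strong form: hyperbolic for all large `n` and all `d ≤ exp (al n) - 1`. -/
theorem hypStrong : ∃ N : ℕ, ∀ n : ℕ, N ≤ n → (∀ k, n ≤ k → 0 < gam D k) ∧
    ∀ d : ℕ, (d : ℝ) + 1 ≤ Real.exp (al D * n) → Hyperbolic (jensen D d n) := by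
  obtain ⟨N1, hN1⟩ := chainT D h
  obtain ⟨k0, hk0, -, -, hJ, -⟩ := factsT D h
  have hB := b1T D h
  refine ⟨max N1 k0, fun n hn => ⟨fun k hk => hk0 k (by omega), fun d hdR z hz => ?_⟩⟩
  have haev : aeval z (jensen D d n) =
      ∑ j ∈ Finset.range (d + 1), (d.choose j : ℂ) * iteratedDeriv (n + j) (FF D) 0 * z ^ j := by
    unfold jensen
    rw [map_sum]
    refine Finset.sum_congr rfl fun j _ => ?_
    rw [hB.2.2.2 (n + j)]
    simp
  rw [haev] at hz
  set R : ℝ := Real.exp (al D * n) with hR
  have hR0 : 0 < R := Real.exp_pos _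
  have hd0 : (0 : ℝ) ≤ d := Nat.cast_nonneg d
  refine hJ n (by omega) d R hR0 ?_ ?_ z hz
  · nlinarith
  · intro w hw hw0
    by_contra him
    exact absurd (hN1 n (by omega) w him hw0) (not_lt.2 hw)

end T

namespace TH

variable (H : Hk) (h : IsHk H)
include h

theorem kerT : SKer H := ker H h
theorem phi0T : SPhi0 H := phi0 H h (kerT H h)
theorem phiT : SPhi H := phiH H h (phi0T H h) odd
theorem melT : SMel H := mel H h (kerT H h)
theorem dirT : SDir H := dir H h
theorem logT : SLog H := logH H h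
theorem xxT : SXX H := xx H h (phiT H h) odd (phi0T H h) (melT H h) (dirT H h)
theorem isLT : IsL (dat H) := isL H h (phiT H h) (logT H h) (xxT H h)

end TH

end Pool.Agent.H471R3.GJ
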