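import Pool.Agent.H471R3.GJ.Prod

set_option autoImplicit false

/-!
GJ, task DCH (helper930): theta series of primitive Dirichlet characters.
The Parseval lemmas are taken from the Starting point file `Helper112/MultLS.lean`.
-/

namespace Pool.Agent.H471R3.GJ

open Complex Filter Topology HurwitzZeta

namespace Dch

lemma parseval (f : ℕ) [NeZero f] (Φ : ZMod f → ℂ) :
    ∑ n : ZMod f, ‖∑ a : ZMod f, Φ a * ZMod.stdAddChar (n * a)‖ ^ 2 =
      f * ∑ a : ZMod f, ‖Φ a‖ ^ 2 := by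
  have key : ∑ n : ZMod f, (∑ a : ZMod f, Φ a * ZMod.stdAddChar (n * a)) *
      (starRingEnd ℂ) (∑ a : ZMod f, Φ a * ZMod.stdAddChar (n * a)) =
      f * ∑ a : ZMod f, Φ a * (starRingEnd ℂ) (Φ a) := by
    simp_rw [map_sum, Finset.sum_mul_sum]
    rw [Finset.sum_comm]
    rw [Finset.mul_sum]
    apply Finset.sum_congr rfl
    intro a _
    rw [Finset.sum_comm]
    have h1 : ∀ b : ZMod f, ∑ n : ZMod f, Φ a * ZMod.stdAddChar (n * a) *
        (starRingEnd ℂ) (Φ b * ZMod.stdAddChar (n * b)) =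
        Φ a * (starRingEnd ℂ) (Φ b) * if a = b then (f : ℂ) else 0 := by
      intro b
      have h2 : ∀ n : ZMod f, Φ a * ZMod.stdAddChar (n * a) *
        (starRingEnd ℂ) (Φ b * ZMod.stdAddChar (n * b)) =
        Φ a * (starRingEnd ℂ) (Φ b) * ZMod.stdAddChar (n * (a - b)) := by
        intro n
        rw [(starRingEnd ℂ).map_mul, ← AddChar.map_neg_eq_conj, mul_sub, sub_eq_add_neg,
          AddChar.map_add_eq_mul]
        ring
      simp_rw [h2]
      rw [← Finset.mul_sum, AddChar.sum_mulShift (a - b) (ZMod.isPrimitive_stdAddChar f)]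
      simp [sub_eq_zero]
    simp_rw [h1]
    simp
    ring
  have e1 : ∀ z : ℂ, z * (starRingEnd ℂ) z = ((‖z‖ ^ 2 : ℝ) : ℂ) := by
    intro z
    rw [Complex.mul_conj, Complex.normSq_eq_norm_sq]
  simp_rw [e1] at key
  exact_mod_cast key

lemma norm_char (f : ℕ) [NeZero f] (χ : DirichletCharacter ℂ f) (a : ZMod f) :
    ‖χ a‖ = if IsUnit a then 1 else 0 := by
  split_ifs with h
  · obtain ⟨u, rfl⟩ := h
    exact χ.unit_norm_eq_one u
  · rw [χ.map_nonunit h, norm_zero]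

lemma sum_norm_char (f : ℕ) [NeZero f] (χ : DirichletCharacter ℂ f) :
    ∑ a : ZMod f, ‖χ a‖ ^ 2 = Nat.totient f := by
  classical
  simp_rw [norm_char]
  have : ∀ a : ZMod f, ((if IsUnit a then (1:ℝ) else 0) ^ 2) = if IsUnit a then 1 else 0 := by
    intro a; split_ifs <;> simp
  simp_rw [this]
  rw [Finset.sum_boole, ← ZMod.card_units_eq_totient f]
  congr 1
  symm
  apply Finset.card_bij (fun (a : (ZMod f)ˣ) _ => (a : ZMod f))
  · intro a _; simp
  · intro a _ b _ hab; exact Units.ext hab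
  · intro b hb
    rw [Finset.mem_filter] at hb
    exact ⟨hb.2.unit, Finset.mem_univ _, rfl⟩

lemma gauss_shift {f : ℕ} [NeZero f] {χ : DirichletCharacter ℂ f} (hχ : χ.IsPrimitive)
    (n : ZMod f) : ∑ a : ZMod f, χ a * ZMod.stdAddChar (n * a) =
      χ⁻¹ n * gaussSum χ (ZMod.stdAddChar : AddChar (ZMod f) ℂ) := by
  rw [← gaussSum_mulShift_of_isPrimitive _ hχ n]
  rfl

lemma norm_sq_gaussSum {f : ℕ} [NeZero f] {χ : DirichletCharacter ℂ f} (hχ : χ.IsPrimitive) :
    ‖gaussSum χ (ZMod.stdAddChar : AddChar (ZMod f) ℂ)‖ ^ 2 = f := by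
  have h := parseval f (fun a => χ a)
  rw [sum_norm_char] at h
  simp_rw [gauss_shift hχ, norm_mul, mul_pow] at h
  rw [← Finset.sum_mul, sum_norm_char, mul_comm] at h
  have h0 : (Nat.totient f : ℝ) ≠ 0 := by
    have := Nat.totient_pos.mpr (NeZero.pos f)
    positivity
  exact mul_right_cancel₀ h0 h

/-- sums over a residue class -/
theorem hasSum_class (M : ℕ) (hM : 0 < M) (r : ℕ) (hr : r < M) (A : ℤ → ℂ) (a : ℂ)
    (h : HasSum (fun j : ℤ => A (M * j + r)) a) :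
    HasSum (fun m : ℤ => if m % M = r then A m else 0) a := by
  have hinj : Function.Injective (fun j : ℤ => (M : ℤ) * j + r) := by
    intro x y hxy
    simp only at hxy
    have hM' : (M : ℤ) ≠ 0 := by exact_mod_cast hM.ne'
    have : (M : ℤ) * x = M * y := by linarith
    exact mul_left_cancel₀ hM' this
  rw [← hinj.hasSum_iff]
  · refine h.congr_fun ?_
    intro j
    simp only [Function.comp]
    rw [if_pos]
    rw [Int.add_comm, Int.add_mul_emod_self_left]
    exact Int.emod_eq_of_lt (by positivity) (by exact_mod_cast hr)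
  · intro x hx
    rw [if_neg]
    intro hxr
    apply hx
    refine ⟨x / M, ?_⟩
    simp only
    have := Int.mul_ediv_add_emod x M
    rw [hxr] at this
    exact this

theorem hasSum_zmod (N : ℕ) [NeZero N] (f : ZMod N → ℂ) (A : ℤ → ℂ) (a : ZMod N → ℂ)
    (h : ∀ j : ZMod N, HasSum (fun m : ℤ => A (N * m + (j.val : ℕ))) (a j)) :
    HasSum (fun n : ℤ => f (n : ZMod N) * A n) (∑ j, f j * a j) := by
  have h1 : ∀ j : ZMod N, HasSum (fun n : ℤ => f j * (if n % N = (j.val : ℕ) then A n else 0))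
      (f j * a j) := fun j =>
    (hasSum_class N (NeZero.pos N) j.val (ZMod.val_lt j) A _ (h j)).mul_left _
  have h2 := hasSum_sum (s := Finset.univ) fun j _ => h1 j
  refine h2.congr_fun ?_
  intro n
  rw [Finset.sum_eq_single (n : ZMod N)]
  · rw [if_pos]
    rw [ZMod.val_intCast]
  · intro j _ hj
    rw [if_neg, mul_zero]
    intro h3
    apply hj
    have h4 : ((n % N : ℤ) : ZMod N) = j := by
      rw [h3]
      rw [Int.cast_natCast, ZMod.natCast_val, ZMod.cast_id', id]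
    rw [← h4, ZMod.intCast_mod]
  · intro h3
    exact absurd (Finset.mem_univ _) h3

theorem even_side (N : ℕ) [NeZero N] (χ : DirichletCharacter ℂ N) (y : ℝ) (hy : 0 < y) :
    HasSum (fun n : ℤ => χ (n : ZMod N) * ((Real.exp (-(Real.pi * n ^ 2 * y / N)) : ℝ) : ℂ))
      (∑ j : ZMod N, χ j *
        ((evenKernel (((j.val : ℝ) / N : ℝ) : UnitAddCircle) (N * y) : ℝ) : ℂ)) := by
  have hN : (0 : ℝ) < N := by exact_mod_cast NeZero.pos N
  apply hasSum_zmod N χ (fun n : ℤ => ((Real.exp (-(Real.pi * n ^ 2 * y / N)) : ℝ) : ℂ))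
  intro j
  rw [hasSum_ofReal]
  refine (hasSum_int_evenKernel ((j.val : ℝ) / N) (t := N * y) (by positivity)).congr_fun ?_
  intro m
  push_cast
  congr 1
  field_simp

theorem odd_side (N : ℕ) [NeZero N] (χ : DirichletCharacter ℂ N) (y : ℝ) (hy : 0 < y) :
    HasSum (fun n : ℤ => χ (n : ZMod N) *
      ((n * Real.exp (-(Real.pi * n ^ 2 * y / N)) : ℝ) : ℂ))
      (∑ j : ZMod N, χ j *
        ((N * oddKernel (((j.val : ℝ) / N : ℝ) : UnitAddCircle) (N * y) : ℝ) : ℂ)) := by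
  have hN : (0 : ℝ) < N := by exact_mod_cast NeZero.pos N
  apply hasSum_zmod N χ (fun n : ℤ => ((n * Real.exp (-(Real.pi * n ^ 2 * y / N)) : ℝ) : ℂ))
  intro j
  rw [hasSum_ofReal]
  refine ((hasSum_int_oddKernel ((j.val : ℝ) / N) (x := N * y) (by positivity)).mul_left
    (N : ℝ)).congr_fun ?_
  intro m
  push_cast
  have h1 : -(Real.pi * ((N : ℝ) * m + j.val) ^ 2 * y / N) =
      -Real.pi * ((m : ℝ) + j.val / N) ^ 2 * (N * y) := by
    field_simp
  rw [h1]
  have h2 : ((N : ℝ) * m + j.val) = N * (m + j.val / N) := by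
    field_simp
  rw [h2]
  ring

theorem std_val (N : ℕ) [NeZero N] (n : ℤ) (j : ZMod N) :
    ZMod.stdAddChar ((n : ZMod N) * j) =
      cexp (2 * Real.pi * I * (((j.val : ℝ) / N : ℝ) : ℂ) * n) := by
  have h1 : ((n : ZMod N) * j) = ((n * (j.val : ℤ) : ℤ) : ZMod N) := by
    push_cast
    rw [ZMod.natCast_val, ZMod.cast_id', id]
  rw [h1, ZMod.stdAddChar_coe]
  congr 1
  push_cast
  ring

theorem cos_side (N : ℕ) [NeZero N] (χ : DirichletCharacter ℂ N) (hχ : χ.IsPrimitive) (t : ℝ)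
    (ht : 0 < t) :
    HasSum (fun n : ℤ => χ⁻¹ (n : ZMod N) * gaussSum χ (ZMod.stdAddChar : AddChar (ZMod N) ℂ) *
      ((Real.exp (-Real.pi * n ^ 2 * t) : ℝ) : ℂ))
      (∑ j : ZMod N, χ j *
        ((cosKernel (((j.val : ℝ) / N : ℝ) : UnitAddCircle) t : ℝ) : ℂ)) := by
  have h2 := hasSum_sum (s := (Finset.univ : Finset (ZMod N))) fun j _ =>
    (hasSum_int_cosKernel ((j.val : ℝ) / N) ht).mul_left (χ j)
  refine h2.congr_fun ?_
  intro n
  rw [← gauss_shift hχ, Finset.sum_mul]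
  refine Finset.sum_congr rfl fun j _ => ?_
  rw [std_val]
  ring

theorem sin_side (N : ℕ) [NeZero N] (χ : DirichletCharacter ℂ N) (hχ : χ.IsPrimitive) (t : ℝ)
    (ht : 0 < t) :
    HasSum (fun n : ℤ => -I * n * (χ⁻¹ (n : ZMod N) *
      gaussSum χ (ZMod.stdAddChar : AddChar (ZMod N) ℂ)) *
      ((Real.exp (-Real.pi * n ^ 2 * t) : ℝ) : ℂ))
      (∑ j : ZMod N, χ j *
        ((sinKernel (((j.val : ℝ) / N : ℝ) : UnitAddCircle) t : ℝ) : ℂ)) := by
  have h2 := hasSum_sum (s := (Finset.univ : Finset (ZMod N))) fun j _ =>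
    (hasSum_int_sinKernel ((j.val : ℝ) / N) ht).mul_left (χ j)
  refine h2.congr_fun ?_
  intro n
  rw [← gauss_shift hχ, Finset.mul_sum, Finset.sum_mul]
  refine Finset.sum_congr rfl fun j _ => ?_
  rw [std_val]
  ring

/-- the functional equation, even case -/
theorem fe_even (N : ℕ) [NeZero N] (χ : DirichletCharacter ℂ N) (hχ : χ.IsPrimitive) (y : ℝ)
    (hy : 0 < y) (T T' : ℂ)
    (hT : HasSum (fun n : ℤ => χ (n : ZMod N) *
      ((Real.exp (-(Real.pi * n ^ 2 * y / N)) : ℝ) : ℂ)) T)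
    (hT' : HasSum (fun n : ℤ => χ (n : ZMod N) *
      ((Real.exp (-(Real.pi * n ^ 2 * (1 / y) / N)) : ℝ) : ℂ)) T') :
    T' = gaussSum χ ZMod.stdAddChar / (Real.sqrt N : ℂ) * ((y ^ (1 / 2 : ℝ) : ℝ) : ℂ) *
      (starRingEnd ℂ) T := by
  have hN : (0 : ℝ) < N := by exact_mod_cast NeZero.pos N
  have h1 := hT'.unique (even_side N χ (1 / y) (by positivity))
  have h2 := cos_side N χ hχ (y / N) (by positivity)
  have h3 : HasSum (fun n : ℤ => χ⁻¹ (n : ZMod N) *
      gaussSum χ (ZMod.stdAddChar : AddChar (ZMod N) ℂ) *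
      ((Real.exp (-Real.pi * n ^ 2 * (y / N)) : ℝ) : ℂ))
      (gaussSum χ (ZMod.stdAddChar : AddChar (ZMod N) ℂ) * (starRingEnd ℂ) T) := by
    have h4 := (hasSum_conj'.2 hT).mul_left
      (gaussSum χ (ZMod.stdAddChar : AddChar (ZMod N) ℂ))
    refine h4.congr_fun ?_
    intro n
    have h5 : χ⁻¹ (n : ZMod N) = (starRingEnd ℂ) (χ (n : ZMod N)) :=
      (MulChar.star_apply' χ (n : ZMod N)).symm
    rw [h5, map_mul, conj_ofReal]
    have h6 : -Real.pi * (n : ℝ) ^ 2 * (y / N) = -(Real.pi * n ^ 2 * y / N) := by ring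
    rw [h6]
    ring
  have h4 := h3.unique h2
  have h5 : ∀ j : ZMod N, evenKernel (((j.val : ℝ) / N : ℝ) : UnitAddCircle) (N * (1 / y)) =
      (1 / Real.sqrt N * y ^ (1 / 2 : ℝ)) *
        cosKernel (((j.val : ℝ) / N : ℝ) : UnitAddCircle) (y / N) := by
    intro j
    rw [evenKernel_functional_equation]
    have h6 : 1 / ((N : ℝ) * (1 / y)) = y / N := by
      field_simp
    have h7 : 1 / ((N : ℝ) * (1 / y)) ^ (1 / 2 : ℝ) = 1 / Real.sqrt N * y ^ (1 / 2 : ℝ) := by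
      rw [Real.mul_rpow hN.le (by positivity), one_div y, Real.inv_rpow hy.le,
        Real.sqrt_eq_rpow]
      field_simp
    rw [h6, h7]
  rw [h1]
  simp_rw [h5]
  have h6 : ∑ j : ZMod N, χ j * (((1 / Real.sqrt N * y ^ (1 / 2 : ℝ)) *
      cosKernel (((j.val : ℝ) / N : ℝ) : UnitAddCircle) (y / N) : ℝ) : ℂ) =
      ((1 / Real.sqrt N * y ^ (1 / 2 : ℝ) : ℝ) : ℂ) * ∑ j : ZMod N, χ j *
        ((cosKernel (((j.val : ℝ) / N : ℝ) : UnitAddCircle) (y / N) : ℝ) : ℂ) := by
    rw [Finset.mul_sum]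
    refine Finset.sum_congr rfl fun j _ => ?_
    push_cast
    ring
  rw [h6, ← h4]
  push_cast
  ring

/-- the functional equation, odd case -/
theorem fe_odd (N : ℕ) [NeZero N] (χ : DirichletCharacter ℂ N) (hχ : χ.IsPrimitive) (y : ℝ)
    (hy : 0 < y) (T T' : ℂ)
    (hT : HasSum (fun n : ℤ => χ (n : ZMod N) *
      ((n * Real.exp (-(Real.pi * n ^ 2 * y / N)) : ℝ) : ℂ)) T)
    (hT' : HasSum (fun n : ℤ => χ (n : ZMod N) *
      ((n * Real.exp (-(Real.pi * n ^ 2 * (1 / y) / N)) : ℝ) : ℂ)) T') :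
    T' = -I * gaussSum χ ZMod.stdAddChar / (Real.sqrt N : ℂ) * ((y ^ (3 / 2 : ℝ) : ℝ) : ℂ) *
      (starRingEnd ℂ) T := by
  have hN : (0 : ℝ) < N := by exact_mod_cast NeZero.pos N
  have h1 := hT'.unique (odd_side N χ (1 / y) (by positivity))
  have h2 := sin_side N χ hχ (y / N) (by positivity)
  have h3 : HasSum (fun n : ℤ => -I * n * (χ⁻¹ (n : ZMod N) *
      gaussSum χ (ZMod.stdAddChar : AddChar (ZMod N) ℂ)) *
      ((Real.exp (-Real.pi * n ^ 2 * (y / N)) : ℝ) : ℂ))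
      (-I * gaussSum χ (ZMod.stdAddChar : AddChar (ZMod N) ℂ) * (starRingEnd ℂ) T) := by
    have h4 := (hasSum_conj'.2 hT).mul_left
      (-I * gaussSum χ (ZMod.stdAddChar : AddChar (ZMod N) ℂ))
    refine h4.congr_fun ?_
    intro n
    have h5 : χ⁻¹ (n : ZMod N) = (starRingEnd ℂ) (χ (n : ZMod N)) :=
      (MulChar.star_apply' χ (n : ZMod N)).symm
    rw [h5, map_mul, conj_ofReal]
    have h6 : -Real.pi * (n : ℝ) ^ 2 * (y / N) = -(Real.pi * n ^ 2 * y / N) := by ring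
    rw [h6]
    push_cast
    ring
  have h4 := h3.unique h2
  have h5 : ∀ j : ZMod N, (N : ℝ) * oddKernel (((j.val : ℝ) / N : ℝ) : UnitAddCircle)
      (N * (1 / y)) = (1 / Real.sqrt N * y ^ (3 / 2 : ℝ)) *
        sinKernel (((j.val : ℝ) / N : ℝ) : UnitAddCircle) (y / N) := by
    intro j
    rw [oddKernel_functional_equation]
    have h6 : 1 / ((N : ℝ) * (1 / y)) = y / N := by
      field_simp
    have h7 : (N : ℝ) * (1 / ((N : ℝ) * (1 / y)) ^ (3 / 2 : ℝ)) =
        1 / Real.sqrt N * y ^ (3 / 2 : ℝ) := by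
      rw [Real.mul_rpow hN.le (by positivity), one_div y, Real.inv_rpow hy.le,
        Real.sqrt_eq_rpow]
      have h8 : (N : ℝ) ^ (3 / 2 : ℝ) = N * (N : ℝ) ^ (1 / 2 : ℝ) := by
        rw [← Real.rpow_one_add' hN.le (by norm_num)]
        norm_num
      rw [h8]
      have h9 : 0 < (N : ℝ) ^ (1 / 2 : ℝ) := by positivity
      have h10 : 0 < y ^ (3 / 2 : ℝ) := by positivity
      field_simp
    rw [h6, ← mul_assoc, h7]
  rw [h1]
  simp_rw [h5]
  have h6 : ∑ j : ZMod N, χ j * (((1 / Real.sqrt N * y ^ (3 / 2 : ℝ)) *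
      sinKernel (((j.val : ℝ) / N : ℝ) : UnitAddCircle) (y / N) : ℝ) : ℂ) =
      ((1 / Real.sqrt N * y ^ (3 / 2 : ℝ) : ℝ) : ℂ) * ∑ j : ZMod N, χ j *
        ((sinKernel (((j.val : ℝ) / N : ℝ) : UnitAddCircle) (y / N) : ℝ) : ℂ) := by
    rw [Finset.mul_sum]
    refine Finset.sum_congr rfl fun j _ => ?_
    push_cast
    ring
  rw [h6, ← h4]
  push_cast
  ring

/-- from `ℤ` to `ℕ` -/
theorem half (f : ℤ → ℂ) (hf : ∀ n, f (-n) = f n) (h0 : f 0 = 0) (T : ℂ) (hT : HasSum f T) :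
    HasSum (fun m : ℕ => f ((m : ℤ) + 1)) (T / 2) := by
  have hinj : Function.Injective (fun m : ℕ => (m : ℤ) + 1) := by
    intro a b hab
    simp only at hab
    omega
  have h1 : Summable (fun m : ℕ => f ((m : ℤ) + 1)) := hT.summable.comp_injective hinj
  have h2 := h1.hasSum
  have h3 : HasSum (fun n : ℕ => f (-((n : ℤ) + 1))) (∑' m : ℕ, f ((m : ℤ) + 1)) := by
    refine h2.congr_fun fun n => ?_
    rw [hf]
  have h4 := HasSum.of_add_one_of_neg_add_one h2 h3
  have h5 := h4.unique hT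
  rw [h0, add_zero] at h5
  have h6 : (∑' m : ℕ, f ((m : ℤ) + 1)) = T / 2 := by
    rw [← h5]
    ring
  rw [← h6]
  exact h2

theorem phi_sum (N : ℕ) [NeZero N] (χ : DirichletCharacter ℂ N) (hN : 1 < N) (y : ℝ)
    (hy : 0 < y) (hE : χ.Even) : ∃ T : ℂ,
    HasSum (fun n : ℤ => χ (n : ZMod N) *
      ((Real.exp (-(Real.pi * n ^ 2 * y / N)) : ℝ) : ℂ)) T ∧
    HasSum (fun m : ℕ => (dch N χ).b (m + 1) *
      ((Real.exp (-(2 * Real.pi * ((m + 1 : ℕ) : ℝ) ^ (dch N χ).p * y / (dch N χ).h)) : ℝ) : ℂ))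
      ((dch N χ).φ y) ∧ (dch N χ).φ y = T / 2 := by
  have h1 := even_side N χ y hy
  obtain ⟨T, hT⟩ : ∃ T, T = ∑ j : ZMod N, χ j *
        ((evenKernel (((j.val : ℝ) / N : ℝ) : UnitAddCircle) (N * y) : ℝ) : ℂ) := ⟨_, rfl⟩
  rw [← hT] at h1
  have h2 := half _ (fun n => by
    push_cast
    rw [hE.eval_neg, neg_sq]) (by
    rw [Int.cast_zero, DirichletCharacter.map_zero' χ hN.ne', zero_mul]) T h1
  have h3 : HasSum (fun m : ℕ => (dch N χ).b (m + 1) *
      ((Real.exp (-(2 * Real.pi * ((m + 1 : ℕ) : ℝ) ^ (dch N χ).p * y / (dch N χ).h)) : ℝ) : ℂ))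
      (T / 2) := by
    refine h2.congr_fun fun m => ?_
    unfold dch
    simp only
    rw [if_pos hE, one_mul]
    have h4 : -(2 * Real.pi * ((m + 1 : ℕ) : ℝ) ^ 2 * y / (2 * (N : ℝ))) =
        -(Real.pi * (((m : ℤ) + 1 : ℤ) : ℝ) ^ 2 * y / N) := by
      push_cast
      rw [mul_assoc, mul_assoc, mul_div_mul_left _ _ two_ne_zero, ← mul_assoc]
    rw [h4]
    push_cast
    rfl
  have h4 : (dch N χ).φ y = ∑' m : ℕ, (dch N χ).b (m + 1) *
      ((Real.exp (-(2 * Real.pi * ((m + 1 : ℕ) : ℝ) ^ (dch N χ).p * y / (dch N χ).h)) : ℝ) : ℂ) :=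
    rfl
  rw [h3.tsum_eq] at h4
  exact ⟨T, h1, h4 ▸ h3, h4⟩

theorem phi_sum' (N : ℕ) [NeZero N] (χ : DirichletCharacter ℂ N) (hN : 1 < N) (y : ℝ)
    (hy : 0 < y) (hE : χ.Odd) (hE' : ¬ χ.Even) : ∃ T : ℂ,
    HasSum (fun n : ℤ => χ (n : ZMod N) *
      ((n * Real.exp (-(Real.pi * n ^ 2 * y / N)) : ℝ) : ℂ)) T ∧
    HasSum (fun m : ℕ => (dch N χ).b (m + 1) *
      ((Real.exp (-(2 * Real.pi * ((m + 1 : ℕ) : ℝ) ^ (dch N χ).p * y / (dch N χ).h)) : ℝ) : ℂ))
      ((dch N χ).φ y) ∧ (dch N χ).φ y = T / 2 := by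
  have h1 := odd_side N χ y hy
  obtain ⟨T, hT⟩ : ∃ T, T = ∑ j : ZMod N, χ j *
        ((N * oddKernel (((j.val : ℝ) / N : ℝ) : UnitAddCircle) (N * y) : ℝ) : ℂ) := ⟨_, rfl⟩
  rw [← hT] at h1
  have h2 := half _ (fun n => by
    push_cast
    rw [hE.eval_neg, neg_sq]
    ring) (by
    rw [Int.cast_zero, DirichletCharacter.map_zero' χ hN.ne', zero_mul]) T h1
  have h3 : HasSum (fun m : ℕ => (dch N χ).b (m + 1) *
      ((Real.exp (-(2 * Real.pi * ((m + 1 : ℕ) : ℝ) ^ (dch N χ).p * y / (dch N χ).h)) : ℝ) : ℂ))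
      (T / 2) := by
    refine h2.congr_fun fun m => ?_
    unfold dch
    simp only
    rw [if_neg hE']
    have h4 : -(2 * Real.pi * ((m + 1 : ℕ) : ℝ) ^ 2 * y / (2 * (N : ℝ))) =
        -(Real.pi * (((m : ℤ) + 1 : ℤ) : ℝ) ^ 2 * y / N) := by
      push_cast
      rw [mul_assoc, mul_assoc, mul_div_mul_left _ _ two_ne_zero, ← mul_assoc]
    rw [h4]
    push_cast
    ring
  have h4 : (dch N χ).φ y = ∑' m : ℕ, (dch N χ).b (m + 1) *
      ((Real.exp (-(2 * Real.pi * ((m + 1 : ℕ) : ℝ) ^ (dch N χ).p * y / (dch N χ).h)) : ℝ) : ℂ) :=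
    rfl
  rw [h3.tsum_eq] at h4
  exact ⟨T, h1, h4 ▸ h3, h4⟩

theorem norm_eps (N : ℕ) [NeZero N] (χ : DirichletCharacter ℂ N) (hχ : χ.IsPrimitive) :
    ‖gaussSum χ ZMod.stdAddChar / (Real.sqrt N : ℂ)‖ = 1 := by
  have hN : (0 : ℝ) < N := by exact_mod_cast NeZero.pos N
  have h1 := norm_sq_gaussSum hχ
  have h2 : ‖gaussSum χ (ZMod.stdAddChar : AddChar (ZMod N) ℂ)‖ = Real.sqrt N := by
    rw [← h1, Real.sqrt_sq (norm_nonneg _)]
  rw [norm_div, h2, Complex.norm_real, Real.norm_eq_abs, abs_of_nonneg (Real.sqrt_nonneg _)]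
  exact div_self (Real.sqrt_ne_zero'.2 hN)

end Dch

theorem dchS : SDch := by
  intro N _ χ hN hχ
  have hN0 : (0 : ℝ) < N := by
    have : 0 < N := by omega
    exact_mod_cast this
  by_cases hE : χ.Even
  · have hk : (dch N χ).k = 1 / 2 := if_pos hE
    have hβ : (dch N χ).β = 0 := if_pos hE
    have hε : (dch N χ).ε = gaussSum χ ZMod.stdAddChar / (Real.sqrt N : ℂ) := if_pos hE
    have hb : ∀ m, (dch N χ).b m = χ (m : ZMod N) := fun m => by
      unfold dch
      simp only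
      rw [if_pos hE, one_mul]
    exact
      { k_pos := by rw [hk]; norm_num
        h_pos := by
          show (0 : ℝ) < 2 * N
          positivity
        p_pos := by
          show 1 ≤ 2
          norm_num
        β_nonneg := hβ.ge
        B_one := le_refl (1 : ℝ)
        b_one := by rw [hb, Nat.cast_one, map_one]
        b_le := by
          intro m _
          rw [hb, hβ, Real.rpow_zero, mul_one]
          exact DirichletCharacter.norm_le_one χ _
        φ_sum := by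
          intro y hy
          obtain ⟨T, _, h2, _⟩ := Dch.phi_sum N χ hN y hy hE
          exact h2
        ε_norm := by
          rw [hε]
          exact Dch.norm_eps N χ hχ
        φ_inv := by
          intro y hy
          obtain ⟨T, h1, _, h3⟩ := Dch.phi_sum N χ hN y hy hE
          obtain ⟨T', h1', _, h3'⟩ := Dch.phi_sum N χ hN (1 / y) (by positivity) hE
          rw [h3, h3', hε, hk, Dch.fe_even N χ hχ y hy T T' h1 h1', map_div₀]
          have h4 : (starRingEnd ℂ) 2 = 2 := Complex.conj_ofNat 2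
          rw [h4]
          ring }
  · have hO : χ.Odd := χ.even_or_odd.resolve_left hE
    have hk : (dch N χ).k = 3 / 2 := if_neg hE
    have hβ : (dch N χ).β = 1 := if_neg hE
    have hε : (dch N χ).ε = -I * gaussSum χ ZMod.stdAddChar / (Real.sqrt N : ℂ) := if_neg hE
    have hb : ∀ m, (dch N χ).b m = m * χ (m : ZMod N) := fun m => by
      unfold dch
      simp only
      rw [if_neg hE]
    exact
      { k_pos := by rw [hk]; norm_num
        h_pos := by
          show (0 : ℝ) < 2 * N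
          positivity
        p_pos := by
          show 1 ≤ 2
          norm_num
        β_nonneg := by rw [hβ]; norm_num
        B_one := le_refl (1 : ℝ)
        b_one := by rw [hb, Nat.cast_one, Nat.cast_one, map_one, mul_one]
        b_le := by
          intro m _
          have hB : (dch N χ).B = 1 := rfl
          rw [hb, hβ, hB, Real.rpow_one, one_mul, norm_mul, Complex.norm_natCast]
          have h1 := DirichletCharacter.norm_le_one χ (m : ZMod N)
          have h2 : (0 : ℝ) ≤ m := Nat.cast_nonneg _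
          nlinarith
        φ_sum := by
          intro y hy
          obtain ⟨T, _, h2, _⟩ := Dch.phi_sum' N χ hN y hy hO hE
          exact h2
        ε_norm := by
          rw [hε, mul_div_assoc, norm_mul, Dch.norm_eps N χ hχ, mul_one, norm_neg, norm_I]
        φ_inv := by
          intro y hy
          obtain ⟨T, h1, _, h3⟩ := Dch.phi_sum' N χ hN y hy hO hE
          obtain ⟨T', h1', _, h3'⟩ := Dch.phi_sum' N χ hN (1 / y) (by positivity) hO hE
          rw [h3, h3', hε, hk, Dch.fe_odd N χ hχ y hy T T' h1 h1', map_div₀]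
          have h4 : (starRingEnd ℂ) 2 = 2 := Complex.conj_ofNat 2
          rw [h4]
          ring }

end Pool.Agent.H471R3.GJ
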