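import Pool.Agent.H471R3.GJ.Prod

set_option autoImplicit false

/-!
GJ, task DCHL (helper930): comparison with Mathlib's completed L-function.
-/

namespace Pool.Agent.H471R3.GJ

open Complex Filter Topology Asymptotics Set

namespace DchL

theorem kc_pos (H : Hc) (hH : IsHc H) : 0 < kc H := by
  have h1 := hH.β_nonneg
  have h2 := hH.B_one
  unfold kc
  linarith

theorem phi_eq (H : Hc) (hH : IsHc H) (x : ℝ) (hx : 0 < x) :
    H.φ x = ((kc H * x ^ (-(H.k / 2)) : ℝ) : ℂ) * fc H (kc H * Real.log x) := by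
  have hk := kc_pos H hH
  unfold fc
  have h1 : kc H * Real.log x / kc H = Real.log x := by field_simp
  have h2 : H.k / 2 * (kc H * Real.log x) / kc H = Real.log x * (H.k / 2) := by field_simp
  rw [h1, h2, Real.exp_log hx, Real.exp_mul, Real.exp_log hx, ← mul_assoc, ← ofReal_mul]
  have h3 : kc H * x ^ (-(H.k / 2)) * (1 / kc H * x ^ (H.k / 2)) = 1 := by
    have h4 : x ^ (-(H.k / 2)) * x ^ (H.k / 2) = 1 := by
      rw [← Real.rpow_add hx, neg_add_cancel, Real.rpow_zero]
    calc kc H * x ^ (-(H.k / 2)) * (1 / kc H * x ^ (H.k / 2)) =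
        (kc H * (1 / kc H)) * (x ^ (-(H.k / 2)) * x ^ (H.k / 2)) := by ring
      _ = 1 := by rw [h4, mul_one_div_cancel hk.ne', one_mul]
  rw [h3, ofReal_one, one_mul]

theorem cont (H : Hc) (hH : IsHc H) (h3 : SFc H) : ContinuousOn H.φ (Ioi 0) := by
  have h1 : ContinuousOn (fun x : ℝ => ((kc H * x ^ (-(H.k / 2)) : ℝ) : ℂ) *
      fc H (kc H * Real.log x)) (Ioi 0) := by
    apply ContinuousOn.mul
    · apply continuous_ofReal.comp_continuousOn
      apply ContinuousOn.mul continuousOn_const
      exact ContinuousOn.rpow_const continuousOn_id (fun x hx => Or.inl (ne_of_gt hx))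
    · apply h3.1.comp_continuousOn
      apply ContinuousOn.mul continuousOn_const
      exact Real.continuousOn_log.mono (fun x hx => ne_of_gt hx)
  exact h1.congr fun x hx => phi_eq H hH x hx

theorem top_bd (H : Hc) (hH : IsHc H) (h3 : SFc H) (a : ℝ) :
    H.φ =O[atTop] (fun x : ℝ => x ^ (-a)) := by
  have hk := kc_pos H hH
  obtain ⟨_, _, ⟨C, hC⟩, _⟩ := h3
  have hc : 0 < 2 * Real.pi / H.h := by
    have := hH.h_pos
    positivity
  have h1 : H.φ =O[atTop] (fun x : ℝ => Real.exp (-(2 * Real.pi / H.h) * x)) := by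
    apply IsBigO.of_bound (kc H * C)
    filter_upwards [eventually_ge_atTop 1] with x hx
    have hx0 : 0 < x := by linarith
    rw [phi_eq H hH x hx0, norm_mul, Complex.norm_real, Real.norm_eq_abs, abs_of_nonneg
      (by positivity), Real.norm_eq_abs, abs_of_pos (Real.exp_pos _)]
    have h4 := hC (kc H * Real.log x) (mul_nonneg hk.le (Real.log_nonneg hx))
    have h5 : kc H * Real.log x / kc H = Real.log x := by field_simp
    have h6 : H.k / 2 * (kc H * Real.log x) / kc H = Real.log x * (H.k / 2) := by field_simp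
    rw [h5, h6, Real.exp_log hx0, Real.exp_mul, Real.exp_log hx0] at h4
    have h7 : x ^ (-(H.k / 2)) * x ^ (H.k / 2) = 1 := by
      rw [← Real.rpow_add hx0, neg_add_cancel, Real.rpow_zero]
    calc kc H * x ^ (-(H.k / 2)) * ‖fc H (kc H * Real.log x)‖ ≤
        kc H * x ^ (-(H.k / 2)) * (C * x ^ (H.k / 2) * Real.exp (-(2 * Real.pi / H.h) * x)) :=
          mul_le_mul_of_nonneg_left h4 (by positivity)
      _ = kc H * C * (x ^ (-(H.k / 2)) * x ^ (H.k / 2)) * Real.exp (-(2 * Real.pi / H.h) * x) := by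
          ring
      _ = kc H * C * Real.exp (-(2 * Real.pi / H.h) * x) := by rw [h7, mul_one]
  exact h1.trans (isLittleO_exp_neg_mul_rpow_atTop hc (-a)).isBigO

theorem bot_bd (H : Hc) (hH : IsHc H) (h3 : SFc H) (b : ℝ) :
    H.φ =O[𝓝[>] 0] (fun x : ℝ => x ^ (-b)) := by
  have h1 := (top_bd H hH h3 (H.k - b)).comp_tendsto tendsto_inv_nhdsGT_zero
  obtain ⟨C, hC⟩ := h1.bound
  apply IsBigO.of_bound C
  filter_upwards [hC, self_mem_nhdsWithin] with x hx hx0
  have hx0' : 0 < x := hx0
  have hi : 0 < x⁻¹ := inv_pos.2 hx0'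
  have h2 := hH.φ_inv x⁻¹ hi
  have h4 : 1 / x⁻¹ = x := by rw [one_div, inv_inv]
  rw [h4] at h2
  rw [h2, norm_mul, norm_mul, hH.ε_norm, one_mul, Complex.norm_real, Real.norm_eq_abs,
    abs_of_nonneg (by positivity), Complex.norm_conj]
  simp only [Function.comp_apply] at hx
  rw [Real.norm_eq_abs, abs_of_nonneg (by positivity)] at hx
  rw [Real.norm_eq_abs, abs_of_nonneg (by positivity)]
  calc (x⁻¹) ^ H.k * ‖H.φ x⁻¹‖ ≤ (x⁻¹) ^ H.k * (C * (x⁻¹) ^ (-(H.k - b))) :=
        mul_le_mul_of_nonneg_left hx (by positivity)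
    _ = C * ((x⁻¹) ^ H.k * (x⁻¹) ^ (-(H.k - b))) := by ring
    _ = C * x ^ (-b) := by
        rw [← Real.rpow_add hi]
        have h5 : H.k + -(H.k - b) = b := by ring
        rw [h5, Real.inv_rpow hx0'.le, ← Real.rpow_neg hx0'.le]

theorem diff (H : Hc) (hH : IsHc H) (h3 : SFc H) : Differentiable ℂ (mellin H.φ) := by
  intro s
  exact mellin_differentiableAt_of_isBigO_rpow
    ((cont H hH h3).locallyIntegrableOn measurableSet_Ioi) (top_bd H hH h3 (s.re + 1))
    (lt_add_one _) (bot_bd H hH h3 (s.re - 1)) (sub_one_lt _)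

/-- the Dirichlet series, from `n = 1` -/
theorem lseries (N : ℕ) [NeZero N] (χ : DirichletCharacter ℂ N) (s : ℂ) (hs : 1 < s.re) :
    ∑' m : ℕ, χ ((m + 1 : ℕ) : ZMod N) * ((m + 1 : ℕ) : ℂ) ^ (-s) =
      DirichletCharacter.LFunction χ s := by
  rw [DirichletCharacter.LFunction_eq_LSeries χ hs]
  have hsum := DirichletCharacter.LSeriesSummable_of_one_lt_re χ hs
  unfold LSeries
  have h1 := hsum.tsum_eq_zero_add
  rw [h1, LSeries.term_zero, zero_add]
  refine tsum_congr fun m => ?_
  rw [LSeries.term_of_ne_zero (Nat.succ_ne_zero m), cpow_neg]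
  rfl

theorem gammaR (s : ℂ) : Gammaℝ (2 * s) = (Real.pi : ℂ) ^ (-s) * Complex.Gamma s := by
  rw [Complex.Gammaℝ_def]
  have h1 : -(2 * s) / 2 = -s := by ring
  have h2 : 2 * s / 2 = s := by ring
  rw [h1, h2]

end DchL

open Classical in
theorem dchL (h : SDch) (h1 : ∀ H : Hc, IsHc H → SDirC H) (_h2 : ∀ H : Hc, IsHc H → SMelC H)
    (h3 : ∀ H : Hc, IsHc H → SFc H) : SDchL := by
  intro N _ χ hN hχ
  have hH := h N χ hN hχ
  have hdir := h1 _ hH
  have hdiff := DchL.diff _ hH (h3 _ hH)
  have hN0 : (0 : ℝ) < N := by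
    have : 0 < N := by omega
    exact_mod_cast this
  have hNc : (N : ℂ) ≠ 0 := by
    have : N ≠ 0 := by omega
    exact_mod_cast this
  have hχ1 : χ ≠ 1 := by
    rintro rfl
    unfold DirichletCharacter.IsPrimitive at hχ
    rw [DirichletCharacter.conductor_one] at hχ
    omega
  obtain ⟨g, hg⟩ : ∃ g : ℂ → ℂ, g = fun s => (N : ℂ) ^ s *
    DirichletCharacter.completedLFunction χ (if χ.Even then 2 * s else 2 * s - 1) := ⟨_, rfl⟩
  have hgd : Differentiable ℂ g := by
    rw [hg]
    apply Differentiable.mul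
    · intro s
      exact (differentiableAt_id.const_cpow (Or.inl hNc))
    · apply (DirichletCharacter.differentiable_completedLFunction hχ1).comp
      split_ifs
      · exact (differentiable_const _).mul differentiable_id
      · exact ((differentiable_const _).mul differentiable_id).sub (differentiable_const _)
  -- equality far to the right
  have heq : ∀ s : ℂ, 1 < s.re → mellin (dch N χ).φ s = g s := by
    intro s hs
    have hh : (((dch N χ).h / (2 * Real.pi) : ℝ) : ℂ) ^ s =
        (N : ℂ) ^ s * (Real.pi : ℂ) ^ (-s) := by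
      have h4 : (dch N χ).h / (2 * Real.pi) = N * Real.pi⁻¹ := by
        show 2 * (N : ℝ) / (2 * Real.pi) = N * Real.pi⁻¹
        rw [mul_div_mul_left _ _ two_ne_zero, div_eq_mul_inv]
      rw [h4, ofReal_mul, Complex.mul_cpow_ofReal_nonneg hN0.le (by positivity), ofReal_natCast,
        ofReal_inv, Complex.inv_cpow, ← Complex.cpow_neg]
      rw [Complex.arg_ofReal_of_nonneg Real.pi_pos.le]
      exact Real.pi_pos.ne
    by_cases hE : χ.Even
    · have hb : ∀ m, (dch N χ).b m = χ (m : ZMod N) := fun m => by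
        unfold dch
        simp only
        rw [if_pos hE, one_mul]
      have hβ : (dch N χ).β = 0 := if_pos hE
      have hp : (dch N χ).p = 2 := rfl
      have h4 := hdir s (by linarith) (by
        rw [hβ, hp]
        push_cast
        linarith)
      have h5 : ∑' m : ℕ, (dch N χ).b (m + 1) * ((m + 1 : ℕ) : ℂ) ^ (-((dch N χ).p : ℂ) * s) =
          DirichletCharacter.LFunction χ (2 * s) := by
        rw [← DchL.lseries N χ (2 * s) (by
          rw [mul_re]
          norm_num
          linarith)]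
        refine tsum_congr fun m => ?_
        rw [hb, hp]
        have h6 : -((2 : ℕ) : ℂ) * s = -(2 * s) := by push_cast; ring
        rw [h6]
      rw [h4, h5, hh, DirichletCharacter.LFunction_eq_completed_div_gammaFactor χ (2 * s)
        (Or.inr hN.ne'), hE.gammaFactor_def, DchL.gammaR, hg]
      simp only
      rw [if_pos hE]
      have hG : Complex.Gamma s ≠ 0 := Complex.Gamma_ne_zero_of_re_pos (by linarith)
      have hP : (Real.pi : ℂ) ^ (-s) ≠ 0 := by
        rw [Ne, Complex.cpow_eq_zero_iff]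
        intro h7
        exact Real.pi_pos.ne' (by exact_mod_cast h7.1)
      field_simp
    · have hO : χ.Odd := χ.even_or_odd.resolve_left hE
      have hb : ∀ m, (dch N χ).b m = m * χ (m : ZMod N) := fun m => by
        unfold dch
        simp only
        rw [if_neg hE]
      have hβ : (dch N χ).β = 1 := if_neg hE
      have hp : (dch N χ).p = 2 := rfl
      have h4 := hdir s (by linarith) (by
        rw [hβ, hp]
        push_cast
        linarith)
      have h5 : ∑' m : ℕ, (dch N χ).b (m + 1) * ((m + 1 : ℕ) : ℂ) ^ (-((dch N χ).p : ℂ) * s) =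
          DirichletCharacter.LFunction χ (2 * s - 1) := by
        rw [← DchL.lseries N χ (2 * s - 1) (by
          rw [sub_re, mul_re]
          norm_num
          linarith)]
        refine tsum_congr fun m => ?_
        rw [hb, hp]
        have h6 : -(2 * s - 1) = 1 + -((2 : ℕ) : ℂ) * s := by push_cast; ring
        have h7 : ((m + 1 : ℕ) : ℂ) ≠ 0 := by exact_mod_cast Nat.succ_ne_zero m
        rw [h6, Complex.cpow_add _ _ h7, Complex.cpow_one]
        ring
      have hs1 : 2 * s - 1 + 1 = 2 * s := by ring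
      rw [h4, h5, hh, DirichletCharacter.LFunction_eq_completed_div_gammaFactor χ (2 * s - 1)
        (Or.inr hN.ne'), hO.gammaFactor_def, hs1, DchL.gammaR, hg]
      simp only
      rw [if_neg hE]
      have hG : Complex.Gamma s ≠ 0 := Complex.Gamma_ne_zero_of_re_pos (by linarith)
      have hP : (Real.pi : ℂ) ^ (-s) ≠ 0 := by
        rw [Ne, Complex.cpow_eq_zero_iff]
        intro h7
        exact Real.pi_pos.ne' (by exact_mod_cast h7.1)
      field_simp
  have hall : mellin (dch N χ).φ = g := by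
    apply AnalyticOnNhd.eq_of_eventuallyEq (z₀ := (2 : ℂ))
      (fun z _ => (hdiff.analyticAt z)) (fun z _ => (hgd.analyticAt z))
    have hopen : IsOpen {s : ℂ | 1 < s.re} := isOpen_lt continuous_const Complex.continuous_re
    filter_upwards [hopen.mem_nhds (by
      show (1 : ℝ) < (2 : ℂ).re
      norm_num)] with s hs
    exact heq s hs
  intro s
  rw [hall, hg]

end Pool.Agent.H471R3.GJ
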