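import Pool.Agent.H471R3.GJ.Prod

set_option autoImplicit false

/-!
# The Mellin transform of a Hecke series with complex coefficients (task PDIR)
-/

namespace Pool.Agent.H471R3.GJ

open Complex Filter Topology Polynomial

theorem dirC (H : Hc) (h : IsHc H) : SDirC H := by
  intro s hs hs2
  have hh := h.h_pos
  have hpi := Real.pi_pos
  set q : ℝ := 2 * Real.pi / H.h with hq
  have hq0 : 0 < q := by positivity
  have hx : ∀ i : ℕ, (0 : ℝ) < ((i + 1 : ℕ) : ℝ) := fun i => by positivity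
  have hpos : ∀ i : ℕ, 0 < q * ((i + 1 : ℕ) : ℝ) ^ H.p := fun i => mul_pos hq0 (pow_pos (hx i) _)
  have hF : ∀ t ∈ Set.Ioi (0 : ℝ), HasSum
      (fun i : ℕ => H.b (i + 1) *
        ((Real.exp (-(q * ((i + 1 : ℕ) : ℝ) ^ H.p) * t) : ℝ) : ℂ))
      (H.φ t) := by
    intro t ht
    have h2 := h.φ_sum t ht
    have h3 : (fun i : ℕ => H.b (i + 1) *
        ((Real.exp (-(q * ((i + 1 : ℕ) : ℝ) ^ H.p) * t) : ℝ) : ℂ)) =
        fun m : ℕ => H.b (m + 1) *
          ((Real.exp (-(2 * Real.pi * ((m + 1 : ℕ) : ℝ) ^ H.p * t / H.h)) : ℝ) : ℂ) := by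
      funext i
      congr 3
      rw [hq]
      ring
    rw [h3]
    exact h2
  have hsum : Summable fun i : ℕ => ‖H.b (i + 1)‖ /
      (q * ((i + 1 : ℕ) : ℝ) ^ H.p) ^ s.re := by
    have h1 : Summable fun i : ℕ => H.B / q ^ s.re * (((i + 1 : ℕ) : ℝ)) ^ (H.β - H.p * s.re) := by
      apply Summable.mul_left
      have h2 : Summable fun i : ℕ => ((i : ℕ) : ℝ) ^ (H.β - H.p * s.re) :=
        Real.summable_nat_rpow.2 (by linarith)
      exact (summable_nat_add_iff 1).2 h2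
    refine Summable.of_nonneg_of_le (fun i => ?_) (fun i => ?_) h1
    · have := hpos i
      positivity
    · have h3 := h.b_le (i + 1) (by omega)
      rw [Real.mul_rpow hq0.le (pow_nonneg (hx i).le _), ← Real.rpow_natCast,
        ← Real.rpow_mul (hx i).le, Real.rpow_sub (hx i)]
      have h4 : 0 < q ^ s.re := Real.rpow_pos_of_pos hq0 _
      have h5 : 0 < ((i + 1 : ℕ) : ℝ) ^ ((H.p : ℝ) * s.re) := Real.rpow_pos_of_pos (hx i) _
      rw [div_le_iff₀ (mul_pos h4 h5)]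
      calc ‖H.b (i + 1)‖ ≤ H.B * ((i + 1 : ℕ) : ℝ) ^ H.β := h3
        _ = _ := by field_simp
  have key := hasSum_mellin (a := fun i : ℕ => H.b (i + 1))
    (p := fun i : ℕ => q * ((i + 1 : ℕ) : ℝ) ^ H.p) (F := H.φ)
    (s := s) (fun i => Or.inr (hpos i)) hs hF hsum
  rw [← key.tsum_eq, ← tsum_mul_left]
  refine tsum_congr fun i => ?_
  have e1 : ((q * ((i + 1 : ℕ) : ℝ) ^ H.p : ℝ) : ℂ) ^ s =
      (q : ℂ) ^ s * ((i + 1 : ℕ) : ℂ) ^ ((H.p : ℂ) * s) := by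
    rw [Complex.ofReal_mul, Complex.mul_cpow_ofReal_nonneg hq0.le (pow_nonneg (hx i).le _),
      Complex.natCast_cpow_natCast_mul]
    push_cast
    rfl
  have e2 : ((H.h / (2 * Real.pi) : ℝ) : ℂ) ^ s = ((q : ℂ) ^ s)⁻¹ := by
    have : (H.h / (2 * Real.pi) : ℝ) = q⁻¹ := by rw [hq, inv_div]
    rw [this, Complex.ofReal_inv, Complex.inv_cpow]
    rw [Complex.arg_ofReal_of_nonneg hq0.le]
    exact hpi.ne
  have e3 : ((i + 1 : ℕ) : ℂ) ^ (-(H.p : ℂ) * s) = (((i + 1 : ℕ) : ℂ) ^ ((H.p : ℂ) * s))⁻¹ := by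
    rw [neg_mul, Complex.cpow_neg]
  rw [e1, e2, e3, div_eq_mul_inv, mul_inv]
  ring

end Pool.Agent.H471R3.GJ
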