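import Pool.Agent.H471R3.GJ.Prod
import Pool.Agent.H471R3.GJ.HKer

set_option autoImplicit false

/-!
# Series with complex coefficients: properties of the kernel `fc`
-/

namespace Pool.Agent.H471R3.GJ

open Complex Filter Topology MeasureTheory

namespace PFc

/-- The terms are bounded for `y ≥ y0`. -/
theorem term_le (H : Hc) (h : IsHc H) (y0 y : ℝ) (hy0 : 0 < y0) (hy : y0 ≤ y) (m : ℕ) :
    ‖H.b (m + 1) * ((Real.exp (-(2 * Real.pi * ((m + 1 : ℕ) : ℝ) ^ H.p * y / H.h)) : ℝ) : ℂ)‖ ≤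
      H.B * (((m + 1 : ℕ) : ℝ) ^ H.β *
        Real.exp (-(2 * Real.pi * y0 / H.h * ((m + 1 : ℕ) : ℝ)))) := by
  have hh := h.h_pos
  rw [norm_mul, Complex.norm_real, Real.norm_eq_abs, abs_of_pos (Real.exp_pos _)]
  have h1 := h.b_le (m + 1) (by omega)
  have h2 : Real.exp (-(2 * Real.pi * ((m + 1 : ℕ) : ℝ) ^ H.p * y / H.h)) ≤
      Real.exp (-(2 * Real.pi * y0 / H.h * ((m + 1 : ℕ) : ℝ))) := by
    apply Real.exp_le_exp.mpr
    rw [neg_le_neg_iff]
    have h3 := HKer.pow_ge H.p m h.p_pos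
    have h4 : ((m + 1 : ℕ) : ℝ) * y0 ≤ ((m + 1 : ℕ) : ℝ) ^ H.p * y := by
      apply mul_le_mul h3 hy hy0.le
      positivity
    calc 2 * Real.pi * y0 / H.h * ((m + 1 : ℕ) : ℝ)
        = 2 * Real.pi / H.h * (((m + 1 : ℕ) : ℝ) * y0) := by ring
      _ ≤ 2 * Real.pi / H.h * (((m + 1 : ℕ) : ℝ) ^ H.p * y) := by
          apply mul_le_mul_of_nonneg_left h4
          positivity
      _ = _ := by ring
  calc ‖H.b (m + 1)‖ * Real.exp (-(2 * Real.pi * ((m + 1 : ℕ) : ℝ) ^ H.p * y / H.h))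
      ≤ (H.B * ((m + 1 : ℕ) : ℝ) ^ H.β) *
        Real.exp (-(2 * Real.pi * y0 / H.h * ((m + 1 : ℕ) : ℝ))) := by
        apply mul_le_mul h1 h2 (Real.exp_pos _).le
        have := h.B_one
        positivity
    _ = _ := by ring

theorem sumB (H : Hc) (h : IsHc H) (y0 : ℝ) (hy0 : 0 < y0) :
    Summable (fun m : ℕ => H.B * (((m + 1 : ℕ) : ℝ) ^ H.β *
        Real.exp (-(2 * Real.pi * y0 / H.h * ((m + 1 : ℕ) : ℝ))))) := by
  have hh := h.h_pos
  exact (HKer.sm (2 * Real.pi * y0 / H.h) H.β (by positivity) h.β_nonneg).mul_left H.B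

theorem cont (H : Hc) (h : IsHc H) : ContinuousOn H.φ (Set.Ioi 0) := by
  intro y hy
  have hy' : (0 : ℝ) < y := hy
  have h1 : ContinuousOn (fun y : ℝ => ∑' m : ℕ, H.b (m + 1) *
      ((Real.exp (-(2 * Real.pi * ((m + 1 : ℕ) : ℝ) ^ H.p * y / H.h)) : ℝ) : ℂ)) (Set.Ici (y / 2)) := by
    apply continuousOn_tsum (u := fun m : ℕ => H.B * (((m + 1 : ℕ) : ℝ) ^ H.β *
        Real.exp (-(2 * Real.pi * (y / 2) / H.h * ((m + 1 : ℕ) : ℝ)))))
    · intro m
      apply Continuous.continuousOn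
      fun_prop
    · exact sumB H h (y / 2) (by linarith)
    · intro m x hx
      exact term_le H h (y / 2) x (by linarith) hx m
  have h2 : ContinuousOn H.φ (Set.Ici (y / 2)) := by
    apply h1.congr
    intro x hx
    have hx' : y / 2 ≤ x := hx
    exact (h.φ_sum x (by linarith)).tsum_eq.symm
  have h3 : ContinuousAt H.φ y := h2.continuousAt (Ici_mem_nhds (by linarith))
  exact h3.continuousWithinAt

/-- The tail after the first term. -/
theorem tail_le (H : Hc) (h : IsHc H) : ∃ C : ℝ, 0 < C ∧ ∀ y : ℝ, 1 ≤ y →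
    ‖H.φ y - ((Real.exp (-(2 * Real.pi * y / H.h)) : ℝ) : ℂ)‖ ≤ C * Real.exp (-(2 * (2 * Real.pi * y / H.h))) := by
  have hh := h.h_pos
  set c : ℝ := 2 * Real.pi / H.h with hc
  have hcp : 0 < c := by positivity
  have hS := HKer.sm c H.β hcp h.β_nonneg
  have hS2 : Summable (fun m : ℕ => ((m + 1 + 1 : ℕ) : ℝ) ^ H.β *
      Real.exp (-(c * ((m + 1 + 1 : ℕ) : ℝ)))) := (summable_nat_add_iff 1).mpr hS
  have hS3 := (hS2.mul_left (H.B * Real.exp (2 * c)))
  refine ⟨(∑' m : ℕ, H.B * Real.exp (2 * c) * (((m + 1 + 1 : ℕ) : ℝ) ^ H.β *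
      Real.exp (-(c * ((m + 1 + 1 : ℕ) : ℝ))))) + 1, ?_, fun y hy => ?_⟩
  · have : 0 ≤ ∑' m : ℕ, H.B * Real.exp (2 * c) * (((m + 1 + 1 : ℕ) : ℝ) ^ H.β *
      Real.exp (-(c * ((m + 1 + 1 : ℕ) : ℝ)))) := by
      apply tsum_nonneg
      intro m
      have := h.B_one
      positivity
    linarith
  · have hy0 : 0 < y := by linarith
    have h1 := h.φ_sum y hy0
    have h2 := (hasSum_nat_add_iff' 1).mpr h1
    rw [Finset.sum_range_one] at h2
    have h3 : H.b (0 + 1) * ((Real.exp (-(2 * Real.pi * ((0 + 1 : ℕ) : ℝ) ^ H.p * y / H.h)) : ℝ) : ℂ) =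
        ((Real.exp (-(2 * Real.pi * y / H.h)) : ℝ) : ℂ) := by
      rw [zero_add, h.b_one, one_mul]
      rw [Nat.cast_one, one_pow, mul_one]
    rw [h3] at h2
    have h4 : ∀ m : ℕ, ‖H.b (m + 1 + 1) *
        ((Real.exp (-(2 * Real.pi * ((m + 1 + 1 : ℕ) : ℝ) ^ H.p * y / H.h)) : ℝ) : ℂ)‖ ≤
        (H.B * Real.exp (2 * c) * (((m + 1 + 1 : ℕ) : ℝ) ^ H.β *
      Real.exp (-(c * ((m + 1 + 1 : ℕ) : ℝ))))) * Real.exp (-(2 * (2 * Real.pi * y / H.h))) := by
      intro m
      rw [norm_mul, Complex.norm_real, Real.norm_eq_abs, abs_of_pos (Real.exp_pos _)]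
      have h5 := h.b_le (m + 1 + 1) (by omega)
      have h6 : Real.exp (-(2 * Real.pi * ((m + 1 + 1 : ℕ) : ℝ) ^ H.p * y / H.h)) ≤
          Real.exp (2 * c) * Real.exp (-(c * ((m + 1 + 1 : ℕ) : ℝ))) *
            Real.exp (-(2 * (2 * Real.pi * y / H.h))) := by
        rw [← Real.exp_add, ← Real.exp_add]
        apply Real.exp_le_exp.mpr
        have h7 := HKer.pow_ge H.p (m + 1) h.p_pos
        have h8 : (2 : ℝ) ≤ ((m + 1 + 1 : ℕ) : ℝ) := by
          push_cast
          have : (0 : ℝ) ≤ m := Nat.cast_nonneg m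
          linarith
        set M : ℝ := ((m + 1 + 1 : ℕ) : ℝ) with hM
        have h9 : M * y ≤ M ^ H.p * y := mul_le_mul_of_nonneg_right h7 hy0.le
        have h10 : 0 ≤ (M - 2) * (y - 1) := mul_nonneg (by linarith) (by linarith)
        have h11 : c * (M + 2 * y - 2) ≤ c * (M ^ H.p * y) := by
          apply mul_le_mul_of_nonneg_left _ hcp.le
          nlinarith
        have h12 : 2 * Real.pi * M ^ H.p * y / H.h = c * (M ^ H.p * y) := by
          rw [hc]; ring
        have h13 : 2 * Real.pi * y / H.h = c * y := by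
          rw [hc]; ring
        rw [h12, h13]
        nlinarith
      calc ‖H.b (m + 1 + 1)‖ * Real.exp (-(2 * Real.pi * ((m + 1 + 1 : ℕ) : ℝ) ^ H.p * y / H.h))
          ≤ (H.B * ((m + 1 + 1 : ℕ) : ℝ) ^ H.β) * (Real.exp (2 * c) *
            Real.exp (-(c * ((m + 1 + 1 : ℕ) : ℝ))) *
            Real.exp (-(2 * (2 * Real.pi * y / H.h)))) := by
            apply mul_le_mul h5 h6 (Real.exp_pos _).le
            have := h.B_one
            positivity
        _ = _ := by ring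
    have h14 := hS3.mul_right (Real.exp (-(2 * (2 * Real.pi * y / H.h))))
    have h15 := h2.tsum_eq
    rw [← h15]
    have h16 : Summable (fun m : ℕ => ‖H.b (m + 1 + 1) *
        ((Real.exp (-(2 * Real.pi * ((m + 1 + 1 : ℕ) : ℝ) ^ H.p * y / H.h)) : ℝ) : ℂ)‖) := by
      apply Summable.of_nonneg_of_le (fun m => norm_nonneg _) (fun m => ?_) h14
      exact h4 m
    calc ‖∑' m : ℕ, H.b (m + 1 + 1) *
        ((Real.exp (-(2 * Real.pi * ((m + 1 + 1 : ℕ) : ℝ) ^ H.p * y / H.h)) : ℝ) : ℂ)‖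
        ≤ ∑' m : ℕ, ‖H.b (m + 1 + 1) *
        ((Real.exp (-(2 * Real.pi * ((m + 1 + 1 : ℕ) : ℝ) ^ H.p * y / H.h)) : ℝ) : ℂ)‖ := norm_tsum_le_tsum_norm h16
      _ ≤ ∑' m : ℕ, (H.B * Real.exp (2 * c) * (((m + 1 + 1 : ℕ) : ℝ) ^ H.β *
      Real.exp (-(c * ((m + 1 + 1 : ℕ) : ℝ))))) * Real.exp (-(2 * (2 * Real.pi * y / H.h))) :=
          h16.tsum_le_tsum (fun m => h4 m) h14
      _ = (∑' m : ℕ, (H.B * Real.exp (2 * c) * (((m + 1 + 1 : ℕ) : ℝ) ^ H.β *
      Real.exp (-(c * ((m + 1 + 1 : ℕ) : ℝ)))))) * Real.exp (-(2 * (2 * Real.pi * y / H.h))) :=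
          tsum_mul_right
      _ ≤ _ := by
          apply mul_le_mul_of_nonneg_right _ (Real.exp_pos _).le
          linarith

theorem kc_pos (H : Hc) (h : IsHc H) : 0 < kc H := by
  have h1 := h.β_nonneg
  have h2 := h.B_one
  unfold kc
  linarith

theorem symm (H : Hc) (h : IsHc H) (t : ℝ) : fc H (-t) = H.ε * (starRingEnd ℂ) (fc H t) := by
  unfold fc
  have h2 := h.φ_inv (Real.exp (t / kc H)) (Real.exp_pos _)
  have h3 : Real.exp (-t / kc H) = 1 / Real.exp (t / kc H) := by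
    rw [neg_div, Real.exp_neg, one_div]
  rw [h3, h2, ← Real.exp_mul, map_mul, Complex.conj_ofReal]
  have h4 : Real.exp (H.k / 2 * -t / kc H) * Real.exp (t / kc H * H.k) =
      Real.exp (H.k / 2 * t / kc H) := by
    rw [← Real.exp_add]
    congr 1
    ring
  have h5 : ((Real.exp (H.k / 2 * -t / kc H) : ℝ) : ℂ) * ((Real.exp (t / kc H * H.k) : ℝ) : ℂ) =
      ((Real.exp (H.k / 2 * t / kc H) : ℝ) : ℂ) := by
    rw [← Complex.ofReal_mul, h4]
  rw [Complex.ofReal_mul, Complex.ofReal_mul]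
  linear_combination (((1 / kc H : ℝ) : ℂ) * H.ε *
    (starRingEnd ℂ) (H.φ (Real.exp (t / kc H)))) * h5

end PFc

theorem fcS (H : Hc) (h : IsHc H) : SFc H := by
  obtain ⟨C, hC, hT⟩ := PFc.tail_le H h
  have hh := h.h_pos
  have hk := PFc.kc_pos H h
  have hE : ∀ t : ℝ, Real.exp (-(2 * Real.pi * Real.exp (t / kc H) / H.h)) =
      Real.exp (-(2 * Real.pi / H.h) * Real.exp (t / kc H)) := by
    intro t
    congr 1
    ring
  have hn : ∀ t : ℝ, ‖((1 / kc H * Real.exp (H.k / 2 * t / kc H) : ℝ) : ℂ)‖ =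
      1 / kc H * Real.exp (H.k / 2 * t / kc H) := by
    intro t
    rw [Complex.norm_real, Real.norm_eq_abs, abs_of_pos (by positivity)]
  refine ⟨?_, PFc.symm H h, ⟨1 / kc H * (1 + C), fun t ht => ?_⟩, ?_⟩
  · unfold fc
    have h2 : Continuous (fun t : ℝ => H.φ (Real.exp (t / kc H))) := by
      refine (PFc.cont H h).comp_continuous (by fun_prop) (fun t => ?_)
      exact Real.exp_pos _
    fun_prop
  · have hu : 0 ≤ t / kc H := div_nonneg ht hk.le
    have hy : 1 ≤ Real.exp (t / kc H) := Real.one_le_exp hu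
    have h1 := hT _ hy
    have h2 : Real.exp (-(2 * (2 * Real.pi * Real.exp (t / kc H) / H.h))) ≤
        Real.exp (-(2 * Real.pi * Real.exp (t / kc H) / H.h)) := by
      apply Real.exp_le_exp.mpr
      have : 0 ≤ 2 * Real.pi * Real.exp (t / kc H) / H.h := by positivity
      linarith
    have h3 : ‖H.φ (Real.exp (t / kc H))‖ ≤
        (1 + C) * Real.exp (-(2 * Real.pi * Real.exp (t / kc H) / H.h)) := by
      have h4 := norm_sub_norm_le (H.φ (Real.exp (t / kc H)))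
        ((Real.exp (-(2 * Real.pi * Real.exp (t / kc H) / H.h)) : ℝ) : ℂ)
      rw [Complex.norm_real, Real.norm_eq_abs, abs_of_pos (Real.exp_pos _)] at h4
      have h5 := mul_le_mul_of_nonneg_left h2 hC.le
      linarith
    unfold fc
    rw [norm_mul, hn, ← hE]
    calc _ ≤ 1 / kc H * Real.exp (H.k / 2 * t / kc H) *
        ((1 + C) * Real.exp (-(2 * Real.pi * Real.exp (t / kc H) / H.h))) :=
          mul_le_mul_of_nonneg_left h3 (by positivity)
      _ = _ := by ring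
  · have h6 : Tendsto (fun y : ℝ => Real.exp (-(2 * Real.pi / H.h * y))) atTop (𝓝 0) := by
      apply Real.tendsto_exp_neg_atTop_nhds_zero.comp
      exact Tendsto.const_mul_atTop (by positivity) tendsto_id
    have h7 : ∀ᶠ y : ℝ in atTop, Real.exp (-(2 * Real.pi / H.h * y)) < 1 / (10 * C) :=
      h6.eventually_lt_const (by positivity)
    obtain ⟨Y, hY⟩ := eventually_atTop.mp h7
    have hm : 0 < max Y 1 := lt_of_lt_of_le one_pos (le_max_right _ _)
    refine ⟨kc H * Real.log (max Y 1), fun t ht => ?_⟩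
    have h2 : max Y 1 ≤ Real.exp (t / kc H) := by
      rw [← Real.log_le_iff_le_exp hm, le_div_iff₀ hk]
      linarith
    have h8 := hY _ (le_trans (le_max_left _ _) h2)
    have h9 := hT _ (le_trans (le_max_right _ _) h2)
    have h11 : Real.exp (-(2 * (2 * Real.pi * Real.exp (t / kc H) / H.h))) =
        Real.exp (-(2 * Real.pi * Real.exp (t / kc H) / H.h)) *
          Real.exp (-(2 * Real.pi / H.h * Real.exp (t / kc H))) := by
      rw [← Real.exp_add]
      congr 1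
      ring
    have h12 := Real.exp_pos (-(2 * Real.pi * Real.exp (t / kc H) / H.h))
    have h13 : C * Real.exp (-(2 * Real.pi / H.h * Real.exp (t / kc H))) ≤ 1 / 10 := by
      rw [lt_div_iff₀ (by positivity)] at h8
      linarith
    have h14 : ‖H.φ (Real.exp (t / kc H)) -
        ((Real.exp (-(2 * Real.pi * Real.exp (t / kc H) / H.h)) : ℝ) : ℂ)‖ ≤
        1 / 10 * Real.exp (-(2 * Real.pi * Real.exp (t / kc H) / H.h)) := by
      rw [h11] at h9
      have h15 := mul_le_mul_of_nonneg_left h13 h12.le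
      linarith
    have h16 : fc H t - ((1 / kc H * Real.exp (H.k / 2 * t / kc H) *
        Real.exp (-(2 * Real.pi / H.h) * Real.exp (t / kc H)) : ℝ) : ℂ) =
        ((1 / kc H * Real.exp (H.k / 2 * t / kc H) : ℝ) : ℂ) * (H.φ (Real.exp (t / kc H)) -
        ((Real.exp (-(2 * Real.pi * Real.exp (t / kc H) / H.h)) : ℝ) : ℂ)) := by
      unfold fc
      rw [← hE, Complex.ofReal_mul (1 / kc H * Real.exp (H.k / 2 * t / kc H))]
      ring
    rw [h16, norm_mul, hn, ← hE]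
    calc _ ≤ 1 / kc H * Real.exp (H.k / 2 * t / kc H) *
        (1 / 10 * Real.exp (-(2 * Real.pi * Real.exp (t / kc H) / H.h))) :=
          mul_le_mul_of_nonneg_left h14 (by positivity)
      _ = _ := by ring

end Pool.Agent.H471R3.GJ
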