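import Pool.Agent.H471R3.GJ.Prod

set_option autoImplicit false

/-!
# Assembly: the product `Λ Λ^*` gives standing data (task PISL)
-/

namespace Pool.Agent.H471R3.GJ

open Complex Filter Topology Polynomial

theorem isLC (H : Hc) (h : IsHc H) (h1 : SPhiC H) (h2 : SLogC H) (h3 : SXXC H) : SIsLC H := by
  have hp : (1 : ℝ) ≤ (H.p : ℝ) := by exact_mod_cast h.p_pos
  have hB := h.B_one
  have hβ := h.β_nonneg
  have hkp : 0 < kc H := by unfold kc; linarith
  have hκ : 0 < (H.p : ℝ) * kc H := mul_pos (by linarith) hkp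
  have hB2 : (1 : ℝ) ≤ H.B ^ 2 := by nlinarith
  obtain ⟨c1, c2, c3, c4⟩ := h1
  exact {
    κ_pos := hκ
    c_pos := by
      change (0 : ℝ) < 2 / (H.p : ℝ)
      positivity
    A_nonneg := by
      change (0 : ℝ) ≤ H.β + 1
      linarith
    A0_one := hB2
    w_large := by
      change 20 * ((H.p : ℝ) * kc H + (H.β + 1) + 1) ≤
        20 * (H.p * kc H + (H.β + 1) + 1) + 24 + 2 * H.B ^ 2
      nlinarith
    w_large2 := by
      change 4000 * H.B ^ 2 ≤
        (2 : ℝ) ^ ((20 * (H.p * kc H + (H.β + 1) + 1) + 24 + 2 * H.B ^ 2) / 2)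
      have e1 : (2 : ℝ) ^ (12 + H.B ^ 2) ≤
          (2 : ℝ) ^ ((20 * (H.p * kc H + (H.β + 1) + 1) + 24 + 2 * H.B ^ 2) / 2) := by
        apply Real.rpow_le_rpow_of_exponent_le (by norm_num)
        linarith
      have e2 : (2 : ℝ) ^ (12 + H.B ^ 2) = 4096 * (2 : ℝ) ^ (H.B ^ 2) := by
        rw [Real.rpow_add (by norm_num)]
        norm_num
      have e3 : H.B ^ 2 ≤ (2 : ℝ) ^ (H.B ^ 2) := by
        have := one_add_mul_self_le_rpow_one_add (s := 1) (by norm_num) hB2
        have e4 : (1 : ℝ) + 1 = 2 := by norm_num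
        rw [e4] at this
        linarith
      rw [e2] at e1
      nlinarith
    Φ_cont := c1
    Φ_even := fun t => by
      have := c2 t
      rw [one_mul] at this
      exact this
    Φ_pos := c3
    Φ_dec := c4
    XX_eq := fun z => rfl
    XX_zero := h3.2.2.1
    HH_diff := h2.1
    HH_log := h2.2
    a_one := by
      change ∑ d ∈ (1 : ℕ).divisors, H.b d * (starRingEnd ℂ) (H.b (1 / d)) *
        (((((1 : ℕ) : ℝ) ^ (-(H.p * H.k / 2)) : ℝ)) : ℂ) = 1
      rw [Nat.divisors_one, Finset.sum_singleton]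
      simp [h.b_one]
    a_le := h3.1
    XX_dir := h3.2.1 }

end Pool.Agent.H471R3.GJ
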