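import Pool.Agent.H471R3.GJ.Prod
import Pool.Agent.H382R2.Digamma

set_option autoImplicit false

/-!
# The factor at infinity of a product: logarithmic derivative (task PLOG, helper89; adapted from
`HLog.lean` of helper356)
-/

namespace Pool.Agent.H471R3.GJ

open Complex Filter Topology Polynomial

namespace PLog

theorem kc_ge (H : Hc) (h : IsHc H) : 6 ≤ kc H := by
  unfold kc
  linarith [h.β_nonneg, h.B_one]

theorem sc_im (H : Hc) (z : ℂ) : (sc H z).im = kc H * z.im := by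
  simp [sc]

theorem sc_re (H : Hc) (z : ℂ) : (sc H z).re = H.k / 2 + kc H * z.re := by
  simp [sc]

theorem sc_deriv (H : Hc) (z : ℂ) : HasDerivAt (sc H) ((kc H : ℝ) : ℂ) z := by
  have h1 : HasDerivAt (fun z : ℂ => ((H.k / 2 : ℝ) : ℂ) + ((kc H : ℝ) : ℂ) * z)
      (((kc H : ℝ) : ℂ) * 1) z := ((hasDerivAt_id z).const_mul _).const_add _
  rw [mul_one] at h1
  exact h1

theorem s_ne (H : Hc) (h : IsHc H) (z : ℂ) (hz : 0 < z.im) (m : ℕ) : sc H z ≠ -(m : ℂ) := by
  intro he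
  have h1 := congrArg Complex.im he
  rw [sc_im] at h1
  have h2 : (-(m : ℂ)).im = 0 := by simp
  rw [h2] at h1
  have h3 : 0 < kc H * z.im := mul_pos (by linarith [kc_ge H h]) hz
  linarith

/-- the numerator of the factor at infinity -/
noncomputable def NF (H : Hc) (z : ℂ) : ℂ :=
  ((H.h / (2 * Real.pi) : ℝ) : ℂ) ^ (sc H z) * Complex.Gamma (sc H z)

theorem a_pos (H : Hc) (h : IsHc H) : 0 < H.h / (2 * Real.pi) :=
  div_pos h.h_pos (by positivity)

theorem pw_deriv (H : Hc) (h : IsHc H) (z : ℂ) :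
    HasDerivAt (fun z => ((H.h / (2 * Real.pi) : ℝ) : ℂ) ^ (sc H z))
      (((H.h / (2 * Real.pi) : ℝ) : ℂ) ^ (sc H z) *
        Complex.log ((H.h / (2 * Real.pi) : ℝ) : ℂ) * ((kc H : ℝ) : ℂ)) z :=
  (sc_deriv H z).const_cpow (Or.inl (by
    have := a_pos H h
    exact_mod_cast this.ne'))

theorem pw_ne (H : Hc) (h : IsHc H) (z : ℂ) :
    ((H.h / (2 * Real.pi) : ℝ) : ℂ) ^ (sc H z) ≠ 0 := by
  rw [Ne, Complex.cpow_eq_zero_iff]
  rintro ⟨h1, _⟩
  have h2 := a_pos H h
  have h3 : H.h / (2 * Real.pi) = 0 := by exact_mod_cast h1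
  exact h2.ne' h3

theorem gam_diff (H : Hc) (h : IsHc H) (z : ℂ) (hz : 0 < z.im) :
    DifferentiableAt ℂ Complex.Gamma (sc H z) :=
  Complex.differentiableAt_Gamma _ (s_ne H h z hz)

theorem gam_ne (H : Hc) (h : IsHc H) (z : ℂ) (hz : 0 < z.im) : Complex.Gamma (sc H z) ≠ 0 :=
  Complex.Gamma_ne_zero (s_ne H h z hz)

theorem NF_diff (H : Hc) (h : IsHc H) (z : ℂ) (hz : 0 < z.im) : DifferentiableAt ℂ (NF H) z := by
  have h1 : DifferentiableAt ℂ (fun z => Complex.Gamma (sc H z)) z :=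
    (gam_diff H h z hz).comp z (sc_deriv H z).differentiableAt
  exact (pw_deriv H h z).differentiableAt.mul h1

theorem NF_ne (H : Hc) (h : IsHc H) (z : ℂ) (hz : 0 < z.im) : NF H z ≠ 0 :=
  mul_ne_zero (pw_ne H h z) (gam_ne H h z hz)

theorem NF_log (H : Hc) (h : IsHc H) (z : ℂ) (hz : 0 < z.im) :
    logDeriv (NF H) z = ((kc H : ℝ) : ℂ) * ((Real.log (H.h / (2 * Real.pi)) : ℝ) : ℂ) +
      ((kc H : ℝ) : ℂ) * logDeriv Complex.Gamma (sc H z) := by
  have h1 : DifferentiableAt ℂ (fun z => Complex.Gamma (sc H z)) z :=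
    (gam_diff H h z hz).comp z (sc_deriv H z).differentiableAt
  have h2 : logDeriv (NF H) z =
      logDeriv (fun z => ((H.h / (2 * Real.pi) : ℝ) : ℂ) ^ (sc H z)) z +
        logDeriv (fun z => Complex.Gamma (sc H z)) z :=
    logDeriv_mul z (pw_ne H h z) (gam_ne H h z hz) (pw_deriv H h z).differentiableAt h1
  have h3 : logDeriv (fun z => Complex.Gamma (sc H z)) z =
      logDeriv Complex.Gamma (sc H z) * deriv (sc H) z :=
    logDeriv_comp (f := Complex.Gamma) (g := sc H) (gam_diff H h z hz)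
      (sc_deriv H z).differentiableAt
  have h4 : logDeriv (fun z => ((H.h / (2 * Real.pi) : ℝ) : ℂ) ^ (sc H z)) z =
      Complex.log ((H.h / (2 * Real.pi) : ℝ) : ℂ) * ((kc H : ℝ) : ℂ) := by
    rw [logDeriv_apply, (pw_deriv H h z).deriv]
    have := pw_ne H h z
    field_simp
  rw [h2, h3, h4, (sc_deriv H z).deriv, ← Complex.ofReal_log (a_pos H h).le]
  ring

end PLog

open PLog

theorem logC (H : Hc) (h : IsHc H) : SLogC H := by
  obtain ⟨C, hC1, hC⟩ := SG.digamma_bound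
  have hkc := kc_ge H h
  have hkc0 : 0 < kc H := by linarith
  have hk := h.k_pos
  have hp : (0 : ℝ) < H.p := by exact_mod_cast h.p_pos
  have hκ : ∀ z : ℂ, (datc H).κ * ((datc H).c * Real.log z.im) =
      2 * (kc H * Real.log z.im) := by
    intro z
    simp only [datc]
    field_simp
  set K0 : ℝ := kc H * |Real.log (H.h / (2 * Real.pi))| + kc H * C + kc H * |Real.log (kc H)| with hK0
  have hN : ∀ z : ℂ, 1 + H.k ≤ z.im → |z.re| ≤ z.im / 2 →
      ‖logDeriv (NF H) z - ((kc H * Real.log z.im : ℝ) : ℂ)‖ ≤ K0 := by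
    intro z h1 h2
    have hz : 0 < z.im := by linarith
    have e1 := sc_im H z
    have e2 := sc_re H z
    have e3 : |(sc H z).im| = kc H * z.im := by
      rw [e1, abs_of_pos (mul_pos hkc0 hz)]
    have e4 : 1 ≤ |(sc H z).im| := by
      rw [e3]
      nlinarith
    have e5 : |(sc H z).re| ≤ |(sc H z).im| := by
      rw [e3, e2]
      have e6 : |H.k / 2 + kc H * z.re| ≤ H.k / 2 + kc H * (z.im / 2) := by
        refine (abs_add_le _ _).trans ?_
        rw [abs_of_pos (by linarith : 0 < H.k / 2), abs_mul, abs_of_pos hkc0]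
        have := mul_le_mul_of_nonneg_left h2 hkc0.le
        linarith
      nlinarith
    have e7 := hC _ e4 e5
    rw [e3, Real.log_mul hkc0.ne' hz.ne'] at e7
    rw [NF_log H h z hz]
    have e8 : ((kc H : ℝ) : ℂ) * ((Real.log (H.h / (2 * Real.pi)) : ℝ) : ℂ) +
      ((kc H : ℝ) : ℂ) * logDeriv Complex.Gamma (sc H z) - ((kc H * Real.log z.im : ℝ) : ℂ) =
      ((kc H * Real.log (H.h / (2 * Real.pi)) : ℝ) : ℂ) +
      ((kc H : ℝ) : ℂ) * (logDeriv Complex.Gamma (sc H z) -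
        ((Real.log (kc H) + Real.log z.im : ℝ) : ℂ)) + ((kc H * Real.log (kc H) : ℝ) : ℂ) := by
      push_cast
      ring
    rw [e8]
    refine (norm_add_le _ _).trans (add_le_add ((norm_add_le _ _).trans (add_le_add ?_ ?_)) ?_)
    · rw [Complex.norm_real, Real.norm_eq_abs, abs_mul, abs_of_pos hkc0]
    · rw [norm_mul, Complex.norm_real, Real.norm_eq_abs, abs_of_pos hkc0]
      exact mul_le_mul_of_nonneg_left e7 hkc0.le
    · rw [Complex.norm_real, Real.norm_eq_abs, abs_mul, abs_of_pos hkc0]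
  have hK01 : 0 ≤ K0 := by positivity
  have hHH : (datc H).HH = fun z => NF H z ^ 2 := by
    funext z
    simp [datc, NF]
  refine ⟨fun z hz => by rw [hHH]; exact (NF_diff H h z hz).pow 2, 2 * K0 + 1, 1 + H.k,
    by linarith, by linarith, ?_⟩
  intro z h1 h2
  have hz : 0 < z.im := by linarith
  rw [hHH, hκ]
  refine ⟨pow_ne_zero 2 (NF_ne H h z hz), ?_⟩
  have e1 : logDeriv (fun z => NF H z ^ 2) z = 2 * logDeriv (NF H) z := by
    have := logDeriv_fun_pow (NF_diff H h z hz) 2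
    rw [this]
    norm_num
  rw [e1]
  have e2 : 2 * logDeriv (NF H) z - ((2 * (kc H * Real.log z.im) : ℝ) : ℂ) =
      2 * (logDeriv (NF H) z - ((kc H * Real.log z.im : ℝ) : ℂ)) := by
    push_cast
    ring
  rw [e2, norm_mul, Complex.norm_ofNat]
  have := hN z h1 h2
  linarith

end Pool.Agent.H471R3.GJ
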