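import Pool.Agent.H471R3.GJ.Prod
import Pool.Agent.H471R3.GJ.HMel

set_option autoImplicit false

/-!
# The product of two Mellin integrals is the Laplace transform of a convolution (PMEL, helper97)
-/

namespace Pool.Agent.H471R3.GJ

open Complex Filter Topology MeasureTheory

namespace PMel

theorem kc_pos (H : Hc) (h : IsHc H) : 0 < kc H := by
  have h1 := h.β_nonneg
  have h2 := h.B_one
  unfold kc
  linarith

theorem point (H : Hc) (h : IsHc H) (z : ℂ) (t : ℝ) :
    (Real.exp (t / kc H) / kc H) • (((Real.exp (t / kc H) : ℝ) : ℂ) ^ (sc H z - 1) •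
      H.φ (Real.exp (t / kc H))) = fc H t * cexp (z * t) := by
  have hK := kc_pos H h
  have hKc : ((kc H : ℝ) : ℂ) ≠ 0 := by exact_mod_cast hK.ne'
  have h2 : ((Real.exp (t / kc H) : ℝ) : ℂ) ^ (sc H z - 1) =
      cexp (((t / kc H : ℝ) : ℂ) * (sc H z - 1)) := by
    rw [Complex.cpow_def_of_ne_zero (by exact_mod_cast (Real.exp_pos _).ne')]
    rw [← Complex.ofReal_log (Real.exp_pos _).le, Real.log_exp]
  rw [h2]
  unfold fc sc
  rw [Complex.real_smul, smul_eq_mul]
  push_cast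
  have h3 : cexp ((t : ℂ) / (kc H : ℂ)) * cexp ((t : ℂ) / (kc H : ℂ) *
      ((H.k : ℂ) / 2 + (kc H : ℂ) * z - 1)) =
      cexp ((H.k : ℂ) / 2 * (t : ℂ) / (kc H : ℂ)) * cexp (z * t) := by
    rw [← Complex.exp_add, ← Complex.exp_add]
    congr 1
    field_simp
    ring
  calc cexp ((t : ℂ) / (kc H : ℂ)) / (kc H : ℂ) * (cexp ((t : ℂ) / (kc H : ℂ) *
      ((H.k : ℂ) / 2 + (kc H : ℂ) * z - 1)) * H.φ (Real.exp (t / kc H)))
      = (cexp ((t : ℂ) / (kc H : ℂ)) * cexp ((t : ℂ) / (kc H : ℂ) *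
      ((H.k : ℂ) / 2 + (kc H : ℂ) * z - 1))) * (1 / (kc H : ℂ) * H.φ (Real.exp (t / kc H))) := by
        ring
    _ = _ := by rw [h3]; ring

theorem norm_fc (H : Hc) (h : IsHc H) (h1 : SFc H) : ∃ C : ℝ, 0 ≤ C ∧ ∀ t : ℝ, ‖fc H t‖ ≤
    C * Real.exp (H.k / 2 * |t| / kc H) *
      Real.exp (-(2 * Real.pi / H.h) * Real.exp (|t| / kc H)) := by
  obtain ⟨-, hsym, ⟨C, hC⟩, -⟩ := h1
  have key : ∀ t : ℝ, 0 ≤ t → ‖fc H t‖ ≤ |C| * Real.exp (H.k / 2 * |t| / kc H) *
      Real.exp (-(2 * Real.pi / H.h) * Real.exp (|t| / kc H)) := by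
    intro t ht
    rw [abs_of_nonneg ht]
    refine (hC t ht).trans ?_
    gcongr
    exact le_abs_self C
  refine ⟨|C|, abs_nonneg _, fun t => ?_⟩
  rcases le_total 0 t with ht | ht
  · exact key t ht
  · have h2 := key (-t) (by linarith)
    rw [hsym, norm_mul, h.ε_norm, one_mul, Complex.norm_conj, abs_neg] at h2
    exact h2

theorem int_abs : Integrable (fun t : ℝ => Real.exp (-|t|)) := by
  rw [← integrableOn_univ, ← Set.Iic_union_Ioi (a := (0 : ℝ)), integrableOn_union]
  constructor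
  · refine (integrableOn_exp_Iic 0).congr_fun ?_ measurableSet_Iic
    intro t ht
    have ht' : t ≤ 0 := ht
    simp only []
    rw [abs_of_nonpos ht', neg_neg]
  · refine (exp_neg_integrableOn_Ioi 0 one_pos).congr_fun ?_ measurableSet_Ioi
    intro t ht
    have ht' : 0 < t := ht
    simp only []
    rw [abs_of_pos ht', neg_one_mul]

theorem bound (H : Hc) (h : IsHc H) (h1 : SFc H) (z : ℂ) :
    ∃ C : ℝ, ∀ t : ℝ, ‖fc H t * cexp (z * t)‖ ≤ C * Real.exp (-|t|) := by
  obtain ⟨C, hC0, hC⟩ := norm_fc H h h1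
  have hK := kc_pos H h
  set K := kc H with hKdef
  have ha : 0 < 2 * Real.pi / H.h := div_pos (by positivity) h.h_pos
  set a := 2 * Real.pi / H.h with hadef
  set b := H.k / 2 / K + |z.re| with hb
  refine ⟨C * Real.exp ((b + 1) ^ 2 * K ^ 2 / (2 * a)), fun t => ?_⟩
  rw [norm_mul, Complex.norm_exp]
  have h2 : (z * (t : ℂ)).re ≤ |z.re| * |t| := by
    rw [Complex.re_mul_ofReal, ← abs_mul]
    exact le_abs_self _
  have h3 : ‖fc H t‖ * Real.exp (z * (t : ℂ)).re ≤
      (C * Real.exp (H.k / 2 * |t| / K) * Real.exp (-a * Real.exp (|t| / K))) *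
        Real.exp (|z.re| * |t|) := by
    apply mul_le_mul (hC t) (Real.exp_le_exp.2 h2) (Real.exp_pos _).le
    positivity
  refine h3.trans ?_
  have h4 : 0 ≤ |t| := abs_nonneg t
  generalize |t| = τ at h4
  have h5 : (τ / K) ^ 2 / 2 ≤ Real.exp (τ / K) := by
    have h6 : 0 ≤ τ / K := div_nonneg h4 hK.le
    have h7 := Real.quadratic_le_exp_of_nonneg h6
    linarith
  have h6 : (b + 1) * τ - a * ((τ / K) ^ 2 / 2) ≤ (b + 1) ^ 2 * K ^ 2 / (2 * a) := by
    have h7 : (b + 1) ^ 2 * K ^ 2 / (2 * a) - ((b + 1) * τ - a * ((τ / K) ^ 2 / 2)) =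
        ((b + 1) * K - a * (τ / K)) ^ 2 / (2 * a) := by
      field_simp
      ring
    have h8 : 0 ≤ ((b + 1) * K - a * (τ / K)) ^ 2 / (2 * a) := by positivity
    linarith
  have h7 : H.k / 2 * τ / K + -a * Real.exp (τ / K) + |z.re| * τ ≤
      (b + 1) ^ 2 * K ^ 2 / (2 * a) + -τ := by
    have h8 : a * ((τ / K) ^ 2 / 2) ≤ a * Real.exp (τ / K) := mul_le_mul_of_nonneg_left h5 ha.le
    have h9 : H.k / 2 * τ / K + |z.re| * τ = b * τ := by rw [hb]; ring
    nlinarith
  calc C * Real.exp (H.k / 2 * τ / K) * Real.exp (-a * Real.exp (τ / K)) *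
        Real.exp (|z.re| * τ) =
        C * Real.exp (H.k / 2 * τ / K + -a * Real.exp (τ / K) + |z.re| * τ) := by
        rw [Real.exp_add, Real.exp_add]; ring
    _ ≤ C * Real.exp ((b + 1) ^ 2 * K ^ 2 / (2 * a) + -τ) := by
        apply mul_le_mul_of_nonneg_left (Real.exp_le_exp.2 h7) hC0
    _ = C * Real.exp ((b + 1) ^ 2 * K ^ 2 / (2 * a)) * Real.exp (-τ) := by
        rw [Real.exp_add]; ring

theorem integrable (H : Hc) (h : IsHc H) (h1 : SFc H) (z : ℂ) :
    Integrable (fun t : ℝ => fc H t * cexp (z * t)) := by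
  obtain ⟨C, hC⟩ := bound H h h1 z
  refine (int_abs.const_mul C).mono' ?_ (Eventually.of_forall hC)
  have hc : Continuous (fun t : ℝ => fc H t * cexp (z * t)) := by
    have := h1.1
    fun_prop
  exact hc.aestronglyMeasurable

theorem conj_integrand (H : Hc) (z : ℂ) (t : ℝ) :
    (starRingEnd ℂ) (fc H t * cexp ((starRingEnd ℂ) z * t)) =
      (starRingEnd ℂ) (fc H t) * cexp (z * t) := by
  rw [map_mul, ← Complex.exp_conj, map_mul, Complex.conj_conj, Complex.conj_ofReal]

theorem integrable_conj (H : Hc) (h : IsHc H) (h1 : SFc H) (z : ℂ) :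
    Integrable (fun t : ℝ => (starRingEnd ℂ) (fc H t) * cexp (z * t)) := by
  have h2 := integrable H h h1 ((starRingEnd ℂ) z)
  have hc : Continuous (fun t : ℝ => (starRingEnd ℂ) (fc H t) * cexp (z * t)) := by
    have := h1.1
    have h3 : Continuous (fun t : ℝ => (starRingEnd ℂ) (fc H t)) :=
      Complex.continuous_conj.comp this
    fun_prop
  refine h2.norm.mono' hc.aestronglyMeasurable (Eventually.of_forall fun t => ?_)
  rw [← conj_integrand, Complex.norm_conj]

theorem mellinConv (H : Hc) (h : IsHc H) (h1 : SFc H) (s : ℂ) : MellinConvergent H.φ s := by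
  have hK := kc_pos H h
  have hKc : ((kc H : ℝ) : ℂ) ≠ 0 := by exact_mod_cast hK.ne'
  obtain ⟨z, rfl⟩ : ∃ z, sc H z = s := by
    refine ⟨(s - ((H.k / 2 : ℝ) : ℂ)) / ((kc H : ℝ) : ℂ), ?_⟩
    unfold sc
    field_simp
    ring
  have hd : ∀ x ∈ (Set.univ : Set ℝ), HasDerivWithinAt (fun t : ℝ => Real.exp (t / kc H))
      (Real.exp (x / kc H) / kc H) Set.univ x := by
    intro x _
    apply HasDerivAt.hasDerivWithinAt
    have h2 : HasDerivAt (fun t : ℝ => t / kc H) (1 / kc H) x := (hasDerivAt_id x).div_const _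
    have h3 := h2.exp
    have h4 : Real.exp (x / kc H) * (1 / kc H) = Real.exp (x / kc H) / kc H := by ring
    rw [h4] at h3
    exact h3
  have hi : Set.InjOn (fun t : ℝ => Real.exp (t / kc H)) Set.univ := by
    intro a _ b _ hab
    have h2 : a / kc H = b / kc H := Real.exp_injective hab
    exact (div_left_inj' hK.ne').mp h2
  unfold MellinConvergent
  rw [← HMel.image_exp (kc H) hK,
    integrableOn_image_iff_integrableOn_abs_deriv_smul MeasurableSet.univ hd hi, integrableOn_univ]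
  refine (integrable H h h1 z).congr (Eventually.of_forall fun t => ?_)
  show fc H t * cexp (z * t) = |Real.exp (t / kc H) / kc H| • _
  rw [abs_of_pos (div_pos (Real.exp_pos _) hK), ← point H h z t]

theorem mel2 (H : Hc) (h : IsHc H) (z : ℂ) :
    mellin H.φ (sc H z) = ∫ t : ℝ, fc H t * cexp (z * t) := by
  have hK := kc_pos H h
  unfold mellin
  rw [HMel.subst (kc H) hK]
  exact integral_congr_ae (Eventually.of_forall fun t => point H h z t)

theorem sc_conj (H : Hc) (z : ℂ) : (starRingEnd ℂ) (sc H z) = sc H ((starRingEnd ℂ) z) := by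
  unfold sc
  rw [map_add, map_mul, Complex.conj_ofReal, Complex.conj_ofReal]

theorem mel3 (H : Hc) (h : IsHc H) (z : ℂ) :
    (starRingEnd ℂ) (mellin H.φ ((starRingEnd ℂ) (sc H z))) =
      ∫ t : ℝ, (starRingEnd ℂ) (fc H t) * cexp (z * t) := by
  rw [sc_conj, mel2 H h, ← integral_conj]
  exact integral_congr_ae (Eventually.of_forall fun t => conj_integrand H z t)

theorem PhiC_eq (H : Hc) (t : ℝ) :
    ((PhiC H t : ℝ) : ℂ) = ∫ u : ℝ, fc H u * (starRingEnd ℂ) (fc H (t - u)) := by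
  have h1 : (starRingEnd ℂ) (∫ u : ℝ, fc H u * (starRingEnd ℂ) (fc H (t - u))) =
      ∫ u : ℝ, fc H u * (starRingEnd ℂ) (fc H (t - u)) := by
    rw [← integral_conj]
    rw [← integral_sub_left_eq_self (fun u : ℝ => fc H u * (starRingEnd ℂ) (fc H (t - u)))
      (volume : Measure ℝ) t]
    refine integral_congr_ae (Eventually.of_forall fun u => ?_)
    simp only []
    rw [map_mul, Complex.conj_conj, sub_sub_cancel, mul_comm]
  exact Complex.conj_eq_iff_re.1 h1

theorem mel4 (H : Hc) (h : IsHc H) (h1 : SFc H) (z : ℂ) : (datc H).XX z =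
    mellin H.φ (sc H z) * (starRingEnd ℂ) (mellin H.φ ((starRingEnd ℂ) (sc H z))) := by
  have h2 := integral_convolution (μ := (volume : Measure ℝ)) (ν := (volume : Measure ℝ))
    (ContinuousLinearMap.mul ℝ ℂ) (integrable H h h1 z) (integrable_conj H h h1 z)
  rw [mel2 H h, mel3 H h]
  rw [ContinuousLinearMap.mul_apply'] at h2
  rw [← h2]
  show ∫ t : ℝ, ((PhiC H t : ℝ) : ℂ) * cexp (z * t) = _
  refine integral_congr_ae (Eventually.of_forall fun t => ?_)
  simp only []
  rw [PhiC_eq, ← integral_mul_const]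
  unfold convolution
  refine integral_congr_ae (Eventually.of_forall fun u => ?_)
  simp only [ContinuousLinearMap.mul_apply']
  have h3 : cexp (z * t) = cexp (z * u) * cexp (z * ((t - u : ℝ) : ℂ)) := by
    rw [← Complex.exp_add]
    congr 1
    push_cast
    ring
  rw [h3]
  ring

end PMel

theorem melC (H : Hc) (h : IsHc H) (h1 : SFc H) : SMelC H :=
  ⟨PMel.mellinConv H h h1, PMel.mel2 H h, PMel.mel3 H h, PMel.mel4 H h h1⟩

end Pool.Agent.H471R3.GJ
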