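import Pool.Agent.H471R3.GJ.Prod

set_option autoImplicit false

/-!
# The kernel of the product (task PPHI)
-/

namespace Pool.Agent.H471R3.GJ

open Complex Filter Topology Polynomial MeasureTheory

namespace PPhi

/-- the majorant -/
noncomputable def g (b q v : ℝ) : ℝ := Real.exp (-b * Real.exp (q * |v|))

theorem g_pos (b q v : ℝ) : 0 < g b q v := Real.exp_pos _

theorem g_le_one {b q : ℝ} (hb : 0 < b) (v : ℝ) : g b q v ≤ 1 := by
  unfold g
  rw [Real.exp_le_one_iff]
  have := Real.exp_pos (q * |v|)
  nlinarith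

theorem g_cont (b q : ℝ) : Continuous (g b q) := by
  unfold g; fun_prop

theorem g_anti {b q : ℝ} (hb : 0 < b) (hq : 0 < q) {u v : ℝ} (h : |u| ≤ |v|) :
    g b q v ≤ g b q u := by
  unfold g
  apply Real.exp_le_exp.2
  have : Real.exp (q * |u|) ≤ Real.exp (q * |v|) :=
    Real.exp_le_exp.2 (mul_le_mul_of_nonneg_left h hq.le)
  nlinarith

theorem g_int {b q : ℝ} (hb : 0 < b) (hq : 0 < q) : Integrable (g b q) := by
  set c := b * min 1 (q ^ 2 / 2) with hc
  have hc0 : 0 < c := mul_pos hb (lt_min one_pos (by positivity))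
  refine Integrable.mono' (integrable_inv_one_add_sq.const_mul (1 / c))
    (g_cont b q).aestronglyMeasurable (Eventually.of_forall fun v => ?_)
  rw [Real.norm_of_nonneg (g_pos b q v).le]
  unfold g
  have h1 : 1 + q * |v| + (q * |v|) ^ 2 / 2 ≤ Real.exp (q * |v|) :=
    Real.quadratic_le_exp_of_nonneg (by positivity)
  have h2 : b * Real.exp (q * |v|) + 1 ≤ Real.exp (b * Real.exp (q * |v|)) :=
    Real.add_one_le_exp _
  have h3 : c * (1 + v ^ 2) ≤ b * Real.exp (q * |v|) := by
    have h4 : min 1 (q ^ 2 / 2) * (1 + v ^ 2) ≤ Real.exp (q * |v|) := by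
      have h5 : min 1 (q ^ 2 / 2) ≤ 1 := min_le_left _ _
      have h6 : min 1 (q ^ 2 / 2) ≤ q ^ 2 / 2 := min_le_right _ _
      have h7 : (q * |v|) ^ 2 = q ^ 2 * v ^ 2 := by rw [mul_pow, sq_abs]
      have h8 : 0 ≤ q * |v| := by positivity
      nlinarith [sq_nonneg v]
    rw [hc, mul_assoc]
    exact mul_le_mul_of_nonneg_left h4 hb.le
  have h9 : Real.exp (-b * Real.exp (q * |v|)) = (Real.exp (b * Real.exp (q * |v|)))⁻¹ := by
    rw [← Real.exp_neg]; congr 1; ring
  rw [h9, one_div, ← mul_inv]
  apply inv_anti₀ (by positivity)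
  linarith

section abs

variable {f : ℝ → ℂ} {ε : ℂ} {b q C : ℝ}

/-- the convolution -/
noncomputable def cv (f : ℝ → ℂ) (t : ℝ) : ℂ := ∫ u : ℝ, f u * (starRingEnd ℂ) (f (t - u))

theorem norm_le (hC : 0 ≤ C) (hb : 0 < b) (hd : ∀ v, ‖f v‖ ≤ C * g b q v) (t u : ℝ) :
    ‖f u * (starRingEnd ℂ) (f (t - u))‖ ≤ C * C * g b q u := by
  rw [norm_mul, RCLike.norm_conj]
  have h1 := hd u
  have h2 := hd (t - u)
  have h3 : C * g b q (t - u) ≤ C := by
    have := mul_le_mul_of_nonneg_left (g_le_one (q := q) hb (t - u)) hC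
    linarith
  calc ‖f u‖ * ‖f (t - u)‖ ≤ (C * g b q u) * C :=
        mul_le_mul h1 (h2.trans h3) (norm_nonneg _) (mul_nonneg hC (g_pos _ _ _).le)
    _ = C * C * g b q u := by ring

theorem cont_integrand (hf : Continuous f) (t : ℝ) :
    Continuous fun u : ℝ => f u * (starRingEnd ℂ) (f (t - u)) :=
  hf.mul (Complex.continuous_conj.comp (hf.comp (continuous_const.sub continuous_id)))

theorem int_integrand (hf : Continuous f) (hC : 0 ≤ C) (hb : 0 < b) (hq : 0 < q)
    (hd : ∀ v, ‖f v‖ ≤ C * g b q v) (t : ℝ) :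
    Integrable fun u : ℝ => f u * (starRingEnd ℂ) (f (t - u)) :=
  Integrable.mono' ((g_int hb hq).const_mul (C * C))
    (cont_integrand hf t).aestronglyMeasurable
    (Eventually.of_forall fun u => norm_le hC hb hd t u)

theorem cv_cont (hf : Continuous f) (hC : 0 ≤ C) (hb : 0 < b) (hq : 0 < q)
    (hd : ∀ v, ‖f v‖ ≤ C * g b q v) : Continuous (cv f) := by
  apply continuous_of_dominated (bound := fun u => C * C * g b q u)
  · intro t; exact (cont_integrand hf t).aestronglyMeasurable
  · intro t; exact Eventually.of_forall fun u => norm_le hC hb hd t u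
  · exact (g_int hb hq).const_mul (C * C)
  · refine Eventually.of_forall fun u => ?_
    exact continuous_const.mul
      (Complex.continuous_conj.comp (hf.comp (continuous_id.sub continuous_const)))

theorem cv_even (hε : ‖ε‖ = 1) (hs : ∀ t, f (-t) = ε * (starRingEnd ℂ) (f t)) (t : ℝ) :
    (cv f (-t)).re = (cv f t).re := by
  have h1 : cv f (-t) = (starRingEnd ℂ) (cv f t) := by
    unfold cv
    rw [← integral_conj, ← integral_neg_eq_self (fun u => f u * (starRingEnd ℂ) (f (-t - u)))]
    congr 1
    funext u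
    have e : -t - -u = -(t - u) := by ring
    rw [e, hs, hs, map_mul, map_mul, Complex.conj_conj]
    have h2 : ε * (starRingEnd ℂ) ε = 1 := by
      rw [Complex.mul_conj, Complex.normSq_eq_norm_sq, hε]; norm_num
    linear_combination ((starRingEnd ℂ) (f u) * f (t - u)) * h2
  rw [h1, Complex.conj_re]

theorem cv_decay (hC : 0 ≤ C) (hb : 0 < b) (hq : 0 < q)
    (hd : ∀ v, ‖f v‖ ≤ C * g b q v) (t : ℝ) :
    ‖cv f t‖ ≤ (2 * C * C * ∫ u, g b q u) * g b q (t / 2) := by
  have hpt : ∀ u : ℝ, ‖f u * (starRingEnd ℂ) (f (t - u))‖ ≤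
      (C * C * g b q (t / 2)) * (g b q u + g b q (t - u)) := by
    intro u
    rw [norm_mul, RCLike.norm_conj]
    have h1 := hd u
    have h2 := hd (t - u)
    have h3 : ‖f u‖ * ‖f (t - u)‖ ≤ (C * g b q u) * (C * g b q (t - u)) :=
      mul_le_mul h1 h2 (norm_nonneg _) (mul_nonneg hC (g_pos _ _ _).le)
    refine h3.trans ?_
    have h4 : g b q u * g b q (t - u) ≤ g b q (t / 2) * (g b q u + g b q (t - u)) := by
      have p1 := g_pos b q u
      have p2 := g_pos b q (t - u)
      have p3 := g_pos b q (t / 2)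
      rcases le_total (|t / 2|) (|u|) with h | h
      · have := g_anti hb hq h
        nlinarith
      · have h5 : |t / 2| ≤ |t - u| := by
          have e : t = t / 2 + t / 2 := by ring
          have h6 := abs_add_le (t - u) u
          rw [sub_add_cancel] at h6
          have h7 : |t| = 2 * |t / 2| := by
            rw [abs_div]; norm_num; ring
          linarith
        have := g_anti hb hq h5
        nlinarith
    calc (C * g b q u) * (C * g b q (t - u)) = (C * C) * (g b q u * g b q (t - u)) := by ring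
      _ ≤ (C * C) * (g b q (t / 2) * (g b q u + g b q (t - u))) :=
          mul_le_mul_of_nonneg_left h4 (mul_nonneg hC hC)
      _ = _ := by ring
  have hi : Integrable fun u : ℝ => g b q (t - u) := (g_int hb hq).comp_sub_left t
  have hi2 : Integrable fun u : ℝ => (C * C * g b q (t / 2)) * (g b q u + g b q (t - u)) :=
    ((g_int hb hq).add hi).const_mul _
  calc ‖cv f t‖ ≤ ∫ u, (C * C * g b q (t / 2)) * (g b q u + g b q (t - u)) :=
        norm_integral_le_of_norm_le hi2 (Eventually.of_forall hpt)
    _ = _ := by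
      rw [integral_const_mul, integral_add (g_int hb hq) hi, integral_sub_left_eq_self]
      ring

theorem cv_pos (hf : Continuous f) (hC : 0 ≤ C) (hb : 0 < b) (hq : 0 < q)
    (hd : ∀ v, ‖f v‖ ≤ C * g b q v) {T c2 b2 : ℝ} (hT : 0 ≤ T) (hc2 : 0 < c2) (hb2 : 0 < b2)
    (hlow : ∀ u v, T ≤ u → T ≤ v → c2 * Real.exp (-b2 * (Real.exp (q * u) + Real.exp (q * v))) ≤
      (f u * (starRingEnd ℂ) (f v)).re) :
    ∃ T' : ℝ, ∀ t, T' ≤ t → 0 < (cv f t).re := by
  set I := ∫ u, g b q u with hI
  have hI0 : 0 ≤ I := integral_nonneg fun u => (g_pos b q u).le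
  set b3 := b * Real.exp (-(q * T)) with hb3
  have hb30 : 0 < b3 := by positivity
  set X := max ((2 * b2 * Real.exp q + 1) / b3) (C * C * I / c2) with hX
  refine ⟨max (2 * T + 2) (2 / q * X), fun t ht => ?_⟩
  have ht1 : 2 * T + 2 ≤ t := (le_max_left _ _).trans ht
  have ht2 : 2 / q * X ≤ t := (le_max_right _ _).trans ht
  set x := Real.exp (q * (t / 2)) with hx
  have hxX : X ≤ x := by
    have h1 : X ≤ q * (t / 2) := by
      have h2 := mul_le_mul_of_nonneg_left ht2 hq.le
      have h3 : q * (2 / q * X) = 2 * X := by field_simp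
      rw [h3] at h2
      linarith
    have h4 := Real.add_one_le_exp (q * (t / 2))
    linarith
  have hx0 : 0 < x := Real.exp_pos _
  set m := c2 * Real.exp (-b2 * (2 * (Real.exp q * x))) with hm
  set G0 := g b q (t - T) with hG0
  -- comparison
  have hcmp : C * C * I * G0 < m := by
    have e1 : G0 = Real.exp (-(b3 * x ^ 2)) := by
      rw [hG0, g, abs_of_nonneg (by linarith), hb3, hx, ← Real.exp_nat_mul, mul_assoc b,
        ← Real.exp_add]
      congr 1
      rw [neg_mul]
      congr 3
      push_cast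
      ring
    have h1 : (2 * b2 * Real.exp q + 1) ≤ b3 * x := by
      have h2 : (2 * b2 * Real.exp q + 1) / b3 ≤ x := (le_max_left _ _).trans hxX
      rw [div_le_iff₀ hb30] at h2
      linarith
    have h2 : C * C * I / c2 ≤ x := (le_max_right _ _).trans hxX
    have h3 : x ≤ b3 * x ^ 2 - b2 * (2 * (Real.exp q * x)) := by
      have := mul_le_mul_of_nonneg_right h1 hx0.le
      nlinarith
    have h4 : C * C * I / c2 < Real.exp (b3 * x ^ 2 - b2 * (2 * (Real.exp q * x))) := by
      have h5 := Real.add_one_le_exp (b3 * x ^ 2 - b2 * (2 * (Real.exp q * x)))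
      linarith
    rw [div_lt_iff₀ hc2] at h4
    have h6 : Real.exp (b3 * x ^ 2 - b2 * (2 * (Real.exp q * x))) * Real.exp (-(b3 * x ^ 2)) =
        Real.exp (-b2 * (2 * (Real.exp q * x))) := by
      rw [← Real.exp_add]; congr 1; ring
    rw [e1, hm, ← h6]
    have h7 := mul_lt_mul_of_pos_right h4 (Real.exp_pos (-(b3 * x ^ 2)))
    linarith
  -- the integrand
  have hint := int_integrand hf hC hb hq hd t
  have hre : (cv f t).re = ∫ u, (f u * (starRingEnd ℂ) (f (t - u))).re := by
    have := Complex.reCLM.integral_comp_comm hint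
    exact this.symm
  have hi : Integrable fun u : ℝ => g b q (t - u) := (g_int hb hq).comp_sub_left t
  set S := Set.Icc (t / 2 - 1) (t / 2 + 1) with hS
  have hiS : Integrable (S.indicator fun _ => m) := by
    rw [integrable_indicator_iff measurableSet_Icc]
    exact integrableOn_const (by simp) (by simp)
  have hi2 : Integrable fun u : ℝ => C * C * G0 * (g b q u + g b q (t - u)) :=
    ((g_int hb hq).add hi).const_mul _
  have hpt : ∀ u : ℝ, S.indicator (fun _ => m) u - C * C * G0 * (g b q u + g b q (t - u)) ≤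
      (f u * (starRingEnd ℂ) (f (t - u))).re := by
    intro u
    have p1 := g_pos b q u
    have p2 := g_pos b q (t - u)
    have p3 := g_pos b q (t - T)
    have hneg : 0 ≤ C * C * G0 * (g b q u + g b q (t - u)) := by positivity
    by_cases hmid : T ≤ u ∧ T ≤ t - u
    · have h1 := hlow u (t - u) hmid.1 hmid.2
      have h2 : 0 ≤ c2 * Real.exp (-b2 * (Real.exp (q * u) + Real.exp (q * (t - u)))) := by
        positivity
      by_cases hu : u ∈ S
      · rw [Set.indicator_of_mem hu]
        have h3 : m ≤ c2 * Real.exp (-b2 * (Real.exp (q * u) + Real.exp (q * (t - u)))) := by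
          rw [hm]
          apply mul_le_mul_of_nonneg_left _ hc2.le
          apply Real.exp_le_exp.2
          have h4 : Real.exp (q * u) ≤ Real.exp q * x := by
            rw [hx, ← Real.exp_add]
            apply Real.exp_le_exp.2
            have := hu.2
            nlinarith
          have h5 : Real.exp (q * (t - u)) ≤ Real.exp q * x := by
            rw [hx, ← Real.exp_add]
            apply Real.exp_le_exp.2
            have := hu.1
            nlinarith
          nlinarith
        linarith
      · rw [Set.indicator_of_notMem hu]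
        linarith
    · have hu : u ∉ S := by
        intro hu
        apply hmid
        constructor
        · have := hu.1; linarith
        · have := hu.2; linarith
      rw [Set.indicator_of_notMem hu, zero_sub]
      have h1 : -‖f u * (starRingEnd ℂ) (f (t - u))‖ ≤
          (f u * (starRingEnd ℂ) (f (t - u))).re :=
        (abs_le.1 (Complex.abs_re_le_norm _)).1
      have h2 : ‖f u * (starRingEnd ℂ) (f (t - u))‖ ≤ C * C * (g b q u * g b q (t - u)) := by
        rw [norm_mul, RCLike.norm_conj]
        calc ‖f u‖ * ‖f (t - u)‖ ≤ (C * g b q u) * (C * g b q (t - u)) :=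
              mul_le_mul (hd u) (hd (t - u)) (norm_nonneg _) (mul_nonneg hC p1.le)
          _ = _ := by ring
      have h3 : g b q u * g b q (t - u) ≤ G0 * (g b q u + g b q (t - u)) := by
        rw [not_and_or, not_le, not_le] at hmid
        rcases hmid with h | h
        · have h4 : g b q (t - u) ≤ G0 := by
            apply g_anti hb hq
            rw [abs_of_nonneg (by linarith), abs_of_nonneg (by linarith)]
            linarith
          nlinarith
        · have h4 : g b q u ≤ G0 := by
            apply g_anti hb hq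
            rw [abs_of_nonneg (by linarith), abs_of_nonneg (by linarith)]
            linarith
          nlinarith
      have h4 := mul_le_mul_of_nonneg_left h3 (mul_nonneg hC hC)
      have h5 : C * C * (G0 * (g b q u + g b q (t - u))) =
          C * C * G0 * (g b q u + g b q (t - u)) := by ring
      linarith
  have hfin := integral_mono (hiS.sub hi2) hint.re hpt
  have e2 : ∫ u, (S.indicator (fun _ => m) u - C * C * G0 * (g b q u + g b q (t - u))) =
      2 * m - C * C * G0 * (I + I) := by
    have a1 : ∫ u, S.indicator (fun _ => m) u = 2 * m := by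
      rw [integral_indicator measurableSet_Icc, setIntegral_const]
      simp only [Real.volume_real_Icc, smul_eq_mul]
      rw [max_eq_left (by linarith)]
      ring
    have a2 : ∫ u, C * C * G0 * (g b q u + g b q (t - u)) = C * C * G0 * (I + I) := by
      rw [integral_const_mul, integral_add (g_int hb hq) hi, integral_sub_left_eq_self]
    rw [integral_sub hiS hi2, a1, a2]
  have hfin' : 2 * m - C * C * G0 * (I + I) ≤ (cv f t).re := by
    rw [hre, ← e2]; exact hfin
  have : C * C * G0 * (I + I) = 2 * (C * C * I * G0) := by ring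
  linarith

end abs

end PPhi

open PPhi in
theorem phiC (H : Hc) (h : IsHc H) (h1 : SFc H) : SPhiC H := by
  obtain ⟨hcont, hsym, ⟨C0, hC0⟩, T0, hT0⟩ := h1
  set f := fc H with hf
  have hkc : 0 < kc H := by
    unfold kc
    have := h.β_nonneg
    have := h.B_one
    linarith
  have hh := h.h_pos
  have hk := h.k_pos
  set q := 1 / kc H with hq
  have hq0 : 0 < q := by positivity
  set b := Real.pi / H.h with hb
  have hpi := Real.pi_pos
  have hb0 : 0 < b := by positivity
  have hpib : 2 * Real.pi / H.h = 2 * b := by rw [hb]; ring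
  set a := H.k / 2 * q with ha
  have ha0 : 0 < a := by positivity
  have hat : ∀ t : ℝ, H.k / 2 * t / kc H = a * t := by
    intro t; rw [ha, hq]; ring
  have hqt : ∀ t : ℝ, t / kc H = q * t := by
    intro t; rw [hq]; ring
  simp only [hat, hqt, hpib] at hC0 hT0
  -- decay
  obtain ⟨K, hK1, hK⟩ : ∃ K : ℝ, 0 ≤ K ∧ ∀ t : ℝ, 0 ≤ t →
      Real.exp (a * t) * Real.exp (-(2 * b) * Real.exp (q * t)) ≤ K * g b q t := by
    refine ⟨Real.exp (a ^ 2 / (2 * (b * q ^ 2))), (Real.exp_pos _).le, fun t ht => ?_⟩
    unfold g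
    rw [abs_of_nonneg ht, ← Real.exp_add, ← Real.exp_add]
    apply Real.exp_le_exp.2
    have h2 : 1 + q * t + (q * t) ^ 2 / 2 ≤ Real.exp (q * t) :=
      Real.quadratic_le_exp_of_nonneg (by positivity)
    have h3 : (q * t) ^ 2 / 2 ≤ Real.exp (q * t) := by
      have : 0 ≤ q * t := by positivity
      linarith
    have h4 : a * t - b * ((q * t) ^ 2 / 2) ≤ a ^ 2 / (2 * (b * q ^ 2)) := by
      rw [le_div_iff₀ (by positivity)]
      nlinarith [sq_nonneg (a - b * q ^ 2 * t)]
    have h5 := mul_le_mul_of_nonneg_left h3 hb0.le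
    linarith
  have hnorm : ∀ t, ‖f (-t)‖ = ‖f t‖ := by
    intro t
    rw [hsym, norm_mul, h.ε_norm, one_mul, RCLike.norm_conj]
  set C := max C0 0 * K with hC
  have hC00 : 0 ≤ C := mul_nonneg (le_max_right _ _) hK1
  have hd : ∀ v, ‖f v‖ ≤ C * g b q v := by
    have key : ∀ v, 0 ≤ v → ‖f v‖ ≤ C * g b q v := by
      intro v hv
      have e := hC0 v hv
      have h2 : C0 * Real.exp (a * v) * Real.exp (-(2 * b) * Real.exp (q * v)) ≤
          max C0 0 * (Real.exp (a * v) * Real.exp (-(2 * b) * Real.exp (q * v))) := by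
        rw [mul_assoc]
        exact mul_le_mul_of_nonneg_right (le_max_left _ _) (by positivity)
      have h3 := mul_le_mul_of_nonneg_left (hK v hv) (le_max_right C0 0)
      rw [hC, mul_assoc]
      linarith
    intro v
    rcases le_total 0 v with hv | hv
    · exact key v hv
    · have h2 := key (-v) (by linarith)
      rw [hnorm] at h2
      have h3 : g b q (-v) = g b q v := by unfold g; rw [abs_neg]
      rwa [h3] at h2
  have hPhi : ∀ t, PhiC H t = (cv f t).re := fun t => rfl
  refine ⟨?_, ?_, ?_, ?_⟩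
  · exact Complex.continuous_re.comp (cv_cont hcont hC00 hb0 hq0 hd)
  · intro t
    rw [one_mul, hPhi, hPhi, cv_even h.ε_norm hsym]
  · have hlow : ∀ u v, max T0 0 ≤ u → max T0 0 ≤ v →
        q ^ 2 / 2 * Real.exp (-(2 * b) * (Real.exp (q * u) + Real.exp (q * v))) ≤
          (f u * (starRingEnd ℂ) (f v)).re := by
      intro u v hu hv
      have hu0 : 0 ≤ u := (le_max_right _ _).trans hu
      have hv0 : 0 ≤ v := (le_max_right _ _).trans hv
      have h2 := hT0 u ((le_max_left _ _).trans hu)
      have h3 := hT0 v ((le_max_left _ _).trans hv)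
      set M1 := 1 / kc H * Real.exp (a * u) * Real.exp (-(2 * b) * Real.exp (q * u)) with hM1
      set M2 := 1 / kc H * Real.exp (a * v) * Real.exp (-(2 * b) * Real.exp (q * v)) with hM2
      have p1 : 0 < M1 := by positivity
      have p2 : 0 < M2 := by positivity
      have l1 : q * Real.exp (-(2 * b) * Real.exp (q * u)) ≤ M1 := by
        rw [hM1, ← hq]
        apply mul_le_mul_of_nonneg_right _ (Real.exp_pos _).le
        have : 1 ≤ Real.exp (a * u) := Real.one_le_exp (by positivity)
        nlinarith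
      have l2 : q * Real.exp (-(2 * b) * Real.exp (q * v)) ≤ M2 := by
        rw [hM2, ← hq]
        apply mul_le_mul_of_nonneg_right _ (Real.exp_pos _).le
        have : 1 ≤ Real.exp (a * v) := Real.one_le_exp (by positivity)
        nlinarith
      have l3 : q ^ 2 / 2 * Real.exp (-(2 * b) * (Real.exp (q * u) + Real.exp (q * v))) ≤
          1 / 2 * (M1 * M2) := by
        have e : Real.exp (-(2 * b) * (Real.exp (q * u) + Real.exp (q * v))) =
            Real.exp (-(2 * b) * Real.exp (q * u)) * Real.exp (-(2 * b) * Real.exp (q * v)) := by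
          rw [← Real.exp_add]; congr 1; ring
        rw [e]
        have := mul_le_mul l1 l2 (by positivity) p1.le
        nlinarith
      refine l3.trans ?_
      have e1 : f u * (starRingEnd ℂ) (f v) = ((M1 * M2 : ℝ) : ℂ) +
          ((f u - (M1 : ℂ)) * (M2 : ℂ) + (M1 : ℂ) * (starRingEnd ℂ) (f v - (M2 : ℂ)) +
            (f u - (M1 : ℂ)) * (starRingEnd ℂ) (f v - (M2 : ℂ))) := by
        rw [map_sub, Complex.conj_ofReal]
        push_cast
        ring
      rw [e1, Complex.add_re, Complex.ofReal_re]
      set Z := (f u - (M1 : ℂ)) * (M2 : ℂ) + (M1 : ℂ) * (starRingEnd ℂ) (f v - (M2 : ℂ)) +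
            (f u - (M1 : ℂ)) * (starRingEnd ℂ) (f v - (M2 : ℂ)) with hZ
      have hZn : ‖Z‖ ≤ 1 / 10 * M1 * M2 + M1 * (1 / 10 * M2) + (1 / 10 * M1) * (1 / 10 * M2) := by
        rw [hZ]
        refine (norm_add₃_le).trans ?_
        rw [norm_mul, norm_mul, norm_mul, RCLike.norm_conj, Complex.norm_real, Complex.norm_real,
          Real.norm_of_nonneg p1.le, Real.norm_of_nonneg p2.le]
        have q1 := norm_nonneg (f u - (M1 : ℂ))
        have q2 := norm_nonneg (f v - (M2 : ℂ))
        have r1 := mul_le_mul_of_nonneg_right h2 p2.le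
        have r2 := mul_le_mul_of_nonneg_left h3 p1.le
        have r3 := mul_le_mul h2 h3 q2 (by positivity)
        linarith
      have := (abs_le.1 (Complex.abs_re_le_norm Z)).1
      nlinarith [mul_pos p1 p2]
    obtain ⟨T', hT'⟩ := cv_pos (T := max T0 0) (c2 := q ^ 2 / 2) (b2 := 2 * b) hcont hC00 hb0 hq0 hd
      (le_max_right _ _) (by positivity) (by positivity) hlow
    exact ⟨T', fun t ht => hT' t ht⟩
  · refine ⟨2 * C * C * ∫ u, g b q u, b, q / 2, hb0, by positivity, fun t => ?_⟩
    rw [hPhi]
    refine (Complex.abs_re_le_norm _).trans ((cv_decay hC00 hb0 hq0 hd t).trans (le_of_eq ?_))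
    unfold g
    congr 4
    rw [abs_div]
    norm_num
    ring

end Pool.Agent.H471R3.GJ
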