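import Pool.Agent.H471R3.GJ.Prod

set_option autoImplicit false

/-!
# The product of two completed functions: Dirichlet series and zeros
-/

namespace Pool.Agent.H471R3.GJ

open Complex Filter Topology Polynomial

namespace PXX

theorem kc_pos (H : Hc) (h : IsHc H) : 0 < kc H := by
  unfold kc
  have := h.β_nonneg
  have := h.B_one
  linarith

theorem sc_re (H : Hc) (z : ℂ) : (sc H z).re = H.k / 2 + kc H * z.re := by
  unfold sc
  rw [Complex.add_re, Complex.ofReal_re, Complex.re_ofReal_mul]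

/-- the coefficients -/
theorem a_eq (H : Hc) (m : ℕ) : (datc H).a m =
    (∑ d ∈ m.divisors, H.b d * (starRingEnd ℂ) (H.b (m / d))) *
      (((m : ℝ) ^ (-(H.p * H.k / 2)) : ℝ) : ℂ) := by
  show (∑ d ∈ m.divisors, H.b d * (starRingEnd ℂ) (H.b (m / d)) *
    (((m : ℝ) ^ (-(H.p * H.k / 2)) : ℝ) : ℂ)) = _
  rw [Finset.sum_mul]

theorem part1 (H : Hc) (h : IsHc H) (m : ℕ) (hm : 1 ≤ m) :
    ‖(datc H).a m‖ ≤ (datc H).A0 * (m : ℝ) ^ (datc H).A := by
  have hk := h.k_pos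
  have hβ := h.β_nonneg
  have hB := h.B_one
  have hm' : (1 : ℝ) ≤ m := by exact_mod_cast hm
  have hm0 : (0 : ℝ) < m := by linarith
  show ‖(datc H).a m‖ ≤ H.B ^ 2 * (m : ℝ) ^ (H.β + 1)
  rw [a_eq, norm_mul]
  have h1 : ‖(((m : ℝ) ^ (-(H.p * H.k / 2)) : ℝ) : ℂ)‖ ≤ 1 := by
    rw [Complex.norm_real, Real.norm_eq_abs, abs_of_nonneg (Real.rpow_nonneg hm0.le _)]
    apply Real.rpow_le_one_of_one_le_of_nonpos hm'
    have : 0 ≤ (H.p : ℝ) * H.k / 2 := by positivity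
    linarith
  have h2 : ‖∑ d ∈ m.divisors, H.b d * (starRingEnd ℂ) (H.b (m / d))‖ ≤
      ∑ _d ∈ m.divisors, H.B ^ 2 * (m : ℝ) ^ H.β := by
    refine (norm_sum_le _ _).trans (Finset.sum_le_sum ?_)
    intro d hd
    have hdm : d ∣ m := Nat.dvd_of_mem_divisors hd
    have hd1 : 1 ≤ d := Nat.pos_of_mem_divisors hd
    have hd2 : 1 ≤ m / d := Nat.div_pos (Nat.le_of_dvd (by omega) hdm) hd1
    rw [norm_mul, RCLike.norm_conj]
    have e1 := h.b_le d hd1
    have e2 := h.b_le (m / d) hd2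
    have e3 : (m : ℝ) ^ H.β = (d : ℝ) ^ H.β * ((m / d : ℕ) : ℝ) ^ H.β := by
      rw [← Real.mul_rpow (by positivity) (by positivity)]
      congr 1
      have : d * (m / d) = m := Nat.mul_div_cancel' hdm
      exact_mod_cast this.symm
    calc ‖H.b d‖ * ‖H.b (m / d)‖ ≤
        (H.B * (d : ℝ) ^ H.β) * (H.B * ((m / d : ℕ) : ℝ) ^ H.β) :=
          mul_le_mul e1 e2 (norm_nonneg _) (by positivity)
      _ = H.B ^ 2 * (m : ℝ) ^ H.β := by
          rw [e3]
          ring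
  have h3 : ∑ _d ∈ m.divisors, H.B ^ 2 * (m : ℝ) ^ H.β ≤ m * (H.B ^ 2 * (m : ℝ) ^ H.β) := by
    rw [Finset.sum_const, nsmul_eq_mul]
    have : ((m.divisors.card : ℕ) : ℝ) ≤ m := by exact_mod_cast Nat.card_divisors_le_self m
    have h4 : 0 ≤ H.B ^ 2 * (m : ℝ) ^ H.β := by positivity
    exact mul_le_mul_of_nonneg_right this h4
  calc ‖∑ d ∈ m.divisors, H.b d * (starRingEnd ℂ) (H.b (m / d))‖ *
        ‖(((m : ℝ) ^ (-(H.p * H.k / 2)) : ℝ) : ℂ)‖
      ≤ (m * (H.B ^ 2 * (m : ℝ) ^ H.β)) * 1 :=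
        mul_le_mul (h2.trans h3) h1 (norm_nonneg _) (by positivity)
    _ = H.B ^ 2 * (m : ℝ) ^ (H.β + 1) := by
        rw [Real.rpow_add hm0, Real.rpow_one]
        ring

/-- the series as an L-series -/
theorem series_eq (f : ℕ → ℂ) (s : ℂ) :
    (∑' m : ℕ, f (m + 1) * ((m + 1 : ℕ) : ℂ) ^ (-s)) = LSeries f s := by
  unfold LSeries
  have h0 : LSeries.term f s 0 = 0 := LSeries.term_zero f s
  have h1 : ∀ m : ℕ, f (m + 1) * ((m + 1 : ℕ) : ℂ) ^ (-s) = LSeries.term f s (m + 1) := by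
    intro m
    rw [LSeries.term_of_ne_zero (Nat.succ_ne_zero m), Complex.cpow_neg, div_eq_mul_inv]
  rw [tsum_congr h1]
  by_cases hs : Summable (LSeries.term f s)
  · rw [hs.tsum_eq_zero_add, h0, zero_add]
  · rw [tsum_eq_zero_of_not_summable hs, tsum_eq_zero_of_not_summable]
    rwa [summable_nat_add_iff 1]

theorem sum_b (H : Hc) (h : IsHc H) (s : ℂ) (hs : H.β + 1 < s.re) : LSeriesSummable H.b s := by
  apply LSeriesSummable_of_le_const_mul_rpow hs
  refine ⟨H.B, fun n hn => ?_⟩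
  rw [add_sub_cancel_right]
  exact h.b_le n (by omega)

theorem sum_bc (H : Hc) (h : IsHc H) (s : ℂ) (hs : H.β + 1 < s.re) :
    LSeriesSummable (fun n => (starRingEnd ℂ) (H.b n)) s := by
  apply LSeriesSummable_of_le_const_mul_rpow hs
  refine ⟨H.B, fun n hn => ?_⟩
  rw [add_sub_cancel_right, RCLike.norm_conj]
  exact h.b_le n (by omega)

theorem p_re (p : ℕ) (s : ℂ) : ((p : ℂ) * s).re = p * s.re := by
  rw [Complex.mul_re]
  simp

/-- the Mellin transform as an L-series -/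
theorem mellin_eq (H : Hc) (h3 : SDirC H) (s : ℂ) (h0 : 0 < s.re)
    (hs : H.β + 1 < H.p * s.re) : mellin H.φ s =
      ((H.h / (2 * Real.pi) : ℝ) : ℂ) ^ s * Complex.Gamma s * LSeries H.b (H.p * s) := by
  rw [h3 s h0 hs, ← series_eq]
  congr 1
  apply tsum_congr
  intro m
  rw [neg_mul]

theorem arg_ne {x : ℝ} (hx : 0 < x) : ((x : ℝ) : ℂ).arg ≠ Real.pi := by
  rw [Complex.arg_ofReal_of_nonneg hx.le]
  exact Real.pi_pos.ne

/-- the conjugate of an L-series -/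
theorem conj_LSeries (f : ℕ → ℂ) (s : ℂ) : (starRingEnd ℂ) (LSeries f ((starRingEnd ℂ) s)) =
    LSeries (fun n => (starRingEnd ℂ) (f n)) s := by
  unfold LSeries
  rw [Complex.conj_tsum]
  apply tsum_congr
  intro n
  rcases Nat.eq_zero_or_pos n with hn | hn
  · subst hn
    rw [LSeries.term_zero, LSeries.term_zero, map_zero]
  · rw [LSeries.term_of_ne_zero hn.ne', LSeries.term_of_ne_zero hn.ne', map_div₀]
    congr 1
    have h1 : ((n : ℕ) : ℂ).arg ≠ Real.pi := by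
      have : (0 : ℝ) < n := by exact_mod_cast hn
      have h2 := arg_ne this
      simpa using h2
    rw [Complex.cpow_conj _ _ h1, Complex.conj_conj, Complex.conj_natCast]

theorem mellin_conj (H : Hc) (h : IsHc H) (h3 : SDirC H) (s : ℂ) (h0 : 0 < s.re)
    (hs : H.β + 1 < H.p * s.re) : (starRingEnd ℂ) (mellin H.φ ((starRingEnd ℂ) s)) =
      ((H.h / (2 * Real.pi) : ℝ) : ℂ) ^ s * Complex.Gamma s *
        LSeries (fun n => (starRingEnd ℂ) (H.b n)) (H.p * s) := by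
  rw [mellin_eq H h3 _ (by rwa [Complex.conj_re]) (by rwa [Complex.conj_re]), map_mul, map_mul]
  have hx : 0 < H.h / (2 * Real.pi) := div_pos h.h_pos (by positivity)
  have e1 : (starRingEnd ℂ) (((H.h / (2 * Real.pi) : ℝ) : ℂ) ^ ((starRingEnd ℂ) s)) =
      ((H.h / (2 * Real.pi) : ℝ) : ℂ) ^ s := by
    rw [Complex.cpow_conj _ _ (arg_ne hx), Complex.conj_conj, Complex.conj_ofReal]
  have e2 : (starRingEnd ℂ) (Complex.Gamma ((starRingEnd ℂ) s)) = Complex.Gamma s := by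
    rw [Complex.Gamma_conj, Complex.conj_conj]
  have e3 : (starRingEnd ℂ) (LSeries H.b (H.p * (starRingEnd ℂ) s)) =
      LSeries (fun n => (starRingEnd ℂ) (H.b n)) (H.p * s) := by
    rw [← conj_LSeries]
    congr 2
    rw [map_mul, Complex.conj_natCast]
  rw [e1, e2, e3]

/-- the terms of the product -/
theorem term_eq (H : Hc) (z : ℂ) (m : ℕ) :
    (datc H).a (m + 1) * ((m + 1 : ℕ) : ℂ) ^ (-((datc H).κ : ℂ) * z) =
      (LSeries.convolution H.b (fun n => (starRingEnd ℂ) (H.b n))) (m + 1) *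
        ((m + 1 : ℕ) : ℂ) ^ (-(H.p * sc H z)) := by
  rw [a_eq]
  have hm : ((m + 1 : ℕ) : ℂ) ≠ 0 := by exact_mod_cast Nat.succ_ne_zero m
  have e0 : (datc H).κ = H.p * kc H := rfl
  have e1 : -(H.p * sc H z) =
      ((-(H.p * H.k / 2) : ℝ) : ℂ) + -(((datc H).κ : ℝ) : ℂ) * z := by
    rw [e0]
    unfold sc
    push_cast
    ring
  rw [e1, Complex.cpow_add _ _ hm]
  have e2 : ((m + 1 : ℕ) : ℂ) ^ (((-(H.p * H.k / 2) : ℝ) : ℂ)) =
      ((((m + 1 : ℕ) : ℝ) ^ (-(H.p * H.k / 2)) : ℝ) : ℂ) := by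
    rw [Complex.ofReal_cpow (by positivity)]
    norm_cast
  rw [e2]
  have e3 : (LSeries.convolution H.b (fun n => (starRingEnd ℂ) (H.b n))) (m + 1) =
      ∑ d ∈ (m + 1).divisors, H.b d * (starRingEnd ℂ) (H.b ((m + 1) / d)) := by
    rw [LSeries.convolution_def]
    exact Nat.sum_divisorsAntidiagonal (fun a b => H.b a * (starRingEnd ℂ) (H.b b))
  rw [e3]
  ring

theorem part2 (H : Hc) (h : IsHc H) (h2 : SMelC H) (h3 : SDirC H) (z : ℂ)
    (hz2 : (datc H).A + 2 ≤ (datc H).κ * z.re) :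
    (datc H).XX z = (datc H).HH z *
      ∑' m : ℕ, (datc H).a (m + 1) * ((m + 1 : ℕ) : ℂ) ^ (-((datc H).κ : ℂ) * z) := by
  have hkc := kc_pos H h
  have hp : (1 : ℝ) ≤ H.p := by exact_mod_cast h.p_pos
  have hz3 : H.β + 1 + 2 ≤ H.p * kc H * z.re := hz2
  have hβ := h.β_nonneg
  have hk := h.k_pos
  have hzre : 0 < z.re := by
    by_contra hcon
    push Not at hcon
    have : H.p * kc H * z.re ≤ 0 := mul_nonpos_of_nonneg_of_nonpos (by positivity) hcon
    linarith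
  have hsre : 0 < (sc H z).re := by
    rw [sc_re]
    positivity
  have hps : H.β + 1 < H.p * (sc H z).re := by
    rw [sc_re]
    have h6 : 0 < (H.p : ℝ) * (H.k / 2) := by positivity
    nlinarith
  have hps' : H.β + 1 < ((H.p : ℂ) * sc H z).re := by rwa [p_re]
  rw [h2.2.2.2 z, mellin_eq H h3 _ hsre hps, mellin_conj H h h3 _ hsre hps,
    tsum_congr (fun m => term_eq H z m), series_eq,
    LSeries_convolution' (sum_b H h _ hps') (sum_bc H h _ hps')]
  show _ = (((H.h / (2 * Real.pi) : ℝ) : ℂ) ^ (sc H z) * Complex.Gamma (sc H z)) ^ 2 * _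
  ring

/-- the Dirichlet series does not vanish -/
theorem series_ne (H : Hc) (h : IsHc H) (s : ℂ) (hs : H.β + 2 + H.B ≤ H.p * s.re) :
    (∑' m : ℕ, H.b (m + 1) * ((m + 1 : ℕ) : ℂ) ^ (-(H.p : ℂ) * s)) ≠ 0 := by
  set f : ℕ → ℂ := fun m => H.b (m + 1) * ((m + 1 : ℕ) : ℂ) ^ (-(H.p : ℂ) * s) with hf
  have hB := h.B_one
  have hβ := h.β_nonneg
  have hb2 : H.B ≤ (2 : ℝ) ^ H.B := by
    have h1 := one_add_mul_self_le_rpow_one_add (s := 1) (by norm_num) hB
    have h2 : (1 : ℝ) + 1 = 2 := by norm_num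
    rw [h2] at h1
    linarith
  have hbound : ∀ m : ℕ, ‖f (m + 1)‖ ≤ 1 / ((m + 2 : ℕ) : ℝ) ^ 2 := by
    intro m
    have hm0 : (0 : ℝ) < ((m + 1 + 1 : ℕ) : ℝ) := by positivity
    have hm2 : (2 : ℝ) ≤ ((m + 1 + 1 : ℕ) : ℝ) := by
      push_cast
      have : (0 : ℝ) ≤ m := Nat.cast_nonneg m
      linarith
    have e1 : ‖f (m + 1)‖ = ‖H.b (m + 1 + 1)‖ * ((m + 1 + 1 : ℕ) : ℝ) ^ (-(H.p * s.re)) := by
      rw [hf]
      simp only
      rw [norm_mul, Complex.norm_natCast_cpow_of_pos (Nat.succ_pos _)]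
      congr 2
      rw [Complex.mul_re]
      simp
    have e2 := h.b_le (m + 1 + 1) (by omega)
    rw [e1]
    calc ‖H.b (m + 1 + 1)‖ * ((m + 1 + 1 : ℕ) : ℝ) ^ (-(H.p * s.re))
        ≤ H.B * ((m + 1 + 1 : ℕ) : ℝ) ^ H.β * ((m + 1 + 1 : ℕ) : ℝ) ^ (-(H.p * s.re)) :=
          mul_le_mul_of_nonneg_right e2 (Real.rpow_nonneg hm0.le _)
      _ = H.B * ((m + 1 + 1 : ℕ) : ℝ) ^ (H.β + -(H.p * s.re)) := by
          rw [Real.rpow_add hm0]
          ring
      _ ≤ H.B * ((m + 1 + 1 : ℕ) : ℝ) ^ (-2 - H.B) := by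
          refine mul_le_mul_of_nonneg_left ?_ (by linarith)
          exact Real.rpow_le_rpow_of_exponent_le (by linarith) (by linarith)
      _ = H.B * ((m + 1 + 1 : ℕ) : ℝ) ^ (-H.B) * ((m + 1 + 1 : ℕ) : ℝ) ^ (-2 : ℝ) := by
          rw [show (-2 - H.B : ℝ) = -H.B + -2 by ring, Real.rpow_add hm0]
          ring
      _ ≤ H.B * (2 : ℝ) ^ (-H.B) * ((m + 1 + 1 : ℕ) : ℝ) ^ (-2 : ℝ) := by
          refine mul_le_mul_of_nonneg_right ?_ (Real.rpow_nonneg hm0.le _)
          refine mul_le_mul_of_nonneg_left ?_ (by linarith)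
          exact Real.rpow_le_rpow_of_nonpos (by norm_num) hm2 (by linarith)
      _ ≤ 1 * ((m + 1 + 1 : ℕ) : ℝ) ^ (-2 : ℝ) := by
          refine mul_le_mul_of_nonneg_right ?_ (Real.rpow_nonneg hm0.le _)
          rw [Real.rpow_neg (by norm_num), ← div_eq_mul_inv, div_le_one (by positivity)]
          exact hb2
      _ = 1 / ((m + 2 : ℕ) : ℝ) ^ 2 := by
          rw [one_mul, Real.rpow_neg hm0.le, one_div]
          congr 1
          exact Real.rpow_two _
  have hz2 : HasSum (fun n : ℕ => 1 / ((n + 2 : ℕ) : ℝ) ^ 2) (Real.pi ^ 2 / 6 - 1) := by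
    have h1 := (hasSum_nat_add_iff' 2).2 hasSum_zeta_two
    have h2 : (∑ i ∈ Finset.range 2, 1 / (i : ℝ) ^ 2) = 1 := by
      rw [Finset.sum_range_succ, Finset.sum_range_succ, Finset.sum_range_zero]
      norm_num
    rw [h2] at h1
    exact h1
  have hsum : Summable f := by
    rw [← summable_nat_add_iff 1]
    exact Summable.of_norm_bounded hz2.summable hbound
  have htail : ‖∑' m : ℕ, f (m + 1)‖ ≤ Real.pi ^ 2 / 6 - 1 := tsum_of_norm_bounded hz2 hbound
  have hpi : Real.pi ^ 2 / 6 - 1 < 1 := by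
    have h1 := Real.pi_lt_d2
    have h2 := Real.pi_pos
    nlinarith
  intro h0
  have h1 := hsum.tsum_eq_zero_add
  rw [h0] at h1
  have hf0 : f 0 = 1 := by
    rw [hf]
    simp [h.b_one]
  rw [hf0] at h1
  have h2 : (∑' m : ℕ, f (m + 1)) = -1 := by linear_combination -h1
  rw [h2, norm_neg, norm_one] at htail
  linarith

theorem mellin_ne (H : Hc) (h : IsHc H) (h3 : SDirC H) (s : ℂ) (h0 : 0 < s.re)
    (hs : H.β + 2 + H.B ≤ H.p * s.re) : mellin H.φ s ≠ 0 := by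
  have hB := h.B_one
  rw [h3 s h0 (by linarith)]
  have hh : ((H.h / (2 * Real.pi) : ℝ) : ℂ) ^ s ≠ 0 := by
    rw [Complex.cpow_def_of_ne_zero]
    · exact Complex.exp_ne_zero _
    · have : 0 < H.h / (2 * Real.pi) := div_pos h.h_pos (by positivity)
      exact_mod_cast this.ne'
  have hg : Complex.Gamma s ≠ 0 := Complex.Gamma_ne_zero_of_re_pos h0
  exact mul_ne_zero (mul_ne_zero hh hg) (series_ne H h _ hs)

theorem ne_zero (H : Hc) (h : IsHc H) (h2 : SMelC H) (h3 : SDirC H)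
    (z : ℂ) (hz : 1 / 2 < z.re) : (datc H).XX z ≠ 0 := by
  have hkc := kc_pos H h
  have hk := h.k_pos
  have hp : (1 : ℝ) ≤ H.p := by exact_mod_cast h.p_pos
  have hβ := h.β_nonneg
  have hB := h.B_one
  have hsre : 0 < (sc H z).re := by
    rw [sc_re]
    have : 0 < z.re := by linarith
    positivity
  have hps : H.β + 2 + H.B ≤ H.p * (sc H z).re := by
    rw [sc_re]
    have h6 : 0 < (H.p : ℝ) * (H.k / 2) := by positivity
    have h7 : kc H / 2 ≤ H.p * (kc H * z.re) := by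
      have h8 : kc H / 2 ≤ kc H * z.re := by nlinarith
      have h9 : 0 ≤ kc H * z.re := by linarith
      nlinarith
    have h8 : kc H / 2 = H.β + 2 + H.B := by
      unfold kc
      ring
    linarith
  rw [h2.2.2.2 z]
  apply mul_ne_zero (mellin_ne H h h3 _ hsre hps)
  rw [_root_.map_ne_zero]
  apply mellin_ne H h h3
  · rwa [Complex.conj_re]
  · rwa [Complex.conj_re]

theorem XX_even (H : Hc) (h1 : SPhiC H) (z : ℂ) : (datc H).XX (-z) = (datc H).XX z := by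
  show (∫ t : ℝ, ((PhiC H t : ℝ) : ℂ) * cexp (-z * t)) =
    ∫ t : ℝ, ((PhiC H t : ℝ) : ℂ) * cexp (z * t)
  rw [← MeasureTheory.integral_neg_eq_self (fun t : ℝ => ((PhiC H t : ℝ) : ℂ) * cexp (z * t))]
  congr 1
  funext t
  rw [h1.2.1 t, one_mul]
  push_cast
  congr 2
  ring

end PXX

theorem xxC (H : Hc) (h : IsHc H) (h1 : SPhiC H) (h2 : SMelC H) (h3 : SDirC H) : SXXC H := by
  have hkc := PXX.kc_pos H h
  refine ⟨PXX.part1 H h, fun z _ hz2 => PXX.part2 H h h2 h3 z hz2, ?_, ?_⟩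
  · intro z hz
    by_contra hcon
    push Not at hcon
    rcases lt_or_ge 0 z.re with h6 | h6
    · rw [abs_of_pos h6] at hcon
      exact PXX.ne_zero H h h2 h3 z hcon hz
    · rw [abs_of_nonpos h6] at hcon
      refine PXX.ne_zero H h h2 h3 (-z) (by simpa using hcon) ?_
      rw [PXX.XX_even H h1, hz]
  · constructor
    · intro hz s hs
      have hkc' : ((kc H : ℝ) : ℂ) ≠ 0 := by exact_mod_cast hkc.ne'
      have e1 : sc H ((s - ((H.k / 2 : ℝ) : ℂ)) / ((kc H : ℝ) : ℂ)) = s := by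
        unfold sc
        rw [mul_div_cancel₀ _ hkc']
        ring
      have e2 := hz ((s - ((H.k / 2 : ℝ) : ℂ)) / ((kc H : ℝ) : ℂ)) (by
        rw [h2.2.2.2, e1, hs, zero_mul])
      have e3 := PXX.sc_re H ((s - ((H.k / 2 : ℝ) : ℂ)) / ((kc H : ℝ) : ℂ))
      rw [e1, e2, mul_zero, add_zero] at e3
      exact e3
    · intro hs z hz
      rw [h2.2.2.2, mul_eq_zero] at hz
      have e1 : (sc H z).re = H.k / 2 := by
        rcases hz with hz | hz
        · exact hs _ hz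
        · rw [map_eq_zero] at hz
          have := hs _ hz
          rwa [Complex.conj_re] at this
      rw [PXX.sc_re] at e1
      have e2 : kc H * z.re = 0 := by linarith
      rcases mul_eq_zero.1 e2 with h0 | h0
      · exact absurd h0 hkc.ne'
      · exact h0

end Pool.Agent.H471R3.GJ
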