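import Pool.Agent.H471R3.GJ.All1
import Pool.Agent.H471R3.GJ.NH1
import Pool.Agent.H471R3.GJ.NH2
import Pool.Agent.H471R3.GJ.NHPos
import Pool.Agent.H471R3.GJ.PFc
import Pool.Agent.H471R3.GJ.PPhi
import Pool.Agent.H471R3.GJ.PMel
import Pool.Agent.H471R3.GJ.PDir
import Pool.Agent.H471R3.GJ.PLog
import Pool.Agent.H471R3.GJ.PXX
import Pool.Agent.H471R3.GJ.PIsL
import Pool.Agent.H471R3.GJ.Dch
import Pool.Agent.H471R3.GJ.DchL

set_option autoImplicit false

/-!
# Assembly, part 2: products and the criterion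
-/

namespace Pool.Agent.H471R3.GJ

open Complex Filter Topology Polynomial
open Pool.Agent.H24R2.JP (Hyperbolic)

namespace T

theorem nh1T (D : Dat) (h : IsL D) : SNH1 D :=
  nh1 D hadT circT jensenT (b1T D h) (growT D h) (zerosT D h) (gamT D h) (goodT D h)

theorem nh2T (D : Dat) (h : IsL D) : SNH2 D := nh2 D (b1T D h) (gamT D h)

/-- The main theorem for the class `IsL`. -/
theorem criterion (D : Dat) (h : IsL D) : ∃ C : ℝ, 0 < C ∧
    (∀ d n : ℕ, 1 ≤ d → C * Real.log (d + 1) ≤ n → 0 < gam D n ∧ 0 < gam D (n + d) ∧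
      ∀ z : ℂ, aeval z (jensen D d n) = 0 → z.im = 0 ∧ z.re < 0) ∧
    ((∀ z : ℂ, D.XX z = 0 → z.re = 0) ↔
      ∀ d n : ℕ, 1 ≤ d → (n : ℝ) < C * Real.log (d + 1) → NH (jensen D d n)) := by
  obtain ⟨C0, hC0, hhyp⟩ := hypT D h
  obtain ⟨k0, hk0, -⟩ := gamT D h
  obtain ⟨C, hCdef⟩ : ∃ C : ℝ, C = max C0 ((k0 : ℝ) / Real.log 2) := ⟨_, rfl⟩
  have hlog2 : 0 < Real.log 2 := Real.log_pos (by norm_num)
  have hC : 0 < C := by rw [hCdef]; exact lt_max_of_lt_left hC0
  have key : ∀ d n : ℕ, 1 ≤ d → C * Real.log (d + 1) ≤ n → 0 < gam D n ∧ 0 < gam D (n + d) ∧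
      ∀ z : ℂ, aeval z (jensen D d n) = 0 → z.im = 0 ∧ z.re < 0 := by
    intro d n hd hdn
    have hd1 : (1 : ℝ) ≤ d := by exact_mod_cast hd
    have hlog : Real.log 2 ≤ Real.log (d + 1) := Real.log_le_log (by norm_num) (by linarith)
    have hlogpos : 0 < Real.log (d + 1) := by linarith
    have h1 : C0 * Real.log (d + 1) ≤ n := le_trans
      (mul_le_mul_of_nonneg_right (by rw [hCdef]; exact le_max_left _ _) hlogpos.le) hdn
    have h2 : (k0 : ℝ) ≤ n := by
      have h3 : (k0 : ℝ) / Real.log 2 ≤ C := by rw [hCdef]; exact le_max_right _ _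
      have h4 : (k0 : ℝ) ≤ C * Real.log 2 := by
        rw [div_le_iff₀ hlog2] at h3
        exact h3
      calc (k0 : ℝ) ≤ C * Real.log 2 := h4
        _ ≤ C * Real.log (d + 1) := mul_le_mul_of_nonneg_left hlog hC.le
        _ ≤ n := hdn
    have h3 : k0 ≤ n := by exact_mod_cast h2
    exact ⟨hk0 n h3, hk0 (n + d) (by omega), nhpos D k0 hk0 d n h3 hd (hhyp d n hd h1)⟩
  refine ⟨C, hC, key, ?_, ?_⟩
  · intro hRH d n _ _
    exact nh1T D h hRH d n
  · intro hJ
    refine nh2T D h ?_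
    intro d
    rcases Nat.eq_zero_or_pos d with rfl | hd
    · by_cases h0 : gam D 0 = 0
      · left
        simp [jensen, h0]
      · right
        intro z hz
        exfalso
        apply h0
        simp [jensen] at hz
        exact hz
    · by_cases hn : ((0 : ℕ) : ℝ) < C * Real.log (d + 1)
      · exact hJ d 0 hd hn
      · right
        intro z hz
        have := (key d 0 hd (not_lt.1 hn)).2.2 z hz
        exact ⟨this.1, this.2.le⟩

end T

namespace TC

theorem fcT (H : Hc) (h : IsHc H) : SFc H := fcS H h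
theorem phiT (H : Hc) (h : IsHc H) : SPhiC H := phiC H h (fcT H h)
theorem melT (H : Hc) (h : IsHc H) : SMelC H := melC H h (fcT H h)
theorem dirT (H : Hc) (h : IsHc H) : SDirC H := dirC H h
theorem logT (H : Hc) (h : IsHc H) : SLogC H := logC H h
theorem xxT (H : Hc) (h : IsHc H) : SXXC H := xxC H h (phiT H h) (melT H h) (dirT H h)
theorem isLT (H : Hc) (h : IsHc H) : IsL (datc H) := isLC H h (phiT H h) (logT H h) (xxT H h)
theorem dchT : SDch := dchS
theorem dchLT : SDchL := dchL dchS dirT melT fcT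

end TC

end Pool.Agent.H471R3.GJ
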