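import Pool.Agent.H471R3.GJ.All2

set_option autoImplicit false

/-!
# The criterion at logarithmic scale, unscaled form
-/

namespace Pool.Agent.H471R3.GJ.Crit

open Complex Filter Topology Polynomial
open Pool.Agent.H24R2.JP (Hyperbolic)

/-- `γ(k) = k! / (2k+r)! * F^(2k+r)(0)`, so that `F z = z ^ r * ∑ γ(k) z ^ (2k) / k!` for `F` of
parity `r`. -/
noncomputable def gamma (r : ℕ) (F : ℂ → ℂ) (k : ℕ) : ℝ :=
  (k.factorial : ℝ) / ((2 * k + r).factorial : ℝ) * (iteratedDeriv (2 * k + r) F 0).re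

/-- The Jensen polynomials. -/
noncomputable def jensenP (r : ℕ) (F : ℂ → ℂ) (d n : ℕ) : ℝ[X] :=
  ∑ j ∈ Finset.range (d + 1), Polynomial.C ((d.choose j : ℝ) * gamma r F (n + j)) * Polynomial.X ^ j

/-- Degree `d`, all roots real and negative. -/
def Hyp (d : ℕ) (P : ℝ[X]) : Prop := P.natDegree = d ∧ ∀ z : ℂ, aeval z P = 0 → z.im = 0 ∧ z.re < 0

/-- The criterion. -/
def LogCriterion (r : ℕ) (F : ℂ → ℂ) (RH : Prop) : Prop := ∃ C : ℝ, 0 < C ∧
  (∀ d n : ℕ, 1 ≤ d → C * Real.log (d + 1) ≤ n → Hyp d (jensenP r F d n)) ∧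
  (RH ↔ ∀ d n : ℕ, 1 ≤ d → (n : ℝ) < C * Real.log (d + 1) → NH (jensenP r F d n))

lemma iter_id_mul {g : ℂ → ℂ} (hg : Differentiable ℂ g) (m : ℕ) :
    iteratedDeriv (m + 1) (fun z : ℂ => z * g z) 0 = ((m + 1 : ℕ) : ℂ) * iteratedDeriv m g 0 := by
  have h1 : ContDiffAt ℂ ((m + 1 : ℕ) : WithTop ℕ∞) (fun z : ℂ => z) 0 := contDiffAt_id
  have h2 : ContDiffAt ℂ ((m + 1 : ℕ) : WithTop ℕ∞) g 0 := hg.contDiff.contDiffAt
  have h3 := iteratedDeriv_mul h1 h2
  have h4 : (fun z : ℂ => z * g z) = ((fun z : ℂ => z) * g) := rfl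
  rw [h4, h3, Finset.sum_eq_single 1]
  · have h5 : iteratedDeriv 1 (fun z : ℂ => z) 0 = 1 := by
      rw [iteratedDeriv_one]
      simp
    rw [h5]
    simp
  · intro i hi hi1
    rcases Nat.lt_or_gt_of_ne hi1 with h6 | h6
    · have : i = 0 := by omega
      subst this
      simp
    · have h7 : iteratedDeriv i (fun z : ℂ => z) 0 = 0 := by
        obtain ⟨j, rfl⟩ : ∃ j, i = j + 2 := ⟨i - 2, by omega⟩
        rw [iteratedDeriv_succ']
        have h8 : deriv (fun z : ℂ => z) = fun _ => (1 : ℂ) := by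
          funext z
          simp
        rw [h8, iteratedDeriv_succ']
        simp
      rw [h7]
      simp
  · intro h6
    exfalso
    apply h6
    rw [Finset.mem_range]
    omega

lemma iter_scale {F : ℂ → ℂ} (hF : Differentiable ℂ F) (c K : ℝ) (n : ℕ) :
    iteratedDeriv n (fun z : ℂ => (K : ℂ) * F ((c : ℂ) * z)) 0 =
      (K : ℂ) * ((c : ℂ) ^ n * iteratedDeriv n F 0) := by
  have h1 := iteratedDeriv_const_mul_field (n := n) (K : ℂ) (fun z : ℂ => F ((c : ℂ) * z)) (x := 0)
  rw [h1]
  have h2 := congrFun (iteratedDeriv_comp_const_mul (n := n) (f := F) (hF.contDiff) (c : ℂ)) 0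
  rw [h2, mul_zero]

/-- Hypotheses of the transfer. -/
structure Scale (D : Dat) (r : ℕ) (F : ℂ → ℂ) (c K : ℝ) : Prop where
  isL : IsL D
  hr : r = 0 ∨ r = 1
  hc : 0 < c
  hK : 0 < K
  hX : ∀ z : ℂ, z ^ r * D.XX z = (K : ℂ) * F ((c : ℂ) * z)

variable {D : Dat} {r : ℕ} {F : ℂ → ℂ} {c K : ℝ}

lemma XX_diff (h : IsL D) : Differentiable ℂ D.XX := by
  obtain ⟨hF, hX, -⟩ := T.b1T D h
  have : D.XX = fun z => FF D (z ^ 2) := by
    funext z
    rw [hX]
  rw [this]
  exact hF.comp (differentiable_id.pow 2)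

lemma F_eq (h : Scale D r F c K) (w : ℂ) : F w = (w / c) ^ r * D.XX (w / c) / K := by
  have hc : (c : ℂ) ≠ 0 := by exact_mod_cast h.hc.ne'
  have hK : (K : ℂ) ≠ 0 := by exact_mod_cast h.hK.ne'
  rw [h.hX]
  have : (c : ℂ) * (w / c) = w := by field_simp
  rw [this]
  field_simp

lemma F_diff (h : Scale D r F c K) : Differentiable ℂ F := by
  have : F = fun w : ℂ => (w / c) ^ r * D.XX (w / c) / K := by
    funext w
    exact F_eq h w
  rw [this]
  exact (((differentiable_id.div_const _).pow r).mul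
    ((XX_diff h.isL).comp (differentiable_id.div_const _))).div_const _

lemma gam_eq (h : Scale D r F c K) (k : ℕ) :
    gam D k = K * c ^ (2 * k + r) * gamma r F k := by
  have hFd := F_diff h
  unfold gam gamma
  rcases h.hr with hr | hr
  · subst hr
    have h1 : D.XX = fun z : ℂ => (K : ℂ) * F ((c : ℂ) * z) := by
      funext z
      have := h.hX z
      rw [pow_zero, one_mul] at this
      exact this
    rw [h1, iter_scale hFd]
    have h2 : (K : ℂ) * ((c : ℂ) ^ (2 * k) * iteratedDeriv (2 * k) F 0) =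
        ((K * c ^ (2 * k) : ℝ) : ℂ) * iteratedDeriv (2 * k) F 0 := by push_cast; ring
    rw [h2, Complex.re_ofReal_mul]
    simp only [add_zero]
    ring
  · subst hr
    have h1 : (fun z : ℂ => z * D.XX z) = fun z : ℂ => (K : ℂ) * F ((c : ℂ) * z) := by
      funext z
      have := h.hX z
      rw [pow_one] at this
      exact this
    have h3 := iter_id_mul (XX_diff h.isL) (2 * k)
    rw [h1, iter_scale hFd] at h3
    have h2 : (K : ℂ) * ((c : ℂ) ^ (2 * k + 1) * iteratedDeriv (2 * k + 1) F 0) =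
        ((K * c ^ (2 * k + 1) : ℝ) : ℂ) * iteratedDeriv (2 * k + 1) F 0 := by push_cast; ring
    rw [h2] at h3
    have h4 := congrArg Complex.re h3
    have h5 : (((2 * k + 1 : ℕ) : ℂ)) = (((2 * k + 1 : ℕ) : ℝ) : ℂ) := by push_cast; rfl
    rw [h5, Complex.re_ofReal_mul, Complex.re_ofReal_mul] at h4
    have h6 : ((2 * k + 1).factorial : ℝ) = ((2 * k + 1 : ℕ) : ℝ) * ((2 * k).factorial : ℝ) := by
      rw [Nat.factorial_succ]
      push_cast
      ring
    rw [h6]
    have h7 : (((2 * k + 1 : ℕ) : ℝ)) ≠ 0 := by positivity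
    have h8 : ((2 * k).factorial : ℝ) ≠ 0 := by positivity
    have h9 : K * c ^ (2 * k + 1) * ((k.factorial : ℝ) / (((2 * k + 1 : ℕ) : ℝ) * ((2 * k).factorial : ℝ)) *
        (iteratedDeriv (2 * k + 1) F 0).re) = (k.factorial : ℝ) / (((2 * k + 1 : ℕ) : ℝ) *
        ((2 * k).factorial : ℝ)) * (K * c ^ (2 * k + 1) * (iteratedDeriv (2 * k + 1) F 0).re) := by ring
    rw [h9, h4]
    field_simp

lemma aeval_jensen (h : Scale D r F c K) (d n : ℕ) (z : ℂ) :
    aeval z (jensen D d n) =
      ((K * c ^ (2 * n + r) : ℝ) : ℂ) * aeval (((c ^ 2 : ℝ) : ℂ) * z) (jensenP r F d n) := by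
  unfold jensen jensenP
  rw [map_sum, map_sum, Finset.mul_sum]
  refine Finset.sum_congr rfl fun j _ => ?_
  rw [gam_eq h]
  simp only [map_mul, aeval_C, map_pow, aeval_X, Complex.coe_algebraMap]
  push_cast
  have : 2 * (n + j) + r = (2 * n + r) + 2 * j := by ring
  rw [this, pow_add]
  ring

lemma poly_zero_iff {P : ℝ[X]} : P = 0 ↔ ∀ z : ℂ, aeval z P = 0 := by
  constructor
  · rintro rfl z
    simp
  · intro hP
    by_contra hne
    have h1 : P.map (algebraMap ℝ ℂ) ≠ 0 := by
      rwa [Ne, Polynomial.map_eq_zero_iff (algebraMap ℝ ℂ).injective]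
    apply h1
    apply Polynomial.funext
    intro z
    have := hP z
    rw [Polynomial.aeval_def, ← Polynomial.eval_map] at this
    rw [this, Polynomial.eval_zero]

lemma zero_iff (h : Scale D r F c K) (d n : ℕ) (w : ℂ) :
    aeval w (jensenP r F d n) = 0 ↔ aeval (w / ((c ^ 2 : ℝ) : ℂ)) (jensen D d n) = 0 := by
  have hc2 : ((c ^ 2 : ℝ) : ℂ) ≠ 0 := by
    have : c ^ 2 ≠ 0 := pow_ne_zero _ h.hc.ne'
    exact_mod_cast this
  have hK2 : ((K * c ^ (2 * n + r) : ℝ) : ℂ) ≠ 0 := by
    have : K * c ^ (2 * n + r) ≠ 0 := mul_ne_zero h.hK.ne' (pow_ne_zero _ h.hc.ne')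
    exact_mod_cast this
  rw [aeval_jensen h]
  have : ((c ^ 2 : ℝ) : ℂ) * (w / ((c ^ 2 : ℝ) : ℂ)) = w := by field_simp
  rw [this]
  constructor
  · intro h1
    rw [h1, mul_zero]
  · intro h1
    rcases mul_eq_zero.1 h1 with h2 | h2
    · exact absurd h2 hK2
    · exact h2

lemma zero_iff' (h : Scale D r F c K) (d n : ℕ) (z : ℂ) :
    aeval z (jensen D d n) = 0 ↔ aeval (((c ^ 2 : ℝ) : ℂ) * z) (jensenP r F d n) = 0 := by
  rw [zero_iff h]
  have hc2 : ((c ^ 2 : ℝ) : ℂ) ≠ 0 := by
    have : c ^ 2 ≠ 0 := pow_ne_zero _ h.hc.ne'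
    exact_mod_cast this
  have : ((c ^ 2 : ℝ) : ℂ) * z / ((c ^ 2 : ℝ) : ℂ) = z := by field_simp
  rw [this]

lemma nh_iff (h : Scale D r F c K) (d n : ℕ) : NH (jensen D d n) ↔ NH (jensenP r F d n) := by
  have hc2 : 0 < c ^ 2 := pow_pos h.hc 2
  unfold NH
  rw [poly_zero_iff, poly_zero_iff]
  constructor
  · rintro (h1 | h1)
    · left
      intro w
      rw [zero_iff h]
      exact h1 _
    · right
      intro w hw
      rw [zero_iff h] at hw
      have h2 := h1 _ hw
      rw [Complex.div_ofReal_im, Complex.div_ofReal_re] at h2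
      constructor
      · rcases div_eq_zero_iff.1 h2.1 with h3 | h3
        · exact h3
        · exact absurd h3 hc2.ne'
      · by_contra hcon
        push Not at hcon
        have := div_pos hcon hc2
        linarith [h2.2]
  · rintro (h1 | h1)
    · left
      intro z
      rw [zero_iff' h]
      exact h1 _
    · right
      intro z hz
      rw [zero_iff' h] at hz
      have h2 := h1 _ hz
      rw [Complex.im_ofReal_mul, Complex.re_ofReal_mul] at h2
      constructor
      · rcases mul_eq_zero.1 h2.1 with h3 | h3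
        · exact absurd h3 hc2.ne'
        · exact h3
      · by_contra hcon
        push Not at hcon
        have := mul_pos hc2 hcon
        linarith [h2.2]

theorem logCriterion (h : Scale D r F c K) :
    LogCriterion r F (∀ z : ℂ, D.XX z = 0 → z.re = 0) := by
  obtain ⟨C, hC, h1, h2⟩ := T.criterion D h.isL
  have hc2 : 0 < c ^ 2 := pow_pos h.hc 2
  refine ⟨C, hC, ?_, ?_⟩
  · intro d n hd hdn
    obtain ⟨-, h4, h5⟩ := h1 d n hd hdn
    constructor
    · apply Polynomial.natDegree_eq_of_degree_eq_some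
      have hlead : (jensenP r F d n).coeff d ≠ 0 := by
        have : (jensenP r F d n).coeff d = gamma r F (n + d) := by
          unfold jensenP
          rw [Polynomial.finsetSum_coeff, Finset.sum_eq_single d]
          · rw [Polynomial.coeff_C_mul_X_pow]
            simp
          · intro j hj hjd
            rw [Polynomial.coeff_C_mul_X_pow]
            rw [if_neg (Ne.symm hjd)]
          · intro hcon
            exfalso
            apply hcon
            simp
        rw [this]
        intro h0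
        rw [gam_eq h, h0, mul_zero] at h4
        exact lt_irrefl _ h4
      refine le_antisymm ?_ (Polynomial.le_degree_of_ne_zero hlead)
      unfold jensenP
      refine (Polynomial.degree_sum_le _ _).trans ?_
      refine Finset.sup_le fun j hj => ?_
      refine (Polynomial.degree_C_mul_X_pow_le _ _).trans ?_
      have : j ≤ d := by
        have := Finset.mem_range.1 hj
        omega
      exact_mod_cast this
    · intro w hw
      rw [zero_iff h] at hw
      have h6 := h5 _ hw
      rw [Complex.div_ofReal_im, Complex.div_ofReal_re] at h6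
      constructor
      · rcases div_eq_zero_iff.1 h6.1 with h3 | h3
        · exact h3
        · exact absurd h3 hc2.ne'
      · by_contra hcon
        push Not at hcon
        have := div_nonneg hcon hc2.le
        linarith [h6.2]
  · rw [h2]
    constructor
    · intro h3 d n hd hdn
      exact (nh_iff h d n).1 (h3 d n hd hdn)
    · intro h3 d n hd hdn
      exact (nh_iff h d n).2 (h3 d n hd hdn)

end Pool.Agent.H471R3.GJ.Crit
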