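import Pool.Agent.H471R3.GJ.Crit
import Pool.Agent.H471R3.GJ.Cusp

set_option autoImplicit false

/-!
# Instances of the criterion
-/

namespace Pool.Agent.H471R3.GJ.Inst

open Complex Filter Topology Polynomial
open Pool.Agent.H471R3.GJ.Crit

/-! ## Products -/

/-- `Λ(k/2+z) conj Λ(k/2+conj z)`. -/
noncomputable def FP (H : Hc) (z : ℂ) : ℂ :=
  mellin H.φ (((H.k / 2 : ℝ) : ℂ) + z) *
    (starRingEnd ℂ) (mellin H.φ (((H.k / 2 : ℝ) : ℂ) + (starRingEnd ℂ) z))

theorem kc_pos {H : Hc} (h : IsHc H) : 0 < kc H := by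
  unfold kc
  have := h.β_nonneg
  have := h.B_one
  linarith

theorem scaleP (H : Hc) (h : IsHc H) : Scale (datc H) 0 (FP H) (kc H) 1 where
  isL := TC.isLT H h
  hr := Or.inl rfl
  hc := kc_pos h
  hK := one_pos
  hX := by
    intro z
    rw [pow_zero, one_mul, (TC.melT H h).2.2.2 z]
    unfold FP sc
    simp only [map_add, map_mul, Complex.conj_ofReal, Complex.ofReal_one, one_mul]

theorem critP (H : Hc) (h : IsHc H) :
    LogCriterion 0 (FP H) (∀ s : ℂ, mellin H.φ s = 0 → s.re = H.k / 2) := by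
  have h1 := logCriterion (scaleP H h)
  have h2 := (TC.xxT H h).2.2.2
  obtain ⟨C, hC, h3, h4⟩ := h1
  exact ⟨C, hC, h3, h2.symm.trans h4⟩

/-! ## Self-dual series -/

/-- `Λ(k/2+z)`. -/
noncomputable def FS (H : Hk) (z : ℂ) : ℂ :=
  mellin (fun y : ℝ => ((H.φ y : ℝ) : ℂ)) (((H.k / 2 : ℝ) : ℂ) + z)

open Classical in
/-- The parity. -/
noncomputable def rS (H : Hk) : ℕ := if H.ε = 1 then 0 else 1

theorem kp_pos {H : Hk} (h : IsHk H) : 0 < kp H := by
  unfold kp
  have := h.β_nonneg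
  have := h.B_one
  linarith

open Classical in
theorem scaleS (H : Hk) (h : IsHk H) :
    Scale (dat H) (rS H) (FS H) (kp H) 1 where
  isL := TH.isLT H h
  hr := by
    unfold rS
    by_cases he : H.ε = 1
    · simp [he]
    · simp [he]
  hc := kp_pos h
  hK := one_pos
  hX := by
    intro z
    have h1 := (TH.xxT H h).1 z
    have h2 : z ^ rS H = if H.ε = 1 then 1 else z := by
      unfold rS
      by_cases he : H.ε = 1
      · simp [he]
      · simp [he]
    rw [h2, h1]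
    unfold FS sH
    rw [Complex.ofReal_one, one_mul]

open Classical in
theorem rhS (H : Hk) (h : IsHk H) : (∀ z : ℂ, (dat H).XX z = 0 → z.re = 0) ↔
      (∀ s : ℂ, mellin (fun y : ℝ => ((H.φ y : ℝ) : ℂ)) s = 0 → s.re = H.k / 2) := by
  have hk := kp_pos h
  have hkc : (kp H : ℂ) ≠ 0 := by exact_mod_cast hk.ne'
  constructor
  · intro h3 s hs
    have h4 := (TH.xxT H h).1 ((s - ((H.k / 2 : ℝ) : ℂ)) / (kp H : ℂ))
    have h5 : sH H ((s - ((H.k / 2 : ℝ) : ℂ)) / (kp H : ℂ)) = s := by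
      unfold sH
      field_simp
      ring
    rw [h5, hs] at h4
    have h6 : ((s - ((H.k / 2 : ℝ) : ℂ)) / (kp H : ℂ)).re = 0 := by
      rcases mul_eq_zero.1 h4 with h7 | h7
      · by_cases he : H.ε = 1
        · rw [if_pos he] at h7
          exact absurd h7 one_ne_zero
        · rw [if_neg he] at h7
          rw [h7, Complex.zero_re]
      · exact h3 _ h7
    rw [Complex.div_ofReal_re] at h6
    rcases div_eq_zero_iff.1 h6 with h8 | h8
    · rw [Complex.sub_re, Complex.ofReal_re] at h8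
      linarith
    · exact absurd h8 hk.ne'
  · intro h3 z hz
    have h4 := (TH.xxT H h).1 z
    rw [hz, mul_zero] at h4
    have h5 := h3 _ h4.symm
    unfold sH at h5
    rw [Complex.add_re, Complex.ofReal_re, Complex.re_ofReal_mul] at h5
    have h6 : kp H * z.re = 0 := by linarith
    rcases mul_eq_zero.1 h6 with h7 | h7
    · exact absurd h7 hk.ne'
    · exact h7

open Classical in
theorem critS (H : Hk) (h : IsHk H) :
    LogCriterion (rS H) (FS H)
      (∀ s : ℂ, mellin (fun y : ℝ => ((H.φ y : ℝ) : ℂ)) s = 0 → s.re = H.k / 2) := by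
  have h1 := logCriterion (scaleS H h)
  obtain ⟨C, hC, h3, h4⟩ := h1
  exact ⟨C, hC, h3, (rhS H h).symm.trans h4⟩

/-! ## Real coefficients -/

/-- The real data. -/
noncomputable def re (H : Hc) : Hk where
  φ y := (H.φ y).re
  b m := (H.b m).re
  k := H.k
  h := H.h
  p := H.p
  β := H.β
  B := H.B
  ε := H.ε.re

theorem re_sum {H : Hc} (h : IsHc H) (hb : ∀ m, (H.b m).im = 0) (y : ℝ) (hy : 0 < y) :
    HasSum (fun m : ℕ => (re H).b (m + 1) *
      Real.exp (-(2 * Real.pi * ((m + 1 : ℕ) : ℝ) ^ H.p * y / H.h))) ((re H).φ y) ∧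
    (H.φ y).im = 0 := by
  have h0 := h.φ_sum y hy
  have h1 := Complex.hasSum_re h0
  have h2 := Complex.hasSum_im h0
  constructor
  · have h3 : (fun m : ℕ => (H.b (m + 1) *
      ((Real.exp (-(2 * Real.pi * ((m + 1 : ℕ) : ℝ) ^ H.p * y / H.h)) : ℝ) : ℂ)).re) = fun m : ℕ =>
      (re H).b (m + 1) * Real.exp (-(2 * Real.pi * ((m + 1 : ℕ) : ℝ) ^ H.p * y / H.h)) := by
      funext m
      rw [Complex.re_mul_ofReal]
      rfl
    rw [h3] at h1
    exact h1
  · refine h2.unique ?_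
    have h3 : (fun m : ℕ => (H.b (m + 1) *
      ((Real.exp (-(2 * Real.pi * ((m + 1 : ℕ) : ℝ) ^ H.p * y / H.h)) : ℝ) : ℂ)).im) = fun _ => 0 := by
      funext m
      rw [Complex.im_mul_ofReal, hb, zero_mul]
    rw [h3]
    exact hasSum_zero

theorem re_phi {H : Hc} (h : IsHc H) (hb : ∀ m, (H.b m).im = 0) (y : ℝ) (hy : 0 < y) :
    H.φ y = (((re H).φ y : ℝ) : ℂ) := by
  apply Complex.ext
  · rfl
  · rw [Complex.ofReal_im]
    exact (re_sum h hb y hy).2

theorem phi_ne {H : Hc} (h : IsHc H) : ∃ y : ℝ, 0 < y ∧ H.φ y ≠ 0 := by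
  obtain ⟨T, hT⟩ := (TC.fcT H h).2.2.2
  refine ⟨Real.exp (T / kc H), Real.exp_pos _, ?_⟩
  intro h0
  have h1 := hT T le_rfl
  unfold fc at h1
  rw [h0, mul_zero, zero_sub, norm_neg, Complex.norm_real, Real.norm_eq_abs] at h1
  have h2 : 0 < 1 / kc H * Real.exp (H.k / 2 * T / kc H) *
    Real.exp (-(2 * Real.pi / H.h) * Real.exp (T / kc H)) := by
    have := kc_pos h
    positivity
  rw [abs_of_pos h2] at h1
  linarith

theorem re_eps {H : Hc} (h : IsHc H) (hb : ∀ m, (H.b m).im = 0) :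
    (H.ε.re = 1 ∨ H.ε.re = -1) ∧ H.ε = ((H.ε.re : ℝ) : ℂ) := by
  obtain ⟨y, hy, hne⟩ := phi_ne h
  have h1 := h.φ_inv y hy
  rw [re_phi h hb (1 / y) (by positivity), re_phi h hb y hy, Complex.conj_ofReal] at h1
  have hne' : (re H).φ y ≠ 0 := by
    intro h0
    apply hne
    rw [re_phi h hb y hy, h0, Complex.ofReal_zero]
  have hyk : y ^ H.k ≠ 0 := (Real.rpow_pos_of_pos hy _).ne'
  have h2 : H.ε = (((re H).φ (1 / y) / (y ^ H.k * (re H).φ y) : ℝ) : ℂ) := by
    push_cast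
    have h3 : ((y ^ H.k : ℝ) : ℂ) ≠ 0 := by exact_mod_cast hyk
    have h4 : (((re H).φ y : ℝ) : ℂ) ≠ 0 := by exact_mod_cast hne'
    rw [h1]
    field_simp
  have h3 : H.ε = ((H.ε.re : ℝ) : ℂ) := by
    rw [h2, Complex.ofReal_re]
  refine ⟨?_, h3⟩
  have h4 := h.ε_norm
  rw [h3, Complex.norm_real, Real.norm_eq_abs] at h4
  rcases abs_eq (zero_le_one) |>.1 h4 with h5 | h5
  · exact Or.inl h5
  · exact Or.inr h5

theorem re_isHk {H : Hc} (h : IsHc H) (hb : ∀ m, (H.b m).im = 0) : IsHk (re H) where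
  k_pos := h.k_pos
  h_pos := h.h_pos
  p_pos := h.p_pos
  β_nonneg := h.β_nonneg
  B_one := h.B_one
  b_one := by
    show (H.b 1).re = 1
    rw [h.b_one, Complex.one_re]
  b_le := by
    intro m hm
    exact (Complex.abs_re_le_norm _).trans (h.b_le m hm)
  φ_sum := fun y hy => (re_sum h hb y hy).1
  ε_or := (re_eps h hb).1
  φ_inv := by
    intro y hy
    have h1 := h.φ_inv y hy
    rw [re_phi h hb (1 / y) (by positivity), re_phi h hb y hy, Complex.conj_ofReal,
      (re_eps h hb).2] at h1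
    exact_mod_cast h1

theorem re_mellin {H : Hc} (h : IsHc H) (hb : ∀ m, (H.b m).im = 0) :
    mellin (fun y : ℝ => (((re H).φ y : ℝ) : ℂ)) = mellin H.φ := by
  funext s
  unfold mellin
  refine MeasureTheory.setIntegral_congr_fun measurableSet_Ioi ?_
  intro y hy
  simp only
  rw [re_phi h hb y hy]

/-- The criterion for series with real coefficients. -/
theorem critR (H : Hc) (h : IsHc H) (hb : ∀ m, (H.b m).im = 0) :
    ∃ r : ℕ, (r = 0 ∧ H.ε = 1 ∨ r = 1 ∧ H.ε = -1) ∧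
      LogCriterion r (fun z : ℂ => mellin H.φ (((H.k / 2 : ℝ) : ℂ) + z))
        (∀ s : ℂ, mellin H.φ s = 0 → s.re = H.k / 2) := by
  have h1 := critS (re H) (re_isHk h hb)
  obtain ⟨h2, h3⟩ := re_eps h hb
  refine ⟨rS (re H), ?_, ?_⟩
  · rcases h2 with h4 | h4
    · left
      refine ⟨?_, by rw [h3, h4, Complex.ofReal_one]⟩
      unfold rS
      rw [if_pos (show (re H).ε = 1 from h4)]
    · right
      refine ⟨?_, by rw [h3, h4, Complex.ofReal_neg, Complex.ofReal_one]⟩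
      unfold rS
      rw [if_neg]
      show ¬ (H.ε.re = 1)
      rw [h4]
      norm_num
  · have h5 : FS (re H) = fun z : ℂ => mellin H.φ (((H.k / 2 : ℝ) : ℂ) + z) := by
      funext z
      unfold FS
      rw [re_mellin h hb]
      rfl
    rw [h5, re_mellin h hb] at h1
    exact h1

end Pool.Agent.H471R3.GJ.Inst
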