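import Pool.Agent.H471R3.GJ.Inst

set_option autoImplicit false

/-!
# Dirichlet characters and cusp forms of level one
-/

namespace Pool.Agent.H471R3.GJ.Inst

open Complex Filter Topology Polynomial
open DirichletCharacter (completedLFunction)
open Pool.Agent.H471R3.GJ.Crit

section Dirichlet

variable {N : ℕ} [NeZero N] (χ : DirichletCharacter ℂ N)

omit [NeZero N] in
theorem even_inv : χ⁻¹.Even ↔ χ.Even := by
  have h : χ⁻¹ (-1) = star (χ (-1)) := (MulChar.star_apply' χ (-1)).symm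
  unfold DirichletCharacter.Even
  rw [h]
  constructor
  · intro h1
    have := congrArg star h1
    rwa [star_star, star_one] at this
  · intro h1
    rw [h1, star_one]

open Classical in
theorem phi_inv (y : ℝ) : (dch N χ⁻¹).φ y = (starRingEnd ℂ) ((dch N χ).φ y) := by
  show (∑' m : ℕ, ((if χ⁻¹.Even then 1 else ((m + 1 : ℕ) : ℂ)) * χ⁻¹ ((m + 1 : ℕ) : ZMod N)) *
    ((Real.exp (-(2 * Real.pi * ((m + 1 : ℕ) : ℝ) ^ 2 * y / (2 * N))) : ℝ) : ℂ)) =
    (starRingEnd ℂ) (∑' m : ℕ, ((if χ.Even then 1 else ((m + 1 : ℕ) : ℂ)) * χ ((m + 1 : ℕ) : ZMod N)) *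
    ((Real.exp (-(2 * Real.pi * ((m + 1 : ℕ) : ℝ) ^ 2 * y / (2 * N))) : ℝ) : ℂ))
  rw [Complex.conj_tsum]
  refine tsum_congr fun m => ?_
  rw [map_mul, map_mul, Complex.conj_ofReal]
  have h1 : (starRingEnd ℂ) (χ ((m + 1 : ℕ) : ZMod N)) = χ⁻¹ ((m + 1 : ℕ) : ZMod N) :=
    MulChar.star_apply' χ _
  rw [h1]
  congr 2
  by_cases hE : χ.Even
  · rw [if_pos hE, if_pos ((even_inv χ).2 hE), map_one]
  · rw [if_neg hE, if_neg (fun h => hE ((even_inv χ).1 h)), Complex.conj_natCast]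

theorem mellin_conj (f : ℝ → ℂ) (s : ℂ) :
    (starRingEnd ℂ) (mellin f ((starRingEnd ℂ) s)) = mellin (fun y => (starRingEnd ℂ) (f y)) s := by
  unfold mellin
  rw [← integral_conj]
  refine MeasureTheory.setIntegral_congr_fun measurableSet_Ioi ?_
  intro y hy
  have hy0 : (0 : ℝ) < y := hy
  simp only [smul_eq_mul, map_mul]
  congr 1
  have h1 : (y : ℂ).arg ≠ Real.pi := by
    rw [Complex.arg_ofReal_of_nonneg hy0.le]
    exact Real.pi_ne_zero.symm
  have h2 : (starRingEnd ℂ) s - 1 = (starRingEnd ℂ) (s - 1) := by simp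
  rw [h2, ← Complex.conj_cpow _ _ h1, Complex.conj_ofReal]

theorem conj_mellin (s : ℂ) :
    (starRingEnd ℂ) (mellin (dch N χ).φ ((starRingEnd ℂ) s)) = mellin (dch N χ⁻¹).φ s := by
  rw [mellin_conj]
  congr 1
  funext y
  exact (phi_inv χ y).symm

/-- `N^z Λ(1/2+z, χ) Λ(1/2+z, χ⁻¹)`. -/
noncomputable def FD (z : ℂ) : ℂ :=
  (N : ℂ) ^ z * completedLFunction χ (1 / 2 + z) * completedLFunction χ⁻¹ (1 / 2 + z)

open Classical in
/-- half the weight. -/
noncomputable def ka : ℝ := if χ.Even then 1 / 4 else 3 / 4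

open Classical in
theorem k_eq : (dch N χ).k = 2 * ka χ := by
  show (if χ.Even then 1 / 2 else 3 / 2) = 2 * (if χ.Even then 1 / 4 else 3 / 4 : ℝ)
  by_cases hE : χ.Even
  · rw [if_pos hE, if_pos hE]; norm_num
  · rw [if_neg hE, if_neg hE]; norm_num

open Classical in
theorem mellin_eq (hN : 1 < N) (hχ : χ.IsPrimitive) (u : ℂ) :
    mellin (dch N χ).φ (((ka χ : ℝ) : ℂ) + u) =
      (N : ℂ) ^ (((ka χ : ℝ) : ℂ) + u) * completedLFunction χ (1 / 2 + 2 * u) := by
  rw [TC.dchLT N χ hN hχ]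
  congr 2
  unfold ka
  by_cases hE : χ.Even
  · rw [if_pos hE, if_pos hE]; push_cast; ring
  · rw [if_neg hE, if_neg hE]; push_cast; ring

omit [NeZero N] in
theorem ka_inv : ka χ⁻¹ = ka χ := by
  unfold ka
  by_cases hE : χ.Even
  · rw [if_pos hE, if_pos ((even_inv χ).2 hE)]
  · rw [if_neg hE, if_neg (fun h => hE ((even_inv χ).1 h))]

theorem rh_iff (hN : 1 < N) (hχ : χ.IsPrimitive) :
    (∀ s : ℂ, mellin (dch N χ).φ s = 0 → s.re = (dch N χ).k / 2) ↔
      ∀ s : ℂ, completedLFunction χ s = 0 → s.re = 1 / 2 := by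
  have hN0 : (N : ℂ) ≠ 0 := by
    have : N ≠ 0 := by omega
    exact_mod_cast this
  have hpw : ∀ u : ℂ, (N : ℂ) ^ u ≠ 0 := fun u => by
    rw [Ne, Complex.cpow_eq_zero_iff]
    exact fun h => hN0 h.1
  rw [k_eq]
  constructor
  · intro h s hs
    have h1 := h (((ka χ : ℝ) : ℂ) + (s - 1 / 2) / 2) (by
      rw [mellin_eq χ hN hχ]
      have : 1 / 2 + 2 * ((s - 1 / 2) / 2) = s := by ring
      rw [this, hs, mul_zero])
    have h2 : (((ka χ : ℝ) : ℂ) + (s - 1 / 2) / 2).re = ka χ + (s.re - 1 / 2) / 2 := by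
      have h3 : (s - 1 / 2) / 2 = ((s - ((1 / 2 : ℝ) : ℂ)) / ((2 : ℝ) : ℂ)) := by push_cast; rfl
      rw [h3, Complex.add_re, Complex.ofReal_re, Complex.div_ofReal_re, Complex.sub_re, Complex.ofReal_re]
    rw [h2] at h1
    linarith
  · intro h s hs
    have h1 : s = ((ka χ : ℝ) : ℂ) + (s - ((ka χ : ℝ) : ℂ)) := by ring
    rw [h1, mellin_eq χ hN hχ] at hs
    rcases mul_eq_zero.1 hs with h2 | h2
    · exact absurd h2 (hpw _)
    · have h3 := h _ h2
      have h4 : (1 / 2 + 2 * (s - ((ka χ : ℝ) : ℂ))).re = 1 / 2 + 2 * (s.re - ka χ) := by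
        have h5 : 1 / 2 + 2 * (s - ((ka χ : ℝ) : ℂ)) =
            ((1 / 2 : ℝ) : ℂ) + ((2 : ℝ) : ℂ) * (s - ((ka χ : ℝ) : ℂ)) := by push_cast; rfl
        rw [h5, Complex.add_re, Complex.ofReal_re, Complex.re_ofReal_mul, Complex.sub_re,
          Complex.ofReal_re]
      rw [h4] at h3
      linarith

theorem scaleD (hN : 1 < N) (hχ : χ.IsPrimitive) :
    Scale (datc (dch N χ)) 0 (FD χ) (2 * kc (dch N χ)) ((N : ℝ) ^ (2 * ka χ)) where
  isL := TC.isLT _ (TC.dchT N χ hN hχ)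
  hr := Or.inl rfl
  hc := by
    have := kc_pos (TC.dchT N χ hN hχ)
    positivity
  hK := by
    have : (0 : ℝ) < N := by
      have : 0 < N := by omega
      exact_mod_cast this
    positivity
  hX := by
    intro z
    have hN0 : (N : ℂ) ≠ 0 := by
      have : N ≠ 0 := by omega
      exact_mod_cast this
    rw [pow_zero, one_mul, (TC.melT _ (TC.dchT N χ hN hχ)).2.2.2 z, conj_mellin]
    have h1 : sc (dch N χ) z = ((ka χ : ℝ) : ℂ) + ((kc (dch N χ) : ℝ) : ℂ) * z := by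
      unfold sc
      rw [k_eq]
      congr 2
      ring
    rw [h1, mellin_eq χ hN hχ]
    have hχ' : χ⁻¹.IsPrimitive := by
      have := DirichletCharacter.conductor_inv χ
      unfold DirichletCharacter.IsPrimitive at *
      rw [this, hχ]
    have h2 := mellin_eq χ⁻¹ hN hχ' (((kc (dch N χ) : ℝ) : ℂ) * z)
    rw [ka_inv] at h2
    rw [h2]
    unfold FD
    have h3 : (((N : ℝ) ^ (2 * ka χ) : ℝ) : ℂ) = (N : ℂ) ^ (2 * ((ka χ : ℝ) : ℂ)) := by
      rw [Complex.ofReal_cpow (Nat.cast_nonneg N)]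
      push_cast
      rfl
    have h4 : ((2 * kc (dch N χ) : ℝ) : ℂ) * z = 2 * (((kc (dch N χ) : ℝ) : ℂ) * z) := by
      push_cast
      ring
    rw [h3, h4]
    set u := ((kc (dch N χ) : ℝ) : ℂ) * z with hu
    have h5 : (N : ℂ) ^ (2 * ((ka χ : ℝ) : ℂ)) * (N : ℂ) ^ (2 * u) =
        (N : ℂ) ^ (((ka χ : ℝ) : ℂ) + u) * (N : ℂ) ^ (((ka χ : ℝ) : ℂ) + u) := by
      rw [← Complex.cpow_add _ _ hN0, ← Complex.cpow_add _ _ hN0]
      congr 1
      ring
    calc _ = ((N : ℂ) ^ (((ka χ : ℝ) : ℂ) + u) * (N : ℂ) ^ (((ka χ : ℝ) : ℂ) + u)) *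
          (completedLFunction χ (1 / 2 + 2 * u) * completedLFunction χ⁻¹ (1 / 2 + 2 * u)) := by ring
      _ = _ := by rw [← h5]; ring

/-- The criterion for all primitive Dirichlet characters. -/
theorem critD (hN : 1 < N) (hχ : χ.IsPrimitive) :
    LogCriterion 0 (FD χ) (∀ s : ℂ, completedLFunction χ s = 0 → s.re = 1 / 2) := by
  have h1 := logCriterion (scaleD χ hN hχ)
  have h2 := (TC.xxT _ (TC.dchT N χ hN hχ)).2.2.2
  obtain ⟨C, hC, h3, h4⟩ := h1
  exact ⟨C, hC, h3, ((rh_iff χ hN hχ).symm.trans h2.symm).trans h4⟩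

/-- `N^(z/2) Λ(1/2+z, χ)`. -/
noncomputable def FQ (z : ℂ) : ℂ := (N : ℂ) ^ (z / 2) * completedLFunction χ (1 / 2 + z)

open Classical in
theorem b_real (hreal : χ⁻¹ = χ) (m : ℕ) : ((dch N χ).b m).im = 0 := by
  have h1 : ∀ a : ZMod N, (χ a).im = 0 := by
    intro a
    have h2 : star (χ a) = χ a := by rw [MulChar.star_apply' χ a, hreal]
    exact Complex.conj_eq_iff_im.1 h2
  show ((if χ.Even then 1 else (m : ℂ)) * χ (m : ZMod N)).im = 0
  by_cases hE : χ.Even
  · rw [if_pos hE, one_mul, h1]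
  · rw [if_neg hE]
    have : ((m : ℂ) * χ (m : ZMod N)).im = (m : ℝ) * (χ (m : ZMod N)).im := by
      have h3 : (m : ℂ) = ((m : ℝ) : ℂ) := by push_cast; rfl
      rw [h3, Complex.im_ofReal_mul]
    rw [this, h1, mul_zero]

theorem scaleQ (hN : 1 < N) (hχ : χ.IsPrimitive) (hreal : χ⁻¹ = χ) :
    Scale (dat (re (dch N χ))) (rS (re (dch N χ))) (FQ χ) (2 * kp (re (dch N χ)))
      ((N : ℝ) ^ (ka χ)) where
  isL := TH.isLT _ (re_isHk (TC.dchT N χ hN hχ) (b_real χ hreal))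
  hr := (scaleS _ (re_isHk (TC.dchT N χ hN hχ) (b_real χ hreal))).hr
  hc := by
    have := kp_pos (re_isHk (TC.dchT N χ hN hχ) (b_real χ hreal))
    positivity
  hK := by
    have : (0 : ℝ) < N := by
      have : 0 < N := by omega
      exact_mod_cast this
    positivity
  hX := by
    intro z
    have hN0 : (N : ℂ) ≠ 0 := by
      have : N ≠ 0 := by omega
      exact_mod_cast this
    have h0 := (scaleS _ (re_isHk (TC.dchT N χ hN hχ) (b_real χ hreal))).hX z
    rw [h0]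
    unfold FS
    rw [re_mellin (TC.dchT N χ hN hχ) (b_real χ hreal)]
    have h1 : (((re (dch N χ)).k / 2 : ℝ) : ℂ) = ((ka χ : ℝ) : ℂ) := by
      have h2 : (re (dch N χ)).k = (dch N χ).k := rfl
      rw [h2, k_eq]
      congr 1
      ring
    rw [h1, mellin_eq χ hN hχ, Complex.ofReal_one, one_mul]
    unfold FQ
    have h3 : (((N : ℝ) ^ (ka χ) : ℝ) : ℂ) = (N : ℂ) ^ ((ka χ : ℝ) : ℂ) := by
      rw [Complex.ofReal_cpow (Nat.cast_nonneg N)]
      push_cast
      rfl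
    have h4 : ((2 * kp (re (dch N χ)) : ℝ) : ℂ) * z = 2 * (((kp (re (dch N χ)) : ℝ) : ℂ) * z) := by
      push_cast
      ring
    rw [h3, h4]
    set u := ((kp (re (dch N χ)) : ℝ) : ℂ) * z with hu
    rw [Complex.cpow_add _ _ hN0, mul_assoc]
    have h5 : 2 * u / 2 = u := by ring
    rw [h5]

/-- The criterion for real primitive Dirichlet characters. -/
theorem critQ (hN : 1 < N) (hχ : χ.IsPrimitive) (hreal : χ⁻¹ = χ) :
    ∃ r : ℕ, (r = 0 ∨ r = 1) ∧ (∀ z, FQ χ (-z) = (-1) ^ r * FQ χ z) ∧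
      LogCriterion r (FQ χ) (∀ s : ℂ, completedLFunction χ s = 0 → s.re = 1 / 2) := by
  have hsc := scaleQ χ hN hχ hreal
  have hr := hsc.hr
  refine ⟨rS (re (dch N χ)), hr, ?_, ?_⟩
  · intro z
    have h1 := F_eq hsc z
    have h2 := F_eq hsc (-z)
    have h3 : ∀ w : ℂ, (dat (re (dch N χ))).XX (-w) = (dat (re (dch N χ))).XX w := by
      intro w
      have hb := (T.b1T _ hsc.isL).2.1
      rw [← hb, ← hb, neg_sq]
    rw [h1, h2, neg_div, h3]
    rcases hr with hr | hr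
    · rw [hr]; simp
    · rw [hr]; ring
  · have h1 := logCriterion hsc
    have hk := re_isHk (TC.dchT N χ hN hχ) (b_real χ hreal)
    have h2 := critS _ hk
    have h3 := logCriterion (scaleS _ hk)
    -- both criteria give the same reformulation of `XX`
    have h4 : (∀ z : ℂ, (dat (re (dch N χ))).XX z = 0 → z.re = 0) ↔
        ∀ s : ℂ, completedLFunction χ s = 0 → s.re = 1 / 2 := by
      rw [← rh_iff χ hN hχ]
      have h5 := rhS _ hk
      rw [re_mellin (TC.dchT N χ hN hχ) (b_real χ hreal)] at h5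
      exact h5
    obtain ⟨C, hC, h6, h7⟩ := h1
    exact ⟨C, hC, h6, h4.symm.trans h7⟩

end Dirichlet

section Cusp

open UpperHalfPlane MatrixGroups ModularForm

/-- `Λ(f, s)`. -/
noncomputable def LamF (k : ℤ) (f : CuspForm 𝒮ℒ k) (s : ℂ) : ℂ :=
  mellin (fun y : ℝ => f (ofComplex (Complex.I * y))) s

open Classical in
theorem critF (k : ℤ) (hk0 : 0 < k) (hk : Even k) (f : CuspForm 𝒮ℒ k)
    (hreal : ∀ n, ((qExpansion 1 f).coeff n).im = 0) (h1 : (qExpansion 1 f).coeff 1 = 1) :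
    LogCriterion (if Even (k / 2) then 0 else 1) (fun z : ℂ => LamF k f ((k : ℂ) / 2 + z))
      (∀ s : ℂ, LamF k f s = 0 → s.re = (k : ℝ) / 2) := by
  obtain ⟨B, hB⟩ := cusp_isHk k hk0 hk f hreal h1
  have h2 := critS _ hB
  have hm : mellin (fun y : ℝ => (((cuspHk k f B).φ y : ℝ) : ℂ)) = LamF k f := by
    funext s
    unfold LamF mellin
    refine MeasureTheory.setIntegral_congr_fun measurableSet_Ioi ?_
    intro y hy
    simp only
    congr 1
    apply Complex.ext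
    · rw [Complex.ofReal_re]
      rfl
    · rw [Complex.ofReal_im, CuspAux.real_iy f hreal y hy]
  have hr : rS (cuspHk k f B) = if Even (k / 2) then 0 else 1 := by
    unfold rS
    show (if (if Even (k / 2) then (1 : ℝ) else -1) = 1 then 0 else 1) = _
    by_cases he : Even (k / 2)
    · rw [if_pos he, if_pos rfl, if_pos he]
    · rw [if_neg he, if_neg he, if_neg (by norm_num)]
  have hF : FS (cuspHk k f B) = fun z : ℂ => LamF k f ((k : ℂ) / 2 + z) := by
    funext z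
    unfold FS
    rw [hm]
    congr 2
    show ((((k : ℝ) / 2 : ℝ)) : ℂ) = _
    push_cast
    rfl
  rw [hr, hF, hm] at h2
  exact h2

end Cusp

end Pool.Agent.H471R3.GJ.Inst
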