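import Pool.Agent.H471R3.GJ.Spec
import Pool.Agent.H24R2.JP.MainT

set_option autoImplicit false

/-!
# Task MAIN (generic version): the upper arc of `FF D` is the main term up to a relative error `1/10`
-/

namespace Pool.Agent.H471R3.GJ

open Complex Filter Topology
open Pool.Agent.H24R2.JP (arc SArc)
open Pool.Agent.H24R2.JP.MainT (re_cpow_half_pos four)

namespace MainT

theorem diff_GG (D : Dat) (hH : ∀ z : ℂ, 0 < z.im → DifferentiableAt ℂ D.HH z) (m : ℕ) (hm : 1 ≤ m)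
    (ξ : ℂ) (hξ : 0 < (-ξ).re) : DifferentiableAt ℂ (GG D m) ξ := by
  have hs : -ξ ∈ slitPlane := mem_slitPlane_iff.2 (Or.inl hξ)
  have h1 : DifferentiableAt ℂ Pool.Agent.H24R2.JP.sq ξ := by
    unfold Pool.Agent.H24R2.JP.sq
    have : DifferentiableAt ℂ (fun ξ : ℂ => (-ξ) ^ (1 / 2 : ℂ)) ξ :=
      DifferentiableAt.cpow (by fun_prop) (by fun_prop) hs
    exact this.const_mul I
  have h2 : 0 < (Pool.Agent.H24R2.JP.sq ξ).im := by
    have := re_cpow_half_pos hs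
    unfold Pool.Agent.H24R2.JP.sq
    rw [Complex.I_mul_im]
    exact this
  have h3 : DifferentiableAt ℂ (fun ξ => D.HH (Pool.Agent.H24R2.JP.sq ξ)) ξ :=
    DifferentiableAt.comp ξ (hH _ h2) h1
  have hm0 : (m : ℂ) ≠ 0 := by exact_mod_cast (by omega : m ≠ 0)
  have h4 : DifferentiableAt ℂ (fun ξ => (m : ℂ) ^ (-(D.κ : ℂ) * Pool.Agent.H24R2.JP.sq ξ)) ξ :=
    DifferentiableAt.const_cpow (by fun_prop) (Or.inl hm0)
  exact h3.mul (h4.const_mul (D.a m))

theorem re_neg_pos {t r : ℝ} (ht : r < t) (ht0 : 0 < t) {ξ : ℂ}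
    (h : ξ ∈ Metric.closedBall (((-t ^ 2 : ℝ)) : ℂ) (r * t)) : 0 < (-ξ).re := by
  rw [mem_closedBall_iff_norm] at h
  have h1 := Complex.abs_re_le_norm (ξ - ((-t ^ 2 : ℝ) : ℂ))
  rw [Complex.sub_re, Complex.ofReal_re] at h1
  rw [Complex.neg_re]
  have h2 := (abs_le.1 (h1.trans h)).2
  nlinarith

theorem sq_mem_ball {t r : ℝ} (ht : 1 < t) (hr : 40 ≤ r) {z : ℂ} (hz : ‖z - I * t‖ ≤ 3 / 4) :
    z ^ 2 ∈ Metric.ball (((-t ^ 2 : ℝ)) : ℂ) (r * t) := by
  rw [mem_ball_iff_norm]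
  have e : z ^ 2 - ((-t ^ 2 : ℝ) : ℂ) = (z - I * t) * ((z - I * t) + 2 * (I * t)) := by
    push_cast
    have : I ^ 2 = -1 := Complex.I_sq
    ring_nf
    rw [this]
    ring
  rw [e, norm_mul]
  have h1 : ‖(z - I * t) + 2 * (I * t)‖ ≤ 3 / 4 + 2 * t := by
    refine (norm_add_le _ _).trans ?_
    have : ‖(2 : ℂ) * (I * t)‖ = 2 * t := by
      rw [norm_mul, norm_mul, Complex.norm_I, Complex.norm_real, Real.norm_eq_abs,
        abs_of_pos (by linarith : (0 : ℝ) < t)]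
      norm_num
    rw [this]
    linarith
  calc ‖z - I * t‖ * ‖(z - I * t) + 2 * (I * t)‖ ≤ 3 / 4 * (3 / 4 + 2 * t) := by
        apply mul_le_mul hz h1 (norm_nonneg _) (by norm_num)
    _ < 40 * t := by linarith
    _ ≤ r * t := by nlinarith

theorem ratio_le (b : ℂ) (O K y : ℝ) (hK : 1 ≤ K) (hO : 100 * K ≤ O) (hb : ‖b - (O : ℂ)‖ ≤ K)
    (hy0 : 0 ≤ y) (hy : y ≤ 2 / 5 * O) :
    ‖b - (y : ℂ)‖ ≤ ‖b‖ * Real.exp (-(3 / 4 * y / O)) := by
  have hO0 : 0 < O := by linarith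
  have hre : O - K ≤ b.re := by
    have h1 := Complex.abs_re_le_norm (b - (O : ℂ))
    rw [Complex.sub_re, Complex.ofReal_re] at h1
    have := (abs_le.1 (h1.trans hb)).1
    linarith
  have hnb : ‖b‖ ≤ O + K := by
    have h1 : ‖b‖ ≤ ‖b - (O : ℂ)‖ + ‖(O : ℂ)‖ := by
      have := norm_add_le (b - (O : ℂ)) (O : ℂ)
      rwa [sub_add_cancel] at this
    rw [Complex.norm_real, Real.norm_eq_abs, abs_of_pos hO0] at h1
    linarith
  have hsq : ‖b - (y : ℂ)‖ ^ 2 = ‖b‖ ^ 2 - y * (2 * b.re - y) := by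
    rw [Complex.sq_norm, Complex.sq_norm, Complex.normSq_apply, Complex.normSq_apply]
    simp only [Complex.sub_re, Complex.ofReal_re, Complex.sub_im, Complex.ofReal_im]
    ring
  have hb0 : 0 ≤ ‖b‖ := norm_nonneg b
  have h2 : 3 / 2 * ‖b‖ ^ 2 ≤ O * (2 * b.re - y) := by
    have h3 : ‖b‖ ^ 2 ≤ (O + K) ^ 2 := by
      apply pow_le_pow_left₀ hb0 hnb
    have h4 : 2 * (O - K) - 2 / 5 * O ≤ 2 * b.re - y := by linarith
    have h5 : O * (2 * (O - K) - 2 / 5 * O) ≤ O * (2 * b.re - y) :=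
      mul_le_mul_of_nonneg_left h4 hO0.le
    have h6 : 3 / 2 * (O + K) ^ 2 ≤ O * (2 * (O - K) - 2 / 5 * O) := by nlinarith
    linarith
  have h7 : ‖b - (y : ℂ)‖ ^ 2 ≤ ‖b‖ ^ 2 * Real.exp (-(3 / 2 * y / O)) := by
    have h8 : 1 - 3 / 2 * y / O ≤ Real.exp (-(3 / 2 * y / O)) := by
      have := Real.add_one_le_exp (-(3 / 2 * y / O))
      linarith
    have h9 : ‖b - (y : ℂ)‖ ^ 2 ≤ ‖b‖ ^ 2 * (1 - 3 / 2 * y / O) := by
      rw [hsq]
      have h10 : ‖b‖ ^ 2 * (3 / 2 * y / O) ≤ y * (2 * b.re - y) := by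
        rw [show ‖b‖ ^ 2 * (3 / 2 * y / O) = y * (3 / 2 * ‖b‖ ^ 2) / O by ring, div_le_iff₀ hO0]
        calc y * (3 / 2 * ‖b‖ ^ 2) ≤ y * (O * (2 * b.re - y)) := mul_le_mul_of_nonneg_left h2 hy0
          _ = y * (2 * b.re - y) * O := by ring
      linarith [h10, mul_sub (‖b‖ ^ 2) 1 (3 / 2 * y / O)]
    exact h9.trans (mul_le_mul_of_nonneg_left h8 (by positivity))
  apply le_of_sq_le_sq _ (by positivity)
  rw [mul_pow, ← Real.exp_nat_mul]
  have : ((2 : ℕ) : ℝ) * -(3 / 4 * y / O) = -(3 / 2 * y / O) := by push_cast; ring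
  rw [this]
  exact h7

theorem mm_one (D : Dat) (h : IsL D) (n : ℕ) (t : ℝ) (z : ℂ) : mm D 1 n t z = mt D n t z := by
  simp [mm, mt, h.a_one]

theorem norm_mm_le (D : Dat) (h : IsL D) (K : ℝ) (hK : 1 ≤ K) (m n : ℕ) (t : ℝ) (z : ℂ)
    (hO : 100 * K ≤ D.κ * Om D t) (hb : ‖be D t - ((D.κ * Om D t : ℝ) : ℂ)‖ ≤ K)
    (hm : 2 ≤ m) (hmt : (m : ℝ) ≤ Real.exp (2 / 5 * Om D t))
    (hW : Win D t n z) : ‖mm D m n t z‖ ≤ ‖mt D n t z‖ * (1 / 4000 * (1 / (m : ℝ) ^ 2)) := by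
  have hκ := h.κ_pos
  have hA := h.A_nonneg
  have hw := h.w_large
  have hOm : 0 < Om D t := by
    by_contra hc
    push Not at hc
    have : D.κ * Om D t ≤ 0 := mul_nonpos_of_nonneg_of_nonpos hκ.le hc
    linarith
  have hm2 : (2 : ℝ) ≤ m := by exact_mod_cast hm
  have hm0 : (0 : ℝ) < m := by linarith
  set y : ℝ := Real.log m with hy_def
  have hylog2 : Real.log 2 ≤ y := Real.log_le_log (by norm_num) hm2
  have hy0 : 0 ≤ y := Real.log_nonneg (by linarith)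
  have hy : y ≤ 2 / 5 * Om D t := (Real.log_le_iff_le_exp hm0).2 hmt
  have h1 := ratio_le (be D t) (D.κ * Om D t) K (D.κ * y) hK hO hb (by positivity) (by nlinarith)
  have e1 : 3 / 4 * (D.κ * y) / (D.κ * Om D t) = 3 / 4 * y / Om D t := by
    field_simp
  rw [e1] at h1
  have h1n : ‖be D t - ((D.κ * y : ℝ) : ℂ)‖ ^ n ≤
      Real.exp (-(73 / 100 * D.w * y)) * ‖be D t‖ ^ n := by
    calc ‖be D t - ((D.κ * y : ℝ) : ℂ)‖ ^ n ≤ (‖be D t‖ * Real.exp (-(3 / 4 * y / Om D t))) ^ n :=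
          pow_le_pow_left₀ (norm_nonneg _) h1 n
      _ = Real.exp ((n : ℝ) * -(3 / 4 * y / Om D t)) * ‖be D t‖ ^ n := by
          rw [mul_pow, ← Real.exp_nat_mul]; ring
      _ ≤ Real.exp (-(73 / 100 * D.w * y)) * ‖be D t‖ ^ n := by
          apply mul_le_mul_of_nonneg_right _ (by positivity)
          apply Real.exp_le_exp.2
          have h12 : 73 / 100 * D.w * y ≤ (n : ℝ) * (3 / 4 * y / Om D t) := by
            rw [show (n : ℝ) * (3 / 4 * y / Om D t) = (n : ℝ) * (3 / 4 * y) / Om D t by ring,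
              le_div_iff₀ hOm]
            have h13 := mul_le_mul_of_nonneg_right hW.1 (by positivity : 0 ≤ 3 / 4 * y)
            have hw0 : 0 ≤ D.w := by linarith
            have h14 : 0 ≤ D.w * y * Om D t := by positivity
            nlinarith
          linarith
  have h2 : ‖D.a m * (m : ℂ) ^ (-(D.κ : ℂ) * z)‖ ≤ D.A0 * Real.exp ((D.A + D.κ) * y) := by
    rw [norm_mul]
    have e : (m : ℂ) = ((m : ℝ) : ℂ) := by push_cast; rfl
    have ha := h.a_le m (by omega)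
    rw [e, Complex.norm_cpow_eq_rpow_re_of_pos hm0]
    rw [Real.rpow_def_of_pos hm0] at ha ⊢
    have hre : -(3 / 4) ≤ z.re := by
      have h3 := Complex.abs_re_le_norm (z - I * t)
      have h4 : (z - I * t).re = z.re := by simp
      rw [h4] at h3
      have := (abs_le.1 (h3.trans hW.2.2)).1
      linarith
    have h5 : (-(D.κ : ℂ) * z).re = -(D.κ * z.re) := by
      simp
    rw [h5]
    have hA0 : 0 ≤ D.A0 := by linarith [h.A0_one]
    calc ‖D.a m‖ * Real.exp (Real.log m * -(D.κ * z.re))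
        ≤ (D.A0 * Real.exp (Real.log m * D.A)) * Real.exp (y * D.κ) := by
          apply mul_le_mul ha _ (Real.exp_pos _).le (by positivity)
          apply Real.exp_le_exp.2
          apply mul_le_mul_of_nonneg_left _ hy0
          nlinarith
      _ = D.A0 * Real.exp ((D.A + D.κ) * y) := by
          rw [mul_assoc, ← Real.exp_add]
          congr 2
          rw [← hy_def]
          ring
  have h3 : ‖((be D t - ((D.κ * Real.log m : ℝ) : ℂ)) / (2 * (I * t))) ^ n‖ ≤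
      Real.exp (-(73 / 100 * D.w * y)) * ‖(be D t / (2 * (I * t))) ^ n‖ := by
    rw [norm_pow, norm_pow, norm_div, norm_div, div_pow, div_pow, ← mul_div_assoc]
    exact div_le_div_of_nonneg_right h1n (by positivity)
  have h6 : D.A0 * (Real.exp ((D.A + D.κ) * y) * Real.exp (-(73 / 100 * D.w * y))) ≤
      1 / 4000 * (1 / (m : ℝ) ^ 2) := by
    have h7 : Real.exp ((D.A + D.κ) * y) * Real.exp (-(73 / 100 * D.w * y)) ≤
        Real.exp (-(Real.log 2 * (D.w / 2))) * Real.exp (-(2 * y)) := by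
      rw [← Real.exp_add, ← Real.exp_add]
      apply Real.exp_le_exp.2
      have hw20 : 20 ≤ D.w := by nlinarith
      have h8 : (D.A + D.κ) * y ≤ D.w / 20 * y := mul_le_mul_of_nonneg_right (by linarith) hy0
      have h9 : Real.log 2 * (D.w / 2) ≤ y * (D.w / 2) :=
        mul_le_mul_of_nonneg_right hylog2 (by linarith)
      nlinarith [mul_le_mul_of_nonneg_right hw20 hy0]
    have h10 : Real.exp (-(Real.log 2 * (D.w / 2))) = 1 / (2 : ℝ) ^ (D.w / 2) := by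
      rw [Real.exp_neg, Real.rpow_def_of_pos (by norm_num : (0 : ℝ) < 2), one_div]
    have h11 : Real.exp (-(2 * y)) = 1 / (m : ℝ) ^ 2 := by
      rw [show (2 : ℝ) * y = ((2 : ℕ) : ℝ) * y by norm_num, Real.exp_neg, Real.exp_nat_mul,
        hy_def, Real.exp_log hm0, one_div]
    rw [h10, h11] at h7
    have h12 : D.A0 * (1 / (2 : ℝ) ^ (D.w / 2)) ≤ 1 / 4000 := by
      have hp : (0 : ℝ) < (2 : ℝ) ^ (D.w / 2) := Real.rpow_pos_of_pos (by norm_num) _
      rw [mul_one_div, div_le_div_iff₀ hp (by norm_num)]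
      linarith [h.w_large2]
    have hA0 : 0 ≤ D.A0 := by linarith [h.A0_one]
    calc D.A0 * (Real.exp ((D.A + D.κ) * y) * Real.exp (-(73 / 100 * D.w * y)))
        ≤ D.A0 * (1 / (2 : ℝ) ^ (D.w / 2) * (1 / (m : ℝ) ^ 2)) :=
          mul_le_mul_of_nonneg_left h7 hA0
      _ = D.A0 * (1 / (2 : ℝ) ^ (D.w / 2)) * (1 / (m : ℝ) ^ 2) := by ring
      _ ≤ 1 / 4000 * (1 / (m : ℝ) ^ 2) := by
          apply mul_le_mul_of_nonneg_right h12; positivity
  unfold mm mt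
  rw [norm_mul, norm_mul, norm_mul (D.HH (I * t) * cexp (be D t * (z - I * t)))]
  calc ‖D.HH (I * t) * cexp (be D t * (z - I * t))‖ * ‖D.a m * (m : ℂ) ^ (-(D.κ : ℂ) * z)‖ *
        ‖((be D t - ((D.κ * Real.log m : ℝ) : ℂ)) / (2 * (I * t))) ^ n‖
      ≤ ‖D.HH (I * t) * cexp (be D t * (z - I * t))‖ * (D.A0 * Real.exp ((D.A + D.κ) * y)) *
        (Real.exp (-(73 / 100 * D.w * y)) * ‖(be D t / (2 * (I * t))) ^ n‖) := by
        have hA0 : 0 ≤ D.A0 := by linarith [h.A0_one]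
        gcongr
    _ = ‖D.HH (I * t) * cexp (be D t * (z - I * t))‖ * ‖(be D t / (2 * (I * t))) ^ n‖ *
        (D.A0 * (Real.exp ((D.A + D.κ) * y) * Real.exp (-(73 / 100 * D.w * y)))) := by ring
    _ ≤ ‖D.HH (I * t) * cexp (be D t * (z - I * t))‖ * ‖(be D t / (2 * (I * t))) ^ n‖ *
        (1 / 4000 * (1 / (m : ℝ) ^ 2)) := mul_le_mul_of_nonneg_left h6 (by positivity)

theorem sum_sq_le (M : ℕ) (hM : 1 ≤ M) :
    ∑ m ∈ Finset.Icc 1 M, 1 / (m : ℝ) ^ 2 ≤ 2 - 1 / (M : ℝ) := by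
  induction M, hM using Nat.le_induction with
  | base => norm_num
  | succ M hM ih =>
    rw [Finset.sum_Icc_succ_top (by omega)]
    have hM1 : (1 : ℝ) ≤ M := by exact_mod_cast hM
    have h1 : 1 / ((M + 1 : ℕ) : ℝ) ^ 2 ≤ 1 / (M : ℝ) - 1 / ((M + 1 : ℕ) : ℝ) := by
      push_cast
      have h2 : (1 / (M : ℝ) - 1 / ((M : ℝ) + 1)) = 1 / ((M : ℝ) * (M + 1)) := by
        field_simp
        ring
      rw [h2]
      apply one_div_le_one_div_of_le (by positivity)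
      nlinarith
    linarith

end MainT

open MainT in
/-- The upper arc of `FF D` is the main term up to a relative error `1/10`. -/
theorem mainS (D : Dat) (h : IsL D) (h1 : SUp D) (h2 : SDown D) (h3 : SPiece D) (h4 : SArc)
    (h5 : SStir D) : SMain D := by
  obtain ⟨T1, hT1, H1⟩ := h1 (1 / 100) (by norm_num)
  obtain ⟨T2, hT2, H2⟩ := h2 (1 / 100) (by norm_num)
  obtain ⟨K3, T3, hK3, hT3, H3⟩ := h3
  obtain ⟨hH, K5, T5, hK5, hT5, H5⟩ := h5
  have hκ := h.κ_pos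
  have hc := h.c_pos
  have hA := h.A_nonneg
  have hw := h.w_large
  have hw0 : 0 < D.w := by linarith
  have hrr : 40 ≤ rr D := by
    unfold rr
    rw [le_div_iff₀ hκ]
    linarith
  set q : ℝ := 41 / 40 * (D.w * D.c) with hq
  have hq0 : 0 < q := by positivity
  have hsmall : ∀ᶠ t : ℝ in atTop, K3 * (q ^ 2 * Real.log t ^ 2) ≤ 1 / 100 * t := by
    have h := (Real.isLittleO_pow_log_id_atTop (n := 2)).bound
      (c := 1 / (100 * (q ^ 2 * K3))) (by positivity)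
    filter_upwards [h, eventually_gt_atTop 1] with t ht ht1
    rw [Real.norm_eq_abs, abs_of_nonneg (by positivity), id, Real.norm_eq_abs,
      abs_of_pos (by linarith)] at ht
    have := mul_le_mul_of_nonneg_left ht (by positivity : 0 ≤ q ^ 2 * K3)
    calc K3 * (q ^ 2 * Real.log t ^ 2) = q ^ 2 * K3 * Real.log t ^ 2 := by ring
      _ ≤ q ^ 2 * K3 * (1 / (100 * (q ^ 2 * K3)) * t) := this
      _ = 1 / 100 * t := by field_simp
  obtain ⟨T6, H6⟩ := eventually_atTop.1 hsmall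
  refine ⟨max (max (max T1 T2) (max T3 T5)) (max (max T6 (rr D + 1))
    (Real.exp (100 * K5 / (D.κ * D.c)))), ?_, ?_⟩
  · exact le_max_of_le_left (le_max_of_le_left (le_max_of_le_left hT1))
  intro t n z ht hW
  have ht1 : T1 ≤ t := le_trans (by simp) ht
  have ht2 : T2 ≤ t := le_trans (by simp) ht
  have ht3 : T3 ≤ t := le_trans (by simp) ht
  have ht5 : T5 ≤ t := le_trans (by simp) ht
  have ht6 : T6 ≤ t := le_trans (by simp) ht
  have ht41 : rr D + 1 ≤ t := le_trans (by simp) ht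
  have hte : Real.exp (100 * K5 / (D.κ * D.c)) ≤ t := le_trans (by simp) ht
  have ht0 : 0 < t := by linarith
  have hlog : 0 ≤ Real.log t := Real.log_nonneg (by linarith)
  have hO : 100 * K5 ≤ D.κ * Om D t := by
    unfold Om
    have := (Real.le_log_iff_exp_le ht0).2 hte
    rw [div_le_iff₀ (by positivity)] at this
    linarith
  have hOm0 : 0 ≤ Om D t := by
    unfold Om
    positivity
  obtain ⟨-, hb, -⟩ := H5 t ht5
  set M : ℕ := MM D t with hM
  have hM1 : 1 ≤ M := by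
    rw [hM, MM, Nat.one_le_floor_iff]
    exact Real.one_le_exp (by positivity)
  have hmM : ∀ m ∈ Finset.Icc 1 M, (m : ℝ) ≤ Real.exp (2 / 5 * Om D t) := by
    intro m hm
    have h := (Finset.mem_Icc.1 hm).2
    exact (Nat.le_floor_iff (Real.exp_pos _).le).1 h
  have hup := H1 t n z ht1 hW
  have hdown := H2 t n z ht2 hW
  have h1mem : 1 ∈ Finset.Icc 1 M := Finset.mem_Icc.2 ⟨le_refl 1, hM1⟩
  have hmm : ∀ m ∈ (Finset.Icc 1 M).erase 1,
      ‖mm D m n t z‖ ≤ ‖mt D n t z‖ * (1 / 4000 * (1 / (m : ℝ) ^ 2)) := by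
    intro m hm
    obtain ⟨hne, hm'⟩ := Finset.mem_erase.1 hm
    have := (Finset.mem_Icc.1 hm').1
    exact norm_mm_le D h K5 hK5 m n t z hO hb (by omega) (hmM m hm') hW
  have hS := sum_sq_le M hM1
  have hS' : ∑ m ∈ (Finset.Icc 1 M).erase 1, 1 / (m : ℝ) ^ 2 ≤ 1 := by
    have h9 := Finset.add_sum_erase (Finset.Icc 1 M) (fun m : ℕ => 1 / (m : ℝ) ^ 2) h1mem
    simp only [Nat.cast_one, one_pow, div_one] at h9
    have : (0 : ℝ) ≤ 1 / (M : ℝ) := by positivity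
    linarith
  have hsumE : ∑ m ∈ (Finset.Icc 1 M).erase 1, ‖mm D m n t z‖ ≤ ‖mt D n t z‖ * (1 / 4000) := by
    calc ∑ m ∈ (Finset.Icc 1 M).erase 1, ‖mm D m n t z‖
        ≤ ∑ m ∈ (Finset.Icc 1 M).erase 1, ‖mt D n t z‖ * (1 / 4000 * (1 / (m : ℝ) ^ 2)) :=
          Finset.sum_le_sum hmm
      _ = ‖mt D n t z‖ * (1 / 4000) * ∑ m ∈ (Finset.Icc 1 M).erase 1, 1 / (m : ℝ) ^ 2 := by
          rw [Finset.mul_sum]
          exact Finset.sum_congr rfl fun m _ => by ring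
      _ ≤ ‖mt D n t z‖ * (1 / 4000) * 1 := mul_le_mul_of_nonneg_left hS' (by positivity)
      _ = ‖mt D n t z‖ * (1 / 4000) := by ring
  have harc : ∀ m ∈ Finset.Icc 1 M, arc (GG D m) n (-t ^ 2) (rr D * t) 0 Real.pi (z ^ 2) =
      iteratedDeriv n (GG D m) (z ^ 2) -
        arc (GG D m) n (-t ^ 2) (rr D * t) Real.pi (2 * Real.pi) (z ^ 2) := by
    intro m hm
    have h := (h4 (GG D m) n (-t ^ 2) (rr D * t) (z ^ 2) (by positivity)
      (fun ξ hξ => diff_GG D hH m (Finset.mem_Icc.1 hm).1 ξ (re_neg_pos (by linarith) ht0 hξ))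
      (sq_mem_ball (by linarith) hrr hW.2.2)).1
    rw [h]
    ring
  have hn : K3 * (n : ℝ) ^ 2 / t ≤ 1 / 100 := by
    have hnle : (n : ℝ) ≤ q * Real.log t := by
      have := hW.2.1
      unfold Om at this
      rw [hq]
      linarith
    have h7 : (n : ℝ) ^ 2 ≤ q ^ 2 * Real.log t ^ 2 := by
      calc (n : ℝ) ^ 2 ≤ (q * Real.log t) ^ 2 := by
            apply pow_le_pow_left₀ (by positivity) hnle
        _ = q ^ 2 * Real.log t ^ 2 := by ring
    rw [div_le_iff₀ ht0]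
    calc K3 * (n : ℝ) ^ 2 ≤ K3 * (q ^ 2 * Real.log t ^ 2) := by
          apply mul_le_mul_of_nonneg_left h7 (by linarith)
      _ ≤ 1 / 100 * t := H6 t ht6
  have hA : ‖mt D n t z‖ ≥ 0 := norm_nonneg _
  -- the errors of the pieces
  have hE : ‖∑ m ∈ Finset.Icc 1 M, (iteratedDeriv n (GG D m) (z ^ 2) - mm D m n t z)‖ ≤
      1 / 100 * (‖mt D n t z‖ * (1 + 1 / 4000)) := by
    refine (norm_sum_le _ _).trans ?_
    calc ∑ m ∈ Finset.Icc 1 M, ‖iteratedDeriv n (GG D m) (z ^ 2) - mm D m n t z‖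
        ≤ ∑ m ∈ Finset.Icc 1 M, 1 / 100 * ‖mm D m n t z‖ := by
          apply Finset.sum_le_sum
          intro m hm
          have h8 := H3 t n m z ht3 hW (Finset.mem_Icc.1 hm).1 (Finset.mem_Icc.1 hm).2
          exact h8.trans (mul_le_mul_of_nonneg_right hn (norm_nonneg _))
      _ = 1 / 100 * (‖mt D n t z‖ + ∑ m ∈ (Finset.Icc 1 M).erase 1, ‖mm D m n t z‖) := by
          rw [← Finset.mul_sum, ← Finset.add_sum_erase _ _ h1mem, mm_one D h]
      _ ≤ 1 / 100 * (‖mt D n t z‖ * (1 + 1 / 4000)) := by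
          apply mul_le_mul_of_nonneg_left _ (by norm_num)
          linarith
  -- the main terms `m ≥ 2`
  have hB : ‖∑ m ∈ Finset.Icc 1 M, mm D m n t z - mt D n t z‖ ≤ ‖mt D n t z‖ * (1 / 4000) := by
    rw [← Finset.add_sum_erase _ _ h1mem, mm_one D h, add_sub_cancel_left]
    exact (norm_sum_le _ _).trans hsumE
  have hDn : ‖∑ m ∈ Finset.Icc 1 M,
      arc (GG D m) n (-t ^ 2) (rr D * t) Real.pi (2 * Real.pi) (z ^ 2)‖ ≤
      1 / 100 * ‖mt D n t z‖ := (norm_sum_le _ _).trans hdown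
  have hsum : ∑ m ∈ Finset.Icc 1 M, arc (GG D m) n (-t ^ 2) (rr D * t) 0 Real.pi (z ^ 2) =
      ∑ m ∈ Finset.Icc 1 M, (iteratedDeriv n (GG D m) (z ^ 2) - mm D m n t z) +
      ∑ m ∈ Finset.Icc 1 M, mm D m n t z -
      ∑ m ∈ Finset.Icc 1 M, arc (GG D m) n (-t ^ 2) (rr D * t) Real.pi (2 * Real.pi) (z ^ 2) := by
    rw [← Finset.sum_add_distrib, ← Finset.sum_sub_distrib]
    apply Finset.sum_congr rfl
    intro m hm
    rw [harc m hm]
    ring
  have hfin : arc (FF D) n (-t ^ 2) (rr D * t) 0 Real.pi (z ^ 2) - mt D n t z =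
      (arc (FF D) n (-t ^ 2) (rr D * t) 0 Real.pi (z ^ 2) -
        ∑ m ∈ Finset.Icc 1 M, arc (GG D m) n (-t ^ 2) (rr D * t) 0 Real.pi (z ^ 2)) +
      ∑ m ∈ Finset.Icc 1 M, (iteratedDeriv n (GG D m) (z ^ 2) - mm D m n t z) +
      (∑ m ∈ Finset.Icc 1 M, mm D m n t z - mt D n t z) -
      ∑ m ∈ Finset.Icc 1 M,
        arc (GG D m) n (-t ^ 2) (rr D * t) Real.pi (2 * Real.pi) (z ^ 2) := by
    rw [hsum]
    ring
  rw [hfin]
  refine (four _ _ _ _).trans ?_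
  linarith

end Pool.Agent.H471R3.GJ
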