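import Pool.Agent.H24R2.JP.Spec

set_option autoImplicit false

/-!
# Jensen polynomials of self-dual Dirichlet series with a functional equation: specifications

Generic version of the project `Pool.Agent.H24R2.JP` (helper24). Every task is one `Prop` below.
-/

namespace Pool.Agent.H471R3.GJ

open Complex Filter Topology Polynomial
open Pool.Agent.H24R2.JP (Hyperbolic Par Good App arc SHad SDer SGL SPar SCircle SJensen SNewton SArc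
  SChasse SSector SLimit SJen)

/-- The data. `XX z` is the completed function (entire, even, real), `HH` the factor at infinity,
`a m * m ^ (-κ z)` the terms of the Dirichlet series, `Φ` the kernel. -/
structure Dat where
  /-- the entire function -/
  XX : ℂ → ℂ
  /-- the factor at infinity -/
  HH : ℂ → ℂ
  /-- the coefficients -/
  a : ℕ → ℂ
  /-- the kernel -/
  Φ : ℝ → ℝ
  /-- scale -/
  κ : ℝ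
  /-- half of the degree -/
  c : ℝ
  /-- exponent of the coefficients -/
  A : ℝ
  /-- constant of the coefficients -/
  A0 : ℝ
  /-- position of the window -/
  w : ℝ

/-- The standing hypotheses. -/
structure IsL (D : Dat) : Prop where
  κ_pos : 0 < D.κ
  c_pos : 0 < D.c
  A_nonneg : 0 ≤ D.A
  A0_one : 1 ≤ D.A0
  w_large : 20 * (D.κ + D.A + 1) ≤ D.w
  w_large2 : 4000 * D.A0 ≤ (2 : ℝ) ^ (D.w / 2)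
  Φ_cont : Continuous D.Φ
  Φ_even : ∀ t, D.Φ (-t) = D.Φ t
  Φ_pos : ∃ T : ℝ, ∀ t, T ≤ t → 0 < D.Φ t
  Φ_dec : ∃ C c1 c2 : ℝ, 0 < c1 ∧ 0 < c2 ∧ ∀ t, |D.Φ t| ≤ C * Real.exp (-c1 * Real.exp (c2 * |t|))
  XX_eq : ∀ z : ℂ, D.XX z = ∫ t : ℝ, ((D.Φ t : ℝ) : ℂ) * cexp (z * t)
  XX_zero : ∀ z : ℂ, D.XX z = 0 → |z.re| ≤ 1 / 2
  HH_diff : ∀ z : ℂ, 0 < z.im → DifferentiableAt ℂ D.HH z
  HH_log : ∃ K T0 : ℝ, 1 ≤ K ∧ 1 ≤ T0 ∧ ∀ z : ℂ, T0 ≤ z.im → |z.re| ≤ z.im / 2 → D.HH z ≠ 0 ∧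
    ‖logDeriv D.HH z - ((D.κ * (D.c * Real.log z.im) : ℝ) : ℂ)‖ ≤ K
  a_one : D.a 1 = 1
  a_le : ∀ m : ℕ, 1 ≤ m → ‖D.a m‖ ≤ D.A0 * (m : ℝ) ^ D.A
  XX_dir : ∀ z : ℂ, 0 < z.im → D.A + 2 ≤ D.κ * z.re →
    D.XX z = D.HH z * ∑' m : ℕ, D.a (m + 1) * ((m + 1 : ℕ) : ℂ) ^ (-(D.κ : ℂ) * z)

/-- `γ(k) = k! / (2k)! * XX^(2k)(0)`, so that `XX z = ∑ γ(k) z ^ (2k) / k!`. -/
noncomputable def gam (D : Dat) (k : ℕ) : ℝ :=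
  (k.factorial : ℝ) / ((2 * k).factorial : ℝ) * (iteratedDeriv (2 * k) D.XX 0).re

/-- The Jensen polynomial of degree `d` and shift `n`. -/
noncomputable def jensen (D : Dat) (d n : ℕ) : ℝ[X] :=
  ∑ j ∈ Finset.range (d + 1), Polynomial.C ((d.choose j : ℝ) * gam D (n + j)) * Polynomial.X ^ j

/-- `FF x = ∑ γ(k) x ^ k / k!`, so that `FF (z ^ 2) = XX z`. -/
noncomputable def FF (D : Dat) (x : ℂ) : ℂ := ∑' k : ℕ, ((gam D k : ℝ) : ℂ) / (k.factorial : ℂ) * x ^ k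

/-! ## B. The function `FF` -/

def SB1 (D : Dat) : Prop := Differentiable ℂ (FF D) ∧ (∀ z, FF D (z ^ 2) = D.XX z) ∧
  (∀ x, FF D ((starRingEnd ℂ) x) = (starRingEnd ℂ) (FF D x)) ∧
  ∀ n, iteratedDeriv n (FF D) 0 = ((gam D n : ℝ) : ℂ)

/-- The moments of the kernel: `P k = ∫ max(Φ, 0) t^(2k)` and `M k = ∫ Φ t^(2k)`. -/
def SMom (D : Dat) : Prop := ∃ M P : ℕ → ℝ, ∃ k0 : ℕ, ∃ K δ : ℝ, 0 < K ∧ 0 < δ ∧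
  (∀ k, gam D k = (k.factorial : ℝ) / ((2 * k).factorial : ℝ) * M k) ∧
  (∀ k, 0 < P k) ∧ (∀ k, P (k + 1) ^ 2 ≤ P k * P (k + 2)) ∧
  (∀ k, P (k + 1) ≤ K * ((k : ℝ) + 1) ^ (1 / 4 : ℝ) * P k) ∧
  (∀ k, |M k - P k| ≤ K * Real.exp (-(δ * k)) * P k) ∧
  (∀ k, k0 ≤ k → P k ≤ 2 * M k)

/-- Positive kernels have positive moments. -/
def SGamPos (D : Dat) : Prop := (∀ t, 0 < D.Φ t) → ∀ k, 0 < gam D k

def SGam (D : Dat) : Prop := ∃ k0 : ℕ, (∀ k, k0 ≤ k → 0 < gam D k) ∧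
  (∃ K : ℝ, 0 < K ∧ ∀ n : ℕ, k0 ≤ n → 1 ≤ n →
    (gam D (n + 1) / gam D n) ^ 2 - gam D (n + 2) / gam D n ≤ K * (n : ℝ) ^ (-(5 / 2) : ℝ)) ∧
  Tendsto (fun n => gam D (n + 1) / gam D n) atTop (𝓝 0)

def SGrow (D : Dat) : Prop := ∃ K : ℝ, ∀ x, ‖FF D x‖ ≤ Real.exp (K * (1 + ‖x‖) ^ (3 / 4 : ℝ))

def SZeros (D : Dat) : Prop := ∀ x, FF D x = 0 → x ∈ Par

/-- The derivatives of `FF` of order at least `k0` are good. -/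
def SGood (D : Dat) : Prop := ∃ k0 : ℕ, ∀ k, k0 ≤ k → 0 < gam D k ∧ Good (iteratedDeriv k (FF D))

/-- Consequences of `SGood` and of the general facts for the derivatives of `FF`. -/
def SFacts (D : Dat) : Prop := ∃ k0 : ℕ, (∀ k, k0 ≤ k → 0 < gam D k) ∧
  (∀ n, k0 ≤ n → ∀ x : ℂ, iteratedDeriv n (FF D) x = 0 → x ∈ Par) ∧
  (∀ n, k0 ≤ n → ∀ x : ℂ, x.im ≠ 0 → iteratedDeriv (n + 1) (FF D) x = 0 →
    ∃ z : ℂ, z.im ≠ 0 ∧ iteratedDeriv n (FF D) z = 0 ∧ ‖x - (z.re : ℂ)‖ ≤ |z.im|) ∧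
  (∀ n, k0 ≤ n → ∀ (d : ℕ) (R : ℝ), 0 < R → (d : ℝ) * (R + 1 / 4) ≤ R ^ 2 →
    (∀ x : ℂ, ‖x‖ ≤ R → iteratedDeriv n (FF D) x = 0 → x.im = 0) →
    ∀ z : ℂ, (∑ j ∈ Finset.range (d + 1), (d.choose j : ℂ) * iteratedDeriv (n + j) (FF D) 0 * z ^ j) = 0 →
      z.im = 0) ∧
  (∀ n, k0 ≤ n → (∀ x : ℂ, ‖x‖ ≤ 2 → iteratedDeriv n (FF D) x ≠ 0) → ∀ x : ℂ,
    iteratedDeriv n (FF D) x = 0 →
    1 / (8 * ‖x‖ ^ 2) ≤ ((iteratedDeriv (n + 1) (FF D) 0 / iteratedDeriv n (FF D) 0) ^ 2 -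
      iteratedDeriv (n + 2) (FF D) 0 / iteratedDeriv n (FF D) 0).re)

def SLow (D : Dat) : Prop := ∀ C : ℝ, ∃ N0 : ℕ, ∀ n : ℕ, N0 ≤ n → ∀ x : ℂ,
  iteratedDeriv n (FF D) x = 0 → C * n < ‖x‖

/-! ## C. The window -/

noncomputable def be (D : Dat) (t : ℝ) : ℂ := logDeriv D.HH (I * t)

noncomputable def Om (D : Dat) (t : ℝ) : ℝ := D.c * Real.log t

/-- The radius of the circle is `rr * t`. -/
noncomputable def rr (D : Dat) : ℝ := 2 * D.w / D.κ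

/-- The number of pieces. -/
noncomputable def MM (D : Dat) (t : ℝ) : ℕ := ⌊Real.exp (2 / 5 * Om D t)⌋₊

def SStir (D : Dat) : Prop := (∀ z : ℂ, 0 < z.im → DifferentiableAt ℂ D.HH z) ∧
  ∃ K T0 : ℝ, 1 ≤ K ∧ 1 ≤ T0 ∧ ∀ t : ℝ, T0 ≤ t → D.HH (I * t) ≠ 0 ∧
    ‖be D t - ((D.κ * Om D t : ℝ) : ℂ)‖ ≤ K ∧
    ∀ u : ℂ, ‖u‖ ≤ rr D + 4 →
      ‖D.HH (I * t + u) - D.HH (I * t) * cexp (be D t * u)‖ ≤
        K / t * ‖D.HH (I * t) * cexp (be D t * u)‖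

/-- The tail of the Dirichlet series. -/
def STail (D : Dat) : Prop := ∀ (z : ℂ) (M : ℕ), 0 < z.im → D.A + 2 ≤ D.κ * z.re → 1 ≤ M →
  ‖D.XX z - D.HH z * ∑ m ∈ Finset.Icc 1 M, D.a m * (m : ℂ) ^ (-(D.κ : ℂ) * z)‖ ≤
    2 * D.A0 * ‖D.HH z‖ * (M : ℝ) ^ (D.A + 1 - D.κ * z.re)

/-- A crude convexity bound. -/
def SConv (D : Dat) : Prop := ∃ K T0 : ℝ, 1 ≤ K ∧ 1 ≤ T0 ∧ ∀ (t : ℝ) (z : ℂ), T0 ≤ t → 0 ≤ z.re →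
  D.κ * z.re ≤ D.A + 2 → ‖z - I * t‖ ≤ rr D + 2 →
  ‖D.XX z‖ ≤ K * ‖D.HH (I * t)‖ * Real.exp ((D.A + 3) * Om D t)

/-- The `m`-th piece. -/
noncomputable def GG (D : Dat) (m : ℕ) (ξ : ℂ) : ℂ :=
  D.HH (Pool.Agent.H24R2.JP.sq ξ) * (D.a m * (m : ℂ) ^ (-(D.κ : ℂ) * Pool.Agent.H24R2.JP.sq ξ))

/-- The main term. -/
noncomputable def mt (D : Dat) (n : ℕ) (t : ℝ) (z : ℂ) : ℂ :=
  D.HH (I * t) * cexp (be D t * (z - I * t)) * (be D t / (2 * (I * t))) ^ n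

/-- The window. -/
def Win (D : Dat) (t : ℝ) (n : ℕ) (z : ℂ) : Prop :=
  39 / 40 * (D.w * Om D t) ≤ n ∧ (n : ℝ) ≤ 41 / 40 * (D.w * Om D t) ∧ ‖z - I * t‖ ≤ 3 / 4

/-- The `m`-th main term. -/
noncomputable def mm (D : Dat) (m n : ℕ) (t : ℝ) (z : ℂ) : ℂ :=
  D.HH (I * t) * cexp (be D t * (z - I * t)) * (D.a m * (m : ℂ) ^ (-(D.κ : ℂ) * z)) *
    ((be D t - ((D.κ * Real.log m : ℝ) : ℂ)) / (2 * (I * t))) ^ n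

def SPiece (D : Dat) : Prop := ∃ K T0 : ℝ, 1 ≤ K ∧ 1 ≤ T0 ∧ ∀ (t : ℝ) (n m : ℕ) (z : ℂ), T0 ≤ t →
  Win D t n z → 1 ≤ m → m ≤ MM D t →
  ‖iteratedDeriv n (GG D m) (z ^ 2) - mm D m n t z‖ ≤ K * (n : ℝ) ^ 2 / t * ‖mm D m n t z‖

/-- The upper arc: `FF` is the sum of its first pieces up to a small error. -/
def SUp (D : Dat) : Prop := ∀ ε : ℝ, 0 < ε → ∃ T0 : ℝ, 1 ≤ T0 ∧ ∀ (t : ℝ) (n : ℕ) (z : ℂ), T0 ≤ t →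
  Win D t n z →
  ‖arc (FF D) n (-t ^ 2) (rr D * t) 0 Real.pi (z ^ 2) - ∑ m ∈ Finset.Icc 1 (MM D t),
    arc (GG D m) n (-t ^ 2) (rr D * t) 0 Real.pi (z ^ 2)‖ ≤ ε * ‖mt D n t z‖

/-- The lower arc of the pieces is negligible. -/
def SDown (D : Dat) : Prop := ∀ ε : ℝ, 0 < ε → ∃ T0 : ℝ, 1 ≤ T0 ∧ ∀ (t : ℝ) (n : ℕ) (z : ℂ), T0 ≤ t →
  Win D t n z →
  ∑ m ∈ Finset.Icc 1 (MM D t),
    ‖arc (GG D m) n (-t ^ 2) (rr D * t) Real.pi (2 * Real.pi) (z ^ 2)‖ ≤ ε * ‖mt D n t z‖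

def SMain (D : Dat) : Prop := ∃ T0 : ℝ, 1 ≤ T0 ∧ ∀ (t : ℝ) (n : ℕ) (z : ℂ), T0 ≤ t → Win D t n z →
  ‖arc (FF D) n (-t ^ 2) (rr D * t) 0 Real.pi (z ^ 2) - mt D n t z‖ ≤ 1 / 10 * ‖mt D n t z‖

/-- No zeros off the line at height `t` (in terms of `z`). -/
def SOff (D : Dat) : Prop := ∃ T0 : ℝ, 1 ≤ T0 ∧ ∀ (t s : ℝ) (n : ℕ), T0 ≤ t →
  39 / 40 * (D.w * Om D t) ≤ n → (n : ℝ) ≤ 41 / 40 * (D.w * Om D t) → 0 < s → s ≤ 1 / 2 →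
  iteratedDeriv n (FF D) ((s + I * t) ^ 2) ≠ 0

/-- The exponent of the window in terms of `n`. -/
noncomputable def al (D : Dat) : ℝ := 2 / (D.c * D.w)

def SWin (D : Dat) : Prop := ∃ n1 : ℕ, ∀ n : ℕ, n1 ≤ n → ∀ x : ℂ, x ∈ Par → x.im ≠ 0 →
  Real.exp (49 / 50 * (al D * n)) ≤ ‖x‖ → ‖x‖ ≤ Real.exp (51 / 50 * (al D * n)) →
  iteratedDeriv n (FF D) x ≠ 0

/-! ## D. Conclusion -/

def SChain (D : Dat) : Prop := ∃ N1 : ℕ, ∀ n : ℕ, N1 ≤ n → ∀ x : ℂ, x.im ≠ 0 →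
  iteratedDeriv n (FF D) x = 0 → Real.exp (al D * n) < ‖x‖

def SHyp (D : Dat) : Prop := ∃ C : ℝ, 0 < C ∧ ∀ d n : ℕ, 1 ≤ d → C * Real.log (d + 1) ≤ n →
  Hyperbolic (jensen D d n)

/-! ## E. Equivalences -/

def SRH1 (D : Dat) : Prop := (∀ k, 0 < gam D k) → (∀ z : ℂ, D.XX z = 0 → z.re = 0) →
  ∀ d n : ℕ, Hyperbolic (jensen D d n)

def SRH2 (D : Dat) : Prop := (∀ k, 0 < gam D k) → (∀ d : ℕ, Hyperbolic (jensen D d 0)) →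
  ∀ z : ℂ, D.XX z = 0 → z.re = 0

end Pool.Agent.H471R3.GJ
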