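import Pool.Agent.H471R3.GJ.Spec
import Pool.Agent.H24R2.JP.Spec2

set_option autoImplicit false

/-!
# Zeros of the derivatives of completed L-functions: specifications (generic version)
-/

namespace Pool.Agent.H471R3.GJ

open Complex Filter Topology Polynomial
open Pool.Agent.H24R2.JP (TT TI)

def SExZero (D : Dat) : Prop := ∃ k0 : ℕ, ∀ n : ℕ, k0 ≤ n → ∃ x : ℂ, iteratedDeriv n (FF D) x = 0

/-- In the window the zeros on the line are simple. -/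
def SSimpleWin (D : Dat) : Prop := ∃ T0 : ℝ, 1 ≤ T0 ∧ ∀ (t : ℝ) (n : ℕ), T0 ≤ t →
  39 / 40 * (D.w * Om D t) ≤ n → (n : ℝ) ≤ 41 / 40 * (D.w * Om D t) →
  iteratedDeriv n (FF D) ((I * t) ^ 2) = 0 → iteratedDeriv (n + 1) (FF D) ((I * t) ^ 2) ≠ 0

/-- The zeros of `FF^(n)` in `|x| ≤ exp (5/6 al n)` are real, negative and simple. -/
def SSimple (D : Dat) : Prop := ∃ N1 : ℕ, ∀ n : ℕ, N1 ≤ n → ∀ x : ℂ,
  ‖x‖ ≤ Real.exp (5 / 6 * (al D * n)) → iteratedDeriv n (FF D) x = 0 →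
  x.im = 0 ∧ x.re < 0 ∧ iteratedDeriv (n + 1) (FF D) x ≠ 0

/-- Derivatives of `XX` and of `z XX` in terms of derivatives of `FF`. -/
def SXder (D : Dat) : Prop := ∀ (m : ℕ) (z : ℂ),
  iteratedDeriv (2 * m) D.XX z = 4 ^ m * TI (1 / 2) m (iteratedDeriv m (FF D)) (z ^ 2) ∧
  iteratedDeriv (2 * m + 1) D.XX z = 2 * 4 ^ m * z * TI (3 / 2) m (iteratedDeriv (m + 1) (FF D)) (z ^ 2)

def SXderOdd (D : Dat) : Prop := ∀ (m : ℕ) (z : ℂ),
  iteratedDeriv (2 * m) (fun u : ℂ => u * D.XX u) z =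
    4 ^ m * z * TI (3 / 2) m (iteratedDeriv m (FF D)) (z ^ 2) ∧
  iteratedDeriv (2 * m + 1) (fun u : ℂ => u * D.XX u) z =
    2 * 4 ^ m * TI (1 / 2) (m + 1) (iteratedDeriv m (FF D)) (z ^ 2)

/-- Final statement: zeros of the derivatives of `XX`. -/
def SXi (D : Dat) : Prop := ∃ N0 : ℕ, ∀ n : ℕ, N0 ≤ n → ∀ z : ℂ, iteratedDeriv n D.XX z = 0 →
  |z.im| ≤ Real.exp (al D * n / 5) → z.re = 0 ∧ iteratedDeriv (n + 1) D.XX z ≠ 0

/-- Final statement: zeros of the derivatives of `z XX`. -/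
def SXiOdd (D : Dat) : Prop := ∃ N0 : ℕ, ∀ n : ℕ, N0 ≤ n → ∀ z : ℂ,
  iteratedDeriv n (fun u : ℂ => u * D.XX u) z = 0 →
  |z.im| ≤ Real.exp (al D * n / 5) → z.re = 0 ∧ iteratedDeriv (n + 1) (fun u : ℂ => u * D.XX u) z ≠ 0

end Pool.Agent.H471R3.GJ
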