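import Pool.Agent.H471R3.GJ.Spec
import Pool.Agent.H24R2.JP.UpDownAux

set_option autoImplicit false

namespace Pool.Agent.H471R3.GJ.UD

open Complex Filter Topology
open Pool.Agent.H24R2.JP (Hyperbolic Par Good App arc SHad SDer SGL SPar SCircle SJensen SNewton SArc
  SChasse SSector SLimit SJen)
open Pool.Agent.H24R2.JP.UD (fact_le arc_lin)

lemma Om_tendsto (D : Dat) (h : IsL D) : Tendsto (Om D) atTop atTop := by
  unfold Om
  exact Real.tendsto_log_atTop.const_mul_atTop h.c_pos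

/-- The key asymptotic estimate. -/
lemma key (D : Dat) (h : IsL D) (K C ε : ℝ) (hC : 0 ≤ C) (hε : 0 < ε) :
    ∀ᶠ t : ℝ in atTop, ∀ n : ℕ, 39 / 40 * (D.w * Om D t) ≤ n → (n : ℝ) ≤ 41 / 40 * (D.w * Om D t) →
      C * Real.exp ((39 / 50 * D.w - 1 / 2) * Om D t) * (n.factorial : ℝ) ≤
        ε * ((D.w / D.κ - 4 / 5) * (D.κ * Om D t - K)) ^ n := by
  have hκ := h.κ_pos
  have hA := h.A_nonneg
  have hw := h.w_large
  have hw0 : 20 ≤ D.w := by nlinarith
  have hwκ : 20 ≤ D.w / D.κ := by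
    rw [le_div_iff₀ hκ]
    nlinarith
  have hlim : Tendsto (fun t : ℝ => C * 30 * Real.exp (-(1 / 2) * Om D t)) atTop (𝓝 (C * 30 * 0)) := by
    apply Tendsto.const_mul
    apply Real.tendsto_exp_atBot.comp
    apply Tendsto.const_mul_atTop_of_neg (by norm_num) (Om_tendsto D h)
  rw [mul_zero] at hlim
  filter_upwards [(Om_tendsto D h).eventually_ge_atTop 1,
    (Om_tendsto D h).eventually_ge_atTop (101 * |K| / D.κ),
    hlim.eventually (gt_mem_nhds hε)] with t h1 h2 h3 n hn1 hn2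
  have hKO : 101 * |K| ≤ D.κ * Om D t := by
    rw [div_le_iff₀ hκ] at h2
    linarith
  have hKK : K ≤ |K| := le_abs_self K
  have hK0 : 0 ≤ |K| := abs_nonneg K
  have hκO : 0 < D.κ * Om D t := by positivity
  have hwO : 20 ≤ D.w * Om D t := by nlinarith
  have hn0 : (0 : ℝ) < n := by linarith
  have hnn : 1 ≤ n := by exact_mod_cast hn0
  set q := (D.w / D.κ - 4 / 5) * (D.κ * Om D t - K) with hq
  have hX : 100 / 101 * (D.κ * Om D t) ≤ D.κ * Om D t - K := by linarith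
  have hY : 24 / 25 * (D.w / D.κ) ≤ D.w / D.κ - 4 / 5 := by linarith
  have hwO2 : D.w / D.κ * (D.κ * Om D t) = D.w * Om D t := by
    field_simp
  have hq1 : 24 / 25 * (100 / 101) * (D.w * Om D t) ≤ q := by
    rw [hq, ← hwO2]
    have := mul_le_mul hY hX (by positivity) (by linarith)
    linarith
  have hqpos : 0 < q := by
    have : (0 : ℝ) < 24 / 25 * (100 / 101) * (D.w * Om D t) := by positivity
    linarith
  have hA' : (n : ℝ) ≤ Real.exp (1 / 10) * q := by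
    have he : (11 / 10 : ℝ) ≤ Real.exp (1 / 10) := by
      have := Real.add_one_le_exp (1 / 10 : ℝ)
      linarith
    calc (n : ℝ) ≤ 11 / 10 * q := by linarith
      _ ≤ _ := mul_le_mul_of_nonneg_right he hqpos.le
  have hA'' : (n : ℝ) ^ n ≤ Real.exp (1 / 10 * n) * q ^ n := by
    calc (n : ℝ) ^ n ≤ (Real.exp (1 / 10) * q) ^ n := by gcongr
      _ = _ := by
        rw [mul_pow, ← Real.exp_nat_mul]
        congr 2
        ring
  have hx : (n : ℝ) * Real.exp (-(1 / 10) * n) ≤ 10 := by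
    have := Real.add_one_le_exp (1 / 10 * (n : ℝ))
    have h4 : Real.exp (-(1 / 10) * n) = (Real.exp (1 / 10 * n))⁻¹ := by
      rw [← Real.exp_neg]
      congr 1
      ring
    rw [h4, ← div_eq_mul_inv, div_le_iff₀ (Real.exp_pos _)]
    linarith
  have he3 : Real.exp 1 ≤ 3 := by
    have := Real.exp_one_lt_d9
    linarith
  have hfac := fact_le n hnn
  calc C * Real.exp ((39 / 50 * D.w - 1 / 2) * Om D t) * (n.factorial : ℝ)
      ≤ C * Real.exp ((39 / 50 * D.w - 1 / 2) * Om D t) * (n * (n : ℝ) ^ n * Real.exp (1 - n)) := by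
        gcongr
    _ ≤ C * Real.exp ((39 / 50 * D.w - 1 / 2) * Om D t) *
        (n * (Real.exp (1 / 10 * n) * q ^ n) * Real.exp (1 - n)) := by
        gcongr
    _ = C * Real.exp 1 * ((n : ℝ) * Real.exp (-(1 / 10) * n)) *
        Real.exp ((39 / 50 * D.w - 1 / 2) * Om D t - 4 / 5 * n) * q ^ n := by
        have e1 : Real.exp ((39 / 50 * D.w - 1 / 2) * Om D t) *
            (Real.exp (1 / 10 * n) * Real.exp (1 - n)) =
            Real.exp 1 * Real.exp (-(1 / 10) * n) *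
              Real.exp ((39 / 50 * D.w - 1 / 2) * Om D t - 4 / 5 * n) := by
          simp only [← Real.exp_add]
          congr 1
          ring
        linear_combination (C * n * q ^ n) * e1
    _ ≤ C * 3 * 10 * Real.exp (-(1 / 2) * Om D t) * q ^ n := by
        have e2 : (39 / 50 * D.w - 1 / 2) * Om D t - 4 / 5 * n ≤ -(1 / 2) * Om D t := by nlinarith
        gcongr
    _ ≤ ε * q ^ n := by
        have : C * 3 * 10 * Real.exp (-(1 / 2) * Om D t) = C * 30 * Real.exp (-(1 / 2) * Om D t) := by ring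
        rw [this]
        gcongr

/-- lower bound for the main term -/
lemma mt_lower (D : Dat) (t K : ℝ) (n : ℕ) (z : ℂ) (ht : 0 < t) (hKO : K ≤ D.κ * Om D t)
    (hbe : ‖be D t - ((D.κ * Om D t : ℝ) : ℂ)‖ ≤ K) (hz : ‖z - I * t‖ ≤ 3 / 4) :
    ‖D.HH (I * t)‖ * (Real.exp (-(3 / 4) * (D.κ * Om D t + K)) * ((D.κ * Om D t - K) / (2 * t)) ^ n) ≤
      ‖mt D n t z‖ := by
  have hO : 0 ≤ D.κ * Om D t := by
    have : 0 ≤ K := (norm_nonneg _).trans hbe
    linarith
  have hnO : ‖((D.κ * Om D t : ℝ) : ℂ)‖ = D.κ * Om D t := by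
    rw [Complex.norm_real, Real.norm_eq_abs, abs_of_nonneg hO]
  have h1 : D.κ * Om D t - K ≤ ‖be D t‖ := by
    have := norm_sub_norm_le ((D.κ * Om D t : ℝ) : ℂ) (be D t)
    rw [norm_sub_rev, hnO] at this
    linarith
  have h2 : ‖be D t‖ ≤ D.κ * Om D t + K := by
    have := norm_sub_norm_le (be D t) ((D.κ * Om D t : ℝ) : ℂ)
    rw [hnO] at this
    linarith
  unfold mt
  rw [norm_mul, norm_mul, mul_assoc]
  apply mul_le_mul_of_nonneg_left _ (norm_nonneg _)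
  have hOK : 0 ≤ D.κ * Om D t + K := (norm_nonneg _).trans h2
  have h3 : -(3 / 4) * (D.κ * Om D t + K) ≤ (be D t * (z - I * t)).re := by
    have h4 : ‖be D t * (z - I * t)‖ ≤ (D.κ * Om D t + K) * (3 / 4) := by
      rw [norm_mul]
      gcongr
    have h5 := Complex.abs_re_le_norm (be D t * (z - I * t))
    have h6 := neg_le_of_abs_le h5
    linarith
  have h7 : ‖cexp (be D t * (z - I * t))‖ = Real.exp (be D t * (z - I * t)).re := Complex.norm_exp _
  have h8 : ‖(be D t / (2 * (I * t))) ^ n‖ = (‖be D t‖ / (2 * t)) ^ n := by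
    rw [norm_pow, norm_div, norm_mul, norm_mul]
    simp [abs_of_pos ht]
  rw [h7, h8]
  have h9 : 0 ≤ D.κ * Om D t - K := by linarith
  gcongr

/-- the final comparison -/
lemma final (D : Dat) (h : IsL D) (h1 : SStir D) (C ε : ℝ) (hC : 0 ≤ C) (hε : 0 < ε) :
    ∀ᶠ t : ℝ in atTop, ∀ (n : ℕ) (z : ℂ), Win D t n z →
      ∀ B : ℝ, B ≤ C * Real.exp ((39 / 50 * D.w - 1 / 2 - 3 / 4 * D.κ) * Om D t) * ‖D.HH (I * t)‖ →
        (n.factorial : ℝ) / ((rr D - 8 / 5) * t) ^ n * B ≤ ε * ‖mt D n t z‖ := by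
  obtain ⟨-, K, T0, hK, hT0, hst⟩ := h1
  have hK0 : 0 ≤ K := by linarith
  have hκ := h.κ_pos
  have hA := h.A_nonneg
  have hw := h.w_large
  have hwκ : 20 ≤ D.w / D.κ := by
    rw [le_div_iff₀ hκ]
    nlinarith
  have hrr : rr D = 2 * (D.w / D.κ) := by unfold rr; ring
  filter_upwards [key D h K (C * Real.exp (3 / 4 * K)) ε (by positivity) hε, eventually_ge_atTop T0,
    (Om_tendsto D h).eventually_ge_atTop (K / D.κ)] with t hkey hT hOm n z hw' B hB
  obtain ⟨hn1, hn2, hz⟩ := hw'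
  have ht : 0 < t := by linarith
  obtain ⟨-, hbe, -⟩ := hst t hT
  have hKO : K ≤ D.κ * Om D t := by
    rw [div_le_iff₀ hκ] at hOm
    linarith
  have hlow := mt_lower D t K n z ht hKO hbe hz
  have hk := hkey n hn1 hn2
  refine le_trans ?_ (mul_le_mul_of_nonneg_left hlow hε.le)
  have hr : 0 < (rr D - 8 / 5) * t := by
    apply mul_pos _ ht
    rw [hrr]; linarith
  calc (n.factorial : ℝ) / ((rr D - 8 / 5) * t) ^ n * B
      ≤ (n.factorial : ℝ) / ((rr D - 8 / 5) * t) ^ n *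
        (C * Real.exp ((39 / 50 * D.w - 1 / 2 - 3 / 4 * D.κ) * Om D t) * ‖D.HH (I * t)‖) := by
        gcongr
    _ = ‖D.HH (I * t)‖ * Real.exp (-(3 / 4) * (D.κ * Om D t + K)) / ((rr D - 8 / 5) * t) ^ n *
        (C * Real.exp (3 / 4 * K) * Real.exp ((39 / 50 * D.w - 1 / 2) * Om D t) *
          (n.factorial : ℝ)) := by
        have e1 : Real.exp ((39 / 50 * D.w - 1 / 2 - 3 / 4 * D.κ) * Om D t) =
            Real.exp (-(3 / 4) * (D.κ * Om D t + K)) *
            (Real.exp (3 / 4 * K) * Real.exp ((39 / 50 * D.w - 1 / 2) * Om D t)) := by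
          simp only [← Real.exp_add]
          congr 1
          ring
        rw [e1]
        ring
    _ ≤ ‖D.HH (I * t)‖ * Real.exp (-(3 / 4) * (D.κ * Om D t + K)) / ((rr D - 8 / 5) * t) ^ n *
        (ε * ((D.w / D.κ - 4 / 5) * (D.κ * Om D t - K)) ^ n) := by
        gcongr
    _ = ε * (‖D.HH (I * t)‖ * (Real.exp (-(3 / 4) * (D.κ * Om D t + K)) *
        ((D.κ * Om D t - K) / (2 * t)) ^ n)) := by
        have e2 : ((D.w / D.κ - 4 / 5) * (D.κ * Om D t - K)) ^ n / ((rr D - 8 / 5) * t) ^ n =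
            ((D.κ * Om D t - K) / (2 * t)) ^ n := by
          rw [← div_pow]
          congr 1
          rw [hrr]
          have h9 : D.w / D.κ - 4 / 5 ≠ 0 := by linarith
          have h10 : 2 * (D.w / D.κ) - 8 / 5 = 2 * (D.w / D.κ - 4 / 5) := by ring
          rw [h10]
          generalize D.w / D.κ - 4 / 5 = v at h9
          field_simp
        rw [← e2]
        ring

/-- geometry of the circle -/
lemma geom (r t : ℝ) (hr : 1 ≤ r) (ht : 100 * r ^ 2 ≤ t) (θ : ℝ) :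
    Pool.Agent.H24R2.JP.sq (((-t ^ 2 : ℝ) : ℂ) + ((r * t : ℝ) : ℂ) * cexp (I * θ)) ^ 2 =
        ((-t ^ 2 : ℝ) : ℂ) + ((r * t : ℝ) : ℂ) * cexp (I * θ) ∧
      ‖Pool.Agent.H24R2.JP.sq (((-t ^ 2 : ℝ) : ℂ) + ((r * t : ℝ) : ℂ) * cexp (I * θ)) - I * t‖ ≤
        r / 2 + 1 / 10 ∧
      t - r ≤ (Pool.Agent.H24R2.JP.sq (((-t ^ 2 : ℝ) : ℂ) + ((r * t : ℝ) : ℂ) * cexp (I * θ))).im ∧
      (0 ≤ Real.sin θ →
        0 ≤ (Pool.Agent.H24R2.JP.sq (((-t ^ 2 : ℝ) : ℂ) + ((r * t : ℝ) : ℂ) * cexp (I * θ))).re) ∧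
      (Real.sin θ ≤ 0 →
        (Pool.Agent.H24R2.JP.sq (((-t ^ 2 : ℝ) : ℂ) + ((r * t : ℝ) : ℂ) * cexp (I * θ))).re ≤ 0) ∧
      -(((-t ^ 2 : ℝ) : ℂ) + ((r * t : ℝ) : ℂ) * cexp (I * θ)) ∈ slitPlane := by
  have hrt : 100 * r ≤ t := by nlinarith
  have ht0 : 0 < t := by linarith
  set ξ : ℂ := ((-t ^ 2 : ℝ) : ℂ) + ((r * t : ℝ) : ℂ) * cexp (I * θ) with hξ
  have hexp : cexp (I * θ) = (Real.cos θ : ℂ) + (Real.sin θ : ℂ) * I := by
    rw [mul_comm, Complex.exp_mul_I]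
    simp
  have hre : ξ.re = -t ^ 2 + r * t * Real.cos θ := by
    rw [hξ, hexp]
    simp [-ofReal_cos, -ofReal_sin, -ofReal_pow]
  have him : ξ.im = r * t * Real.sin θ := by
    rw [hξ, hexp]
    simp [-ofReal_cos, -ofReal_sin, -ofReal_pow]
  have hnegre : 0 < (-ξ).re := by
    rw [neg_re, hre]
    have h1 := Real.cos_le_one θ
    have h2 : r * t * Real.cos θ ≤ r * t * 1 := mul_le_mul_of_nonneg_left h1 (by positivity)
    nlinarith
  have hslit : -ξ ∈ slitPlane := Or.inl hnegre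
  have hne : -ξ ≠ 0 := by
    intro h
    rw [h] at hnegre
    simp at hnegre
  set w : ℂ := (-ξ) ^ (1 / 2 : ℂ) with hw
  have hw2 : w ^ 2 = -ξ := by
    rw [hw, ← Complex.cpow_nat_mul]
    norm_num
  have hsq : Pool.Agent.H24R2.JP.sq ξ = I * w := rfl
  have hwre : 0 < w.re := by
    rw [hw, Complex.cpow_def_of_ne_zero hne, Complex.exp_re]
    apply mul_pos (Real.exp_pos _)
    apply Real.cos_pos_of_mem_Ioo
    have h1 : (Complex.log (-ξ) * (1 / 2 : ℂ)).im = (-ξ).arg / 2 := by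
      rw [show (1 / 2 : ℂ) = ((1 / 2 : ℝ) : ℂ) by norm_num, Complex.im_mul_ofReal, Complex.log_im]
      ring
    rw [h1]
    have h2 := (Complex.abs_arg_lt_pi_div_two_iff.2 (Or.inl hnegre))
    rw [abs_lt] at h2
    have := Real.pi_pos
    constructor <;> linarith [h2.1, h2.2]
  set σ := Pool.Agent.H24R2.JP.sq ξ with hσ
  have hsqim : σ.im = w.re := by rw [hsq]; simp
  have hz2 : σ ^ 2 = ξ := by
    rw [hsq, mul_pow, I_sq, hw2]
    ring
  have hprod : (σ - I * t) * (σ + I * t) = ((r * t : ℝ) : ℂ) * cexp (I * θ) := by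
    have : (σ - I * t) * (σ + I * t) = σ ^ 2 + (t : ℂ) ^ 2 := by
      ring_nf
      rw [I_sq]
      ring
    rw [this, hz2, hξ]
    push_cast
    ring
  have hnorm : ‖σ - I * t‖ * ‖σ + I * t‖ = r * t := by
    rw [← norm_mul, hprod, norm_mul, mul_comm I, Complex.norm_exp_ofReal_mul_I, Complex.norm_real,
      Real.norm_eq_abs, abs_of_pos (by positivity)]
    ring
  have him1 : σ.im + t ≤ ‖σ + I * t‖ := by
    have h := Complex.abs_im_le_norm (σ + I * t)
    have h2 : (σ + I * t).im = σ.im + t := by simp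
    rw [h2] at h
    exact (le_abs_self _).trans h
  have hu1 : ‖σ - I * t‖ ≤ r := by
    by_contra hcon
    push Not at hcon
    have h1 : t < ‖σ + I * t‖ := by
      rw [← hsqim] at hwre
      linarith
    have h2 : r * t < ‖σ - I * t‖ * ‖σ + I * t‖ := by
      apply mul_lt_mul hcon h1.le ht0 (norm_nonneg _)
    linarith
  have him2 : t - ‖σ - I * t‖ ≤ σ.im := by
    have h := Complex.abs_im_le_norm (σ - I * t)
    have h2 : (σ - I * t).im = σ.im - t := by simp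
    rw [h2] at h
    have := neg_le_of_abs_le h
    linarith
  have hu2 : ‖σ - I * t‖ ≤ r / 2 + 1 / 10 := by
    by_contra hcon
    push Not at hcon
    have h1 : 2 * t - r ≤ ‖σ + I * t‖ := by linarith
    have h2 : (r / 2 + 1 / 10) * (2 * t - r) < ‖σ - I * t‖ * ‖σ + I * t‖ := by
      apply mul_lt_mul hcon h1 (by linarith) (norm_nonneg _)
    nlinarith
  have himre : 2 * σ.re * σ.im = r * t * Real.sin θ := by
    have h1 : (σ ^ 2).im = 2 * σ.re * σ.im := by
      rw [pow_two, Complex.mul_im]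
      ring
    rw [← h1, hz2, him]
  have himpos : 0 < σ.im := by rw [hsqim]; exact hwre
  refine ⟨hz2, hu2, by linarith, ?_, ?_, hslit⟩
  · intro hs
    by_contra hcon
    push Not at hcon
    have : 2 * σ.re * σ.im < 0 := by nlinarith
    have h2 : 0 ≤ r * t * Real.sin θ := by positivity
    linarith
  · intro hs
    by_contra hcon
    push Not at hcon
    have : 0 < 2 * σ.re * σ.im := by positivity
    have h2 : r * t * Real.sin θ ≤ 0 := by
      have : 0 ≤ r * t := by positivity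
      nlinarith
    linarith

lemma dist_circle (r t : ℝ) (hr : 0 ≤ r) (ht : 10 ≤ t) (z : ℂ) (hz : ‖z - I * t‖ ≤ 3 / 4) (θ : ℝ) :
    (r - 8 / 5) * t ≤ ‖((-t ^ 2 : ℝ) : ℂ) + ((r * t : ℝ) : ℂ) * cexp (I * θ) - z ^ 2‖ := by
  have ht0 : 0 < t := by linarith
  have h1 : ‖z ^ 2 + (t : ℂ) ^ 2‖ ≤ 8 / 5 * t := by
    have e1 : z ^ 2 + (t : ℂ) ^ 2 = (z - I * t) * (z - I * t + 2 * (I * t)) := by
      ring_nf
      rw [I_sq]
      ring
    rw [e1, norm_mul]
    have h2 : ‖z - I * t + 2 * (I * t)‖ ≤ 3 / 4 + 2 * t := by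
      refine (norm_add_le _ _).trans ?_
      have h3 : ‖2 * (I * (t : ℂ))‖ = 2 * t := by simp [abs_of_pos ht0]
      rw [h3]
      linarith
    calc ‖z - I * t‖ * ‖z - I * t + 2 * (I * t)‖ ≤ 3 / 4 * (3 / 4 + 2 * t) := by gcongr
      _ ≤ 8 / 5 * t := by linarith
  have h4 : ‖((r * t : ℝ) : ℂ) * cexp (I * θ)‖ = r * t := by
    rw [norm_mul, mul_comm I, Complex.norm_exp_ofReal_mul_I, Complex.norm_real,
      Real.norm_eq_abs, abs_of_nonneg (by positivity)]
    ring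
  have h5 : ((-t ^ 2 : ℝ) : ℂ) + ((r * t : ℝ) : ℂ) * cexp (I * θ) - z ^ 2 =
      ((r * t : ℝ) : ℂ) * cexp (I * θ) - (z ^ 2 + (t : ℂ) ^ 2) := by
    push_cast
    ring
  rw [h5]
  have h6 := norm_sub_norm_le (((r * t : ℝ) : ℂ) * cexp (I * θ)) (z ^ 2 + (t : ℂ) ^ 2)
  rw [h4] at h6
  linarith

/-- kernel bound -/
lemma arc_bound (f : ℂ → ℂ) (n : ℕ) (r t a b B : ℝ) (z : ℂ) (hr : 10 ≤ r) (ht : 10 ≤ t) (hab : a ≤ b)
    (hab2 : b ≤ a + Real.pi) (hz : ‖z - I * t‖ ≤ 3 / 4) (hB0 : 0 ≤ B)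
    (hB : ∀ θ ∈ Set.Icc a b, ‖f (((-t ^ 2 : ℝ) : ℂ) + ((r * t : ℝ) : ℂ) * cexp (I * θ))‖ ≤ B) :
    ‖arc f n (-t ^ 2) (r * t) a b (z ^ 2)‖ ≤ (n.factorial : ℝ) / ((r - 8 / 5) * t) ^ n * B := by
  have ht0 : 0 < t := by linarith
  have hr0 : 0 < r - 8 / 5 := by linarith
  have hrt : 0 < (r - 8 / 5) * t := by positivity
  have hint : ‖∫ θ in a..b, f (((-t ^ 2 : ℝ) : ℂ) + ((r * t : ℝ) : ℂ) * cexp (I * θ)) *
      (((r * t : ℝ) : ℂ) * cexp (I * θ)) /
        (((-t ^ 2 : ℝ) : ℂ) + ((r * t : ℝ) : ℂ) * cexp (I * θ) - z ^ 2) ^ (n + 1)‖ ≤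
      (B * (r * t) / ((r - 8 / 5) * t) ^ (n + 1)) * |b - a| := by
    apply intervalIntegral.norm_integral_le_of_norm_le_const
    intro θ hθ
    rw [Set.uIoc_of_le hab] at hθ
    have h7 := hB θ ⟨hθ.1.le, hθ.2⟩
    have h4 : ‖((r * t : ℝ) : ℂ) * cexp (I * θ)‖ = r * t := by
      rw [norm_mul, mul_comm I, Complex.norm_exp_ofReal_mul_I, Complex.norm_real,
        Real.norm_eq_abs, abs_of_nonneg (by positivity)]
      ring
    rw [norm_div, norm_mul, h4, norm_pow]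
    have h8 := dist_circle r t (by linarith) ht z hz θ
    gcongr
  unfold arc
  rw [norm_mul]
  have hpre : ‖(n.factorial : ℂ) / (2 * Real.pi)‖ = (n.factorial : ℝ) / (2 * Real.pi) := by
    rw [norm_div, norm_mul]
    simp [abs_of_pos Real.pi_pos]
  rw [hpre]
  have hba : |b - a| ≤ Real.pi := by
    rw [abs_of_nonneg (by linarith)]
    linarith
  calc (n.factorial : ℝ) / (2 * Real.pi) * ‖_‖ ≤ (n.factorial : ℝ) / (2 * Real.pi) *
        ((B * (r * t) / ((r - 8 / 5) * t) ^ (n + 1)) * |b - a|) := by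
        apply mul_le_mul_of_nonneg_left hint
        have := Real.pi_pos
        positivity
    _ ≤ (n.factorial : ℝ) / (2 * Real.pi) *
        ((B * (r * t) / ((r - 8 / 5) * t) ^ (n + 1)) * Real.pi) := by
        have := Real.pi_pos
        gcongr
    _ = (n.factorial : ℝ) / ((r - 8 / 5) * t) ^ n * (B * (r / (2 * (r - 8 / 5)))) := by
        have := Real.pi_pos.ne'
        rw [pow_succ]
        field_simp
    _ ≤ (n.factorial : ℝ) / ((r - 8 / 5) * t) ^ n * B := by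
        have hB2 : r / (2 * (r - 8 / 5)) ≤ 1 := by
          rw [div_le_one (by positivity)]
          linarith
        have hB3 : B * (r / (2 * (r - 8 / 5))) ≤ B * 1 := mul_le_mul_of_nonneg_left hB2 hB0
        rw [mul_one] at hB3
        gcongr

/-- bound for `HH` on the circle -/
lemma HH_bound (D : Dat) (t K K' R : ℝ) (u : ℂ) (hK' : 0 ≤ K') (ht : 0 < t) (htK : K ≤ t)
    (hu : ‖u‖ ≤ R) (hbe : ‖be D t - ((D.κ * Om D t : ℝ) : ℂ)‖ ≤ K')
    (hst : ‖D.HH (I * t + u) - D.HH (I * t) * cexp (be D t * u)‖ ≤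
      K / t * ‖D.HH (I * t) * cexp (be D t * u)‖) :
    ‖D.HH (I * t + u)‖ ≤ 2 * Real.exp (R * K') * ‖D.HH (I * t)‖ *
      Real.exp (D.κ * Om D t * u.re) := by
  have hR : 0 ≤ R := (norm_nonneg _).trans hu
  have h1 : ‖D.HH (I * t + u)‖ ≤ 2 * ‖D.HH (I * t) * cexp (be D t * u)‖ := by
    have h2 := norm_le_norm_add_norm_sub' (D.HH (I * t + u)) (D.HH (I * t) * cexp (be D t * u))
    have h3 : K / t * ‖D.HH (I * t) * cexp (be D t * u)‖ ≤
        1 * ‖D.HH (I * t) * cexp (be D t * u)‖ := by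
      gcongr
      rw [div_le_one ht]
      exact htK
    linarith
  have h4 : (be D t * u).re ≤ D.κ * Om D t * u.re + R * K' := by
    have e1 : be D t * u = ((D.κ * Om D t : ℝ) : ℂ) * u + (be D t - ((D.κ * Om D t : ℝ) : ℂ)) * u := by
      ring
    have h5 : ((be D t - ((D.κ * Om D t : ℝ) : ℂ)) * u).re ≤ R * K' := by
      refine (Complex.re_le_norm _).trans ?_
      rw [norm_mul]
      calc ‖be D t - ((D.κ * Om D t : ℝ) : ℂ)‖ * ‖u‖ ≤ K' * R := by gcongr
        _ = _ := by ring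
    rw [e1, add_re, Complex.re_ofReal_mul]
    linarith
  calc ‖D.HH (I * t + u)‖ ≤ 2 * ‖D.HH (I * t) * cexp (be D t * u)‖ := h1
    _ = 2 * ‖D.HH (I * t)‖ * Real.exp (be D t * u).re := by
        rw [norm_mul, Complex.norm_exp]
        ring
    _ ≤ 2 * ‖D.HH (I * t)‖ * Real.exp (D.κ * Om D t * u.re + R * K') := by gcongr
    _ = _ := by
        rw [Real.exp_add]
        ring

lemma exp_Om (D : Dat) (h : IsL D) (t : ℝ) (ht : 0 < t) : Real.exp (Om D t / D.c) = t := by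
  unfold Om
  rw [mul_div_cancel_left₀ _ h.c_pos.ne', Real.exp_log ht]

end Pool.Agent.H471R3.GJ.UD
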