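import Pool.Agent.H471R3.GJ.Spec2
import Pool.Agent.H24R2.JP.XiFinal

set_option autoImplicit false

/-!
# Zeros of the derivatives of completed L-functions: final assembly
-/

namespace Pool.Agent.H471R3.GJ

open Complex Filter Topology Polynomial
open Pool.Agent.H24R2.JP (TT TI Good Par SPar SOpChain)
open Pool.Agent.H24R2.JP.XiFin (PosC posC_TI pos_ne diff_TT iter_add)

namespace XiFinalG

theorem al_pos {D : Dat} (h : IsL D) : 0 < al D := by
  have h1 := h.κ_pos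
  have h2 := h.A_nonneg
  have h3 := h.w_large
  have h4 := h.c_pos
  have h5 : 0 < D.w := by nlinarith
  unfold al
  positivity

/-- The numerical facts for large `k`. -/
theorem asym {α : ℝ} (hα : 0 < α) : ∃ M : ℕ, ∀ k : ℕ, M ≤ k →
    2 * ((k : ℝ) + 1) + 4 ≤ Real.exp (5 / 12 * (α * k)) ∧
    Real.exp (α * (2 * k + 1) / 5) ^ 2 + 1 / 4 ≤
      (Real.exp (5 / 12 * (α * k)) - 2 * ((k : ℝ) + 1)) ^ 2 / 2 := by
  have h1 : ∀ᶠ k : ℕ in atTop, 4 * ((k : ℝ) + 1) + 4 ≤ Real.exp (5 / 12 * (α * k)) := by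
    have ht : Tendsto (fun k : ℕ => 5 / 12 * α * (k : ℝ)) atTop atTop :=
      tendsto_natCast_atTop_atTop.const_mul_atTop (by positivity)
    have h := (Real.tendsto_exp_div_pow_atTop 1).comp ht
    have h2 := h.eventually_ge_atTop (12 / (5 / 12 * α))
    filter_upwards [h2, eventually_ge_atTop 1] with k hk hk1
    have hk1' : (1 : ℝ) ≤ k := by exact_mod_cast hk1
    simp only [Function.comp, pow_one] at hk
    rw [le_div_iff₀ (by positivity)] at hk
    have e : 12 / (5 / 12 * α) * (5 / 12 * α * (k : ℝ)) = 12 * k := by field_simp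
    rw [e] at hk
    rw [← mul_assoc]
    linarith
  have h3 : ∀ᶠ k : ℕ in atTop, (16 : ℝ) * Real.exp (2 * α / 5) ≤ Real.exp (α * k / 30) := by
    have ht : Tendsto (fun k : ℕ => α / 30 * (k : ℝ)) atTop atTop :=
      tendsto_natCast_atTop_atTop.const_mul_atTop (by positivity)
    have := (Real.tendsto_exp_atTop.comp ht).eventually_ge_atTop (16 * Real.exp (2 * α / 5))
    filter_upwards [this] with k hk
    simp only [Function.comp] at hk
    rw [show α * (k : ℝ) / 30 = α / 30 * k by ring]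
    exact hk
  obtain ⟨M, hM⟩ := eventually_atTop.1 (h1.and h3)
  refine ⟨M, fun m hm => ?_⟩
  obtain ⟨a1, a4⟩ := hM m hm
  have hm0 : (0 : ℝ) ≤ m := Nat.cast_nonneg m
  refine ⟨by linarith, ?_⟩
  obtain ⟨E, hE⟩ : ∃ E, E = Real.exp (5 / 12 * (α * m)) := ⟨_, rfl⟩
  rw [← hE] at a1 ⊢
  have hEpos : 0 < E := by rw [hE]; exact Real.exp_pos _
  have e1 : E / 2 ≤ E - 2 * ((m : ℝ) + 1) := by linarith
  have e2 : (E / 2) ^ 2 ≤ (E - 2 * ((m : ℝ) + 1)) ^ 2 :=
    pow_le_pow_left₀ (by positivity) e1 2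
  have e3 : Real.exp (α * (2 * (m : ℝ) + 1) / 5) ^ 2 * Real.exp (α * m / 30) =
      E ^ 2 * Real.exp (2 * α / 5) := by
    rw [hE, ← Real.exp_nat_mul, ← Real.exp_nat_mul, ← Real.exp_add, ← Real.exp_add]
    congr 1
    push_cast
    ring
  have e4 : 16 * Real.exp (α * (2 * (m : ℝ) + 1) / 5) ^ 2 ≤ E ^ 2 := by
    have hp : 0 < Real.exp (2 * α / 5) := Real.exp_pos _
    have : Real.exp (α * (2 * (m : ℝ) + 1) / 5) ^ 2 * (16 * Real.exp (2 * α / 5)) ≤
        E ^ 2 * Real.exp (2 * α / 5) := by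
      rw [← e3]
      exact mul_le_mul_of_nonneg_left a4 (by positivity)
    nlinarith
  have e5 : (4 : ℝ) ≤ E := by linarith
  nlinarith

theorem FF_iter_diff {D : Dat} (h7 : SB1 D) (k : ℕ) : Differentiable ℂ (iteratedDeriv k (FF D)) := by
  have h : ContDiff ℂ (k + 1 : ℕ) (FF D) := h7.1.contDiff
  exact h.differentiable_iteratedDeriv k (by exact_mod_cast Nat.lt_succ_self k)

theorem posC_FF {D : Dat} (h7 : SB1 D) {k0 : ℕ} (hp : ∀ k, k0 ≤ k → 0 < gam D k) {k : ℕ}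
    (hk : k0 ≤ k) : PosC (iteratedDeriv k (FF D)) := by
  intro j
  refine ⟨gam D (j + k), hp _ (by omega), ?_⟩
  rw [iter_add, h7.2.2.2]

theorem diff_TI (b : ℝ) (m : ℕ) {f : ℂ → ℂ} (hf : Differentiable ℂ f) :
    Differentiable ℂ (TI b m f) := by
  induction m generalizing f with
  | zero => exact hf
  | succ m ih => exact ih (diff_TT hf _)

/-- The common part of all parities. -/
theorem core {D : Dat} (h : IsL D) (h1 : SSimple D) (h3 : SOpChain) (h5 : SGood D) (h6 : SPar)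
    (h7 : SB1 D) : ∃ M : ℕ, (∀ k, M ≤ k → PosC (iteratedDeriv k (FF D))) ∧
      ∀ (m k : ℕ) (b : ℝ) (z : ℂ), M ≤ k → m ≤ k + 1 → 0 < b →
      |z.im| ≤ Real.exp (al D * (2 * k + 1) / 5) → TI b m (iteratedDeriv k (FF D)) (z ^ 2) = 0 →
      z.re = 0 ∧ z ≠ 0 ∧ deriv (TI b m (iteratedDeriv k (FF D))) (z ^ 2) ≠ 0 := by
  obtain ⟨N1, hN1⟩ := h1
  obtain ⟨k0, hk0⟩ := h5
  obtain ⟨M0, hM0⟩ := asym (al_pos h)
  refine ⟨N1 + k0 + M0, fun k hk => posC_FF h7 (fun k hk => (hk0 k hk).1) (by omega), ?_⟩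
  intro m k b z hkM hmk hb hz h0
  obtain ⟨r1, r2⟩ := hM0 k (by omega)
  have hmk' : (m : ℝ) ≤ k + 1 := by exact_mod_cast hmk
  have hgood : Good (iteratedDeriv k (FF D)) := (hk0 k (by omega)).2
  obtain ⟨g1, g2⟩ := h3 (iteratedDeriv k (FF D)) b (Real.exp (5 / 12 * (al D * k))) m hgood hb
    (by linarith) (by
    intro w hw hw0
    have hw' : ‖w‖ ≤ Real.exp (5 / 6 * (al D * k)) := by
      refine le_trans hw (le_of_eq ?_)
      rw [← Real.exp_nat_mul]
      congr 1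
      push_cast
      ring
    obtain ⟨w1, -, w3⟩ := hN1 k (by omega) w hw' hw0
    refine ⟨w1, ?_⟩
    rw [iteratedDeriv_succ] at w3
    exact w3)
  have hpar : z ^ 2 ∈ Par := h6 _ g1 0 (z ^ 2) (by rw [iteratedDeriv_zero]; exact h0)
  have hre : (z ^ 2).re = z.re ^ 2 - z.im ^ 2 := by rw [pow_two, Complex.mul_re]; ring
  have him : (z ^ 2).im = 2 * z.re * z.im := by rw [pow_two, Complex.mul_im]; ring
  have hp1 : (z ^ 2).re + (z ^ 2).im ^ 2 ≤ 1 / 4 := hpar
  rw [hre, him] at hp1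
  have hs : z.re ^ 2 ≤ 1 / 4 := by
    have h : (z.re ^ 2 - 1 / 4) * (4 * z.im ^ 2 + 1) ≤ 0 := by nlinarith
    by_contra hc
    push Not at hc
    have : 0 < (z.re ^ 2 - 1 / 4) * (4 * z.im ^ 2 + 1) := by
      apply mul_pos (by linarith) (by positivity)
    linarith
  have hnorm : ‖z ^ 2‖ ≤ (Real.exp (5 / 12 * (al D * k)) - 2 * m) ^ 2 / 2 := by
    rw [norm_pow]
    have e : ‖z‖ ^ 2 = z.re ^ 2 + z.im ^ 2 := by
      rw [← Complex.normSq_eq_norm_sq, Complex.normSq_apply]; ring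
    have e2 : z.im ^ 2 ≤ Real.exp (al D * (2 * k + 1) / 5) ^ 2 := by
      rw [← sq_abs z.im]
      exact pow_le_pow_left₀ (abs_nonneg _) hz 2
    have e3 : (Real.exp (5 / 12 * (al D * k)) - 2 * ((k : ℝ) + 1)) ^ 2 ≤
        (Real.exp (5 / 12 * (al D * k)) - 2 * m) ^ 2 :=
      pow_le_pow_left₀ (by linarith) (by linarith) 2
    rw [e]
    linarith
  obtain ⟨k1, k2⟩ := g2 (z ^ 2) hnorm h0
  have hneg : (z ^ 2).re < 0 := by
    by_contra hc
    push Not at hc
    have hx : z ^ 2 = (((z ^ 2).re : ℝ) : ℂ) := by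
      apply Complex.ext
      · simp
      · simpa using k1
    have := pos_ne g1.1 (posC_TI b hb m (FF_iter_diff h7 k)
      (posC_FF h7 (fun k hk => (hk0 k hk).1) (by omega))) (z ^ 2).re hc
    rw [← hx] at this
    exact this h0
  rw [hre] at hneg
  rw [him] at k1
  have hz0 : z ≠ 0 := by
    rintro rfl
    simp at hneg
  refine ⟨?_, hz0, k2⟩
  have hk3 : z.re * z.im = 0 := by linarith
  rcases mul_eq_zero.1 hk3 with h | h
  · exact h
  · rw [h] at hneg
    nlinarith [sq_nonneg z.re]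

/-- `C T(z ^ 2)`: zeros and derivative. -/
theorem fin_even {T g : ℂ → ℂ} (hT : Differentiable ℂ T) {C : ℂ} (hC : C ≠ 0)
    (hg : ∀ z, g z = C * T (z ^ 2)) {z : ℂ} (h0 : g z = 0)
    (hc : T (z ^ 2) = 0 → z.re = 0 ∧ z ≠ 0 ∧ deriv T (z ^ 2) ≠ 0) : z.re = 0 ∧ deriv g z ≠ 0 := by
  have h1 : T (z ^ 2) = 0 := by
    rw [hg] at h0
    exact (mul_eq_zero.1 h0).resolve_left hC
  obtain ⟨c1, c2, c3⟩ := hc h1
  refine ⟨c1, ?_⟩
  have hd : HasDerivAt T (deriv T (z ^ 2)) (z ^ 2) := (hT _).hasDerivAt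
  have hd2 : HasDerivAt (fun z : ℂ => z ^ 2) (2 * z) z := by
    simpa using hasDerivAt_pow 2 z
  have hd3 : HasDerivAt (fun z : ℂ => C * T (z ^ 2)) (C * (deriv T (z ^ 2) * (2 * z))) z :=
    (HasDerivAt.comp z hd hd2).const_mul _
  have hg' : g = fun z : ℂ => C * T (z ^ 2) := funext hg
  rw [hg', hd3.deriv]
  exact mul_ne_zero hC (mul_ne_zero c3 (mul_ne_zero two_ne_zero c2))

/-- `C z T(z ^ 2)`: zeros and derivative. -/
theorem fin_odd {T g : ℂ → ℂ} (hT : Differentiable ℂ T) {C : ℂ} (hC : C ≠ 0)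
    (hg : ∀ z, g z = C * z * T (z ^ 2)) (hT0 : T 0 ≠ 0) {z : ℂ} (h0 : g z = 0)
    (hc : T (z ^ 2) = 0 → z.re = 0 ∧ z ≠ 0 ∧ deriv T (z ^ 2) ≠ 0) : z.re = 0 ∧ deriv g z ≠ 0 := by
  have hd : HasDerivAt T (deriv T (z ^ 2)) (z ^ 2) := (hT _).hasDerivAt
  have hd2 : HasDerivAt (fun z : ℂ => z ^ 2) (2 * z) z := by
    simpa using hasDerivAt_pow 2 z
  have hd3 : HasDerivAt (fun z : ℂ => C * z * T (z ^ 2))
      (C * T (z ^ 2) + C * z * (deriv T (z ^ 2) * (2 * z))) z := by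
    have e := (((hasDerivAt_id z).const_mul C).mul (HasDerivAt.comp z hd hd2))
    simp only [id, mul_one] at e
    exact e
  have hg' : g = fun z : ℂ => C * z * T (z ^ 2) := funext hg
  by_cases hz0 : z = 0
  · refine ⟨by rw [hz0]; rfl, ?_⟩
    rw [hg', hd3.deriv, hz0]
    have e : (0 : ℂ) ^ 2 = 0 := by norm_num
    rw [e]
    simp only [mul_zero, add_zero]
    exact mul_ne_zero hC hT0
  · have h1 : T (z ^ 2) = 0 := by
      rw [hg] at h0
      exact (mul_eq_zero.1 h0).resolve_left (mul_ne_zero hC hz0)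
    obtain ⟨c1, c2, c3⟩ := hc h1
    refine ⟨c1, ?_⟩
    rw [hg', hd3.deriv, h1, mul_zero, zero_add]
    exact mul_ne_zero (mul_ne_zero hC hz0) (mul_ne_zero c3 (mul_ne_zero two_ne_zero hz0))

end XiFinalG

open XiFinalG

theorem xiF (D : Dat) (h : IsL D) (h1 : SSimple D) (h2 : SXder D)
    (h3 : Pool.Agent.H24R2.JP.SOpChain) (h4 : SGood D) (h5 : SPar) (h6 : SB1 D) : SXi D := by
  obtain ⟨M, hP, hM⟩ := core h h1 h3 h4 h5 h6
  have hal := al_pos h
  refine ⟨2 * M + 1, fun n hn z hs him => ?_⟩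
  have h4m : ∀ m : ℕ, (4 ^ m : ℂ) ≠ 0 := fun m => pow_ne_zero _ (by norm_num)
  rcases Nat.even_or_odd' n with ⟨m, hm | hm⟩
  · subst hm
    rw [iteratedDeriv_succ]
    refine fin_even (diff_TI (1 / 2) m (FF_iter_diff h6 m)) (h4m m) (fun z => (h2 m z).1) hs ?_
    intro h0
    refine hM m m (1 / 2) z (by omega) (by omega) (by norm_num) (him.trans ?_) h0
    refine Real.exp_le_exp.2 ?_
    push_cast
    have : (0 : ℝ) ≤ m := Nat.cast_nonneg m
    nlinarith
  · subst hm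
    rw [iteratedDeriv_succ]
    refine fin_odd (diff_TI (3 / 2) m (FF_iter_diff h6 (m + 1)))
      (mul_ne_zero two_ne_zero (h4m m)) (fun z => (h2 m z).2) ?_ hs ?_
    · have := pos_ne (diff_TI (3 / 2) m (FF_iter_diff h6 (m + 1)))
        (posC_TI (3 / 2) (by norm_num) m (FF_iter_diff h6 (m + 1)) (hP (m + 1) (by omega))) 0 le_rfl
      simpa using this
    · intro h0
      refine hM m (m + 1) (3 / 2) z (by omega) (by omega) (by norm_num) (him.trans ?_) h0
      refine Real.exp_le_exp.2 ?_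
      push_cast
      nlinarith

theorem xiFodd (D : Dat) (h : IsL D) (h1 : SSimple D) (h2 : SXderOdd D)
    (h3 : Pool.Agent.H24R2.JP.SOpChain) (h4 : SGood D) (h5 : SPar) (h6 : SB1 D) : SXiOdd D := by
  obtain ⟨M, hP, hM⟩ := core h h1 h3 h4 h5 h6
  have hal := al_pos h
  refine ⟨2 * M + 1, fun n hn z hs him => ?_⟩
  have h4m : ∀ m : ℕ, (4 ^ m : ℂ) ≠ 0 := fun m => pow_ne_zero _ (by norm_num)
  rcases Nat.even_or_odd' n with ⟨m, hm | hm⟩
  · subst hm
    rw [iteratedDeriv_succ]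
    refine fin_odd (diff_TI (3 / 2) m (FF_iter_diff h6 m)) (h4m m) (fun z => (h2 m z).1) ?_ hs ?_
    · have := pos_ne (diff_TI (3 / 2) m (FF_iter_diff h6 m))
        (posC_TI (3 / 2) (by norm_num) m (FF_iter_diff h6 m) (hP m (by omega))) 0 le_rfl
      simpa using this
    · intro h0
      refine hM m m (3 / 2) z (by omega) (by omega) (by norm_num) (him.trans ?_) h0
      refine Real.exp_le_exp.2 ?_
      push_cast
      have : (0 : ℝ) ≤ m := Nat.cast_nonneg m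
      nlinarith
  · subst hm
    rw [iteratedDeriv_succ]
    refine fin_even (diff_TI (1 / 2) (m + 1) (FF_iter_diff h6 m))
      (mul_ne_zero two_ne_zero (h4m m)) (fun z => (h2 m z).2) hs ?_
    intro h0
    refine hM (m + 1) m (1 / 2) z (by omega) (by omega) (by norm_num) (him.trans ?_) h0
    refine Real.exp_le_exp.2 ?_
    push_cast
    linarith

end Pool.Agent.H471R3.GJ
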